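import Pool.Agent.Work.MP_02927d_an.Loc

/-!
MP_02927d_an, splitting (4f).
-/

set_option autoImplicit false
set_option linter.unusedSectionVars false

namespace Pool.Agent.CK

open Filter Topology

variable {A : Type*} [NormedCommRing A] [NormedAlgebra ℂ A] [NormOneClass A] {S : Sys A}

/-- `y` is the part of `x` seen by the weights in `W`, on the functional `z` of weight `i`. -/
def Al (W : ℕ → Prop) (x y : X S) (i : ℕ) (z : ℕ →₀ A) : Prop :=
  (W i → pair S z y = pair S z x) ∧ (¬ W i → pair S z y = 0)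

theorem Al.zero (W : ℕ → Prop) (x y : X S) (i : ℕ) : Al W x y i 0 := by
  constructor <;> intro _ <;> simp

theorem Al.add {W : ℕ → Prop} {x y : X S} {i : ℕ} {z w : ℕ →₀ A} (hz : Al W x y i z)
    (hw : Al W x y i w) : Al W x y i (z + w) := by
  constructor
  · intro h
    rw [map_add, _root_.add_apply, _root_.add_apply, hz.1 h, hw.1 h]
  · intro h
    rw [map_add, _root_.add_apply, hz.2 h, hw.2 h, add_zero]

/-- `y` is the part of `x` seen by the weights in `W`, up to the coordinate `q`. -/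
def IsPart (W : ℕ → Prop) (x y : X S) (q : ℕ) : Prop :=
  ∀ g c, 1 ≤ g → g ≤ q → S.F.P (S.p g) c = c →
    Al W x y (S.j g) (act S.F S.p c (T (S.p g) (S.e g)))

/-- (4f), the decomposition of a norming vector. -/
theorem split_id {W : ℕ → Prop} {x y : X S} {q : ℕ} (hy : IsPart W x y q) (n : ℕ) (hn : 1 ≤ n)
    (hnq : n ≤ q) (s : ℕ) (c : A) (hc : S.F.P s c = c) (hb : ‖c‖ ≤ 1) (hs : s < n) :
    ∃ t, s ≤ t ∧ t ≤ n ∧ ∃ z₁ ∈ S.Gw (S.j n), ∃ k s₁ c₁ s₂ c₂, 1 ≤ k ∧ k ≤ n ∧
      S.F.P s₁ c₁ = c₁ ∧ ‖c₁‖ ≤ 1 ∧ S.F.P s₂ c₂ = c₂ ∧ ‖c₂‖ ≤ 1 ∧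
      act S.F S.p c (T s (S.e n)) = z₁ + act S.F S.p c (T t (S.e n)) +
        (mm (S.j n) : ℂ)⁻¹ • (act S.F S.p c₁ (T s₁ (S.b k)) - act S.F S.p c₂ (T s₂ (S.b k))) ∧
      Al W x y (S.j n) z₁ ∧ Al W x y (S.j n) (act S.F S.p c (T t (S.e n))) := by
  induction n using Nat.strong_induction_on with
  | _ n ih =>
    by_cases h1 : S.p n ≤ s
    · -- the cut is inside the last node
      have hP : S.F.P (S.p n) (S.F.P (S.p n) c) = S.F.P (S.p n) c := S.F.P_P _ _
      have hPn : ‖S.F.P (S.p n) c‖ ≤ 1 := (S.F.norm_le _ _).trans hb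
      refine ⟨n, hs.le, le_rfl, act S.F S.p (S.F.P (S.p n) c) (T (S.p n) (S.e n)),
        ⟨n, S.p n, _, hn, rfl, hP, hPn, rfl⟩, n, s, c, S.p n, S.F.P (S.p n) c, hn, le_rfl, hc, hb,
        hP, hPn, ?_, hy n _ hn hnq hP, ?_⟩
      · have e1 : T s (S.e n) = Finsupp.single n 1 + ((mm (S.j n) : ℂ)⁻¹) • T s (S.b n) := by
          have : T s (S.e n) = T s (T (S.p n) (S.e n)) := by
            rw [T_T, max_eq_left h1]
          rw [this, S.T_p_e hn, T_add, T_single, if_pos hs, T_smul, T_T, max_eq_left h1]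
        have e2 : T n (S.e n) = 0 := by
          ext g
          rw [T_apply]
          split_ifs with hg
          · exact S.e_gt hg
          · rfl
        rw [e1, e2, act_zero, add_zero, S.T_p_e hn, act_add, act_add, act_single, act_single, hP,
          act_smul, act_smul, smul_sub]
        abel
      · have e2 : T n (S.e n) = 0 := by
          ext g
          rw [T_apply]
          split_ifs with hg
          · exact S.e_gt hg
          · rfl
        rw [e2, act_zero]
        exact Al.zero _ _ _ _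
    · push Not at h1
      have hcp : S.F.P (S.p n) c = c := S.F.P_of_le h1.le hc
      have hlt := S.p_lt n hn
      by_cases hr : S.root n
      · refine ⟨S.p n, h1.le, hlt.le, 0, ⟨n, 0, 0, hn, rfl, map_zero _, by simp, by rw [zero_act]⟩,
          n, 0, 0, 0, 0, hn, le_rfl, map_zero _, by simp, map_zero _, by simp, ?_,
          Al.zero _ _ _ _, hy n c hn hnq hcp⟩
        conv_lhs => rw [S.e_eq_root hn hr]
        rw [T_T, max_eq_right h1.le]
        simp
      · have hp := S.p_pos n hn hr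
        obtain ⟨t, ht1, ht2, z₁, hz₁, k, s₁, c₁, s₂, c₂, hk, hkn, hc₁, hb₁, hc₂, hb₂, hid, ha1,
          ha2⟩ := ih (S.p n) hlt hp (hlt.le.trans hnq) h1
        rw [← S.j_succ n hn hr] at hz₁ hid ha1 ha2
        have e1 : act S.F S.p c (T s (S.e n)) = act S.F S.p c (T s (S.e (S.p n))) +
            act S.F S.p c (T (S.p n) (S.e n)) := by
          conv_lhs => rw [S.e_eq hn hr]
          rw [T_add, act_add, T_T, max_eq_right h1.le]
        have e2 : act S.F S.p c (T t (S.e n)) = act S.F S.p c (T t (S.e (S.p n))) +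
            act S.F S.p c (T (S.p n) (S.e n)) := by
          conv_lhs => rw [S.e_eq hn hr]
          rw [T_add, act_add, T_T, max_eq_right ht2]
        refine ⟨t, ht1, ht2.trans hlt.le, z₁, hz₁, k, s₁, c₁, s₂, c₂, hk, hkn.trans hlt.le, hc₁,
          hb₁, hc₂, hb₂, ?_, ha1, ?_⟩
        · rw [e1, e2, hid]
          abel
        · rw [e2]
          exact ha2.add (hy n c hn hnq hcp)

/-- a bound on the functionals with node below `k` bounds the tree part of the node `k` -/
theorem b_le {v : X S} {k : ℕ} (hk : 1 ≤ k) {R : ℝ} (hR : 0 ≤ R)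
    (h : ∀ n s c, 1 ≤ n → n < k → S.F.P s c = c → ‖c‖ ≤ 1 →
      ‖pair S (act S.F S.p c (T s (S.e n))) v‖ ≤ R) {s : ℕ} {c : A}
    (hc : S.F.P s c = c) (hb : ‖c‖ ≤ 1) :
    ‖pair S (act S.F S.p c (T s (S.b k))) v‖ ≤ R := by
  rcases S.b_mem k hk with h1 | h1
  · have hconv : Convex ℝ {z : ℕ →₀ A | ‖pair S (act S.F S.p c (T s z)) v‖ ≤ R} := by
      intro z hz w hw a b ha hb hab
      simp only [Set.mem_ofPred_eq] at *
      rw [T_add, act_add, T_rsmul, T_rsmul, act_rsmul, act_rsmul, map_add, _root_.add_apply,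
        pair_rsmul, pair_rsmul]
      calc ‖(a : ℂ) * pair S (act S.F S.p c (T s z)) v +
            (b : ℂ) * pair S (act S.F S.p c (T s w)) v‖
          ≤ ‖(a : ℂ) * pair S (act S.F S.p c (T s z)) v‖ +
            ‖(b : ℂ) * pair S (act S.F S.p c (T s w)) v‖ := norm_add_le _ _
        _ = a * ‖pair S (act S.F S.p c (T s z)) v‖ +
            b * ‖pair S (act S.F S.p c (T s w)) v‖ := by
          rw [norm_mul, norm_mul, Complex.norm_real, Complex.norm_real, Real.norm_of_nonneg ha,
            Real.norm_of_nonneg hb]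
        _ ≤ a * R + b * R := by gcongr
        _ = R := by rw [← add_mul, hab, one_mul]
    refine convexHull_min ?_ hconv h1
    rintro z ⟨n, s', c', hn1, hn2, hc', hb', rfl⟩
    show ‖pair S (act S.F S.p c (T s (act S.F S.p c' (T s' (S.e n))))) v‖ ≤ R
    rw [T_act, act_act, T_T]
    refine h n (max s s') (c * c') hn1 hn2 ?_ ?_
    · exact S.F.P_mul (S.F.P_of_le (le_max_left _ _) hc) (S.F.P_of_le (le_max_right _ _) hc')
    · calc ‖c * c'‖ ≤ ‖c‖ * ‖c'‖ := norm_mul_le _ _
        _ ≤ 1 * 1 := by gcongr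
        _ = 1 := one_mul 1
  · rw [h1, T_zero, act_zero, map_zero]
    simpa using hR

/-- the values of the part at the functionals with node at most `q` -/
theorem part_le {W : ℕ → Prop} {x y : X S} {q : ℕ} (hy : IsPart W x y q) (n : ℕ) (hn : 1 ≤ n)
    (hnq : n ≤ q) (s : ℕ) (c : A) (hc : S.F.P s c = c) (hb : ‖c‖ ≤ 1) :
    ‖pair S (act S.F S.p c (T s (S.e n))) y‖ ≤ 4 * ‖x‖ := by
  induction n using Nat.strong_induction_on generalizing s c with
  | _ n ih =>
    have hx0 := norm_nonneg x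
    by_cases hs : s < n
    · obtain ⟨t, ht1, ht2, z₁, hz₁, k, s₁, c₁, s₂, c₂, hk, hkn, hc₁, hb₁, hc₂, hb₂, hid, ha1,
        ha2⟩ := split_id hy n hn hnq s c hc hb hs
      have hz2 : act S.F S.p c (T t (S.e n)) ∈ S.G :=
        ⟨n, t, c, hn, S.F.P_of_le ht1 hc, hb, rfl⟩
      have hal : ∀ z ∈ S.G, Al W x y (S.j n) z → ‖pair S z y‖ ≤ ‖x‖ := by
        intro z hz h
        by_cases hW : W (S.j n)
        · rw [h.1 hW]; exact pair_le S (S.G_subset_B hz) x
        · rw [h.2 hW, norm_zero]; exact hx0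
      have h1 := hal _ (S.Gw_subset_G _ hz₁) ha1
      have h2 := hal _ hz2 ha2
      have hbk : ∀ s' c', S.F.P s' c' = c' → ‖c'‖ ≤ 1 →
          ‖pair S (act S.F S.p c' (T s' (S.b k))) y‖ ≤ 4 * ‖x‖ := by
        intro s' c' hc' hb'
        exact b_le hk (by positivity) (fun m s'' c'' g1 g2 g3 g4 =>
          ih m (by omega) g1 (by omega) s'' c'' g3 g4) hc' hb'
      have h3 := hbk s₁ c₁ hc₁ hb₁
      have h4 := hbk s₂ c₂ hc₂ hb₂
      rw [hid, map_add, map_add, map_smul, map_sub, _root_.add_apply, _root_.add_apply,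
        _root_.smul_apply, _root_.sub_apply]
      refine (norm_add_le _ _).trans ?_
      refine (add_le_add ((norm_add_le _ _).trans (add_le_add h1 h2)) ?_).trans
        (show ‖x‖ + ‖x‖ + 2 * ‖x‖ ≤ 4 * ‖x‖ by linarith)
      rw [norm_smul, norm_mm_inv]
      have h5 := mm_inv_le (S.j n)
      have h6 : ‖pair S (act S.F S.p c₁ (T s₁ (S.b k))) y -
          pair S (act S.F S.p c₂ (T s₂ (S.b k))) y‖ ≤ 8 * ‖x‖ :=
        (norm_sub_le _ _).trans (by linarith)
      calc ((mm (S.j n) : ℝ))⁻¹ * _ ≤ 4⁻¹ * (8 * ‖x‖) := by gcongr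
        _ = 2 * ‖x‖ := by ring
    · have : T s (S.e n) = 0 := by
        ext g
        rw [T_apply]
        split_ifs with hg
        · exact S.e_gt (by omega)
        · rfl
      rw [this, act_zero, map_zero]
      simp

/-- (4f): the norm of the part -/
theorem norm_part_le {W : ℕ → Prop} {x y : X S} {a q : ℕ} (hy : IsPart W x y q)
    (hsup : Sup S y a (q + 1)) : ‖y‖ ≤ 6 * ‖x‖ := by
  have h := norm_le_loc hsup (L := 4 * ‖x‖) (by positivity)
    (fun n s c h1 h2 h3 h4 => part_le hy n h1 h2 s c h3 h4)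
  have := norm_nonneg x
  linarith

/-- (4f): the part is small at the weights outside `W` -/
theorem part_weight {W : ℕ → Prop} {x y : X S} {a q : ℕ} (hy : IsPart W x y q)
    (hsup : Sup S y a (q + 1)) {i : ℕ} (hi : ¬ W i) {z : ℕ →₀ A} (hz : z ∈ S.Gw i) :
    ‖pair S z y‖ ≤ 3 / mm i * ‖y‖ := by
  have hm : (0:ℝ) < mm i := mm_pos i
  have h := loc_weight hsup (L := 2 / mm i * ‖y‖) (by positivity) (i := i) ?_ hz
  · refine h.trans (le_of_eq ?_)
    field_simp
    norm_num
  · intro n s c hn hnq hj hc hb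
    by_cases hs : s < n
    · obtain ⟨t, ht1, ht2, z₁, hz₁, k, s₁, c₁, s₂, c₂, hk, hkn, hc₁, hb₁, hc₂, hb₂, hid, ha1,
        ha2⟩ := split_id hy n hn hnq s c hc hb hs
      rw [hj] at hid ha1 ha2
      rw [hid, map_add, map_add, map_smul, map_sub, _root_.add_apply, _root_.add_apply,
        _root_.smul_apply, _root_.sub_apply, ha1.2 hi, ha2.2 hi, add_zero, zero_add,
        norm_smul, norm_mm_inv]
      have h3 := pair_le S (S.act_T_mem_B hc₁ hb₁ (S.b_mem_B hk)) y
      have h4 := pair_le S (S.act_T_mem_B hc₂ hb₂ (S.b_mem_B hk)) y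
      have h6 : ‖pair S (act S.F S.p c₁ (T s₁ (S.b k))) y -
          pair S (act S.F S.p c₂ (T s₂ (S.b k))) y‖ ≤ 2 * ‖y‖ :=
        (norm_sub_le _ _).trans (by linarith)
      calc ((mm i : ℝ))⁻¹ * _ ≤ ((mm i : ℝ))⁻¹ * (2 * ‖y‖) := by gcongr
        _ = 2 / mm i * ‖y‖ := by ring
    · have : T s (S.e n) = 0 := by
        ext g
        rw [T_apply]
        split_ifs with hg
        · exact S.e_gt (by omega)
        · rfl
      rw [this, act_zero, map_zero]
      simp only [_root_.zero_apply, norm_zero]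
      positivity

/-- the complementary part -/
theorem IsPart.compl {W : ℕ → Prop} {x y : X S} {q : ℕ} (hy : IsPart W x y q) :
    IsPart (fun i => ¬ W i) x (x - y) q := by
  intro g c hg hgq hc
  obtain ⟨h1, h2⟩ := hy g c hg hgq hc
  constructor
  · intro h
    rw [map_sub, h2 h, sub_zero]
  · intro h
    rw [map_sub, h1 (not_not.1 h), sub_self]

/-! ### existence of the part -/

/-- the functional `a ↦ (a * z)(v)` -/
noncomputable def actDu (z : ℕ →₀ A) (v : X S) : Du A :=
  ∑ g ∈ z.support, ((co S g v).comp ((ContinuousLinearMap.mul ℂ A).flip (z g))).comp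
    (PL S.F (S.p g))

theorem actDu_apply (z : ℕ →₀ A) (v : X S) (a : A) :
    actDu z v a = pair S (act S.F S.p a z) v := by
  rw [pair_apply]
  unfold actDu act
  rw [Finsupp.onFinset_sum _ (fun g => by simp)]
  simp [mul_comm]

theorem IsPart.step {W : ℕ → Prop} {x y : X S} {a q : ℕ} (haq : a ≤ q)
    (hsup : Sup S y a (q + 1)) (hy : IsPart W x y q) :
    ∃ y' : X S, Sup S y' a (q + 2) ∧ IsPart W x y' (q + 1) := by
  obtain ⟨v, hv1, hv2⟩ : ∃ v : X S, (W (S.j (q + 1)) → v = x) ∧ (¬ W (S.j (q + 1)) → v = 0) := by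
    by_cases h : W (S.j (q + 1))
    · exact ⟨x, fun _ => rfl, fun h' => absurd h h'⟩
    · exact ⟨0, fun h' => absurd h' h, fun _ => rfl⟩
  have hN : 1 ≤ q + 1 := by omega
  set f : ℕ →₀ A := T (S.p (q + 1)) (S.e (q + 1)) with hf
  have hfN : f (q + 1) = 1 := by
    rw [hf, T_apply, if_pos (S.p_lt _ hN), S.e_self hN]
  refine ⟨y + sing S (q + 1) (actDu f (v - y)), ?_, ?_⟩
  · exact (hsup.mono S le_rfl (by omega)).add S (Sup_sing S _ _ _ _ (by omega) (by omega))
  · intro g c hg hgq hc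
    have hadd : ∀ z : ℕ →₀ A, pair S z (y + sing S (q + 1) (actDu f (v - y))) =
        pair S z y + actDu f (v - y) (S.F.P (S.p (q + 1)) (z (q + 1))) := by
      intro z
      rw [map_add, pair_sing S hN]
    rcases Nat.lt_or_ge q g with h | h
    · obtain rfl : g = q + 1 := by omega
      have hkey : pair S (act S.F S.p c (T (S.p (q + 1)) (S.e (q + 1))))
          (y + sing S (q + 1) (actDu f (v - y))) =
          pair S (act S.F S.p c (T (S.p (q + 1)) (S.e (q + 1)))) v := by
        rw [hadd, ← hf, act_apply, hfN, mul_one, S.F.P_P, hc, actDu_apply, map_sub]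
        ring
      constructor
      · intro hW
        rw [hkey, hv1 hW]
      · intro hW
        rw [hkey, hv2 hW, map_zero]
    · have h0 : (act S.F S.p c (T (S.p g) (S.e g))) (q + 1) = 0 := by
        rw [act_apply, T_apply, S.e_gt (show g < q + 1 by omega)]
        simp
      obtain ⟨h1, h2⟩ := hy g c hg h hc
      constructor
      · intro hW
        rw [hadd, h0, map_zero, map_zero, add_zero, h1 hW]
      · intro hW
        rw [hadd, h0, map_zero, map_zero, add_zero, h2 hW]

theorem exists_part (W : ℕ → Prop) {x : X S} {a b : ℕ} (hx : Sup S x a b) (q : ℕ) :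
    ∃ y : X S, Sup S y a (q + 1) ∧ IsPart W x y q := by
  induction q with
  | zero => exact ⟨0, Sup.zero S _ _, fun g c hg hg0 _ => by omega⟩
  | succ q ih =>
    rcases Nat.lt_or_ge q a with h | h
    · refine ⟨0, Sup.zero S _ _, ?_⟩
      intro g c hg hgq hc
      have h0 : pair S (act S.F S.p c (T (S.p g) (S.e g))) x = 0 := by
        refine pair_eq_zero S hx (fun g' hg' _ => ?_)
        rw [act_apply, T_apply, S.e_gt (show g < g' by omega)]
        simp
      constructor
      · intro _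
        rw [h0, map_zero]
      · intro _
        rw [map_zero]
    · obtain ⟨y, h1, h2⟩ := ih
      exact IsPart.step h h1 h2

/-- (4f), SPLITTING. For a vector `x` supported in `(a, q]` and a set `W` of weight indices there is
`y`, supported in `(a, q]`, with `‖y‖ ≤ 6 ‖x‖`, small at the weights outside `W`, such that `x - y`
is small at the weights in `W`. -/
theorem splitting (W : ℕ → Prop) {x : X S} {a q : ℕ} (hx : Sup S x a (q + 1)) :
    ∃ y : X S, Sup S y a (q + 1) ∧ ‖y‖ ≤ 6 * ‖x‖ ∧ ‖x - y‖ ≤ 7 * ‖x‖ ∧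
      (∀ i, ¬ W i → ∀ z ∈ S.Gw i, ‖pair S z y‖ ≤ 3 / mm i * ‖y‖) ∧
      (∀ i, W i → ∀ z ∈ S.Gw i, ‖pair S z (x - y)‖ ≤ 3 / mm i * ‖x - y‖) := by
  obtain ⟨y, h1, h2⟩ := exists_part W hx q
  have h3 := norm_part_le h2 h1
  refine ⟨y, h1, h3, ?_, fun i hi z hz => part_weight h2 h1 hi hz, fun i hi z hz =>
    part_weight h2.compl (hx.sub S h1) (not_not.2 hi) hz⟩
  exact (norm_sub_le _ _).trans (by linarith)

end Pool.Agent.CK
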