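import Pool.Agent.Work.MP_02927d_an.PsiB
import Pool.Agent.Work.MP_02927d_an.Split

set_option autoImplicit false
set_option linter.unusedSectionVars false

/-!
MP_02927d_an, (7c): an operator which sends all rapidly increasing sequences to null sequences is
compact.
-/

namespace Pool.Agent.CK

open Filter Topology

/-- sequences with growing marks -/
theorem marks_seq {α : Type*} (lo hi J : α → ℕ) (P : α → Prop)
    (h : ∀ n, ∃ a, P a ∧ n ≤ lo a ∧ n ≤ J a) : ∃ s : ℕ → α, (∀ k, P (s k)) ∧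
      ∀ k, hi (s k) ≤ lo (s (k + 1)) ∧ hi (s k) ≤ J (s (k + 1)) ∧ J (s k) ≤ J (s (k + 1)) := by
  choose f h1 h2 h3 using h
  refine ⟨fun k => Nat.rec (f 0) (fun _ a => f (max (hi a) (J a))) k, fun k => ?_, fun k => ?_⟩
  · cases k with
    | zero => exact h1 0
    | succ k => exact h1 _
  · exact ⟨(le_max_left _ _).trans (h2 _), (le_max_left _ _).trans (h3 _),
      (le_max_right _ _).trans (h3 _)⟩

variable {A : Type*} [NormedCommRing A] [NormedAlgebra ℂ A] [NormOneClass A]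
variable (S : Sys A)

/-- all rapidly increasing sequences are sent to null sequences -/
def NullRIS (T : X S →L[ℂ] X S) : Prop := ∀ (C : ℝ) (x : ℕ → X S) (lo hi J : ℕ → ℕ),
  RISx S C x lo hi J → Tendsto (fun k => T (x k)) atTop (𝓝 0)

variable {S}

/-- blocks beyond any point which are small for all functionals of weight at most `N` and are not
small for `T`: contradiction -/
theorem no_blocks {T : X S →L[ℂ] X S} (hT : NullRIS S T) (C : ℝ) (δ : ℝ) (hδ : 0 < δ)
    (h : ∀ n, ∃ (y : X S) (b : ℕ), Sup S y n b ∧ ‖y‖ ≤ C ∧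
      (∀ i ≤ n, ∀ z ∈ S.Gw i, ‖pair S z y‖ ≤ C / mm i) ∧ δ ≤ ‖T y‖) : False := by
  let P : X S × ℕ × ℕ → Prop := fun a => Sup S a.1 a.2.1 a.2.2 ∧ a.2.1 < a.2.2 ∧ ‖a.1‖ ≤ C ∧
    (∀ i ≤ a.2.1, ∀ z ∈ S.Gw i, ‖pair S z a.1‖ ≤ C / mm i) ∧ δ ≤ ‖T a.1‖
  obtain ⟨s, hs1, hs2⟩ := marks_seq (α := X S × ℕ × ℕ) (fun a => a.2.1) (fun a => a.2.2)
    (fun a => a.2.1) P (fun n => by
      obtain ⟨y, b, h1, h2, h3, h4⟩ := h n
      exact ⟨(y, n, max b (n + 1)), ⟨h1.mono S le_rfl (le_max_left _ _),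
        lt_of_lt_of_le (Nat.lt_succ_self n) (le_max_right _ _), h2, h3, h4⟩, le_rfl, le_rfl⟩)
  have hR : RISx S C (fun k => (s k).1) (fun k => (s k).2.1) (fun k => (s k).2.2)
      (fun k => (s k).2.1) :=
    { sup := fun k => (hs1 k).1
      lt := fun k => (hs1 k).2.1
      hl := fun k => (hs2 k).1
      mono := monotone_nat_of_le_succ fun k => (hs2 k).2.2
      hJ := fun k => (hs2 k).1
      nrm := fun k => (hs1 k).2.2.1
      small := fun k i z hz hi => (hs1 k).2.2.2.1 i hi.le z hz }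
  have h5 := (hT C _ _ _ _ hR).norm
  rw [norm_zero] at h5
  exact absurd (le_of_tendsto_of_tendsto' tendsto_const_nhds h5 fun k => (hs1 k).2.2.2.2)
    (not_le.2 hδ)

theorem one_le_mm (i : ℕ) : (1 : ℝ) ≤ mm i := by
  have : 1 ≤ mm i := Nat.one_le_two_pow
  exact_mod_cast this

theorem mm_mono' {i N : ℕ} (h : i ≤ N) : (mm i : ℝ) ≤ mm N := by
  have : mm i ≤ mm N :=
    Nat.pow_le_pow_right (by norm_num) (Nat.pow_le_pow_right (by norm_num) (by omega))
  exact_mod_cast this

/-- blocks which are not small for `T`: contradiction -/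
theorem no_blocks' {T : X S →L[ℂ] X S} (hT : NullRIS S T) (δ : ℝ) (hδ : 0 < δ)
    (h : ∀ n, ∃ (y : X S) (b : ℕ), Sup S y n b ∧ ‖y‖ ≤ 1 ∧ δ ≤ ‖T y‖) : False := by
  -- the claim for a bound `N` of the weights
  have key : ∀ N n : ℕ, ∃ (u : X S) (b : ℕ), Sup S u n b ∧ ‖u‖ ≤ 21 ∧
      (∀ i ≤ N, ∀ z ∈ S.Gw i, ‖pair S z u‖ ≤ 21 / mm i) ∧ δ / 2 ≤ ‖T u‖ := by
    intro N n0
    by_contra hcon
    push Not at hcon
    refine no_blocks hT (18 * mm N) (δ / 2) (by positivity) fun n => ?_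
    obtain ⟨x, b, hx1, hx2, hx3⟩ := h (max n n0)
    obtain ⟨y, hy1, hy2, hy3, hy4, hy5⟩ := splitting (S := S) (fun i => i ≤ N) (x := x)
      (a := max n n0) (q := b) (hx1.mono S le_rfl (Nat.le_succ b))
    have hm := one_le_mm N
    have hy6 : ‖y‖ ≤ 6 := by linarith
    refine ⟨y, b + 1, hy1.mono S (le_max_left _ _) le_rfl, by nlinarith, ?_, ?_⟩
    · intro i _ z hz
      have hi : (0 : ℝ) < mm i := by linarith [one_le_mm i]
      by_cases hiN : i ≤ N
      · have h1 := pair_le S (S.G_subset_B (S.Gw_subset_G i hz)) y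
        have h2 := mm_mono' hiN
        rw [le_div_iff₀ hi]
        nlinarith [norm_nonneg (pair S z y)]
      · have h1 := hy4 i hiN z hz
        refine h1.trans ?_
        rw [div_mul_eq_mul_div]
        refine div_le_div_of_nonneg_right ?_ hi.le
        nlinarith
    · have h7 : ‖x - y‖ ≤ 7 := by linarith
      have h8 := hcon (x - y) (b + 1) (((hx1.mono S le_rfl (Nat.le_succ b)).sub S hy1).mono S
        (le_max_right _ _) le_rfl) (by linarith) (fun i hi z hz => by
          refine (hy5 i hi z hz).trans ?_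
          rw [div_mul_eq_mul_div]
          refine div_le_div_of_nonneg_right ?_ (by linarith [one_le_mm i])
          linarith)
      have h9 : T x = T (x - y) + T y := by rw [map_sub]; abel
      have h10 := norm_add_le (T (x - y)) (T y)
      rw [← h9] at h10
      linarith
  exact no_blocks hT 21 (δ / 2) (by positivity) fun n => key n n

/-- an operator which is small on all blocks beyond `n` has small norm beyond `n` -/
theorem comp_R_norm_le (T : X S →L[ℂ] X S) (n : ℕ) (δ : ℝ) (hδ : 0 ≤ δ)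
    (h : ∀ (y : X S) (b : ℕ), Sup S y n b → ‖T y‖ ≤ δ * ‖y‖) : ‖T.comp (R S n)‖ ≤ δ := by
  refine ContinuousLinearMap.opNorm_le_bound _ hδ fun x => ?_
  rw [ContinuousLinearMap.comp_apply]
  set x' := R S n x with hx'
  have h1 : R S n x' = x' := by rw [hx', R_R, max_self]
  have h2 : ‖T x'‖ ≤ δ * ‖x'‖ := by
    refine le_of_forall_pos_le_add fun ε hε => ?_
    have hpos : 0 < ‖T‖ + δ + 1 := by positivity
    obtain ⟨y, b, hy1, hy2⟩ := exists_approx S x' n h1 (ε := ε / (‖T‖ + δ + 1)) (by positivity)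
    have h3 := h y b hy1
    have h4 : T x' = T (x' - y) + T y := by rw [map_sub]; abel
    have h5 := norm_add_le (T (x' - y)) (T y)
    rw [← h4] at h5
    have h6 := T.le_opNorm (x' - y)
    have h7 : ‖y‖ ≤ ‖x'‖ + ‖x' - y‖ := by
      have := norm_sub_norm_le y x'
      rw [norm_sub_rev] at this
      linarith
    have h8 : ‖T‖ * ‖x' - y‖ + δ * ‖x' - y‖ ≤ ε := by
      rw [lt_div_iff₀ hpos] at hy2
      nlinarith [norm_nonneg (x' - y)]
    nlinarith [norm_nonneg y]
  exact h2.trans (mul_le_mul_of_nonneg_left (norm_R_le S n x) hδ)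

/-- (7c) -/
theorem compact_of_nullRIS {T : X S →L[ℂ] X S} (hT : NullRIS S T) :
    IsCompactOperator T := by
  have h1 : ∀ δ : ℝ, 0 < δ → ∃ n : ℕ, ∀ (y : X S) (b : ℕ), Sup S y n b → ‖T y‖ ≤ δ * ‖y‖ := by
    intro δ hδ
    by_contra hcon
    push Not at hcon
    refine no_blocks' hT δ hδ fun n => ?_
    obtain ⟨y, b, h2, h3⟩ := hcon n
    have hy : 0 < ‖y‖ := by
      rcases (norm_nonneg y).eq_or_lt with h0 | h0
      · rw [← h0, mul_zero] at h3
        have : y = 0 := norm_eq_zero.1 h0.symm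
        rw [this, map_zero, norm_zero] at h3
        exact absurd h3 (lt_irrefl _)
      · exact h0
    have hy' : ‖((‖y‖ : ℂ)⁻¹)‖ = ‖y‖⁻¹ := by
      rw [norm_inv, Complex.norm_real, norm_norm]
    refine ⟨((‖y‖ : ℂ)⁻¹) • y, b, h2.smul S _, ?_, ?_⟩
    · rw [norm_smul, hy', inv_mul_cancel₀ hy.ne']
    · rw [map_smul, norm_smul, hy', ← div_eq_inv_mul, le_div_iff₀ hy]
      exact h3.le
  choose n hn using fun k : ℕ => h1 (1 / (k + 1)) (by positivity)
  have h2 : ∀ k : ℕ, ‖T.comp (R S (n k))‖ ≤ 1 / (k + 1) := fun k =>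
    comp_R_norm_le T (n k) _ (by positivity) (hn k)
  have h3 : Tendsto (fun k => T.comp ((1 : X S →L[ℂ] X S) - R S (n k))) atTop (𝓝 T) := by
    have h4 : ∀ k, T.comp ((1 : X S →L[ℂ] X S) - R S (n k)) = T - T.comp (R S (n k)) := by
      intro k
      rw [ContinuousLinearMap.comp_sub]
      rfl
    simp only [h4]
    have h5 : Tendsto (fun k => T.comp (R S (n k))) atTop (𝓝 0) :=
      squeeze_zero_norm h2 tendsto_one_div_add_atTop_nhds_zero_nat
    simpa using (tendsto_const_nhds (x := T)).sub h5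
  exact isCompactOperator_of_tendsto h3 (Eventually.of_forall fun k =>
    (compact_one_sub_R S (n k)).clm_comp T)

end Pool.Agent.CK
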