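import Pool.Agent.Work.MP_02927d_an.PsiB
import Pool.Agent.Work.MP_02927d_an.Cpt

set_option autoImplicit false
set_option linter.unusedSectionVars false

/-!
MP_02927d_an, (7b): if the diagonal entries of `T` tend to zero then `T` sends rapidly increasing
sequences to null sequences (absorber argument).
-/

namespace Pool.Agent.CK

open Filter Topology

variable {A : Type*} [NormedCommRing A] [NormedAlgebra ℂ A] [NormOneClass A]

variable (S : Sys A)

/-- the functional `a ↦ F (D q a x)` -/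
noncomputable def absb (q : ℕ) (F : ℕ →₀ A) (x : X S) (C : ℝ)
    (hC : ∀ a, ‖pair S F (D S q a x)‖ ≤ C * ‖a‖) : Du A :=
  LinearMap.mkContinuous
    { toFun := fun a => pair S F (D S q a x)
      map_add' := fun a b => by simp
      map_smul' := fun c a => by simp } C hC

theorem third_mem_B {F : ℕ →₀ A} (hF : F ∈ S.B) {l : ℕ} (hl : 1 ≤ l) :
    ((3 : ℂ)⁻¹ • (F + Finsupp.single l 1) : ℕ →₀ A) ∈ S.B := by
  have h1 : ((2 : ℂ)⁻¹ • Finsupp.single l 1 : ℕ →₀ A) ∈ S.B :=
    S.single_mem_B hl (map_one _) norm_one.le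
  have h2 := S.add_mem_B (r := 3⁻¹) (s := 2 * 3⁻¹) (by norm_num) hF h1
  convert h2 using 1
  rw [smul_smul, smul_add]
  norm_num

variable {S} {g : ℕ → ℕ}

/-- one absorber step -/
theorem Nod.absorb_step (hg : Nod S g) {T : X S →L[ℂ] X S}
    (hT : Tendsto (bk S g T) atTop (𝓝 0)) {C δ : ℝ} {x : ℕ → X S} {lo hi J : ℕ → ℕ}
    (hx : IsRIS S C x lo hi J) (hδ : 0 < δ) (hTx : ∀ k, δ ≤ ‖T (x k)‖) (q : ℕ) (k : ℕ)
    (hk : q ≤ k) :
    ∃ (l : ℕ) (ψ : Du A) (F : ℕ →₀ A), k < l ∧ hi k ≤ g l ∧ J k < S.j (g l) ∧ ‖ψ‖ ≤ C ∧ F ∈ S.B ∧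
      (∀ c, S.F.P q c = c → pair S (act S.F S.p c ((3 : ℂ)⁻¹ • (F + Finsupp.single (g l) 1)))
        (x k - sing S (g l) ψ) = 0) ∧
      δ / 12 ≤ ‖pair S ((3 : ℂ)⁻¹ • (F + Finsupp.single (g l) 1)) (T (x k - sing S (g l) ψ))‖ := by
  have hC := hx.C_nonneg
  obtain ⟨F, hFG, hF⟩ := exists_norming S (T (x k)) (r := δ / 2) (by have := hTx k; linarith)
    (by linarith)
  have hFB := S.G_subset_B hFG
  have hql : q ≤ lo k := hk.trans (hx.le_lo k)
  have hbd : ∀ a, ‖pair S F (D S q a (x k))‖ ≤ C * ‖a‖ := fun a => by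
    refine (pair_le S hFB _).trans ((norm_D_le S q a (x k)).trans ?_)
    rw [mul_comm]
    exact mul_le_mul_of_nonneg_right (hx.nrm k) (norm_nonneg _)
  set ψ : Du A := absb S q F (x k) C hbd with hψ
  have hψn : ‖ψ‖ ≤ C := LinearMap.mkContinuous_norm_le _ hC _
  have hψa : ∀ a, ψ a = pair S F (D S q a (x k)) := fun a => rfl
  -- the limits
  have e1 : Tendsto (fun l => ‖co S (g l) (T (x k))‖) atTop (𝓝 0) :=
    co_tendsto S (T (x k)) g hg.strictMono.tendsto_atTop
  have e2 : Tendsto (fun l => ‖pair S F (T (sing S (g l) ψ))‖) atTop (𝓝 0) := by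
    have := (hg.ris_sing C id strictMono_id (fun _ => ψ) (fun _ => hψn)).weakly_null
      ((pair S F).comp T)
    simpa using this.norm
  have e3 : Tendsto (fun l => ‖ψ (bk S g T l)‖) atTop (𝓝 0) := by
    have := (ψ.continuous.tendsto 0).comp hT
    rw [map_zero] at this
    simpa using this.norm
  have h12 : (0 : ℝ) < δ / 12 := by positivity
  obtain ⟨M, hM⟩ := eventually_atTop.1 (((e1.eventually_lt_const h12).and
    (e2.eventually_lt_const h12)).and (e3.eventually_lt_const h12))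
  -- beyond the support of `F`
  obtain ⟨b, hb⟩ : ∃ b, ∀ h, b ≤ h → F h = 0 := by
    refine ⟨F.support.sup id + 1, fun h hh => ?_⟩
    by_contra hne
    have : h ≤ F.support.sup id :=
      Finset.le_sup (f := id) (Finsupp.mem_support_iff.2 hne)
    omega
  obtain ⟨l, hl⟩ : ∃ l, l = max (max M (k + 1)) (max b (max (hi k) (J k + 1))) := ⟨_, rfl⟩
  have l1 : M ≤ l := by omega
  have l2 : k < l := by omega
  have l3 : b ≤ l := by omega
  have l4 : hi k ≤ l := by omega
  have l5 : J k < l := by omega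
  have hgl := hg.lt_g l
  have hjl : J k < S.j (g l) := by
    have h1 := hg.le_j (Nat.sub_lt (by omega : 0 < l) one_pos)
    have h2 := hg.lt_g (l - 1)
    omega
  have hco : co S (g l) (x k) = 0 := hx.sup k (g l) (by omega)
  have hFl : F (g l) = 0 := hb _ (by omega)
  have hgpos := hg.pos l
  refine ⟨l, ψ, F, l2, by omega, hjl, hψn, hFB, ?_, ?_⟩
  · intro c hc
    have p1 : q ≤ S.p (g l) := hg.le_p' (by omega)
    have c1 := S.F.P_of_le p1 hc
    have k1 : pair S (act S.F S.p c F) (x k) = ψ c := by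
      rw [hψa, pair_D, hc]
      refine pair_congr S (hx.sup k) fun h h1 _ => ?_
      show S.F.P (S.p h) c * F h = S.F.P (S.p h) c * Pool.Agent.CK.T q F h
      rw [T_apply, if_pos (by omega)]
    have k2 : pair S (act S.F S.p c F) (sing S (g l) ψ) = 0 := by
      rw [pair_sing S hgpos]
      have : act S.F S.p c F (g l) = S.F.P (S.p (g l)) c * F (g l) := rfl
      rw [this, hFl, mul_zero, map_zero, map_zero]
    rw [act_smul, act_add, act_single, mul_one, c1, map_smul, map_add]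
    simp only [smul_apply, add_apply, map_sub, pair_single, hco, zero_apply, k1, k2,
      co_sing_self S hgpos, c1]
    simp
  · obtain ⟨⟨m1, m2⟩, m3⟩ := hM l l1
    have k3 : pair S ((3 : ℂ)⁻¹ • (F + Finsupp.single (g l) 1)) (T (x k - sing S (g l) ψ)) =
        (3 : ℂ)⁻¹ * (pair S F (T (x k)) + (co S (g l) (T (x k)) 1 -
          pair S F (T (sing S (g l) ψ)) - ψ (bk S g T l))) := by
      rw [bk, ent_dual S hgpos, map_smul, map_add]
      simp only [smul_apply, add_apply, map_sub, pair_single, smul_eq_mul]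
      ring
    rw [k3, norm_mul, norm_inv, Complex.norm_ofNat]
    have n1 : ‖co S (g l) (T (x k)) 1‖ ≤ δ / 12 := by
      refine (ContinuousLinearMap.le_opNorm _ _).trans ?_
      rw [norm_one, mul_one]
      exact m1.le
    have n2 := norm_sub_le (co S (g l) (T (x k)) 1 - pair S F (T (sing S (g l) ψ)))
      (ψ (bk S g T l))
    have n3 := norm_sub_le (co S (g l) (T (x k)) 1) (pair S F (T (sing S (g l) ψ)))
    have n4 := norm_sub_norm_le (pair S F (T (x k))) (-(co S (g l) (T (x k)) 1 -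
          pair S F (T (sing S (g l) ψ)) - ψ (bk S g T l)))
    rw [sub_neg_eq_add, norm_neg] at n4
    linarith

/-- (7b) -/
theorem Nod.nullRIS (hg : Nod S g) (hK : KPx S) {T : X S →L[ℂ] X S}
    (hT : Tendsto (bk S g T) atTop (𝓝 0)) : NullRIS S T := by
  intro C x lo hi J hx
  by_contra hcon
  -- a subsequence with a lower bound
  obtain ⟨δ, hδ, κ, hκ, hTx⟩ : ∃ δ : ℝ, 0 < δ ∧ ∃ κ : ℕ → ℕ, StrictMono κ ∧
      ∀ k, δ ≤ ‖T (x (κ k))‖ := by
    rw [Metric.tendsto_atTop] at hcon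
    push Not at hcon
    obtain ⟨δ, hδ, h⟩ := hcon
    refine ⟨δ, hδ, ?_⟩
    have h' : ∃ᶠ k in atTop, δ ≤ ‖T (x k)‖ := by
      rw [frequently_atTop]
      intro N
      obtain ⟨n, h1, h2⟩ := h N
      exact ⟨n, h1, by simpa using h2⟩
    obtain ⟨κ, h1, h2⟩ := extraction_of_frequently_atTop h'
    exact ⟨κ, h1, h2⟩
  have hx' := hx.comp hκ
  have hC := hx.C_nonneg
  obtain ⟨K, hKd⟩ : ∃ K : ℝ, K = 2 * C + 1 := ⟨_, rfl⟩
  refine hK T K (δ / 12) (by linarith) (by positivity) fun q => ?_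
  have step := fun N : ℕ => hg.absorb_step hT hx' hδ hTx q (q + N) (by omega)
  choose l ψ F s1 s2 s3 s4 s5 s6 s7 using step
  let N : ℕ → ℕ := fun i => Nat.rec 0 (fun _ n => g (l n) + 1) i
  have hN : ∀ i, N (i + 1) = g (l (N i)) + 1 := fun _ => rfl
  have hgt : ∀ n, q + n < g (l n) := fun n => (s1 n).trans (hg.lt_g _)
  refine ⟨fun i => x (κ (q + N i)) - sing S (g (l (N i))) (ψ (N i)),
    fun i => lo (κ (q + N i)), fun i => g (l (N i)) + 1, fun i => J (κ (q + N i)),
    fun i => (3 : ℂ)⁻¹ • (F (N i) + Finsupp.single (g (l (N i))) 1), ?_, ?_, ?_, ?_, ?_⟩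
  · refine ⟨?_, ?_, ?_, ?_, ?_, ?_, ?_⟩
    · intro i
      have h1 : Sup S (x (κ (q + N i))) (lo (κ (q + N i))) (hi (κ (q + N i))) := hx.sup _
      have h2 : hi (κ (q + N i)) ≤ g (l (N i)) := s2 (N i)
      have h3 := hx.lt (κ (q + N i))
      exact Sup.sub S (Sup.mono S h1 le_rfl (by omega))
        (Sup_sing S _ _ _ _ (by omega) (by omega))
    · intro i
      have h2 : hi (κ (q + N i)) ≤ g (l (N i)) := s2 (N i)
      have h3 := hx.lt (κ (q + N i))
      show lo (κ (q + N i)) < g (l (N i)) + 1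
      omega
    · intro i
      have h1 := hx'.le_lo (q + N (i + 1))
      show g (l (N i)) + 1 ≤ lo (κ (q + N (i + 1)))
      have h2 : q + N (i + 1) ≤ lo (κ (q + N (i + 1))) := h1
      rw [hN] at h2 ⊢
      omega
    · refine monotone_nat_of_le_succ fun i => ?_
      have h1 : q + N i ≤ q + N (i + 1) := by
        have := hgt (N i)
        rw [hN]; omega
      exact hx'.mono h1
    · intro i
      have h1 := hx'.le_J (q + N (i + 1))
      show g (l (N i)) + 1 ≤ J (κ (q + N (i + 1)))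
      have h2 : q + N (i + 1) ≤ J (κ (q + N (i + 1))) := h1
      rw [hN] at h2 ⊢
      omega
    · intro i
      refine (norm_sub_le _ _).trans ?_
      have h1 := hx.nrm (κ (q + N i))
      have h2 := (norm_sing_le S (g (l (N i))) (ψ (N i))).trans (s4 (N i))
      linarith
    · intro i h z hz hh
      have hh' : h < J (κ (q + N i)) := hh
      have h0 : J (κ (q + N i)) < S.j (g (l (N i))) := s3 (N i)
      have h1 := hx.small (κ (q + N i)) h z hz hh'
      have h2 := pair_sing_le S (by omega : S.j (g (l (N i))) ≠ h) hz (ψ (N i))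
      have h3 : ‖ψ (N i)‖ / mm h ≤ C / mm h := by
        have := s4 (N i)
        gcongr
      rw [map_sub]
      refine (norm_sub_le _ _).trans ?_
      have h4 : C / mm h + C / mm h ≤ K / mm h := by
        rw [← add_div]
        have : C + C ≤ K := by linarith
        gcongr
      linarith
  · intro i
    have h1 : q + N i ≤ lo (κ (q + N i)) := hx'.le_lo (q + N i)
    show q ≤ lo (κ (q + N i))
    omega
  · intro i
    exact third_mem_B S (s5 _) (hg.pos _)
  · intro i c hc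
    exact s6 (N i) c hc
  · intro i
    exact s7 (N i)

/-- (7b), under the name of the plan -/
theorem nullRIS_of_bk_zero (hg : Nod S g) (hK : KPx S) {U : X S →L[ℂ] X S}
    (hU : Tendsto (bk S g U) atTop (𝓝 0)) : NullRIS S U := hg.nullRIS hK hU

variable (S) in
/-- section 7 from the key proposition: the map `Ψ`, whose kernel is the compact operators -/
theorem exists_Psi_full [CompleteSpace A] (hK : KPx S) : ∃ Ψ : (X S →L[ℂ] X S) →ₗ[ℂ] A,
    (∀ U : X S →L[ℂ] X S, ‖Ψ U‖ ≤ 2 * ‖U‖) ∧ Ψ 1 = 1 ∧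
    (∀ t a, S.F.P t a = a → Ψ (D S t a) = a) ∧
    (∀ U : X S →L[ℂ] X S, IsCompactOperator U → Ψ U = 0) ∧
    (∀ U : X S →L[ℂ] X S, Ψ U = 0 → IsCompactOperator U) := by
  obtain ⟨g, hg⟩ := exists_nod S
  obtain ⟨Ψ, h1, h2, h3, h4, h5⟩ := Nod.exists_Psi S hg hK
  refine ⟨Ψ, h1, h3, fun t a h => ?_, h5, fun U hU => ?_⟩
  · exact (h4 t a).trans h
  · have h6 := h2 U
    have h7 : Ψ U = 0 := hU
    rw [h7] at h6
    exact compact_of_nullRIS (hg.nullRIS hK h6)

end Pool.Agent.CK
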