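import Mathlib

/-!
# The coordinatewise product

For an unconditional Schauder basis `b` with `‖b s‖ = 1` the coordinatewise product
`∑ s, (b.coord s x * b.coord s y) • b s` is a bounded commutative associative product.
-/

open Filter Topology

noncomputable section

namespace Pool.Agent.CK

universe u

/-! ### Multipliers -/

section Mult

variable {ι E : Type*} [NormedAddCommGroup E] [NormedSpace ℂ E]

lemma norm_add_sum_le (v : ι → E) (M : ℝ) (θ : ι → ℝ) (h0 : ∀ s, 0 ≤ θ s) (h1 : ∀ s, θ s ≤ 1)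
    (F : Finset ι) : ∀ w : E, (∀ G ⊆ F, ‖w + ∑ s ∈ G, v s‖ ≤ M) →
      ‖w + ∑ s ∈ F, (θ s : ℂ) • v s‖ ≤ M := by
  classical
  induction F using Finset.induction_on with
  | empty => intro w h; simpa using h ∅ (Finset.Subset.refl _)
  | insert a F ha ih =>
    intro w h
    have e1 : ‖w + ∑ s ∈ F, (θ s : ℂ) • v s‖ ≤ M :=
      ih w fun G hG => h G (hG.trans (Finset.subset_insert a F))
    have e2 : ‖(w + v a) + ∑ s ∈ F, (θ s : ℂ) • v s‖ ≤ M := by
      refine ih (w + v a) fun G hG => ?_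
      have haG : a ∉ G := fun hc => ha (hG hc)
      have := h (insert a G) (Finset.insert_subset_insert a hG)
      rwa [Finset.sum_insert haG, ← add_assoc] at this
    have e3 : w + ∑ s ∈ insert a F, (θ s : ℂ) • v s =
        (((1 - θ a : ℝ) : ℂ)) • (w + ∑ s ∈ F, (θ s : ℂ) • v s) +
          ((θ a : ℝ) : ℂ) • ((w + v a) + ∑ s ∈ F, (θ s : ℂ) • v s) := by
      rw [Finset.sum_insert ha]
      push_cast
      module
    rw [e3]
    refine (norm_add_le _ _).trans ?_
    rw [norm_smul, norm_smul, Complex.norm_real, Complex.norm_real, Real.norm_eq_abs,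
      Real.norm_eq_abs, abs_of_nonneg (h0 a), abs_of_nonneg (sub_nonneg.2 (h1 a))]
    calc (1 - θ a) * ‖w + ∑ s ∈ F, (θ s : ℂ) • v s‖ +
          θ a * ‖(w + v a) + ∑ s ∈ F, (θ s : ℂ) • v s‖
        ≤ (1 - θ a) * M + θ a * M :=
          add_le_add (mul_le_mul_of_nonneg_left e1 (sub_nonneg.2 (h1 a)))
            (mul_le_mul_of_nonneg_left e2 (h0 a))
      _ = M := by ring

lemma norm_sum_real_le (v : ι → E) (M : ℝ) (F : Finset ι) (h : ∀ G ⊆ F, ‖∑ s ∈ G, v s‖ ≤ M)
    (θ : ι → ℝ) (h1 : ∀ s, |θ s| ≤ 1) : ‖∑ s ∈ F, (θ s : ℂ) • v s‖ ≤ 2 * M := by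
  have e1 : ‖(0 : E) + ∑ s ∈ F, ((max (θ s) 0 : ℝ) : ℂ) • v s‖ ≤ M :=
    norm_add_sum_le v M _ (fun s => le_max_right _ _)
      (fun s => max_le ((le_abs_self _).trans (h1 s)) zero_le_one) F 0
      (fun G hG => by simpa using h G hG)
  have e2 : ‖(0 : E) + ∑ s ∈ F, ((max (-θ s) 0 : ℝ) : ℂ) • v s‖ ≤ M :=
    norm_add_sum_le v M _ (fun s => le_max_right _ _)
      (fun s => max_le ((neg_le_abs _).trans (h1 s)) zero_le_one) F 0
      (fun G hG => by simpa using h G hG)
  rw [zero_add] at e1 e2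
  have e3 : ∑ s ∈ F, (θ s : ℂ) • v s =
      ∑ s ∈ F, ((max (θ s) 0 : ℝ) : ℂ) • v s - ∑ s ∈ F, ((max (-θ s) 0 : ℝ) : ℂ) • v s := by
    rw [← Finset.sum_sub_distrib]
    refine Finset.sum_congr rfl fun s _ => ?_
    rw [← sub_smul, ← Complex.ofReal_sub]
    congr 2
    rcases le_total (θ s) 0 with hs | hs
    · rw [max_eq_right hs, max_eq_left (by linarith)]; ring
    · rw [max_eq_left hs, max_eq_right (by linarith)]; ring
  rw [e3]
  exact (norm_sub_le _ _).trans (by linarith)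

/-- Bounded multipliers: the partial sums with coefficients of modulus at most `T` are bounded
by `4 * M * T` if all partial sums are bounded by `M`. -/
lemma norm_sum_mult_le (v : ι → E) (M T : ℝ) (hT : 0 < T) (F : Finset ι)
    (h : ∀ G ⊆ F, ‖∑ s ∈ G, v s‖ ≤ M) (θ : ι → ℂ) (h1 : ∀ s, ‖θ s‖ ≤ T) :
    ‖∑ s ∈ F, θ s • v s‖ ≤ 4 * M * T := by
  have e1 : ‖∑ s ∈ F, (((θ s).re / T : ℝ) : ℂ) • v s‖ ≤ 2 * M := by
    refine norm_sum_real_le v M F h _ fun s => ?_
    rw [abs_div, abs_of_pos hT, div_le_one hT]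
    exact (Complex.abs_re_le_norm _).trans (h1 s)
  have e2 : ‖∑ s ∈ F, (((θ s).im / T : ℝ) : ℂ) • v s‖ ≤ 2 * M := by
    refine norm_sum_real_le v M F h _ fun s => ?_
    rw [abs_div, abs_of_pos hT, div_le_one hT]
    exact (Complex.abs_im_le_norm _).trans (h1 s)
  have e3 : ∑ s ∈ F, θ s • v s = (T : ℂ) • (∑ s ∈ F, (((θ s).re / T : ℝ) : ℂ) • v s +
      Complex.I • ∑ s ∈ F, (((θ s).im / T : ℝ) : ℂ) • v s) := by
    rw [Finset.smul_sum, ← Finset.sum_add_distrib, Finset.smul_sum]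
    refine Finset.sum_congr rfl fun s _ => ?_
    rw [smul_smul, ← add_smul, smul_smul]
    congr 1
    have hT' : (T : ℂ) ≠ 0 := by exact_mod_cast hT.ne'
    rw [Complex.ofReal_div, Complex.ofReal_div]
    field_simp
    rw [mul_comm Complex.I]
    exact (Complex.re_add_im (θ s)).symm
  rw [e3, norm_smul, Complex.norm_real, Real.norm_eq_abs, abs_of_pos hT]
  have e4 : ‖∑ s ∈ F, (((θ s).re / T : ℝ) : ℂ) • v s +
      Complex.I • ∑ s ∈ F, (((θ s).im / T : ℝ) : ℂ) • v s‖ ≤ 4 * M := by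
    refine (norm_add_le _ _).trans ?_
    rw [norm_smul, Complex.norm_I, one_mul]
    linarith
  calc T * _ ≤ T * (4 * M) := mul_le_mul_of_nonneg_left e4 hT.le
    _ = 4 * M * T := by ring

end Mult

/-! ### The product -/

section Prod

variable {U : Type u} [NormedAddCommGroup U] [NormedSpace ℂ U]
  (b : UnconditionalSchauderBasis ℕ ℂ U)

/-- The coordinatewise product. -/
def cmul (x y : U) : U := ∑' s, (b.coord s x * b.coord s y) • b s

lemma coord_ext {x y : U} (h : ∀ s, b.coord s x = b.coord s y) : x = y := by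
  have h1 := b.expansion x
  simp only [h] at h1
  exact h1.unique (b.expansion y)

lemma coord_basis (s t : ℕ) : b.coord s (b t) = if s = t then 1 else 0 := by
  by_cases h : s = t
  · subst h; simp [b.ortho]
  · simp [b.ortho, h]

lemma coord_proj (F : Finset ℕ) (s : ℕ) (x : U) :
    b.coord s (b.proj F x) = if s ∈ F then b.coord s x else 0 := by
  rw [GeneralSchauderBasis.proj_apply, map_sum]
  simp only [map_smul, coord_basis, smul_eq_mul, mul_ite, mul_one, mul_zero]
  rw [Finset.sum_ite_eq]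

variable [CompleteSpace U]

lemma exists_coord_le (hb : ∀ s, ‖b s‖ = 1) : ∃ K : ℝ, 0 < K ∧ (∀ F x, ‖b.proj F x‖ ≤ K * ‖x‖) ∧
    ∀ s x, ‖b.coord s x‖ ≤ K * ‖x‖ := by
  obtain ⟨C, hC⟩ := b.exists_norm_proj_le
  refine ⟨max C 1, lt_max_of_lt_right zero_lt_one, fun F x => ?_, fun s x => ?_⟩
  · exact ((b.proj F).le_opNorm x).trans
      (mul_le_mul_of_nonneg_right ((hC F).trans (le_max_left _ _)) (norm_nonneg _))
  · have h1 : ‖b.proj {s} x‖ ≤ max C 1 * ‖x‖ := ((b.proj {s}).le_opNorm x).trans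
      (mul_le_mul_of_nonneg_right ((hC _).trans (le_max_left _ _)) (norm_nonneg _))
    rwa [GeneralSchauderBasis.proj_apply, Finset.sum_singleton, norm_smul, hb, mul_one] at h1

lemma summable_mult (x : U) (θ : ℕ → ℂ) (T : ℝ) (h : ∀ s, ‖θ s‖ ≤ T) :
    Summable fun s => θ s • (b.coord s x • b s) := by
  have hT : 0 ≤ T := (norm_nonneg _).trans (h 0)
  rw [summable_iff_vanishing_norm]
  intro ε hε
  obtain ⟨F, hF⟩ := summable_iff_vanishing_norm.1 (b.expansion x).summable (ε / (4 * (T + 1) + 1))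
    (by positivity)
  refine ⟨F, fun t ht => ?_⟩
  have h1 : ‖∑ s ∈ t, θ s • (b.coord s x • b s)‖ ≤ 4 * (ε / (4 * (T + 1) + 1)) * (T + 1) :=
    norm_sum_mult_le _ _ _ (by linarith) t
      (fun G hG => (hF G (Finset.disjoint_of_subset_left hG ht)).le) θ
      (fun s => (h s).trans (by linarith))
  refine h1.trans_lt ?_
  rw [show 4 * (ε / (4 * (T + 1) + 1)) * (T + 1) = ε * (4 * (T + 1)) / (4 * (T + 1) + 1) by ring,
    div_lt_iff₀ (by positivity)]
  exact mul_lt_mul_of_pos_left (by linarith) hε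

/-- The coordinatewise product is an unconditionally convergent series. -/
lemma summable_mul (hb : ∀ s, ‖b s‖ = 1) (x y : U) :
    Summable fun s => (b.coord s x * b.coord s y) • b s := by
  obtain ⟨K, hK, -, hc⟩ := exists_coord_le b hb
  have h := summable_mult b x (fun s => b.coord s y) (K * ‖y‖) (fun s => hc s y)
  refine h.congr fun s => ?_
  rw [smul_smul, mul_comm]

lemma coord_cmul (hb : ∀ s, ‖b s‖ = 1) (s : ℕ) (x y : U) :
    b.coord s (cmul b x y) = b.coord s x * b.coord s y := by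
  have h1 := (b.coord s).hasSum (summable_mul b hb x y).hasSum
  have h2 : HasSum (fun t => (b.coord s ((b.coord t x * b.coord t y) • b t)))
      (b.coord s x * b.coord s y) := by
    have h3 : (fun t => (b.coord s ((b.coord t x * b.coord t y) • b t))) =
        fun t => if t = s then b.coord s x * b.coord s y else 0 := by
      funext t
      rw [map_smul, coord_basis, smul_eq_mul]
      by_cases hst : s = t
      · subst hst; simp
      · rw [if_neg hst, if_neg (fun hh => hst hh.symm), mul_zero]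
    rw [h3]
    exact hasSum_ite_eq s _
  exact h1.unique h2

lemma norm_cmul_le (hb : ∀ s, ‖b s‖ = 1) : ∃ K : ℝ, 0 ≤ K ∧ ∀ x y : U,
    ‖cmul b x y‖ ≤ K * ‖x‖ * ‖y‖ := by
  obtain ⟨K, hK, hp, hc⟩ := exists_coord_le b hb
  refine ⟨4 * K * K, by positivity, fun x y => ?_⟩
  have key : ∀ ε : ℝ, 0 < ε → ‖cmul b x y‖ ≤ 4 * (K * ‖x‖) * (K * ‖y‖ + ε) := by
    intro ε hε
    refine le_of_tendsto (summable_mul b hb x y).hasSum.norm (Eventually.of_forall fun F => ?_)
    have h1 : ∑ s ∈ F, (b.coord s x * b.coord s y) • b s =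
        ∑ s ∈ F, b.coord s y • (b.coord s x • b s) :=
      Finset.sum_congr rfl fun s _ => by rw [smul_smul, mul_comm]
    rw [h1]
    refine norm_sum_mult_le _ _ _ (by positivity) F (fun G _ => ?_) _
      (fun s => (hc s y).trans (by linarith))
    rw [← GeneralSchauderBasis.proj_apply]
    exact hp G x
  have h2 : ‖cmul b x y‖ ≤ 4 * (K * ‖x‖) * (K * ‖y‖) := by
    refine ge_of_tendsto (f := fun ε : ℝ => 4 * (K * ‖x‖) * (K * ‖y‖ + ε))
      (x := 𝓝[>] (0 : ℝ)) ?_ (eventually_nhdsWithin_of_forall fun ε hε => key ε hε)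
    have : Tendsto (fun ε : ℝ => 4 * (K * ‖x‖) * (K * ‖y‖ + ε)) (𝓝 0)
        (𝓝 (4 * (K * ‖x‖) * (K * ‖y‖ + 0))) := by
      refine Tendsto.const_mul _ (Tendsto.const_add _ tendsto_id)
    rw [add_zero] at this
    exact this.mono_left nhdsWithin_le_nhds
  calc ‖cmul b x y‖ ≤ _ := h2
    _ = 4 * K * K * ‖x‖ * ‖y‖ := by ring

/-- The coordinatewise product as a bounded bilinear map. -/
def mulU (hb : ∀ s, ‖b s‖ = 1) : U →L[ℂ] U →L[ℂ] U :=
  LinearMap.mkContinuous₂
    (LinearMap.mk₂ ℂ (cmul b)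
      (fun x x' y => coord_ext b fun s => by
        rw [map_add, coord_cmul b hb, coord_cmul b hb, coord_cmul b hb, map_add, add_mul])
      (fun r x y => coord_ext b fun s => by
        rw [map_smul, coord_cmul b hb, coord_cmul b hb, map_smul, smul_eq_mul, smul_eq_mul,
          mul_assoc])
      (fun x y y' => coord_ext b fun s => by
        rw [map_add, coord_cmul b hb, coord_cmul b hb, coord_cmul b hb, map_add, mul_add])
      (fun r x y => coord_ext b fun s => by
        rw [map_smul, coord_cmul b hb, coord_cmul b hb, map_smul, smul_eq_mul, smul_eq_mul]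
        ring))
    (norm_cmul_le b hb).choose (norm_cmul_le b hb).choose_spec.2

lemma mulU_apply (hb : ∀ s, ‖b s‖ = 1) (x y : U) : mulU b hb x y = cmul b x y := rfl

lemma coord_mulU (hb : ∀ s, ‖b s‖ = 1) (s : ℕ) (x y : U) :
    b.coord s (mulU b hb x y) = b.coord s x * b.coord s y := coord_cmul b hb s x y

lemma mulU_comm (hb : ∀ s, ‖b s‖ = 1) (x y : U) : mulU b hb x y = mulU b hb y x :=
  coord_ext b fun s => by rw [coord_mulU, coord_mulU, mul_comm]

lemma mulU_assoc (hb : ∀ s, ‖b s‖ = 1) (x y z : U) :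
    mulU b hb (mulU b hb x y) z = mulU b hb x (mulU b hb y z) :=
  coord_ext b fun s => by rw [coord_mulU, coord_mulU, coord_mulU, coord_mulU, mul_assoc]

lemma proj_mulU (hb : ∀ s, ‖b s‖ = 1) (F : Finset ℕ) (x y : U) :
    b.proj F (mulU b hb x y) = mulU b hb (b.proj F x) (b.proj F y) :=
  coord_ext b fun s => by
    rw [coord_mulU, coord_proj, coord_proj, coord_proj, coord_mulU]
    split_ifs <;> simp

end Prod

end Pool.Agent.CK
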