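import Pool.Agent.Work.MP_02927d_an.Renorm
import Pool.Agent.Work.MP_02927d_an.Unc

/-!
# The unitization of a space with a normalized unconditional basis
-/

open Filter Topology

noncomputable section

namespace Pool.Agent.CK

universe u

variable {U : Type u} [NormedAddCommGroup U] [NormedSpace ℂ U] [CompleteSpace U]
  (b : UnconditionalSchauderBasis ℕ ℂ U) (hb : ∀ n, ‖b n‖ = 1)

/-- the product of the unitization -/
def umulf (p q : U × ℂ) : U × ℂ := (mulU b hb p.1 q.1 + p.2 • q.1 + q.2 • p.1, p.2 * q.2)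

lemma umulf_bound (p q : U × ℂ) : ‖umulf b hb p q‖ ≤ (‖mulU b hb‖ + 2) * ‖p‖ * ‖q‖ := by
  have h1 : ‖p.1‖ ≤ ‖p‖ := norm_fst_le p
  have h2 : ‖p.2‖ ≤ ‖p‖ := norm_snd_le p
  have h3 : ‖q.1‖ ≤ ‖q‖ := norm_fst_le q
  have h4 : ‖q.2‖ ≤ ‖q‖ := norm_snd_le q
  have hm : 0 ≤ ‖mulU b hb‖ := norm_nonneg (mulU b hb)
  have hpq : 0 ≤ ‖p‖ * ‖q‖ := by positivity
  refine max_le ?_ ?_
  · have e1 : ‖mulU b hb p.1 q.1‖ ≤ ‖mulU b hb‖ * ‖p‖ * ‖q‖ :=
      ((mulU b hb).le_opNorm₂ p.1 q.1).trans (by gcongr)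
    have e2 : ‖p.2 • q.1‖ ≤ ‖p‖ * ‖q‖ := by rw [norm_smul]; gcongr
    have e3 : ‖q.2 • p.1‖ ≤ ‖p‖ * ‖q‖ := by rw [norm_smul, mul_comm]; gcongr
    have e4 := norm_add_le (mulU b hb p.1 q.1 + p.2 • q.1) (q.2 • p.1)
    have e5 := norm_add_le (mulU b hb p.1 q.1) (p.2 • q.1)
    show ‖mulU b hb p.1 q.1 + p.2 • q.1 + q.2 • p.1‖ ≤ _
    nlinarith
  · show ‖p.2 * q.2‖ ≤ _
    rw [norm_mul]
    have : ‖p.2‖ * ‖q.2‖ ≤ ‖p‖ * ‖q‖ := by gcongr
    nlinarith

/-- the product of the unitization, as a bounded bilinear map -/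
def umul : U × ℂ →L[ℂ] U × ℂ →L[ℂ] U × ℂ :=
  LinearMap.mkContinuous₂ (LinearMap.mk₂ ℂ (umulf b hb)
    (fun p p' q => by
      refine Prod.ext ?_ ?_
      · show mulU b hb (p.1 + p'.1) q.1 + (p.2 + p'.2) • q.1 + q.2 • (p.1 + p'.1) =
          (mulU b hb p.1 q.1 + p.2 • q.1 + q.2 • p.1) + (mulU b hb p'.1 q.1 + p'.2 • q.1 + q.2 • p'.1)
        rw [map_add, _root_.add_apply, add_smul, smul_add]
        abel
      · show (p.2 + p'.2) * q.2 = p.2 * q.2 + p'.2 * q.2
        ring)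
    (fun c p q => by
      refine Prod.ext ?_ ?_
      · show mulU b hb (c • p.1) q.1 + (c • p.2) • q.1 + q.2 • (c • p.1) =
          c • (mulU b hb p.1 q.1 + p.2 • q.1 + q.2 • p.1)
        rw [map_smul, _root_.smul_apply, smul_add, smul_add, smul_assoc,
          smul_comm q.2 c]
      · show (c • p.2) * q.2 = c • (p.2 * q.2)
        rw [smul_mul_assoc])
    (fun p q q' => by
      refine Prod.ext ?_ ?_
      · show mulU b hb p.1 (q.1 + q'.1) + p.2 • (q.1 + q'.1) + (q.2 + q'.2) • p.1 =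
          (mulU b hb p.1 q.1 + p.2 • q.1 + q.2 • p.1) + (mulU b hb p.1 q'.1 + p.2 • q'.1 + q'.2 • p.1)
        rw [map_add, add_smul, smul_add]
        abel
      · show p.2 * (q.2 + q'.2) = p.2 * q.2 + p.2 * q'.2
        ring)
    (fun c p q => by
      refine Prod.ext ?_ ?_
      · show mulU b hb p.1 (c • q.1) + p.2 • (c • q.1) + (c • q.2) • p.1 =
          c • (mulU b hb p.1 q.1 + p.2 • q.1 + q.2 • p.1)
        rw [map_smul, smul_add, smul_add, smul_comm p.2 c, smul_assoc]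
      · show p.2 * (c • q.2) = c • (p.2 * q.2)
        rw [mul_smul_comm]))
    (‖mulU b hb‖ + 2) (umulf_bound b hb)

lemma umul_apply (p q : U × ℂ) :
    umul b hb p q = (mulU b hb p.1 q.1 + p.2 • q.1 + q.2 • p.1, p.2 * q.2) := rfl

lemma umul_fst (p q : U × ℂ) : (umul b hb p q).1 = mulU b hb p.1 q.1 + p.2 • q.1 + q.2 • p.1 := rfl

lemma umul_snd (p q : U × ℂ) : (umul b hb p q).2 = p.2 * q.2 := rfl

lemma umul_comm (p q : U × ℂ) : umul b hb p q = umul b hb q p := by
  refine Prod.ext ?_ ?_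
  · rw [umul_fst, umul_fst, mulU_comm b hb]
    abel
  · rw [umul_snd, umul_snd, mul_comm]

lemma umul_assoc (p q r : U × ℂ) : umul b hb (umul b hb p q) r = umul b hb p (umul b hb q r) := by
  refine Prod.ext ?_ ?_
  · refine coord_ext b fun s => ?_
    simp only [umul_fst, umul_snd, map_add, map_smul, _root_.add_apply, _root_.smul_apply,
      coord_mulU b hb, smul_eq_mul]
    ring
  · simp only [umul_snd, mul_assoc]

lemma umul_one_left (p : U × ℂ) : umul b hb (0, 1) p = p := by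
  refine Prod.ext ?_ ?_
  · rw [umul_fst]
    simp
  · rw [umul_snd]
    simp

/-- the projections of the unitization -/
def uP (n : ℕ) : U × ℂ →L[ℂ] U × ℂ :=
  (b.proj (Finset.range n)).prodMap (ContinuousLinearMap.id ℂ ℂ)

omit [CompleteSpace U] in
lemma uP_fst (n : ℕ) (p : U × ℂ) : (uP b n p).1 = b.proj (Finset.range n) p.1 := rfl

omit [CompleteSpace U] in
lemma uP_snd (n : ℕ) (p : U × ℂ) : (uP b n p).2 = p.2 := rfl

lemma uP_uP (n m : ℕ) (p : U × ℂ) : uP b n (uP b m p) = uP b (min n m) p := by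
  refine Prod.ext ?_ rfl
  rw [uP_fst, uP_fst, uP_fst]
  refine coord_ext b fun s => ?_
  rw [coord_proj, coord_proj, coord_proj]
  by_cases h1 : s < n <;> by_cases h2 : s < m <;> simp [h1, h2]

lemma uP_one (n : ℕ) : uP b n (0, 1) = (0, 1) := by
  refine Prod.ext ?_ rfl
  rw [uP_fst, map_zero]

lemma uP_mul (n : ℕ) (p q : U × ℂ) : uP b n (umul b hb p q) = umul b hb (uP b n p) (uP b n q) := by
  refine Prod.ext ?_ rfl
  refine coord_ext b fun s => ?_
  simp only [umul_fst, uP_fst, uP_snd, map_add, map_smul, coord_mulU b hb, coord_proj, smul_eq_mul]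
  by_cases h : s < n <;> simp [h]

omit [CompleteSpace U] in
lemma uP_tendsto (p : U × ℂ) : Tendsto (fun n => uP b n p) atTop (𝓝 p) := by
  have h := (b.expansion p.1).tendsto_sum_nat
  have h' : Tendsto (fun n => b.proj (Finset.range n) p.1) atTop (𝓝 p.1) :=
    h.congr fun n => (b.proj_apply _ _).symm
  exact h'.prodMk_nhds (tendsto_const_nhds (x := p.2))

omit [CompleteSpace U] in
lemma uP_fin (n : ℕ) : FiniteDimensional ℂ (LinearMap.range (uP b n : U × ℂ →ₗ[ℂ] U × ℂ)) := by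
  have h1 : FiniteDimensional ℂ (LinearMap.range (b.proj (Finset.range n)).toLinearMap) := by
    rw [b.range_proj_eq_span]
    exact FiniteDimensional.span_of_finite ℂ ((Finset.range n).finite_toSet.image _)
  have h2 : LinearMap.range (uP b n : U × ℂ →ₗ[ℂ] U × ℂ) ≤
      (LinearMap.range (b.proj (Finset.range n)).toLinearMap).prod ⊤ := by
    rintro _ ⟨p, rfl⟩
    exact ⟨⟨p.1, rfl⟩, trivial⟩
  have h3 := (Submodule.FG.prod (Submodule.fg_iff_finiteDimensional _ |>.2 h1)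
    (Submodule.fg_iff_finiteDimensional (⊤ : Submodule ℂ ℂ) |>.2 inferInstance))
  have h4 := (Submodule.fg_iff_finiteDimensional _).1 h3
  exact Submodule.finiteDimensional_of_le h2

lemma uP_bound : ∃ C : ℝ, ∀ n, ‖uP b n‖ ≤ C := by
  obtain ⟨C, hC⟩ := UnconditionalSchauderBasis.exists_norm_proj_le b
  refine ⟨max C 1, fun n => ?_⟩
  refine ContinuousLinearMap.opNorm_le_bound _ (by positivity) fun p => ?_
  refine max_le ?_ ?_
  · refine ((b.proj (Finset.range n)).le_opNorm p.1).trans ?_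
    have h1 : ‖p.1‖ ≤ ‖p‖ := norm_fst_le p
    have h2 : ‖b.proj (Finset.range n)‖ ≤ max C 1 := (hC _).trans (le_max_left _ _)
    gcongr
  · show ‖p.2‖ ≤ _
    have h2 : ‖p.2‖ ≤ ‖p‖ := norm_snd_le p
    have h3 : (1 : ℝ) ≤ max C 1 := le_max_right _ _
    nlinarith [norm_nonneg p]

/-- the algebra data of the unitization -/
def uncData : AlgData (U × ℂ) where
  mul := umul b hb
  one := (0, 1)
  comm := umul_comm b hb
  assoc := umul_assoc b hb
  one_mul := umul_one_left b hb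
  one_ne := fun h => one_ne_zero (congrArg Prod.snd h)
  P := uP b
  P_one := uP_one b
  P_mul := uP_mul b hb
  P_P := uP_uP b
  C := (uP_bound b).choose
  P_le := (uP_bound b).choose_spec
  P_fin := uP_fin b
  P_tendsto := uP_tendsto b

include hb in
/-- the unitization with an equivalent norm, as a commutative Banach algebra with contractive
compatible finite rank projections that are algebra homomorphisms -/
theorem exists_alg : ∃ (A : Type u) (_ : NormedCommRing A) (_ : NormedAlgebra ℂ A)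
    (_ : NormOneClass A) (_ : CompleteSpace A) (P : ℕ → A →ₐ[ℂ] A) (Θ : A ≃L[ℂ] (U × ℂ)),
    (∀ n a, ‖P n a‖ ≤ ‖a‖) ∧ (∀ n m a, P n (P m a) = P (min n m) a) ∧
    (∀ n, FiniteDimensional ℂ (LinearMap.range (P n).toLinearMap)) ∧
    (∀ a, Tendsto (fun n => P n a) atTop (𝓝 a)) ∧
    Θ 1 = (0, 1) ∧
    (∀ a a' : A, Θ (a * a') = (cmul b (Θ a).1 (Θ a').1 + (Θ a).2 • (Θ a').1 + (Θ a').2 • (Θ a).1,
      (Θ a).2 * (Θ a').2)) ∧
    ∀ n a, Θ (P n a) = (b.proj (Finset.range n) (Θ a).1, (Θ a).2) :=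
  ⟨Ren (uncData b hb), inferInstance, inferInstance, inferInstance, inferInstance,
    renP (uncData b hb), renEquiv (uncData b hb), renP_le _, renP_renP _, renP_fin _,
    renP_tendsto _, rfl, fun _ _ => rfl, fun _ _ => rfl⟩

end Pool.Agent.CK
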