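import Mathlib

open Finset

namespace Pool.Agent.CK

/-- dependent choice along a finite chain of length `N` -/
theorem exists_chain {S : Type*} (N : ℕ) (P : ℕ → S → Prop) (Q : ℕ → S → S → Prop) (s0 : S)
    (h0 : P 0 s0) (hs : ∀ r s, r < N → P r s → ∃ s', P (r + 1) s' ∧ Q r s s') :
    ∃ f : ℕ → S, f 0 = s0 ∧ (∀ r ≤ N, P r (f r)) ∧ ∀ r < N, Q r (f r) (f (r + 1)) := by
  classical
  choose! g hg1 hg2 using hs
  refine ⟨fun n => Nat.rec s0 (fun r s => g r s) n, rfl, ?_, ?_⟩
  · intro r hr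
    induction r with
    | zero => exact h0
    | succ r ih => exact hg1 r _ (by omega) (ih (by omega))
  · intro r hr
    have hP : ∀ r ≤ N, P r (Nat.rec s0 (fun r s => g r s) r) := by
      intro r hr
      induction r with
      | zero => exact h0
      | succ r ih => exact hg1 r _ (by omega) (ih (by omega))
    exact hg2 r _ hr (hP r hr.le)

/-- lower bound for a chain functional on a dependent sequence: used for the exact pairs and for
the dependent sequence -/
theorem chain_lower {X : Type*} [NormedAddCommGroup X] [NormedSpace ℂ X] (n : ℕ) (m δ ε : ℝ)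
    (hm : 0 < m) (hε : 0 ≤ ε) (u : ℕ → X) (dd E : ℕ → X →L[ℂ] ℂ)
    (h1 : ∀ i < n, ‖dd i (∑ l ∈ range (i + 1), u l)‖ ≤ ε)
    (h2 : ∀ i < n, ∀ l < n, i < l → ‖dd i (u l)‖ ≤ ε)
    (h3 : ∀ i < n, ‖E i (∑ l ∈ range i, u l)‖ ≤ ε)
    (h4 : ∀ i < n, ∀ l < n, i < l → ‖E i (u l)‖ ≤ ε)
    (h5 : ∀ i < n, δ ≤ (E i (u i)).re) :
    (n : ℝ) / m * (δ - (n + 1) * ε) - n * ((n + 1) * ε) ≤
      ((∑ i ∈ range n, (dd i + ((1 / m : ℝ) : ℂ) • E i)) (∑ l ∈ range n, u l)).re := by
  have split1 : ∀ i < n, ∑ l ∈ range n, u l =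
      (∑ l ∈ range (i + 1), u l) + ∑ l ∈ Ico (i + 1) n, u l := by
    intro i hi
    rw [Finset.sum_range_add_sum_Ico _ (by omega : i + 1 ≤ n)]
  have tail : ∀ (φ : X →L[ℂ] ℂ) i, (∀ l < n, i < l → ‖φ (u l)‖ ≤ ε) →
      ‖φ (∑ l ∈ Ico (i + 1) n, u l)‖ ≤ n * ε := by
    intro φ i h
    rw [map_sum]
    refine (norm_sum_le _ _).trans ?_
    calc ∑ l ∈ Ico (i + 1) n, ‖φ (u l)‖ ≤ ∑ l ∈ Ico (i + 1) n, ε := by
          refine Finset.sum_le_sum fun l hl => ?_
          rw [Finset.mem_Ico] at hl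
          exact h l hl.2 (by omega)
      _ = ((n - (i + 1) : ℕ) : ℝ) * ε := by
          rw [Finset.sum_const, Nat.card_Ico, nsmul_eq_mul]
      _ ≤ n * ε := by
          refine mul_le_mul_of_nonneg_right ?_ hε
          exact_mod_cast Nat.sub_le _ _
  have hd : ∀ i < n, -((n + 1) * ε) ≤ (dd i (∑ l ∈ range n, u l)).re := by
    intro i hi
    have e1 : ‖dd i (∑ l ∈ range n, u l)‖ ≤ (n + 1) * ε := by
      rw [split1 i hi, map_add]
      refine (norm_add_le _ _).trans ?_
      have := tail (dd i) i (h2 i hi)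
      have := h1 i hi
      linarith
    have := (abs_le.1 ((Complex.abs_re_le_norm _).trans e1)).1
    exact this
  have hE : ∀ i < n, δ - (n + 1) * ε ≤ (E i (∑ l ∈ range n, u l)).re := by
    intro i hi
    have e1 : E i (∑ l ∈ range n, u l) = E i (∑ l ∈ range i, u l) + E i (u i) +
        E i (∑ l ∈ Ico (i + 1) n, u l) := by
      rw [split1 i hi, Finset.sum_range_succ, map_add, map_add]
    have e2 := (abs_le.1 ((Complex.abs_re_le_norm _).trans (h3 i hi))).1
    have e3 := (abs_le.1 ((Complex.abs_re_le_norm _).trans (tail (E i) i (h4 i hi)))).1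
    have e4 := h5 i hi
    rw [e1, Complex.add_re, Complex.add_re]
    linarith
  rw [_root_.sum_apply, Complex.re_sum]
  have key : ∀ i ∈ range n, (1 / m) * (δ - (n + 1) * ε) - (n + 1) * ε ≤
      ((dd i + ((1 / m : ℝ) : ℂ) • E i) (∑ l ∈ range n, u l)).re := by
    intro i hi
    rw [Finset.mem_range] at hi
    rw [_root_.add_apply, _root_.smul_apply, Complex.add_re, smul_eq_mul,
      Complex.re_ofReal_mul]
    have a1 := hd i hi
    have a2 := hE i hi
    have a3 : (1 / m) * (δ - (n + 1) * ε) ≤ (1 / m) * (E i (∑ l ∈ range n, u l)).re :=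
      mul_le_mul_of_nonneg_left a2 (by positivity)
    linarith
  have := Finset.sum_le_sum key
  rw [Finset.sum_const, card_range, nsmul_eq_mul] at this
  refine le_trans (le_of_eq ?_) this
  ring

end Pool.Agent.CK
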