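import Mathlib

/-!
MP_02927d_an, common definitions: parameters, filtered algebra, the operations `T s z` and `c * z`,
the sets `G`, `B`, and the structure `Sys` (tree of nodes with the vectors `e n`, `b n`, and RICH).
-/

open scoped BigOperators

namespace Pool.Agent.CK

/-! Parameters. -/

def mm (j : ℕ) : ℕ := 2 ^ (2 ^ (j + 1))
def tt (j : ℕ) : ℕ := 2 ^ (j + 1)
def nn : ℕ → ℕ
  | 0 => 16
  | j + 1 => mm (j + 1) ^ 2 * (nn j + 3) ^ (2 * tt (j + 1) + 3)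

/-- A commutative Banach algebra with contractive commuting algebra homomorphisms. -/
structure Filt (A : Type*) [NormedCommRing A] [NormedAlgebra ℂ A] where
  P : ℕ → A →ₐ[ℂ] A
  norm_le : ∀ n a, ‖P n a‖ ≤ ‖a‖
  comp : ∀ n m a, P n (P m a) = P (min n m) a
  fin : ∀ n, FiniteDimensional ℂ (LinearMap.range (P n).toLinearMap)
  tends : ∀ a, Filter.Tendsto (fun n => P n a) Filter.atTop (nhds a)

variable {A : Type*} [NormedCommRing A] [NormedAlgebra ℂ A]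

/-- `T_s z`: the part of `z` beyond `s`. -/
noncomputable def T (s : ℕ) (z : ℕ →₀ A) : ℕ →₀ A := z.filter (fun g => s < g)

/-- `c * z`: the function `g ↦ P_{p(g)}(c) z(g)`. -/
noncomputable def act (F : Filt A) (p : ℕ → ℕ) (c : A) (z : ℕ →₀ A) : ℕ →₀ A :=
  Finsupp.onFinset z.support (fun g => F.P (p g) c * z g) (by
    intro g h
    rw [Finsupp.mem_support_iff]
    intro h0
    exact h (by rw [h0, mul_zero]))

/-- the `l^1` norm -/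
noncomputable def l1 (z : ℕ →₀ A) : ℝ := z.sum fun _ a => ‖a‖

/-- the norming vectors built from the nodes `n` with `1 ≤ n < M`. -/
def GM (F : Filt A) (p : ℕ → ℕ) (e : ℕ → (ℕ →₀ A)) (M : ℕ) : Set (ℕ →₀ A) :=
  {z | ∃ n s c, 1 ≤ n ∧ n < M ∧ F.P s c = c ∧ ‖c‖ ≤ 1 ∧ z = act F p c (T s (e n))}

/-- their convex hull -/
def BM (F : Filt A) (p : ℕ → ℕ) (e : ℕ → (ℕ →₀ A)) (M : ℕ) : Set (ℕ →₀ A) :=
  convexHull ℝ (GM F p e M)

/-- all norming vectors -/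
def GA (F : Filt A) (p : ℕ → ℕ) (e : ℕ → (ℕ →₀ A)) : Set (ℕ →₀ A) :=
  {z | ∃ n s c, 1 ≤ n ∧ F.P s c = c ∧ ‖c‖ ≤ 1 ∧ z = act F p c (T s (e n))}

/-- their convex hull -/
def BA (F : Filt A) (p : ℕ → ℕ) (e : ℕ → (ℕ →₀ A)) : Set (ℕ →₀ A) :=
  convexHull ℝ (GA F p e)

/-- The system of nodes and vectors (0 is not a node). -/
structure Sys (A : Type*) [NormedCommRing A] [NormedAlgebra ℂ A] where
  F : Filt A
  /-- the cut of a node; for a successor it is the predecessor node -/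
  p : ℕ → ℕ
  root : ℕ → Prop
  /-- weight index -/
  j : ℕ → ℕ
  age : ℕ → ℕ
  /-- the node used by an odd node -/
  eta : ℕ → ℕ
  e : ℕ → (ℕ →₀ A)
  b : ℕ → (ℕ →₀ A)
  e_zero : e 0 = 0
  p_lt : ∀ n, 1 ≤ n → p n < n
  j_le : ∀ n, 1 ≤ n → j n ≤ n
  age_le : ∀ n, 1 ≤ n → age n ≤ nn (j n)
  age_root : ∀ n, 1 ≤ n → root n → age n = 1
  age_succ : ∀ n, 1 ≤ n → ¬ root n → age n = age (p n) + 1
  p_pos : ∀ n, 1 ≤ n → ¬ root n → 1 ≤ p n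
  j_succ : ∀ n, 1 ≤ n → ¬ root n → j n = j (p n)
  e_root : ∀ n, 1 ≤ n → root n →
    e n = Finsupp.single n 1 + ((mm (j n) : ℂ)⁻¹) • T (p n) (b n)
  e_succ : ∀ n, 1 ≤ n → ¬ root n →
    e n = e (p n) + Finsupp.single n 1 + ((mm (j n) : ℂ)⁻¹) • T (p n) (b n)
  b_mem : ∀ n, 1 ≤ n → b n ∈ BM F p e n ∨ b n = 0
  b_odd : ∀ n, 1 ≤ n → ¬ Even (j n) → b n = e (eta n)
  eta_lt : ∀ n, 1 ≤ n → ¬ Even (j n) → p n < eta n ∧ eta n < n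
  eta_root : ∀ n, 1 ≤ n → ¬ Even (j n) → root n →
    j (eta n) % 4 = 2 ∧ nn (j n) ^ 2 ≤ mm (j (eta n))
  eta_succ : ∀ n, 1 ≤ n → ¬ Even (j n) → ¬ root n → j (eta n) = 4 * p n
  rich_root : ∀ (N q i : ℕ) (z : ℕ →₀ A) (ε : ℝ), Even i → z ∈ BA F p e → 0 < ε →
    ∃ n, N < n ∧ root n ∧ p n = q ∧ j n = i ∧ l1 (b n - z) ≤ ε
  rich_succ : ∀ (N ξ : ℕ) (z : ℕ →₀ A) (ε : ℝ), 1 ≤ ξ → Even (j ξ) → age ξ < nn (j ξ) →
    z ∈ BA F p e → 0 < ε → ∃ n, N < n ∧ ¬ root n ∧ p n = ξ ∧ j n = j ξ ∧ l1 (b n - z) ≤ ε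
  rich_odd_root : ∀ (N q i η : ℕ), ¬ Even i → q < η → j η % 4 = 2 → nn i ^ 2 ≤ mm (j η) →
    ∃ n, N < n ∧ root n ∧ p n = q ∧ j n = i ∧ eta n = η
  rich_odd_succ : ∀ (N ξ η : ℕ), 1 ≤ ξ → ¬ Even (j ξ) → age ξ < nn (j ξ) → ξ < η →
    j η = 4 * ξ → ∃ n, N < n ∧ ¬ root n ∧ p n = ξ ∧ j n = j ξ ∧ eta n = η

/-- all norming vectors -/
def Sys.G (S : Sys A) : Set (ℕ →₀ A) := GA S.F S.p S.e

/-- norming vectors of weight `i` -/
def Sys.Gw (S : Sys A) (i : ℕ) : Set (ℕ →₀ A) :=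
  {z | ∃ n s c, 1 ≤ n ∧ S.j n = i ∧ S.F.P s c = c ∧ ‖c‖ ≤ 1 ∧ z = act S.F S.p c (T s (S.e n))}

/-- the convex hull of `G` -/
def Sys.B (S : Sys A) : Set (ℕ →₀ A) := BA S.F S.p S.e

end Pool.Agent.CK
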