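import Mathlib

/-!
# Abstract chain estimate, step (star) of the key proposition (MP_02927d_an)

`Z t n` stands for the functional `c * T_t e_n`, `Dl t n` for `c * T_t d_n`, with a fixed `c`.
-/

set_option autoImplicit false

namespace CK
namespace Star

open Finset

/-- Sum of nonnegative quantities which are small except for one index value. -/
theorem sum_le_of_exact {I : Finset ℕ} {a : ℕ → ℝ} {i : ℕ → ℕ} {h' : ℕ} {K η : ℝ}
    (hη : 0 ≤ η) (hinj : Set.InjOn i (I : Set ℕ))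
    (h1 : ∀ r ∈ I, a r ≤ 2 * K) (h2 : ∀ r ∈ I, i r ≠ h' → a r ≤ η) :
    ∑ r ∈ I, a r ≤ I.card * η + (if ∃ r ∈ I, i r = h' then 2 * K else 0) := by
  classical
  by_cases hex : ∃ r ∈ I, i r = h'
  · rw [if_pos hex]
    obtain ⟨r0, hr0, hi0⟩ := hex
    rw [← Finset.sum_erase_add I a hr0]
    have hs : ∑ r ∈ I.erase r0, a r ≤ ∑ r ∈ I.erase r0, η := by
      refine Finset.sum_le_sum ?_
      intro r hr
      have hrI := Finset.mem_of_mem_erase hr
      refine h2 r hrI ?_
      intro hir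
      exact (Finset.ne_of_mem_erase hr) (hinj hrI hr0 (hir.trans hi0.symm))
    have hc : ∑ r ∈ I.erase r0, η ≤ I.card * η := by
      rw [Finset.sum_const, nsmul_eq_mul]
      refine mul_le_mul_of_nonneg_right ?_ hη
      exact_mod_cast Finset.card_erase_le
    have := h1 r0 hr0
    linarith
  · rw [if_neg hex, add_zero]
    have hs : ∑ r ∈ I, a r ≤ ∑ r ∈ I, η := by
      refine Finset.sum_le_sum ?_
      intro r hr
      exact h2 r hr (fun h => hex ⟨r, hr, h⟩)
    rw [Finset.sum_const, nsmul_eq_mul] at hs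
    exact hs

/-- Chain induction. -/
theorem chain_le {wt root Xi exc : ℕ → Prop} {p age : ℕ → ℕ} {F Dv Ev : ℕ → ℂ}
    {m A B δ1 δ2 : ℝ} (hm : 0 < m) (hA : 0 ≤ A) (hB : 0 ≤ B) (h1 : 0 ≤ δ1) (h2 : 0 ≤ δ2)
    (hlt : ∀ g, wt g → ¬ root g → p g < g)
    (hwt : ∀ g, wt g → ¬ root g → wt (p g))
    (hage : ∀ g, wt g → ¬ root g → age g = age (p g) + 1)
    (hage1 : ∀ g, wt g → root g → age g = 1)
    (hroot : ∀ g, wt g → root g → F g = Dv g + Ev g / (m : ℂ))
    (hsucc : ∀ g, wt g → ¬ root g → F g = F (p g) + Dv g + Ev g / (m : ℂ))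
    (hXi : ∀ g, wt g → Xi g → ‖F g‖ ≤ A)
    (hD : ∀ g, wt g → ¬ Xi g → ‖Dv g‖ ≤ δ1)
    (hE : ∀ g, wt g → ¬ Xi g → ‖Ev g‖ ≤ δ2 + B)
    (hE' : ∀ g, wt g → ¬ Xi g → ¬ exc g → ‖Ev g‖ ≤ δ2)
    (hexc : ∀ g, wt g → ¬ Xi g → exc g → root g ∨ Xi (p g))
    (g : ℕ) (hg : wt g) :
    ‖F g‖ ≤ A + B / m + age g * (δ1 + δ2 / m) := by
  classical
  have hBm : 0 ≤ B / m := by positivity
  have hδ : 0 ≤ δ1 + δ2 / m := by positivity
  have key : ∀ g, wt g → ‖F g‖ ≤ A + (if Xi g then 0 else B / m) + age g * (δ1 + δ2 / m) := by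
    intro g
    induction g using Nat.strong_induction_on with
    | _ g ih =>
      intro hg
      by_cases hx : Xi g
      · rw [if_pos hx]
        have h := hXi g hg hx
        have : 0 ≤ (age g : ℝ) * (δ1 + δ2 / m) := by positivity
        linarith
      · rw [if_neg hx]
        have hEm : ‖Ev g / (m : ℂ)‖ = ‖Ev g‖ / m := by
          rw [norm_div, Complex.norm_real, Real.norm_of_nonneg hm.le]
        have hEd : ‖Ev g‖ / m ≤ (δ2 + B) / m :=
          div_le_div_of_nonneg_right (hE g hg hx) hm.le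
        have hDg := hD g hg hx
        have hsplit : (δ2 + B) / m = δ2 / m + B / m := add_div _ _ _
        by_cases hr : root g
        · rw [hroot g hg hr, hage1 g hg hr]
          have h3 : ‖Dv g + Ev g / (m : ℂ)‖ ≤ ‖Dv g‖ + ‖Ev g‖ / m := by
            rw [← hEm]; exact norm_add_le _ _
          push_cast
          linarith
        · rw [hsucc g hg hr, hage g hg hr]
          have h3 : ‖F (p g) + Dv g + Ev g / (m : ℂ)‖ ≤ ‖F (p g)‖ + ‖Dv g‖ + ‖Ev g‖ / m := by
            rw [← hEm]; exact norm_add₃_le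
          have hpa : 0 ≤ (age (p g) : ℝ) * (δ1 + δ2 / m) := by positivity
          by_cases hxp : Xi (p g)
          · have h4 := hXi (p g) (hwt g hg hr) hxp
            push_cast
            nlinarith [h3, h4, hEd, hDg, hpa, hsplit]
          · have h4 := ih (p g) (hlt g hg hr) (hwt g hg hr)
            rw [if_neg hxp] at h4
            have hne : ¬ exc g := by
              intro he
              rcases hexc g hg hx he with h | h
              · exact hr h
              · exact hxp h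
            have hEd' : ‖Ev g‖ / m ≤ δ2 / m :=
              div_le_div_of_nonneg_right (hE' g hg hx hne) hm.le
            push_cast
            nlinarith [h3, h4, hEd', hDg]
  have h := key g hg
  have : (if Xi g then 0 else B / m) ≤ B / m := by
    split_ifs
    · exact hBm
    · exact le_rfl
  linarith

/-- Data of a dependent sequence, seen through the functionals `Z t n = c * T_t e_n`
(fixed `c`), `Dl t n = c * T_t d_n`. -/
structure Dep {V : Type*} [AddCommGroup V] [Module ℂ V] (Z Dl : ℕ → ℕ → V →ₗ[ℂ] ℂ)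
    (root : ℕ → Prop) (p j age η : ℕ → ℕ) (mm : ℕ → ℝ) (j0 N0 : ℕ) (K eps : ℝ)
    (xi : ℕ → ℕ) (y : ℕ → V) : Prop where
  N0pos : 1 ≤ N0
  Knonneg : 0 ≤ K
  epsnonneg : 0 ≤ eps
  mm_mono : Monotone mm
  mm_one : ∀ h, 1 ≤ mm h
  p_lt : ∀ n, j n = j0 → p n < n
  p_lt_eta : ∀ n, j n = j0 → p n < η n
  eta_lt : ∀ n, j n = j0 → η n < n
  j_le : ∀ n, j n ≤ n
  j_pred : ∀ n, j n = j0 → ¬ root n → j (p n) = j0
  age_pred : ∀ n, j n = j0 → ¬ root n → age n = age (p n) + 1
  age_root : ∀ n, j n = j0 → root n → age n = 1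
  age_le : ∀ n, j n = j0 → age n ≤ N0
  eta_root : ∀ n, j n = j0 → root n → j (η n) % 4 = 2 ∧ (N0 : ℝ) ^ 2 ≤ mm (j (η n))
  eta_succ : ∀ n, j n = j0 → ¬ root n → j (η n) = 4 * p n
  Z_root : ∀ t n, j n = j0 → root n →
    Z t n = Dl t n + ((mm j0 : ℝ) : ℂ)⁻¹ • Z (max t (p n)) (η n)
  Z_succ : ∀ t n, j n = j0 → ¬ root n →
    Z t n = Z t (p n) + Dl t n + ((mm j0 : ℝ) : ℂ)⁻¹ • Z (max t (p n)) (η n)
  Z_zero : ∀ t n, n ≤ t → Z t n = 0
  xi_zero : xi 0 = 0
  xi_j : ∀ r, 1 ≤ r → r ≤ N0 → j (xi r) = j0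
  xi_root : root (xi 1)
  xi_succ : ∀ r, 1 ≤ r → r < N0 → ¬ root (xi (r + 1))
  xi_p : ∀ r, 1 ≤ r → r ≤ N0 → p (xi r) = xi (r - 1)
  y_lt : ∀ r, 1 ≤ r → r ≤ N0 → ∀ t n, j n < j (η (xi r)) → ‖Z t n (y r)‖ ≤ 2 * K / mm (j n)
  y_gt : ∀ r, 1 ≤ r → r ≤ N0 → ∀ t n, j (η (xi r)) < j n →
    ‖Z t n (y r)‖ ≤ 2 * K / mm (j (η (xi r)))
  y_le : ∀ r, 1 ≤ r → r ≤ N0 → ∀ t n, ‖Z t n (y r)‖ ≤ 2 * K
  y_d : ∀ r, 1 ≤ r → r ≤ N0 → ∀ t n, ‖Dl t n (y r)‖ ≤ 2 * K / mm (j (η (xi r)))
  y_d_zero : ∀ r, 1 ≤ r → r ≤ N0 → ∀ t n, (n ≤ xi (r - 1) ∨ xi r ≤ n) → Dl t n (y r) = 0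
  y_other : ∀ r, 1 ≤ r → r ≤ N0 → ∀ r', 1 ≤ r' → r' ≤ N0 → r ≠ r' → ∀ t,
    xi (r - 1) ≤ t → Z t (η (xi r)) (y r') = 0

namespace Dep

variable {V : Type*} [AddCommGroup V] [Module ℂ V] {Z Dl : ℕ → ℕ → V →ₗ[ℂ] ℂ}
  {root : ℕ → Prop} {p j age η : ℕ → ℕ} {mm : ℕ → ℝ} {j0 N0 : ℕ} {K eps : ℝ}
  {xi : ℕ → ℕ} {y : ℕ → V}

theorem xi_lt (h : Dep Z Dl root p j age η mm j0 N0 K eps xi y) {r : ℕ} (h1 : 1 ≤ r)
    (h2 : r ≤ N0) : xi (r - 1) < xi r := by
  rw [← h.xi_p r h1 h2]
  exact h.p_lt _ (h.xi_j r h1 h2)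

theorem xi_mono (h : Dep Z Dl root p j age η mm j0 N0 K eps xi y) {r r' : ℕ}
    (hr : r ≤ r') (h2 : r' ≤ N0) : xi r ≤ xi r' := by
  induction r' with
  | zero => simp only [Nat.le_zero] at hr; rw [hr]
  | succ k ih =>
    rcases Nat.lt_or_ge r (k + 1) with h3 | h3
    · have h4 := ih (by omega) (by omega)
      have h5 := h.xi_lt (r := k + 1) (by omega) h2
      simp only [Nat.add_sub_cancel] at h5
      omega
    · have : r = k + 1 := by omega
      rw [this]

theorem xi_strict (h : Dep Z Dl root p j age η mm j0 N0 K eps xi y) {r r' : ℕ}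
    (hr : r < r') (h2 : r' ≤ N0) : xi r < xi r' := by
  have h3 := h.xi_mono (r := r) (r' := r' - 1) (by omega) (by omega)
  have h4 := h.xi_lt (r := r') (by omega) h2
  omega

/-- the weight of `eta_r` -/
theorem ir_one (h : Dep Z Dl root p j age η mm j0 N0 K eps xi y) :
    j (η (xi 1)) % 4 = 2 ∧ (N0 : ℝ) ^ 2 ≤ mm (j (η (xi 1))) :=
  h.eta_root _ (h.xi_j 1 le_rfl h.N0pos) h.xi_root

theorem ir_succ (h : Dep Z Dl root p j age η mm j0 N0 K eps xi y) {r : ℕ} (h1 : 2 ≤ r)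
    (h2 : r ≤ N0) : j (η (xi r)) = 4 * xi (r - 1) := by
  have h3 := h.xi_succ (r - 1) (by omega) (by omega)
  have h4 : r - 1 + 1 = r := by omega
  rw [h4] at h3
  rw [h.eta_succ _ (h.xi_j r (by omega) h2) h3, h.xi_p r (by omega) h2]

theorem ir_le (h : Dep Z Dl root p j age η mm j0 N0 K eps xi y) {r : ℕ} (h1 : 1 ≤ r)
    (h2 : r ≤ N0) : j (η (xi 1)) ≤ j (η (xi r)) := by
  rcases Nat.lt_or_ge r 2 with h3 | h3
  · have : r = 1 := by omega
    rw [this]
  · rw [h.ir_succ h3 h2]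
    have h4 := h.j_le (η (xi 1))
    have h5 := h.eta_lt _ (h.xi_j 1 le_rfl h.N0pos)
    have h6 := h.xi_mono (r := 1) (r' := r - 1) (by omega) (by omega)
    omega

theorem ir_inj (h : Dep Z Dl root p j age η mm j0 N0 K eps xi y) {r r' : ℕ} (h1 : 1 ≤ r)
    (h2 : r < r') (h3 : r' ≤ N0) : j (η (xi r)) ≠ j (η (xi r')) := by
  intro he
  rw [h.ir_succ (r := r') (by omega) h3] at he
  rcases Nat.lt_or_ge r 2 with h4 | h4
  · have h5 : r = 1 := by omega
    have h6 := h.ir_one.1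
    rw [h5] at he
    omega
  · rw [h.ir_succ h4 (by omega)] at he
    have h7 := h.xi_strict (r := r - 1) (r' := r' - 1) (by omega) (by omega)
    omega

theorem mm_ir (h : Dep Z Dl root p j age η mm j0 N0 K eps xi y) {r : ℕ} (h1 : 1 ≤ r)
    (h2 : r ≤ N0) : (N0 : ℝ) ^ 2 ≤ mm (j (η (xi r))) :=
  h.ir_one.2.trans (h.mm_mono (h.ir_le h1 h2))

/-- every node of weight `j0` has a root of the same chain below it, hence is large -/
theorem mm_four (h : Dep Z Dl root p j age η mm j0 N0 K eps xi y) (g : ℕ) (hg : j g = j0) :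
    (N0 : ℝ) ^ 2 ≤ mm (4 * g) := by
  induction g using Nat.strong_induction_on with
  | _ g ih =>
    by_cases hr : root g
    · have h1 := (h.eta_root g hg hr).2
      refine h1.trans (h.mm_mono ?_)
      have h2 := h.j_le (η g)
      have h3 := h.eta_lt g hg
      omega
    · have h1 := ih (p g) (h.p_lt g hg) (h.j_pred g hg hr)
      refine h1.trans (h.mm_mono ?_)
      have := h.p_lt g hg
      omega

theorem mm_eta (h : Dep Z Dl root p j age η mm j0 N0 K eps xi y) (g : ℕ) (hg : j g = j0) :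
    (N0 : ℝ) ^ 2 ≤ mm (j (η g)) := by
  by_cases hr : root g
  · exact (h.eta_root g hg hr).2
  · rw [h.eta_succ g hg hr]
    exact h.mm_four (p g) (h.j_pred g hg hr)

/-- values of `Z t n` on `y r` when the weights differ and both are large -/
theorem Z_small (h : Dep Z Dl root p j age η mm j0 N0 K eps xi y) {r : ℕ} (h1 : 1 ≤ r)
    (h2 : r ≤ N0) (t n : ℕ) (hn : (N0 : ℝ) ^ 2 ≤ mm (j n)) (hne : j (η (xi r)) ≠ j n) :
    ‖Z t n (y r)‖ ≤ 2 * K / (N0 : ℝ) ^ 2 := by
  have hN : (0 : ℝ) < (N0 : ℝ) ^ 2 := by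
    have : (0 : ℝ) < N0 := by exact_mod_cast h.N0pos
    positivity
  have hK := h.Knonneg
  rcases Nat.lt_or_gt_of_ne hne with h3 | h3
  · refine (h.y_gt r h1 h2 t n h3).trans ?_
    exact div_le_div_of_nonneg_left (by positivity) hN (h.mm_ir h1 h2)
  · refine (h.y_lt r h1 h2 t n h3).trans ?_
    exact div_le_div_of_nonneg_left (by positivity) hN hn

/-- the `d`-part: at most one `y r` sees the node `g` -/
theorem D_small (h : Dep Z Dl root p j age η mm j0 N0 K eps xi y) {I : Finset ℕ}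
    (hI : ∀ r ∈ I, 1 ≤ r ∧ r ≤ N0) (t g : ℕ) :
    ‖Dl t g (∑ r ∈ I, y r)‖ ≤ 2 * K / (N0 : ℝ) ^ 2 := by
  classical
  have hN : (0 : ℝ) < (N0 : ℝ) ^ 2 := by
    have : (0 : ℝ) < N0 := by exact_mod_cast h.N0pos
    positivity
  have hK := h.Knonneg
  rw [map_sum]
  by_cases hex : ∃ r ∈ I, xi (r - 1) < g ∧ g < xi r
  · obtain ⟨r0, hr0, ha, hb⟩ := hex
    rw [Finset.sum_eq_single r0]
    · obtain ⟨h1, h2⟩ := hI r0 hr0
      refine (h.y_d r0 h1 h2 t g).trans ?_
      exact div_le_div_of_nonneg_left (by positivity) hN (h.mm_ir h1 h2)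
    · intro r hr hne
      obtain ⟨h1, h2⟩ := hI r hr
      obtain ⟨h3, h4⟩ := hI r0 hr0
      refine h.y_d_zero r h1 h2 t g ?_
      rcases Nat.lt_or_gt_of_ne hne with h5 | h5
      · right
        have := h.xi_mono (r := r) (r' := r0 - 1) (by omega) (by omega)
        omega
      · left
        have := h.xi_mono (r := r0) (r' := r - 1) (by omega) (by omega)
        omega
    · intro hn
      exact absurd hr0 hn
  · rw [Finset.sum_eq_zero]
    · rw [norm_zero]; positivity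
    · intro r hr
      obtain ⟨h1, h2⟩ := hI r hr
      refine h.y_d_zero r h1 h2 t g ?_
      by_contra hcon
      push Not at hcon
      exact hex ⟨r, hr, hcon.1, hcon.2⟩

/-- the value on the chain of the `xi r` -/
theorem xi_bound (h : Dep Z Dl root p j age η mm j0 N0 K eps xi y) {I : Finset ℕ}
    (hI : ∀ r ∈ I, 1 ≤ r ∧ r ≤ N0) (t : ℕ)
    (hye : ∀ r, 1 ≤ r → r ≤ N0 → t ≤ xi (r - 1) → ‖Z (xi (r - 1)) (η (xi r)) (y r)‖ ≤ eps)
    (r : ℕ) (h1 : 1 ≤ r) (h2 : r ≤ N0) :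
    ‖Z t (xi r) (∑ k ∈ I, y k)‖ ≤ r * (eps / mm j0) + 2 * K / mm j0 := by
  classical
  have hm : 0 < mm j0 := lt_of_lt_of_le one_pos (h.mm_one j0)
  have hK := h.Knonneg
  have he := h.epsnonneg
  -- the `d`-part vanishes at `xi r`
  have hd : ∀ r, 1 ≤ r → r ≤ N0 → Dl t (xi r) (∑ k ∈ I, y k) = 0 := by
    intro r h1 h2
    rw [map_sum]
    refine Finset.sum_eq_zero ?_
    intro k hk
    obtain ⟨h3, h4⟩ := hI k hk
    refine h.y_d_zero k h3 h4 t _ ?_
    rcases Nat.lt_or_ge r k with h5 | h5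
    · left
      exact h.xi_mono (by omega) (by omega)
    · right
      exact h.xi_mono h5 h2
  -- the `e`-part
  have hE1 : ∀ r, 1 ≤ r → r ≤ N0 →
      ‖Z (max t (p (xi r))) (η (xi r)) (∑ k ∈ I, y k)‖ ≤ 2 * K := by
    intro r h1 h2
    rw [map_sum, h.xi_p r h1 h2]
    by_cases hrI : r ∈ I
    · rw [Finset.sum_eq_single r]
      · exact h.y_le r h1 h2 _ _
      · intro k hk hne
        obtain ⟨h3, h4⟩ := hI k hk
        exact h.y_other r h1 h2 k h3 h4 (fun e => hne e.symm) _ (le_max_right _ _)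
      · intro hn
        exact absurd hrI hn
    · rw [Finset.sum_eq_zero]
      · rw [norm_zero]; positivity
      · intro k hk
        obtain ⟨h3, h4⟩ := hI k hk
        refine h.y_other r h1 h2 k h3 h4 ?_ _ (le_max_right _ _)
        intro e
        rw [e] at hrI
        exact hrI hk
  have hE2 : ∀ r, 1 ≤ r → r ≤ N0 → t ≤ xi (r - 1) →
      ‖Z (max t (p (xi r))) (η (xi r)) (∑ k ∈ I, y k)‖ ≤ eps := by
    intro r h1 h2 ht
    rw [map_sum, h.xi_p r h1 h2]
    by_cases hrI : r ∈ I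
    · rw [Finset.sum_eq_single r]
      · rw [max_eq_right ht]; exact hye r h1 h2 ht
      · intro k hk hne
        obtain ⟨h3, h4⟩ := hI k hk
        exact h.y_other r h1 h2 k h3 h4 (fun e => hne e.symm) _ (le_max_right _ _)
      · intro hn
        exact absurd hrI hn
    · rw [Finset.sum_eq_zero]
      · rw [norm_zero]; exact he
      · intro k hk
        obtain ⟨h3, h4⟩ := hI k hk
        refine h.y_other r h1 h2 k h3 h4 ?_ _ (le_max_right _ _)
        intro e
        rw [e] at hrI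
        exact hrI hk
  have hinv : ∀ z : ℂ, ‖((mm j0 : ℝ) : ℂ)⁻¹ * z‖ = ‖z‖ / mm j0 := by
    intro z
    rw [norm_mul, norm_inv, Complex.norm_real, Real.norm_of_nonneg hm.le, div_eq_inv_mul]
  have hepsm : 0 ≤ eps / mm j0 := by positivity
  have hKm : 0 ≤ 2 * K / mm j0 := by positivity
  induction r with
  | zero => omega
  | succ r ih =>
    by_cases hr0 : r = 0
    · subst hr0
      simp only [zero_add] at *
      rw [h.Z_root t _ (h.xi_j 1 le_rfl h.N0pos) h.xi_root]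
      rw [LinearMap.add_apply, LinearMap.smul_apply, hd 1 le_rfl h.N0pos, zero_add, smul_eq_mul,
        hinv]
      have h3 := div_le_div_of_nonneg_right (hE1 1 le_rfl h.N0pos) hm.le
      push_cast
      linarith
    · have h3 := ih (by omega) (by omega)
      have hns := h.xi_succ r (by omega) (by omega)
      rw [h.Z_succ t _ (h.xi_j (r + 1) h1 h2) hns]
      have hp := h.xi_p (r + 1) h1 h2
      simp only [Nat.add_sub_cancel] at hp
      rw [LinearMap.add_apply, LinearMap.add_apply, LinearMap.smul_apply, hd (r + 1) h1 h2,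
        add_zero, smul_eq_mul]
      by_cases ht : t < xi r
      · have h4 := hE2 (r + 1) h1 h2 (by simp only [Nat.add_sub_cancel]; omega)
        have h5 := div_le_div_of_nonneg_right h4 hm.le
        have h6 := norm_add_le (Z t (p (xi (r + 1))) (∑ k ∈ I, y k))
          (((mm j0 : ℝ) : ℂ)⁻¹ * Z (max t (p (xi (r + 1)))) (η (xi (r + 1))) (∑ k ∈ I, y k))
        rw [hinv] at h6
        rw [hp] at h6 h5 ⊢
        push_cast
        linarith
      · have h4 : Z t (p (xi (r + 1))) = 0 := by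
          rw [hp]
          exact h.Z_zero t _ (by omega)
        rw [h4, LinearMap.zero_apply, zero_add, hinv]
        have h5 := div_le_div_of_nonneg_right (hE1 (r + 1) h1 h2) hm.le
        have h6 : 0 ≤ ((r + 1 : ℕ) : ℝ) * (eps / mm j0) := by positivity
        linarith

/-- **Step (star)**: functionals of weight `j0` are bounded by `10 K` on all sums of the `y r`. -/
theorem star (h : Dep Z Dl root p j age η mm j0 N0 K eps xi y)
    (heps : (N0 : ℝ) * eps ≤ mm j0 * K) {I : Finset ℕ}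
    (hI : ∀ r ∈ I, 1 ≤ r ∧ r ≤ N0) (t g : ℕ) (hg : j g = j0)
    (hye : ∀ r, 1 ≤ r → r ≤ N0 → t ≤ xi (r - 1) → ‖Z (xi (r - 1)) (η (xi r)) (y r)‖ ≤ eps) :
    ‖Z t g (∑ k ∈ I, y k)‖ ≤ 10 * K := by
  classical
  have hm1 := h.mm_one j0
  have hm : 0 < mm j0 := lt_of_lt_of_le one_pos hm1
  have hK := h.Knonneg
  have he := h.epsnonneg
  have hNr : (1 : ℝ) ≤ N0 := by exact_mod_cast h.N0pos
  have hN : (0 : ℝ) < (N0 : ℝ) ^ 2 := by positivity
  have hcard : (I.card : ℝ) ≤ N0 := by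
    have h1 : I ⊆ Finset.Icc 1 N0 := by
      intro r hr
      rw [Finset.mem_Icc]
      exact hI r hr
    have h2 := Finset.card_le_card h1
    rw [Nat.card_Icc, Nat.add_sub_cancel] at h2
    exact_mod_cast h2
  have hinj : Set.InjOn (fun r => j (η (xi r))) (I : Set ℕ) := by
    intro r hr r' hr' he
    by_contra hne
    rcases Nat.lt_or_gt_of_ne hne with h1 | h1
    · exact h.ir_inj (hI r hr).1 h1 (hI r' hr').2 he
    · exact h.ir_inj (hI r' hr').1 h1 (hI r hr).2 he.symm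
  -- bound for the `e`-part at a general node
  have hEgen : ∀ g, j g = j0 → ‖Z (max t (p g)) (η g) (∑ k ∈ I, y k)‖ ≤
      I.card * (2 * K / (N0 : ℝ) ^ 2) +
        (if ∃ r ∈ I, j (η (xi r)) = j (η g) then 2 * K else 0) := by
    intro g hg
    rw [map_sum]
    refine (norm_sum_le _ _).trans ?_
    refine sum_le_of_exact (i := fun r => j (η (xi r))) (by positivity) hinj ?_ ?_
    · intro r hr
      exact h.y_le r (hI r hr).1 (hI r hr).2 _ _
    · intro r hr hne
      exact h.Z_small (hI r hr).1 (hI r hr).2 _ _ (h.mm_eta g hg) hne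
  have hc1 : (I.card : ℝ) * (2 * K / (N0 : ℝ) ^ 2) ≤ 2 * K / N0 := by
    have h1 : (I.card : ℝ) * (2 * K / (N0 : ℝ) ^ 2) ≤ N0 * (2 * K / (N0 : ℝ) ^ 2) :=
      mul_le_mul_of_nonneg_right hcard (by positivity)
    have h2 : (N0 : ℝ) * (2 * K / (N0 : ℝ) ^ 2) = 2 * K / N0 := by
      field_simp
    linarith
  have hmain := chain_le (wt := fun g => j g = j0) (root := root)
    (Xi := fun g => ∃ r, 1 ≤ r ∧ r ≤ N0 ∧ xi r = g)
    (exc := fun g => ∃ r ∈ I, j (η (xi r)) = j (η g)) (p := p) (age := age)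
    (F := fun g => Z t g (∑ k ∈ I, y k)) (Dv := fun g => Dl t g (∑ k ∈ I, y k))
    (Ev := fun g => Z (max t (p g)) (η g) (∑ k ∈ I, y k))
    (m := mm j0) (A := N0 * (eps / mm j0) + 2 * K / mm j0) (B := 2 * K)
    (δ1 := 2 * K / (N0 : ℝ) ^ 2) (δ2 := 2 * K / N0)
    hm (by positivity) (by positivity) (by positivity) (by positivity)
    (fun g hg _ => h.p_lt g hg) (fun g hg hr => h.j_pred g hg hr)
    (fun g hg hr => h.age_pred g hg hr) (fun g hg hr => h.age_root g hg hr)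
    (by
      intro g hg hr
      rw [h.Z_root t g hg hr, LinearMap.add_apply, LinearMap.smul_apply, smul_eq_mul,
        div_eq_inv_mul])
    (by
      intro g hg hr
      rw [h.Z_succ t g hg hr, LinearMap.add_apply, LinearMap.add_apply, LinearMap.smul_apply,
        smul_eq_mul, div_eq_inv_mul])
    (by
      rintro g hg ⟨r, h1, h2, rfl⟩
      refine (h.xi_bound hI t hye r h1 h2).trans ?_
      have h3 : (r : ℝ) ≤ N0 := by exact_mod_cast h2
      have h4 : (r : ℝ) * (eps / mm j0) ≤ N0 * (eps / mm j0) :=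
        mul_le_mul_of_nonneg_right h3 (by positivity)
      linarith)
    (fun g _ _ => h.D_small hI t g)
    (by
      intro g hg _
      refine (hEgen g hg).trans ?_
      have : (if ∃ r ∈ I, j (η (xi r)) = j (η g) then 2 * K else 0) ≤ 2 * K := by
        split_ifs
        · exact le_rfl
        · positivity
      linarith)
    (by
      intro g hg _ hne
      have h3 := hEgen g hg
      rw [if_neg hne] at h3
      linarith)
    (by
      rintro g hg hnx ⟨r, hr, he⟩
      by_cases hrt : root g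
      · left; exact hrt
      · right
        rw [h.eta_succ g hg hrt] at he
        obtain ⟨h1, h2⟩ := hI r hr
        have h3 : 2 ≤ r := by
          by_contra hcon
          have h4 : r = 1 := by omega
          have h5 := h.ir_one.1
          rw [h4] at he
          omega
        rw [h.ir_succ h3 h2] at he
        exact ⟨r - 1, by omega, by omega, by omega⟩)
    g hg
  change ‖Z t g (∑ k ∈ I, y k)‖ ≤ _ at hmain
  refine hmain.trans ?_
  have hage : (age g : ℝ) ≤ N0 := by exact_mod_cast h.age_le g hg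
  have hb1 : 2 * K / mm j0 ≤ 2 * K := div_le_self (by positivity) hm1
  have hb2 : (N0 : ℝ) * (eps / mm j0) ≤ K := by
    rw [← mul_div_assoc, div_le_iff₀ hm]
    linarith
  have hb3 : (age g : ℝ) * (2 * K / (N0 : ℝ) ^ 2 + 2 * K / N0 / mm j0) ≤
      N0 * (2 * K / (N0 : ℝ) ^ 2 + 2 * K / N0 / mm j0) :=
    mul_le_mul_of_nonneg_right hage (by positivity)
  have hb4 : (N0 : ℝ) * (2 * K / (N0 : ℝ) ^ 2 + 2 * K / N0 / mm j0) =
      2 * K / N0 + 2 * K / mm j0 := by
    field_simp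
  have hb5 : 2 * K / (N0 : ℝ) ≤ 2 * K := div_le_self (by positivity) hNr
  linarith

end Dep

end Star
end CK
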