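import Pool.Agent.Work.MP_02927d_an.RisB
import Pool.Agent.Work.MP_02927d_an.StarAbs
import Pool.Agent.Work.MP_02927d_an.Chain

/-!
MP_02927d_an, the key proposition from exact pairs (step 6 of the proof), in the abstract
interface.
-/

namespace Pool.Agent.CK

open Finset

/-- numeric end of the key proposition -/
theorem key_final (n0 : ℕ) (m0 K δ ε TN FN YN L : ℝ) (hn : 0 < n0) (hm : 0 < m0) (hK : 0 < K)
    (hδ : 0 < δ) (hε : ε * (2 * (n0 + 1) * (m0 + 1)) ≤ δ)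
    (hT : 0 ≤ TN) (hF : FN ≤ 1) (hY : YN ≤ 14 * K * n0 / m0 ^ 2) (hY0 : 0 ≤ YN)
    (hlow : (n0 : ℝ) / m0 * (δ - (n0 + 1) * ε) - n0 * ((n0 + 1) * ε) ≤ L)
    (hup : L ≤ FN * (TN * YN)) : m0 ≤ 28 * K * TN / δ := by
  have hn' : (0 : ℝ) < n0 := by exact_mod_cast hn
  have e0 : (n0 : ℝ) * (δ / 2) ≤ m0 * L := by
    have h1 : m0 * ((n0 : ℝ) / m0 * (δ - (n0 + 1) * ε) - n0 * ((n0 + 1) * ε)) ≤ m0 * L :=
      mul_le_mul_of_nonneg_left hlow hm.le
    have h2 : m0 * ((n0 : ℝ) / m0 * (δ - (n0 + 1) * ε) - n0 * ((n0 + 1) * ε)) =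
        n0 * (δ - (n0 + 1) * (m0 + 1) * ε) := by
      field_simp
      ring
    rw [h2] at h1
    refine le_trans ?_ h1
    refine mul_le_mul_of_nonneg_left ?_ hn'.le
    nlinarith
  have e1 : m0 * L ≤ m0 * (TN * (14 * K * n0 / m0 ^ 2)) := by
    refine mul_le_mul_of_nonneg_left (hup.trans ?_) hm.le
    have h3 : TN * YN ≤ TN * (14 * K * n0 / m0 ^ 2) := mul_le_mul_of_nonneg_left hY hT
    have h4 : FN * (TN * YN) ≤ 1 * (TN * YN) :=
      mul_le_mul_of_nonneg_right hF (mul_nonneg hT hY0)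
    linarith
  have e2 : m0 * (TN * (14 * K * n0 / m0 ^ 2)) = n0 * (14 * K * TN / m0) := by
    field_simp
  have e3 : δ / 2 ≤ 14 * K * TN / m0 := by
    have : (n0 : ℝ) * (δ / 2) ≤ n0 * (14 * K * TN / m0) := by
      rw [← e2]; exact e0.trans e1
    exact le_of_mul_le_mul_left this hn'
  rw [le_div_iff₀ hm] at e3
  rw [le_div_iff₀ hδ]
  linarith



/-- what the key proposition needs beyond the RIS estimates -/
structure KSys (X A : Type*) [NormedAddCommGroup X] [NormedSpace ℂ X] extends RSys X A where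
  /-- the functional node of an odd node -/
  eta : ℕ → ℕ
  /-- the unit -/
  one : A
  /-- tail projections -/
  R : ℕ → X →L[ℂ] X
  one_mem : ∀ s, one ∈ ball s
  GB_norm : ∀ x, toRSys.GB x ‖x‖
  norm_le : ∀ x r, 0 ≤ r → toRSys.GB x r → ‖x‖ ≤ r
  D_le : ∀ n s c x, 1 ≤ n → c ∈ ball s → ‖D n s c x‖ ≤ 2 * ‖x‖
  F_R : ∀ n s t c x, F n s c (R t x) = F n (max s t) c x
  D_R : ∀ n s t c x, D n s c (R t x) = D n (max s t) c x
  F_top : ∀ n s c x, n ≤ s → F n s c x = 0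
  D_top : ∀ n s c x, n ≤ s → D n s c x = 0
  D_eq : ∀ n s c x, s < n → D n s c x = D n 0 c x
  F_high : ∀ n s c x a b, Sup x a b → b ≤ s → F n s c x = 0
  D_low : ∀ n s c x a b, Sup x a b → n ≤ a → D n s c x = 0
  odd_b : ∀ n s c x, 1 ≤ n → jw n % 2 = 1 → Bf n s c x = F (eta n) s c x
  eta_gt : ∀ n, 1 ≤ n → jw n % 2 = 1 → p n < eta n
  eta_lt : ∀ n, 1 ≤ n → jw n % 2 = 1 → eta n < n
  eta_root : ∀ n, 1 ≤ n → jw n % 2 = 1 → ¬ suc n →
    jw (eta n) % 4 = 2 ∧ nn (jw n) ^ 2 ≤ mm (jw (eta n))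
  eta_suc : ∀ n, 1 ≤ n → jw n % 2 = 1 → suc n → jw (eta n) = 4 * p n
  ex_root : ∀ j e N, j % 2 = 1 → 1 ≤ e → jw e % 4 = 2 → nn j ^ 2 ≤ mm (jw e) →
    ∃ n, N < n ∧ ¬ suc n ∧ p n = 0 ∧ jw n = j ∧ eta n = e
  ex_suc : ∀ ξ e N, 1 ≤ ξ → jw ξ % 2 = 1 → age ξ < nn (jw ξ) → ξ < e → jw e = 4 * ξ →
    ∃ n, N < n ∧ suc n ∧ p n = ξ ∧ eta n = e
  R_tendsto : ∀ x (ε : ℝ), 0 < ε → ∃ N, ∀ t, N ≤ t → ‖R t x‖ ≤ ε

namespace KSys

variable {X A : Type*} [NormedAddCommGroup X] [NormedSpace ℂ X] (S : KSys X A)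

/-- exact pair beyond `q` of weight `i` -/
structure EP (T : X →L[ℂ] X) (K δ : ℝ) (q i : ℕ) (ε : ℝ) (e : ℕ) (y : X) : Prop where
  q_lt : q < e
  jw : S.jw e = i
  T_e : ∀ s c x, S.F e s c x = S.F e (max s q) c x
  sup : S.Sup y q e
  ex : S.Exact (2 * K) i y
  d_small : ∀ n s c, 1 ≤ n → c ∈ S.ball s → ‖S.D n s c y‖ ≤ 2 * K / mm i
  e_small : ∀ c ∈ S.ball q, ‖S.F e q c y‖ ≤ ε
  low : δ - ε ≤ (S.F e 0 S.one (T y)).re
  Tsmall : ‖T y - S.R q (T y)‖ ≤ ε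

/-- the weight index, with value `0` at `0` -/
def jz (n : ℕ) : ℕ := if n = 0 then 0 else S.jw n

theorem jz_pos {n : ℕ} (hn : 1 ≤ n) : S.jz n = S.jw n := by
  unfold jz
  rw [if_neg (by omega)]

/-- the functional `e_n` on `X` -/
noncomputable def pe (n : ℕ) : X →L[ℂ] ℂ :=
  (S.F n 0 S.one).mkContinuous 1 fun x => by
    rw [one_mul]
    rcases Nat.eq_zero_or_pos n with h | h
    · rw [S.F_top n 0 S.one x (by omega), norm_zero]; exact norm_nonneg _
    · exact S.GB_norm x n 0 S.one h (S.one_mem 0)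

theorem pe_apply (n : ℕ) (x : X) : S.pe n x = S.F n 0 S.one x := rfl

theorem pe_le (n : ℕ) (x : X) : ‖S.pe n x‖ ≤ ‖x‖ := by
  have := (S.pe n).le_of_opNorm_le (c := 1) (LinearMap.mkContinuous_norm_le _ zero_le_one _) x
  rwa [one_mul] at this

/-- the functional `d_n` on `X` -/
noncomputable def pd (n : ℕ) : X →L[ℂ] ℂ :=
  (S.D n 0 S.one).mkContinuous 2 fun x => by
    rcases Nat.eq_zero_or_pos n with h | h
    · rw [S.D_top n 0 S.one x (by omega), norm_zero]; positivity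
    · exact S.D_le n 0 S.one x h (S.one_mem 0)

theorem pd_apply (n : ℕ) (x : X) : S.pd n x = S.D n 0 S.one x := rfl

theorem pd_le (n : ℕ) (x : X) : ‖S.pd n x‖ ≤ 2 * ‖x‖ :=
  (S.pd n).le_of_opNorm_le (LinearMap.mkContinuous_norm_le _ (by norm_num) _) x

theorem R_mono (x : X) {q t : ℕ} (h : t ≤ q) : ‖S.R q x‖ ≤ ‖S.R t x‖ := by
  refine S.norm_le _ _ (norm_nonneg _) ?_
  intro n s c hn hc
  have h1 : S.F n s c (S.R q x) = S.F n (max s q) c (S.R t x) := by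
    rw [S.F_R, S.F_R, max_assoc, max_eq_left h]
  rw [h1]
  exact S.GB_norm _ n _ c hn (S.ball_mono _ _ (le_max_left _ _) hc)

theorem pd_tail (n : ℕ) (hn : 1 ≤ n) (x : X) : ‖S.pd n x‖ ≤ 2 * ‖S.R (n - 1) x‖ := by
  have h1 : S.pd n x = S.pd n (S.R (n - 1) x) := by
    rw [pd_apply, pd_apply, S.D_R, S.D_eq n (max 0 (n - 1)) _ _ (by omega)]
  rw [h1]
  exact S.pd_le n _

theorem pd_head (n q : ℕ) (h : n ≤ q) (x : X) : ‖S.pd n x‖ ≤ 2 * ‖x - S.R q x‖ := by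
  have h1 : S.pd n x = S.pd n (x - S.R q x) := by
    rw [map_sub, pd_apply, pd_apply, S.D_R, S.D_top n (max 0 q) _ _ (by omega), sub_zero]
  rw [h1]
  exact S.pd_le n _

theorem pe_head (n q : ℕ) (h : n ≤ q) (x : X) : ‖S.pe n x‖ ≤ ‖x - S.R q x‖ := by
  have h1 : S.pe n x = S.pe n (x - S.R q x) := by
    rw [map_sub, pe_apply, pe_apply, S.F_R, S.F_top n (max 0 q) _ _ (by omega), sub_zero]
  rw [h1]
  exact S.pe_le n _

/-- weight of the exact vector beyond `q` -/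
def idx (i1 q : ℕ) : ℕ := if q = 0 then i1 else 4 * q

/-- the dependent sequence -/
structure DS (T : X →L[ℂ] X) (K δ ε : ℝ) (j0 i1 N0 : ℕ) (xi e : ℕ → ℕ) (y : ℕ → X) : Prop where
  xi_zero : xi 0 = 0
  ep : ∀ r < N0, S.EP T K δ (xi r) (idx i1 (xi r)) ε (e (r + 1)) (y (r + 1))
  e_lt : ∀ r < N0, e (r + 1) < xi (r + 1)
  eta_eq : ∀ r < N0, S.eta (xi (r + 1)) = e (r + 1)
  p_eq : ∀ r < N0, S.p (xi (r + 1)) = xi r
  j_eq : ∀ r < N0, S.jw (xi (r + 1)) = j0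
  root : 0 < N0 → ¬ S.suc (xi 1)
  succ : ∀ r, 0 < r → r < N0 → S.suc (xi (r + 1))
  tail : ∀ r < N0, ‖S.R (xi (r + 1) - 1) (T (∑ l ∈ range (r + 1), y (l + 1)))‖ ≤ ε

theorem exists_DS (T : X →L[ℂ] X) {K δ ε : ℝ} (j0 i1 : ℕ) (hj0 : j0 % 2 = 1)
    (hi1 : i1 % 4 = 2) (hi1' : nn j0 ^ 2 ≤ mm i1) (hε : 0 < ε)
    (hEP : ∀ q i, i % 2 = 0 → 2 ≤ i → ∃ e y, S.EP T K δ q i ε e y) :
    ∃ xi e y, S.DS T K δ ε j0 i1 (nn j0) xi e y := by
  classical
  -- states: (xi, e, y, sum)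
  obtain ⟨f, hf0, hfP, hfQ⟩ := exists_chain (S := ℕ × ℕ × X × X) (nn j0)
    (fun r s => (r = 0 → s.1 = 0 ∧ s.2.2.2 = 0) ∧
      (0 < r → 1 ≤ s.1 ∧ S.jw s.1 = j0 ∧ S.age s.1 = r))
    (fun r s s' => S.EP T K δ s.1 (idx i1 s.1) ε s'.2.1 s'.2.2.1 ∧ s'.2.1 < s'.1 ∧
      S.eta s'.1 = s'.2.1 ∧ S.p s'.1 = s.1 ∧ S.jw s'.1 = j0 ∧ (r = 0 → ¬ S.suc s'.1) ∧
      (0 < r → S.suc s'.1) ∧ ‖S.R (s'.1 - 1) (T (s.2.2.2 + s'.2.2.1))‖ ≤ ε ∧
      s'.2.2.2 = s.2.2.2 + s'.2.2.1) (0, 0, 0, 0) (by simp) (by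
      rintro r ⟨q, e, y, z⟩ hr ⟨h1, h2⟩
      simp only at h1 h2
      have hidx : idx i1 q % 2 = 0 ∧ 2 ≤ idx i1 q := by
        unfold idx
        split_ifs with h <;> omega
      obtain ⟨e', y', hep⟩ := hEP q (idx i1 q) hidx.1 hidx.2
      obtain ⟨N, hN⟩ := S.R_tendsto (T (z + y')) ε hε
      rcases Nat.eq_zero_or_pos r with hr0 | hr0
      · obtain ⟨hq, hz⟩ := h1 hr0
        have hjw : S.jw e' = i1 := by rw [hep.jw, hq]; rfl
        obtain ⟨x, hx, hx1, hx2, hx3, hx4⟩ := S.ex_root j0 e' (N + e' + 1) hj0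
          (by have := hep.q_lt; omega) (by rw [hjw]; exact hi1) (by rw [hjw]; exact hi1')
        refine ⟨(x, e', y', z + y'), ⟨fun h => by omega, fun _ => ⟨by simp only; omega, hx3, ?_⟩⟩,
          hep, by simp only; omega, hx4, by simp only; rw [hx2, hq], hx3, fun _ => hx1,
          fun h => by omega, hN _ (by simp only; omega), rfl⟩
        simp only
        rw [S.age_root x (by omega) hx1, hr0]
      · obtain ⟨hq1, hqj, hqa⟩ := h2 hr0
        have hjw : S.jw e' = 4 * q := by rw [hep.jw]; unfold idx; rw [if_neg (by omega)]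
        obtain ⟨x, hx, hx1, hx2, hx3⟩ := S.ex_suc q e' (N + e' + 1) hq1 (by rw [hqj]; exact hj0)
          (by rw [hqj, hqa]; exact hr) hep.q_lt hjw
        have hxj : S.jw x = j0 := by rw [S.jw_suc x (by omega) hx1, hx2, hqj]
        refine ⟨(x, e', y', z + y'), ⟨fun h => by omega, fun _ => ⟨by simp only; omega, hxj, ?_⟩⟩,
          hep, by simp only; omega, hx3, hx2, hxj, fun h => by omega,
          fun _ => hx1, hN _ (by simp only; omega), rfl⟩
        simp only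
        rw [S.age_suc x (by omega) hx1, hx2, hqa])
  have hsum : ∀ r ≤ nn j0, (f r).2.2.2 = ∑ l ∈ range r, (f (l + 1)).2.2.1 := by
    intro r
    induction r with
    | zero => intro _; rw [hf0]; simp
    | succ r ih =>
      intro hr
      obtain ⟨-, -, -, -, -, -, -, -, h9⟩ := hfQ r (by omega)
      rw [h9, ih (by omega), Finset.sum_range_succ]
  refine ⟨fun r => (f r).1, fun r => (f r).2.1, fun r => (f r).2.2.1, ?_, ?_, ?_, ?_, ?_, ?_, ?_,
    ?_, ?_⟩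
  · simp only [hf0]
  · intro r hr; exact (hfQ r hr).1
  · intro r hr; exact (hfQ r hr).2.1
  · intro r hr; exact (hfQ r hr).2.2.1
  · intro r hr; exact (hfQ r hr).2.2.2.1
  · intro r hr; exact (hfQ r hr).2.2.2.2.1
  · intro hN; exact (hfQ 0 hN).2.2.2.2.2.1 rfl
  · intro r h0 hr; exact (hfQ r hr).2.2.2.2.2.2.1 h0
  · intro r hr
    have h8 := (hfQ r hr).2.2.2.2.2.2.2.1
    rw [hsum r hr.le] at h8
    rw [Finset.sum_range_succ]
    exact h8

namespace DS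

variable {S} {T : X →L[ℂ] X} {K δ ε : ℝ} {j0 i1 N0 : ℕ} {xi e : ℕ → ℕ} {y : ℕ → X}

theorem xi_lt (h : S.DS T K δ ε j0 i1 N0 xi e y) : ∀ r < N0, xi r < xi (r + 1) := fun r hr =>
  (h.ep r hr).q_lt.trans (h.e_lt r hr)

theorem xi_mono (h : S.DS T K δ ε j0 i1 N0 xi e y) {r : ℕ} : ∀ r', r ≤ r' → r' ≤ N0 →
    xi r ≤ xi r' := by
  intro r'
  induction r' with
  | zero => intro h1 _; have : r = 0 := by omega
            rw [this]
  | succ r' ih =>
    intro h1 h2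
    rcases Nat.lt_or_ge r' r with h3 | h3
    · have : r = r' + 1 := by omega
      rw [this]
    · exact (ih h3 (by omega)).trans (h.xi_lt r' (by omega)).le

theorem xi_pos (h : S.DS T K δ ε j0 i1 N0 xi e y) : ∀ r < N0, 1 ≤ xi (r + 1) := fun r hr => by
  have := h.xi_lt r hr
  omega

theorem jw_e (h : S.DS T K δ ε j0 i1 N0 xi e y) : ∀ r < N0, S.jw (e (r + 1)) = idx i1 (xi r) :=
  fun r hr => (h.ep r hr).jw

/-- the instance of the chain estimate -/
theorem dep (h : S.DS T K δ ε j0 i1 N0 xi e y) (hj0 : j0 % 2 = 1) (hN0 : N0 = nn j0)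
    (hK : 0 ≤ K) (hε : 0 ≤ ε) {s : ℕ} {c : A} (hc : c ∈ S.ball s) :
    _root_.CK.Star.Dep (fun t n => S.F n (max s t) c) (fun t n => S.D n (max s t) c)
      (fun n => ¬ S.suc n) S.p S.jz S.age S.eta (fun j => (mm j : ℝ)) j0 N0 K ε xi y := by
  have hpos : ∀ n, S.jz n = j0 → 1 ≤ n := by
    intro n hn
    by_contra hcon
    have h0 : n = 0 := by omega
    rw [h0] at hn
    have h1 : S.jz 0 = 0 := rfl
    omega
  have hjw : ∀ n, S.jz n = j0 → S.jw n = j0 := fun n hn => by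
    rw [← S.jz_pos (hpos n hn)]; exact hn
  have hodd : ∀ n, S.jz n = j0 → S.jw n % 2 = 1 := fun n hn => by rw [hjw n hn]; exact hj0
  have heta : ∀ n, S.jz n = j0 → S.jz (S.eta n) = S.jw (S.eta n) := fun n hn => by
    refine S.jz_pos ?_
    have := S.eta_gt n (hpos n hn) (hodd n hn)
    omega
  have hcb : ∀ t, c ∈ S.ball (max s t) := fun t => S.ball_mono _ _ (le_max_left _ _) hc
  have hR : ∀ r, 1 ≤ r → r ≤ N0 → ∃ r', r' < N0 ∧ r = r' + 1 := fun r h1 h2 =>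
    ⟨r - 1, by omega, by omega⟩
  have hjxi : ∀ r', r' < N0 → S.jz (S.eta (xi (r' + 1))) = idx i1 (xi r') := by
    intro r' hr'
    rw [h.eta_eq r' hr', S.jz_pos (by have := (h.ep r' hr').q_lt; omega), h.jw_e r' hr']
  have hinv : ∀ (n : ℕ) (z : ℂ), (1 / (mm n : ℂ)) * z = (((mm n : ℝ) : ℂ))⁻¹ * z := by
    intro n z
    push_cast
    rw [one_div]
  refine
  { N0pos := by rw [hN0]; exact RSys.nn_pos j0
    Knonneg := hK
    epsnonneg := hε
    mm_mono := fun a b hab => Nat.cast_le.2 (RSys.mm_strictMono.monotone hab)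
    mm_one := fun h => by exact_mod_cast RSys.mm_pos h
    p_lt := fun n hn => S.p_lt n (hpos n hn)
    p_lt_eta := fun n hn => S.eta_gt n (hpos n hn) (hodd n hn)
    eta_lt := fun n hn => S.eta_lt n (hpos n hn) (hodd n hn)
    j_le := fun n => by
      rcases Nat.eq_zero_or_pos n with h0 | h0
      · rw [h0]; exact le_of_eq rfl
      · rw [S.jz_pos h0]; exact S.jw_le n h0
    j_pred := fun n hn hr => by
      rw [S.jz_pos (S.suc_pos n (hpos n hn) (not_not.1 hr)),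
        ← S.jw_suc n (hpos n hn) (not_not.1 hr)]
      exact hjw n hn
    age_pred := fun n hn hr => S.age_suc n (hpos n hn) (not_not.1 hr)
    age_root := fun n hn hr => S.age_root n (hpos n hn) hr
    age_le := fun n hn => by
      have := S.age_le n (hpos n hn)
      rw [hjw n hn] at this
      rw [hN0]; exact this
    eta_root := fun n hn hr => by
      obtain ⟨h1, h2⟩ := S.eta_root n (hpos n hn) (hodd n hn) hr
      rw [heta n hn]
      refine ⟨h1, ?_⟩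
      rw [hjw n hn] at h2
      rw [hN0]
      exact_mod_cast h2
    eta_succ := fun n hn hr => by
      rw [heta n hn]
      exact S.eta_suc n (hpos n hn) (hodd n hn) (not_not.1 hr)
    Z_root := ?_
    Z_succ := ?_
    Z_zero := ?_
    xi_zero := h.xi_zero
    xi_j := ?_
    xi_root := ?_
    xi_succ := ?_
    xi_p := ?_
    y_lt := ?_
    y_gt := ?_
    y_le := ?_
    y_d := ?_
    y_d_zero := ?_
    y_other := ?_ }
  · intro t n hn hr
    ext x
    simp only [LinearMap.add_apply, LinearMap.smul_apply, smul_eq_mul]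
    rw [S.rec_root n _ c x (hpos n hn) hr (hcb t), S.odd_b n _ c x (hpos n hn) (hodd n hn),
      hjw n hn, hinv, max_assoc]
  · intro t n hn hr
    ext x
    simp only [LinearMap.add_apply, LinearMap.smul_apply, smul_eq_mul]
    rw [S.rec_suc n _ c x (hpos n hn) (not_not.1 hr) (hcb t),
      S.odd_b n _ c x (hpos n hn) (hodd n hn), hjw n hn, hinv, max_assoc]
  · intro t n hnt
    ext x
    simp only [LinearMap.zero_apply]
    exact S.F_top n _ c x (hnt.trans (le_max_right _ _))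
  · intro r h1 h2
    obtain ⟨r', hr', rfl⟩ := hR r h1 h2
    rw [S.jz_pos (h.xi_pos r' hr')]
    exact h.j_eq r' hr'
  · exact h.root (by rw [hN0]; exact RSys.nn_pos j0)
  · intro r h1 h2
    exact not_not.2 (h.succ r (by omega) h2)
  · intro r h1 h2
    obtain ⟨r', hr', rfl⟩ := hR r h1 h2
    exact h.p_eq r' hr'
  · intro r h1 h2 t n hj
    obtain ⟨r', hr', rfl⟩ := hR r h1 h2
    rw [hjxi r' hr'] at hj
    rcases Nat.eq_zero_or_pos n with h0 | h0
    · rw [S.F_top n _ c _ (by omega), norm_zero]; positivity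
    · rw [S.jz_pos h0] at hj ⊢
      exact (h.ep r' hr').ex.lt n _ c h0 (hcb t) hj
  · intro r h1 h2 t n hj
    obtain ⟨r', hr', rfl⟩ := hR r h1 h2
    rw [hjxi r' hr'] at hj ⊢
    rcases Nat.eq_zero_or_pos n with h0 | h0
    · rw [S.F_top n _ c _ (by omega), norm_zero]; positivity
    · rw [S.jz_pos h0] at hj
      exact (h.ep r' hr').ex.gt n _ c h0 (hcb t) hj
  · intro r h1 h2 t n
    obtain ⟨r', hr', rfl⟩ := hR r h1 h2
    rcases Nat.eq_zero_or_pos n with h0 | h0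
    · rw [S.F_top n _ c _ (by omega), norm_zero]; positivity
    · exact (h.ep r' hr').ex.nrm n _ c h0 (hcb t)
  · intro r h1 h2 t n
    obtain ⟨r', hr', rfl⟩ := hR r h1 h2
    rw [hjxi r' hr']
    rcases Nat.eq_zero_or_pos n with h0 | h0
    · rw [S.D_top n _ c _ (by omega), norm_zero]; positivity
    · exact (h.ep r' hr').d_small n _ c h0 (hcb t)
  · intro r h1 h2 t n hn
    obtain ⟨r', hr', rfl⟩ := hR r h1 h2
    rcases hn with hn | hn
    · exact S.D_low n _ c _ _ _ (h.ep r' hr').sup hn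
    · exact S.D_zero n _ c _ _ _ ((h.xi_pos r' hr').trans hn) (h.ep r' hr').sup
        ((h.e_lt r' hr').le.trans hn)
  · intro r h1 h2 r' h1' h2' hne t ht
    obtain ⟨a, ha, rfl⟩ := hR r h1 h2
    obtain ⟨b, hb, rfl⟩ := hR r' h1' h2'
    simp only [Nat.add_sub_cancel] at ht
    rw [h.eta_eq a ha]
    rcases Nat.lt_or_ge a b with hab | hab
    · refine S.F_zero (e (a + 1)) _ c _ _ _ ?_ (h.ep b hb).sup ?_
      · have := (h.ep a ha).q_lt; omega
      · exact (h.e_lt a ha).le.trans (h.xi_mono b (by omega) (by omega))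
    · have hba : b < a := by omega
      refine S.F_high _ _ c _ _ _ (h.ep b hb).sup ?_
      exact ((h.e_lt b hb).le.trans (h.xi_mono a (by omega) (by omega))).trans
        (ht.trans (le_max_right _ _))

/-- the chain estimate for the dependent sequence -/
theorem star (h : S.DS T K δ ε j0 i1 N0 xi e y) (hj0 : j0 % 2 = 1) (hN0 : N0 = nn j0)
    (hK : 0 ≤ K) (hε : 0 ≤ ε) (heps : (N0 : ℝ) * ε ≤ mm j0 * K) {s : ℕ} {c : A}
    (hc : c ∈ S.ball s) {I : Finset ℕ} (hI : ∀ r ∈ I, 1 ≤ r ∧ r ≤ N0) (n : ℕ)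
    (hn : S.jw n = j0) : ‖S.F n s c (∑ k ∈ I, y k)‖ ≤ 10 * K := by
  rcases Nat.eq_zero_or_pos n with h0 | h0
  · rw [S.F_top n _ c _ (by omega), norm_zero]; positivity
  have h1 := (h.dep hj0 hN0 hK hε hc).star heps hI s n (by rw [S.jz_pos h0]; exact hn) (by
    intro r h1 h2 hs
    obtain ⟨r', hr', rfl⟩ : ∃ r', r' < N0 ∧ r = r' + 1 := ⟨r - 1, by omega, by omega⟩
    simp only [Nat.add_sub_cancel] at hs ⊢
    rw [h.eta_eq r' hr', max_eq_right hs]
    exact (h.ep r' hr').e_small c (S.ball_mono _ _ hs hc))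
  simpa using h1

/-- upper bound for the sum of the dependent sequence -/
theorem upper (h : S.DS T K δ ε j0 i1 N0 xi e y) (hj0 : j0 % 2 = 1) (hN0 : N0 = nn j0)
    (hK : 0 ≤ K) (hε : 0 ≤ ε) (heps : (N0 : ℝ) * ε ≤ mm j0 * K) :
    ‖∑ l ∈ range N0, y (l + 1)‖ ≤ 14 * K * N0 / (mm j0 : ℝ) ^ 2 := by
  classical
  have hJ0 : ∀ q, 1 ≤ q → idx i1 q = 4 * q := fun q hq => by
    unfold idx; rw [if_neg (by omega)]
  have hstep : ∀ k, k + 1 < N0 → e (k + 1) ≤ idx i1 (xi (k + 1)) := by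
    intro k hk
    rw [hJ0 _ (h.xi_pos k (by omega))]
    have := h.e_lt k (by omega)
    omega
  obtain ⟨lo', hi', J', hR, -⟩ := RSys.RIS.of_finite (S := S.toRSys) (C := 2 * K) (N := N0)
    (x := fun k => y (k + 1)) (lo := xi) (hi := fun k => e (k + 1))
    (J := fun k => idx i1 (xi k)) (by positivity)
    (fun k hk => (h.ep k hk).sup) (fun k hk => (h.ep k hk).q_lt)
    (fun k hk => (h.e_lt k (by omega)).le)
    (fun k hk => by
      have h1 : idx i1 (xi k) ≤ e (k + 1) := by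
        rw [← h.jw_e k (by omega)]
        exact S.jw_le _ (by have := (h.ep k (by omega)).q_lt; omega)
      exact h1.trans (hstep k hk))
    (fun k hk => hstep k hk)
    (fun k hk => (h.ep k hk).ex.nrm)
    (fun k hk n s c hn hc hj => (h.ep k hk).ex.lt n s c hn hc hj)
  -- sums of the extended sequence
  have hsumI : ∀ a b, ∑ k ∈ Ico a b, (fun k => if k < N0 then y (k + 1) else 0) k =
      ∑ r ∈ ((Ico a b).filter (· < N0)).image (· + 1), y r := by
    intro a b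
    rw [Finset.sum_image (fun u _ v _ huv => by simpa using huv), Finset.sum_filter]
  obtain ⟨j', hj'⟩ : ∃ j', j0 = j' + 1 := ⟨j0 - 1, by omega⟩
  have hm0 : (0 : ℝ) < mm j0 := by exact_mod_cast RSys.mm_pos j0
  have hGB := hR.five_c (by positivity) (fun h => h = j0) (10 * K) (by positivity)
    (fun n s c hn hc hj a b hab => by
      rw [hsumI]
      refine h.star hj0 hN0 hK hε heps hc ?_ n hj
      intro r hr
      obtain ⟨u, hu, rfl⟩ := Finset.mem_image.1 hr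
      rw [Finset.mem_filter] at hu
      exact ⟨by omega, by omega⟩)
    (nn j') (2 * tt j0) ((mm j0 : ℝ) ^ 2) (by positivity)
    (by
      rw [RSys.mm_eq]
      push_cast
      rw [← pow_mul, mul_comm])
    (by
      intro k hk hlt
      have h1 : mm k < mm (j0 + 1) := by
        rw [RSys.mm_succ]; exact_mod_cast hlt
      have h2 : k < j0 + 1 := RSys.mm_strictMono.lt_iff_lt.1 h1
      exact RSys.nn_mono (by omega))
    0 N0 (Nat.zero_le _)
  have hY : ∑ l ∈ range N0, y (l + 1) =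
      ∑ k ∈ Ico 0 N0, (fun k => if k < N0 then y (k + 1) else 0) k := by
    rw [← Finset.range_eq_Ico]
    refine Finset.sum_congr rfl fun k hk => ?_
    rw [Finset.mem_range] at hk
    simp only [hk, if_true]
  rw [hY]
  have e1 : 2 * K / (mm j0 : ℝ) ^ 2 * ((N0 : ℝ) - (0 : ℕ)) = 2 * K * (N0 / (mm j0 : ℝ) ^ 2) := by
    push_cast; ring
  rw [e1] at hGB
  refine (S.norm_le _ _ (by positivity) hGB).trans ?_
  -- numerics
  have hN : (N0 : ℝ) / (mm j0 : ℝ) ^ 2 = ((nn j' : ℝ) + 3) ^ (2 * tt j0 + 3) := by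
    have h0 : (mm (j' + 1) : ℝ) ^ 2 ≠ 0 := by
      rw [hj'] at hm0
      positivity
    rw [hN0, hj']
    simp only [nn]
    push_cast
    rw [mul_div_cancel_left₀ _ h0]
  have h1 : ((nn j' : ℝ) + 3) ^ (2 * tt j0 + 1) ≤ ((nn j' : ℝ) + 3) ^ (2 * tt j0 + 3) := by
    refine pow_le_pow_right₀ ?_ (by omega)
    have : (0 : ℝ) ≤ nn j' := Nat.cast_nonneg _
    linarith
  have e2 : 14 * K * N0 / (mm j0 : ℝ) ^ 2 = 14 * K * (N0 / (mm j0 : ℝ) ^ 2) := by ring
  rw [e2, hN]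
  have h2 : (2 * K + 10 * K) * ((nn j' : ℝ) + 3) ^ (2 * tt j0 + 1) ≤
      12 * K * ((nn j' : ℝ) + 3) ^ (2 * tt j0 + 3) := by
    have : (2 * K + 10 * K) = 12 * K := by ring
    rw [this]
    exact mul_le_mul_of_nonneg_left h1 (by positivity)
  linarith

/-- the last functional as a chain sum -/
theorem pe_xi (h : S.DS T K δ ε j0 i1 N0 xi e y) (hj0 : j0 % 2 = 1) : ∀ r, r < N0 →
    S.pe (xi (r + 1)) = ∑ i ∈ range (r + 1),
      (S.pd (xi (i + 1)) + ((1 / (mm j0 : ℝ) : ℝ) : ℂ) • S.pe (e (i + 1))) := by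
  have hc : (1 / (mm j0 : ℂ)) = ((1 / (mm j0 : ℝ) : ℝ) : ℂ) := by push_cast; rfl
  have hterm : ∀ r, r < N0 → ∀ x, (1 / (mm (S.jw (xi (r + 1))) : ℂ)) *
      S.Bf (xi (r + 1)) (max 0 (S.p (xi (r + 1)))) S.one x =
      ((1 / (mm j0 : ℝ) : ℝ) : ℂ) * S.pe (e (r + 1)) x := by
    intro r hr x
    have hj := h.j_eq r hr
    rw [S.odd_b _ _ _ _ (h.xi_pos r hr) (by rw [hj]; exact hj0), hj, hc, h.p_eq r hr,
      h.eta_eq r hr, pe_apply, (h.ep r hr).T_e 0, (h.ep r hr).T_e (max 0 (xi r))]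
  intro r
  induction r with
  | zero =>
    intro hr
    ext x
    rw [pe_apply, S.rec_root _ _ _ _ (h.xi_pos 0 hr) (h.root hr) (S.one_mem 0), hterm 0 hr]
    simp [pd_apply]
  | succ r ih =>
    intro hr
    ext x
    rw [Finset.sum_range_succ, ← ih (by omega), pe_apply,
      S.rec_suc _ _ _ _ (h.xi_pos (r + 1) hr) (h.succ (r + 1) (by omega) hr) (S.one_mem 0),
      hterm (r + 1) hr, h.p_eq (r + 1) hr]
    simp [pd_apply, pe_apply, add_assoc]

theorem lower (h : S.DS T K δ ε j0 i1 N0 xi e y) (hj0 : j0 % 2 = 1) (hN : 0 < N0)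
    (hε : 0 ≤ ε) :
    (N0 : ℝ) / mm j0 * ((δ - ε) - (N0 + 1) * (2 * ε)) - N0 * ((N0 + 1) * (2 * ε)) ≤
      (S.pe (xi N0) (T (∑ l ∈ range N0, y (l + 1)))).re := by
  have hm0 : (0 : ℝ) < mm j0 := by exact_mod_cast RSys.mm_pos j0
  have hxi : S.pe (xi N0) = ∑ i ∈ range N0,
      (S.pd (xi (i + 1)) + ((1 / (mm j0 : ℝ) : ℝ) : ℂ) • S.pe (e (i + 1))) := by
    have := h.pe_xi hj0 (N0 - 1) (by omega)
    rwa [Nat.sub_add_cancel hN] at this
  rw [hxi, map_sum T]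
  refine chain_lower N0 (mm j0) (δ - ε) (2 * ε) hm0 (by positivity)
    (fun l => T (y (l + 1))) (fun i => S.pd (xi (i + 1))) (fun i => S.pe (e (i + 1)))
    ?_ ?_ ?_ ?_ ?_
  · intro i hi
    have h1 := S.pd_tail (xi (i + 1)) (h.xi_pos i hi) (T (∑ l ∈ range (i + 1), y (l + 1)))
    rw [map_sum T] at h1
    have h2 := h.tail i hi
    rw [map_sum T] at h2
    linarith
  · intro i hi l hl hil
    have h1 := S.pd_head (xi (i + 1)) (xi l) (h.xi_mono l (by omega) hl.le) (T (y (l + 1)))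
    have h2 := (h.ep l hl).Tsmall
    linarith
  · intro i hi
    have h1 : S.pe (e (i + 1)) (∑ l ∈ range i, T (y (l + 1))) =
        S.pe (e (i + 1)) (S.R (xi i) (∑ l ∈ range i, T (y (l + 1)))) := by
      rw [pe_apply, pe_apply, S.F_R, (h.ep i hi).T_e 0]
    rw [h1]
    refine (S.pe_le _ _).trans ?_
    rcases Nat.eq_zero_or_pos i with h0 | h0
    · subst h0
      simp only [range_zero, sum_empty, map_zero, norm_zero]
      positivity
    · obtain ⟨i', rfl⟩ : ∃ i', i = i' + 1 := ⟨i - 1, by omega⟩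
      refine (S.R_mono _ (Nat.sub_le _ 1)).trans ?_
      have h2 := h.tail i' (by omega)
      rw [map_sum T] at h2
      linarith
  · intro i hi l hl hil
    have h1 := S.pe_head (e (i + 1)) (xi l)
      ((h.e_lt i hi).le.trans (h.xi_mono l (by omega) hl.le)) (T (y (l + 1)))
    have h2 := (h.ep l hl).Tsmall
    linarith
  · intro i hi
    exact (h.ep i hi).low

end DS

theorem le_mm (j : ℕ) : j ≤ mm j := by
  unfold mm
  have h1 : j + 1 ≤ 2 ^ (j + 1) := Nat.lt_two_pow_self.le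
  have h2 : 2 ^ (j + 1) ≤ 2 ^ 2 ^ (j + 1) := Nat.lt_two_pow_self.le
  omega

/-- **Key proposition**, from exact pairs -/
theorem key (T : X →L[ℂ] X) {K δ : ℝ} (hK : 0 < K) (hδ : 0 < δ)
    (hEP : ∀ q i ε, i % 2 = 0 → 2 ≤ i → 0 < ε → ∃ e y, S.EP T K δ q i ε e y) : False := by
  obtain ⟨k, hk⟩ := exists_nat_gt (56 * K * ‖T‖ / δ)
  obtain ⟨j0, hj0d⟩ : ∃ j0, j0 = 2 * k + 1 := ⟨_, rfl⟩
  have hj0 : j0 % 2 = 1 := by omega
  obtain ⟨i1, hi1d⟩ : ∃ i1, i1 = 4 * nn j0 ^ 2 + 2 := ⟨_, rfl⟩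
  have hi1 : i1 % 4 = 2 := by omega
  have hi1' : nn j0 ^ 2 ≤ mm i1 := le_trans (by omega) (le_mm i1)
  have hN : 0 < nn j0 := RSys.nn_pos j0
  have hNr : (0 : ℝ) < nn j0 := by exact_mod_cast hN
  have hm0 : (0 : ℝ) < mm j0 := by exact_mod_cast RSys.mm_pos j0
  set ε : ℝ := min (mm j0 * K / nn j0) (δ / (8 * (nn j0 + 1) * (mm j0 + 1))) with hεd
  have hε : 0 < ε := lt_min (by positivity) (by positivity)
  obtain ⟨xi, e, y, h⟩ := S.exists_DS T (K := K) (δ := δ) (ε := ε) j0 i1 hj0 hi1 hi1' hε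
    (fun q i h1 h2 => hEP q i ε h1 h2 hε)
  have heps : ((nn j0 : ℕ) : ℝ) * ε ≤ mm j0 * K := by
    have h1 : ε ≤ mm j0 * K / nn j0 := min_le_left _ _
    calc (nn j0 : ℝ) * ε ≤ nn j0 * (mm j0 * K / nn j0) := mul_le_mul_of_nonneg_left h1 hNr.le
      _ = mm j0 * K := by field_simp
  have heps2 : ε * (8 * (nn j0 + 1) * (mm j0 + 1)) ≤ δ := by
    have h1 : ε ≤ δ / (8 * (nn j0 + 1) * (mm j0 + 1)) := min_le_right _ _
    rwa [le_div_iff₀ (by positivity)] at h1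
  have hup := h.upper hj0 rfl hK.le hε.le heps
  have hlow := h.lower hj0 hN hε.le
  have hεδ : ε ≤ δ / 2 := by
    have h1 : (2 : ℝ) ≤ 8 * (nn j0 + 1) * (mm j0 + 1) := by nlinarith
    nlinarith
  have hTY : (S.pe (xi (nn j0)) (T (∑ l ∈ range (nn j0), y (l + 1)))).re ≤
      1 * (‖T‖ * ‖∑ l ∈ range (nn j0), y (l + 1)‖) := by
    refine (Complex.re_le_norm _).trans ((S.pe_le _ _).trans ?_)
    rw [one_mul]
    exact T.le_opNorm _
  have hfin := key_final (nn j0) (mm j0) K (δ - ε) (2 * ε) ‖T‖ 1 _ _ hN hm0 hK (by linarith)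
    (by nlinarith) (norm_nonneg _) le_rfl hup (norm_nonneg _) hlow hTY
  have h1 : 28 * K * ‖T‖ / (δ - ε) ≤ 56 * K * ‖T‖ / δ := by
    rw [div_le_div_iff₀ (by linarith) hδ]
    have : 0 ≤ K * ‖T‖ := by positivity
    nlinarith
  have h2 : (j0 : ℝ) ≤ mm j0 := by exact_mod_cast le_mm j0
  have h3 : (k : ℝ) ≤ j0 := by exact_mod_cast (by omega : k ≤ j0)
  linarith

end KSys

end Pool.Agent.CK
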