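import Pool.Agent.Work.MP_02927d_an.RisInst
import Pool.Agent.Work.MP_02927d_an.KeyAbs

/-!
MP_02927d_an: the space `X S` as an instance of the abstract system for the key proposition.
-/

set_option autoImplicit false
set_option linter.unusedSectionVars false

namespace Pool.Agent.CK

open Finset Filter Topology

variable {A : Type*} [NormedCommRing A] [NormedAlgebra ℂ A] [NormOneClass A]

private theorem act_T_single_eq (S : Sys A) (n s : ℕ) (c : A) (x : X S) :
    pair S (act S.F S.p c (T s (Finsupp.single n (1 : A)))) x =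
      if s < n then co S n x (S.F.P (S.p n) c) else 0 := by
  rw [T_single]
  split_ifs with h
  · rw [act_single, mul_one, pair_single]
  · rw [act_zero, map_zero]; rfl

private theorem fnl_R (S : Sys A) (z : ℕ →₀ A) (s t : ℕ) (c : A) (x : X S) :
    fnl S z s c (R S t x) = fnl S z (max s t) c x := by
  rw [fnl_apply, fnl_apply, pair_R, T_act, T_T, max_comm]

private theorem not_even_of {n : ℕ} (h : n % 2 = 1) : ¬ Even n := by
  rw [Nat.even_iff]; omega

/-- The space `X S` with its norming functionals, as needed in the key proposition. -/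
noncomputable def ks (S : Sys A) : KSys (X S) A where
  toRSys := rs S
  eta := S.eta
  one := 1
  R := fun t => R S t
  one_mem := fun s => ⟨map_one (S.F.P s), norm_one.le⟩
  GB_norm := fun x => (GB_iff S).2 le_rfl
  norm_le := fun x r _ h => (GB_iff S).1 h
  D_le := fun n s c x hn hc => by
    show ‖fnl S (Finsupp.single n 1) s c x‖ ≤ 2 * ‖x‖
    rw [fnl_apply, act_T_single_eq]
    split_ifs with h
    · calc ‖co S n x (S.F.P (S.p n) c)‖ ≤ ‖co S n x‖ * ‖S.F.P (S.p n) c‖ :=
          (co S n x).le_opNorm _
        _ ≤ (2 * ‖x‖) * 1 := by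
          refine mul_le_mul (norm_co_le S n x) ((S.F.norm_le _ _).trans hc.2) (norm_nonneg _)
            (by positivity)
        _ = 2 * ‖x‖ := mul_one _
    · rw [norm_zero]; positivity
  F_R := fun n s t c x => fnl_R S _ s t c x
  D_R := fun n s t c x => fnl_R S _ s t c x
  F_top := fun n s c x h => by
    show fnl S (S.e n) s c x = 0
    rw [fnl_apply]
    have h0 : T s (S.e n) = 0 := by
      ext g
      rw [T_apply]
      split_ifs with hg
      · exact S.e_gt (by omega)
      · rfl
    rw [h0, act_zero, map_zero]; rfl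
  D_top := fun n s c x h => by
    show fnl S (Finsupp.single n 1) s c x = 0
    rw [fnl_apply, act_T_single_eq, if_neg (by omega)]
  D_eq := fun n s c x h => by
    show fnl S (Finsupp.single n 1) s c x = fnl S (Finsupp.single n 1) 0 c x
    rw [fnl_apply, fnl_apply, act_T_single_eq, act_T_single_eq, if_pos h, if_pos (by omega)]
  F_high := fun n s c x a b hx hb => by
    show fnl S (S.e n) s c x = 0
    rw [fnl_apply]
    refine pair_eq_zero S hx fun g _ hg => ?_
    simp only [act_apply, T_apply]
    rw [if_neg (by omega), mul_zero]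
  D_low := fun n s c x a b hx hn => by
    show fnl S (Finsupp.single n 1) s c x = 0
    rw [fnl_apply, act_T_single_eq, hx n (by omega)]
    split_ifs <;> rfl
  odd_b := fun n s c x hn hj => by
    show fnl S (S.b n) s c x = fnl S (S.e (S.eta n)) s c x
    rw [S.b_odd n hn (not_even_of hj)]
  eta_gt := fun n hn hj => (S.eta_lt n hn (not_even_of hj)).1
  eta_lt := fun n hn hj => (S.eta_lt n hn (not_even_of hj)).2
  eta_root := fun n hn hj hr => S.eta_root n hn (not_even_of hj) (not_not.1 hr)
  eta_suc := fun n hn hj hr => S.eta_succ n hn (not_even_of hj) hr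
  ex_root := fun j e N hj he h4 hnn => by
    obtain ⟨n, h1, h2, h3, h4', h5⟩ := S.rich_odd_root N 0 j e (not_even_of hj) (by omega) h4 hnn
    exact ⟨n, h1, not_not.2 h2, h3, h4', h5⟩
  ex_suc := fun ξ e N hξ hj ha he hje => by
    obtain ⟨n, h1, h2, h3, -, h5⟩ := S.rich_odd_succ N ξ e hξ (not_even_of hj) ha he hje
    exact ⟨n, h1, h2, h3, h5⟩
  R_tendsto := fun x ε hε => by
    obtain ⟨N, hN⟩ := Metric.tendsto_atTop.1 (R_tendsto S x) ε hε
    refine ⟨N, fun t ht => ?_⟩
    have := hN t ht
    rw [dist_zero_right] at this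
    exact this.le

theorem ks_toRSys (S : Sys A) : (ks S).toRSys = rs S := rfl

/-- **Key proposition** (section 6), from exact pairs. -/
theorem key_of_EP (S : Sys A) (U : X S →L[ℂ] X S) {K δ : ℝ} (hK : 0 < K) (hδ : 0 < δ)
    (hEP : ∀ (q i : ℕ) (ε : ℝ), i % 2 = 0 → 2 ≤ i → 0 < ε →
      ∃ e y, (ks S).EP U K δ q i ε e y) : False :=
  (ks S).key U hK hδ hEP

end Pool.Agent.CK
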