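import Pool.Agent.Work.MP_02927d_an.Ris

/-!
MP_02927d_an, rapidly increasing sequences, (5d) and (5e): exact vectors, subsequences,
multiples, finite sequences, weak convergence to zero.
-/

namespace Pool.Agent.CK

open Finset Filter Topology

namespace RSys

theorem mm_eq (j : ℕ) : mm j = 2 ^ tt j := rfl

theorem mm_succ (j : ℕ) : mm (j + 1) = mm j ^ 2 := by
  unfold mm
  rw [← pow_mul]
  congr 1

theorem mm_strictMono : StrictMono mm := by
  refine strictMono_nat_of_lt_succ fun j => ?_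
  rw [mm_succ]
  have := four_le_mm j
  nlinarith

theorem nn_pos (j : ℕ) : 0 < nn j := by
  cases j with
  | zero => simp [nn]
  | succ j => simp only [nn]; have := mm_pos (j + 1); positivity

theorem nn_le_succ (j : ℕ) : nn j ≤ nn (j + 1) := by
  simp only [nn]
  have h1 : 1 ≤ mm (j + 1) ^ 2 := Nat.one_le_pow _ _ (mm_pos _)
  have h2 : nn j + 3 ≤ (nn j + 3) ^ (2 * tt (j + 1) + 3) :=
    Nat.le_self_pow (by omega) _
  calc nn j ≤ nn j + 3 := by omega
    _ ≤ 1 * (nn j + 3) ^ (2 * tt (j + 1) + 3) := by rw [one_mul]; exact h2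
    _ ≤ _ := Nat.mul_le_mul_right _ h1

theorem nn_mono : Monotone nn := monotone_nat_of_le_succ nn_le_succ

theorem sixteen_le_nn (j : ℕ) : 16 ≤ nn j := by
  have := nn_mono (Nat.zero_le j)
  simpa [nn] using this

theorem mm_sq_le_nn (j : ℕ) : mm j ^ 2 ≤ nn j := by
  cases j with
  | zero => simp [nn, mm]
  | succ j =>
    simp only [nn]
    exact Nat.le_mul_of_pos_right _ (by positivity)

theorem tt_pos (j : ℕ) : 1 ≤ tt j := Nat.one_le_two_pow

variable {V A : Type*} [AddCommGroup V] [Module ℂ V] {S : RSys V A}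
variable {C : ℝ} {x : ℕ → V} {lo hi J : ℕ → ℕ}

/-- the numerical inequality behind (5d) -/
theorem num_five_d (j : ℕ) (C : ℝ) (hC : 0 ≤ C) (mh nh : ℝ) (h1 : mh ≤ mm (j + 1))
    (h2 : nh ≤ nn j) :
    C * mh + 2 * (nh + 1) * (C + C * ((nn j : ℝ) + 3) ^ (tt (j + 1) + 1)) ≤
      C * (nn (j + 1) / mm (j + 1)) := by
  have hm0 : (0:ℝ) < mm (j + 1) := by exact_mod_cast mm_pos _
  have hm4 : (4:ℝ) ≤ mm (j + 1) := by exact_mod_cast four_le_mm _
  have e : (nn (j + 1) : ℝ) / mm (j + 1) =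
      mm (j + 1) * ((nn j : ℝ) + 3) ^ (2 * tt (j + 1) + 3) := by
    simp only [nn]; push_cast; field_simp
  rw [e]
  obtain ⟨m, hm⟩ : ∃ m : ℝ, m = mm (j + 1) := ⟨_, rfl⟩
  obtain ⟨ν, hν⟩ : ∃ ν : ℝ, ν = nn j := ⟨_, rfl⟩
  rw [← hm] at hm0 hm4 h1 ⊢
  rw [← hν] at h2 ⊢
  have hν16 : (16:ℝ) ≤ ν := by rw [hν]; exact_mod_cast sixteen_le_nn j
  obtain ⟨Q, hQ⟩ : ∃ Q : ℝ, Q = (ν + 3) ^ tt (j + 1) := ⟨_, rfl⟩
  have hQ1 : 1 ≤ Q := by rw [hQ]; exact one_le_pow₀ (by linarith)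
  have e1 : (ν + 3) ^ (tt (j + 1) + 1) = Q * (ν + 3) := by rw [pow_succ, hQ]
  have e2 : (ν + 3) ^ (2 * tt (j + 1) + 3) = Q ^ 2 * (ν + 3) ^ 3 := by
    rw [pow_add, pow_mul', hQ]
  rw [e1, e2]
  have hQQ : Q ≤ Q ^ 2 := by nlinarith
  have hQQ1 : 1 ≤ Q ^ 2 := by nlinarith
  have a1 : C + C * (Q * (ν + 3)) ≤ 2 * (C * (Q * (ν + 3))) := by
    have : 1 ≤ Q * (ν + 3) := by nlinarith
    nlinarith
  have a2 : 2 * (nh + 1) * (C + C * (Q * (ν + 3))) ≤ 2 * (ν + 1) * (2 * (C * (Q * (ν + 3)))) := by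
    have h0 : 0 ≤ C + C * (Q * (ν + 3)) := by positivity
    calc 2 * (nh + 1) * (C + C * (Q * (ν + 3))) ≤ 2 * (ν + 1) * (C + C * (Q * (ν + 3))) := by
          gcongr
      _ ≤ _ := by gcongr
  have a3 : 2 * (ν + 1) * (2 * (Q * (ν + 3))) ≤ (1 / 2) * (m * (Q ^ 2 * (ν + 3) ^ 3)) := by
    have b1 : 2 * (ν + 1) * (2 * (Q * (ν + 3))) ≤ 2 * (Q * (ν + 3) ^ 3) := by
      have : 2 * (ν + 1) ≤ (ν + 3) ^ 2 := by nlinarith
      calc 2 * (ν + 1) * (2 * (Q * (ν + 3))) ≤ (ν + 3) ^ 2 * (2 * (Q * (ν + 3))) := by gcongr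
        _ = _ := by ring
    have b2 : 2 * (Q * (ν + 3) ^ 3) ≤ (1 / 2) * (4 * (Q ^ 2 * (ν + 3) ^ 3)) := by
      have : Q * (ν + 3) ^ 3 ≤ Q ^ 2 * (ν + 3) ^ 3 := by gcongr
      linarith
    have b3 : (1 / 2) * (4 * (Q ^ 2 * (ν + 3) ^ 3)) ≤ (1 / 2) * (m * (Q ^ 2 * (ν + 3) ^ 3)) := by
      gcongr
    linarith
  have a4 : mh ≤ (1 / 2) * (m * (Q ^ 2 * (ν + 3) ^ 3)) := by
    have b1 : (2:ℝ) ≤ (ν + 3) ^ 3 := by
      calc (2:ℝ) ≤ 3 ^ 3 := by norm_num
        _ ≤ (ν + 3) ^ 3 := by gcongr; linarith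
    have b2 : m * 2 ≤ m * (Q ^ 2 * (ν + 3) ^ 3) := by
      gcongr
      calc (2:ℝ) ≤ 1 * (ν + 3) ^ 3 := by linarith
        _ ≤ Q ^ 2 * (ν + 3) ^ 3 := by gcongr
    linarith
  calc C * mh + 2 * (nh + 1) * (C + C * (Q * (ν + 3)))
      ≤ C * ((1 / 2) * (m * (Q ^ 2 * (ν + 3) ^ 3))) +
        C * (2 * (ν + 1) * (2 * (Q * (ν + 3)))) := by
        have := mul_le_mul_of_nonneg_left a4 hC
        linarith
    _ ≤ C * ((1 / 2) * (m * (Q ^ 2 * (ν + 3) ^ 3))) +
        C * ((1 / 2) * (m * (Q ^ 2 * (ν + 3) ^ 3))) := by gcongr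
    _ = _ := by ring

variable (S) in
/-- exact vectors -/
structure Exact (C : ℝ) (j : ℕ) (y : V) : Prop where
  lt : ∀ n s c, 1 ≤ n → c ∈ S.ball s → S.jw n < j → ‖S.F n s c y‖ ≤ C / mm (S.jw n)
  gt : ∀ n s c, 1 ≤ n → c ∈ S.ball s → j < S.jw n → ‖S.F n s c y‖ ≤ C / mm j
  nrm : S.GB y C

theorem norm_scal (j : ℕ) : ‖((mm j : ℂ) / nn j)‖ = (mm j : ℝ) / nn j := by
  simp

/-- (5d) -/
theorem RIS.five_d (hR : S.RIS C x lo hi J) (hC : 0 ≤ C) {j : ℕ} (hj : 1 ≤ j) {a b : ℕ}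
    (hab : b = a + nn j) :
    S.Exact (2 * C) j (((mm j : ℂ) / nn j) • ∑ k ∈ Ico a b, x k) := by
  obtain ⟨i, rfl⟩ : ∃ i, j = i + 1 := ⟨j - 1, by omega⟩
  have hab' : a ≤ b := by omega
  have hbr : (b:ℝ) - a = nn (i + 1) := by rw [hab]; push_cast; ring
  have hm0 : (0:ℝ) < mm (i + 1) := by exact_mod_cast mm_pos _
  have hm4 : (4:ℝ) ≤ mm (i + 1) := by exact_mod_cast four_le_mm _
  have hn0 : (0:ℝ) < nn (i + 1) := by exact_mod_cast nn_pos _
  have hmn : (mm (i + 1) : ℝ) ^ 2 ≤ nn (i + 1) := by exact_mod_cast mm_sq_le_nn _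
  have hGB : ∀ a b, a ≤ b → S.GB (∑ k ∈ Ico a b, x k)
      (C / mm (i + 1) * (b - a) + C * ((nn i : ℝ) + 3) ^ (tt (i + 1) + 1)) := by
    intro a b hab
    have := hR.five_c hC (fun _ => False) 0 le_rfl (fun _ _ _ _ _ h => h.elim) (nn i)
      (tt (i + 1)) (mm (i + 1)) hm0 (by rw [mm_eq]; push_cast; exact le_rfl)
      (fun h _ hlt => nn_mono (by
        have : mm h < mm (i + 1) := by exact_mod_cast hlt
        have := mm_strictMono.lt_iff_lt.1 this
        omega)) a b hab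
    simpa using this
  have key1 : ∀ n s c, 1 ≤ n → c ∈ S.ball s → S.jw n < i + 1 →
      ‖S.F n s c (((mm (i + 1) : ℂ) / nn (i + 1)) • ∑ k ∈ Ico a b, x k)‖ ≤
        2 * C / mm (S.jw n) := by
    intro n s c hn hc hlt
    have hmh0 : (0:ℝ) < mm (S.jw n) := by exact_mod_cast mm_pos _
    have h5 := hR.five_b (α := C / mm (i + 1)) (β := C * ((nn i : ℝ) + 3) ^ (tt (i + 1) + 1))
      (by positivity) (by positivity) hC hGB hc n hn a b hab'
    rw [map_smul, smul_eq_mul, norm_mul, norm_scal]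
    refine (mul_le_mul_of_nonneg_left h5 (by positivity)).trans ?_
    rw [hbr]
    have hnum := num_five_d i C hC (mm (S.jw n)) (nn (S.jw n))
      (by exact_mod_cast mm_strictMono.monotone hlt.le)
      (by exact_mod_cast nn_mono (Nat.lt_succ_iff.1 hlt))
    have e1 : (mm (i + 1) : ℝ) / nn (i + 1) * (C + 2 / mm (S.jw n) * (nn (S.jw n) + 1) *
        (C + C * ((nn i : ℝ) + 3) ^ (tt (i + 1) + 1)) +
        C / mm (i + 1) / mm (S.jw n) * nn (i + 1)) =
        (mm (i + 1) : ℝ) / nn (i + 1) / mm (S.jw n) * (C * mm (S.jw n) +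
          2 * (nn (S.jw n) + 1) * (C + C * ((nn i : ℝ) + 3) ^ (tt (i + 1) + 1))) +
          C / mm (S.jw n) := by
      field_simp
    rw [e1]
    have h6 := mul_le_mul_of_nonneg_left hnum
      (show 0 ≤ (mm (i + 1) : ℝ) / nn (i + 1) / mm (S.jw n) by positivity)
    have e2 : (mm (i + 1) : ℝ) / nn (i + 1) / mm (S.jw n) * (C * (nn (i + 1) / mm (i + 1))) =
        C / mm (S.jw n) := by
      field_simp
    rw [e2] at h6
    have e3 : 2 * C / (mm (S.jw n) : ℝ) = C / mm (S.jw n) + C / mm (S.jw n) := by ring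
    rw [e3]
    linarith
  have hCmn : (mm (i + 1) : ℝ) / nn (i + 1) * C ≤ C / mm (i + 1) := by
    rw [div_mul_eq_mul_div, div_le_div_iff₀ hn0 hm0]
    nlinarith
  have key2 : ∀ n s c, 1 ≤ n → c ∈ S.ball s →
      ‖S.F n s c (((mm (i + 1) : ℂ) / nn (i + 1)) • ∑ k ∈ Ico a b, x k)‖ ≤
        C / mm (i + 1) + C * mm (i + 1) / mm (S.jw n) := by
    intro n s c hn hc
    have hmh0 : (0:ℝ) < mm (S.jw n) := by exact_mod_cast mm_pos _
    rw [map_smul, smul_eq_mul, norm_mul, norm_scal]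
    refine (mul_le_mul_of_nonneg_left (hR.sum_five_a hC hc n hn a b hab')
      (by positivity)).trans ?_
    rw [hbr, mul_add]
    have e : (mm (i + 1) : ℝ) / nn (i + 1) * (C * nn (i + 1) / mm (S.jw n)) =
        C * mm (i + 1) / mm (S.jw n) := by field_simp
    rw [e]
    linarith
  refine ⟨key1, ?_, ?_⟩
  · intro n s c hn hc hlt
    have hmh0 : (0:ℝ) < mm (S.jw n) := by exact_mod_cast mm_pos _
    refine (key2 n s c hn hc).trans ?_
    have h1 : (mm (i + 1) : ℝ) ^ 2 ≤ mm (S.jw n) := by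
      have : mm (i + 1 + 1) ≤ mm (S.jw n) := mm_strictMono.monotone hlt
      rw [mm_succ] at this
      exact_mod_cast this
    have h2 : C * mm (i + 1) / mm (S.jw n) ≤ C / mm (i + 1) := by
      rw [div_le_div_iff₀ hmh0 hm0]
      nlinarith
    have e3 : 2 * C / (mm (i + 1) : ℝ) = C / mm (i + 1) + C / mm (i + 1) := by ring
    rw [e3]
    linarith
  · intro n s c hn hc
    have hmh0 : (0:ℝ) < mm (S.jw n) := by exact_mod_cast mm_pos _
    rcases lt_or_ge (S.jw n) (i + 1) with hlt | hge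
    · refine (key1 n s c hn hc hlt).trans ?_
      rw [div_le_iff₀ hmh0]
      have : (1:ℝ) ≤ mm (S.jw n) := by
        have : (4:ℝ) ≤ mm (S.jw n) := by exact_mod_cast four_le_mm _
        linarith
      nlinarith
    · refine (key2 n s c hn hc).trans ?_
      have h1 : (mm (i + 1) : ℝ) ≤ mm (S.jw n) := by
        exact_mod_cast mm_strictMono.monotone hge
      have h2 : C * mm (i + 1) / mm (S.jw n) ≤ C := by
        rw [div_le_iff₀ hmh0]; nlinarith
      have h3 : C / mm (i + 1) ≤ C := by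
        rw [div_le_iff₀ hm0]; nlinarith
      linarith

/-- (5d), functionals that see at most one vector of the sequence -/
theorem single_bound {φ : V →ₗ[ℂ] ℂ} {R : ℝ} (hR0 : 0 ≤ R) (k0 : ℕ)
    (h1 : ∀ k, k ≠ k0 → φ (x k) = 0) (h2 : ∀ k, ‖φ (x k)‖ ≤ R) (j : ℕ) (I : Finset ℕ) :
    ‖φ (((mm j : ℂ) / nn j) • ∑ k ∈ I, x k)‖ ≤ R / mm j := by
  have hm0 : (0:ℝ) < mm j := by exact_mod_cast mm_pos _
  have hn0 : (0:ℝ) < nn j := by exact_mod_cast nn_pos _
  have hmn : (mm j : ℝ) ^ 2 ≤ nn j := by exact_mod_cast mm_sq_le_nn _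
  have hs : ‖φ (∑ k ∈ I, x k)‖ ≤ R := by
    rw [map_sum]
    by_cases hk : k0 ∈ I
    · rw [sum_eq_single k0 (fun k _ hk => h1 k hk) (fun h => (h hk).elim)]
      exact h2 k0
    · rw [sum_eq_zero (fun k hkI => h1 k (by rintro rfl; exact hk hkI)), norm_zero]
      exact hR0
  rw [map_smul, smul_eq_mul, norm_mul, norm_scal, div_mul_eq_mul_div, div_le_div_iff₀ hn0 hm0]
  calc (mm j : ℝ) * ‖φ (∑ k ∈ I, x k)‖ * mm j ≤ mm j * R * mm j := by gcongr
    _ = R * (mm j : ℝ) ^ 2 := by ring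
    _ ≤ R * nn j := by gcongr

/-- subsequences of a RIS -/
theorem RIS.comp (hR : S.RIS C x lo hi J) {φ : ℕ → ℕ} (hφ : StrictMono φ) :
    S.RIS C (x ∘ φ) (lo ∘ φ) (hi ∘ φ) (J ∘ φ) where
  sup _ := hR.sup _
  lt _ := hR.lt _
  hl k := hR.hi_le_lo (hφ (Nat.lt_succ_self k))
  mono := hR.mono.comp hφ.monotone
  hJ k := (hR.hJ (φ k)).trans (hR.mono (hφ (Nat.lt_succ_self k)))
  nrm _ := hR.nrm _
  small _ := hR.small _

/-- multiples of a RIS -/
theorem RIS.smul (hR : S.RIS C x lo hi J) (θ : ℕ → ℂ) (hθ : ∀ k, ‖θ k‖ ≤ 1) :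
    S.RIS C (fun k => θ k • x k) lo hi J where
  sup k := S.Sup_smul _ _ _ _ (hR.sup k)
  lt := hR.lt
  hl := hR.hl
  mono := hR.mono
  hJ := hR.hJ
  nrm k n s c hn hc := by
    rw [map_smul, smul_eq_mul, norm_mul]
    have := hR.nrm k n s c hn hc
    have h0 := norm_nonneg (S.F n s c (x k))
    have h1 := hθ k
    have h2 := norm_nonneg (θ k)
    nlinarith
  small k n s c hn hc hj := by
    rw [map_smul, smul_eq_mul, norm_mul]
    have := hR.small k n s c hn hc hj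
    have h0 := norm_nonneg (S.F n s c (x k))
    have h1 := hθ k
    have h2 := norm_nonneg (θ k)
    nlinarith

/-- the constant of a RIS can be increased -/
theorem RIS.mono_C (hR : S.RIS C x lo hi J) {C' : ℝ} (h : C ≤ C') : S.RIS C' x lo hi J where
  sup := hR.sup
  lt := hR.lt
  hl := hR.hl
  mono := hR.mono
  hJ := hR.hJ
  nrm k n s c hn hc := (hR.nrm k n s c hn hc).trans h
  small k n s c hn hc hj := (hR.small k n s c hn hc hj).trans (by gcongr)

/-- (5d) for a finite set of indices -/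
theorem RIS.five_d_finset (hR : S.RIS C x lo hi J) (hC : 0 ≤ C) {j : ℕ} (hj : 1 ≤ j)
    (I : Finset ℕ) (hI : #I = nn j) :
    S.Exact (2 * C) j (((mm j : ℂ) / nn j) • ∑ k ∈ I, x k) := by
  classical
  obtain ⟨φ, hφ, hIφ⟩ : ∃ φ : ℕ → ℕ, StrictMono φ ∧ ∑ k ∈ I, x k = ∑ k ∈ Ico 0 (nn j), x (φ k) := by
    let N := nn j
    let e := I.orderEmbOfFin hI
    let M := I.sup id + 1
    have hM : ∀ i : Fin N, e i < M := fun i =>
      Nat.lt_succ_of_le (le_sup (f := id) (I.orderEmbOfFin_mem hI i))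
    let φ : ℕ → ℕ := fun k => if h : k < N then e ⟨k, h⟩ else M + k
    refine ⟨φ, ?_, ?_⟩
    · refine strictMono_nat_of_lt_succ fun k => ?_
      simp only [φ]
      by_cases h1 : k + 1 < N
      · rw [dif_pos h1, dif_pos (by omega)]
        exact e.strictMono (by simp [Fin.lt_def])
      · rw [dif_neg h1]
        by_cases h2 : k < N
        · rw [dif_pos h2]; have := hM ⟨k, h2⟩; omega
        · rw [dif_neg h2]; omega
    · have h1 : ∑ k ∈ I, x k = ∑ i : Fin N, x (e i) := by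
        have h2 : I = univ.map e.toEmbedding := by
          ext k
          constructor
          · intro hk
            have : k ∈ Set.range e := by
              rw [Finset.range_orderEmbOfFin]; exact hk
            obtain ⟨i, rfl⟩ := this
            exact mem_map.2 ⟨i, mem_univ _, rfl⟩
          · intro hk
            obtain ⟨i, _, rfl⟩ := mem_map.1 hk
            exact I.orderEmbOfFin_mem hI i
        conv_lhs => rw [h2]
        rw [sum_map]
        rfl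
      rw [h1, ← Finset.range_eq_Ico, Finset.sum_range]
      refine sum_congr rfl fun i _ => ?_
      simp only [φ]
      rw [dif_pos i.2]
  rw [hIφ]
  exact (hR.comp hφ).five_d hC hj (by omega)

/-- a finite sequence with the RIS properties, continued by zero -/
theorem RIS.of_finite {N : ℕ} (hC : 0 ≤ C) (hsup : ∀ k < N, S.Sup (x k) (lo k) (hi k))
    (hlt : ∀ k < N, lo k < hi k) (hhl : ∀ k, k + 1 < N → hi k ≤ lo (k + 1))
    (hmono : ∀ k, k + 1 < N → J k ≤ J (k + 1)) (hhJ : ∀ k, k + 1 < N → hi k ≤ J (k + 1))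
    (hnrm : ∀ k < N, S.GB (x k) C)
    (hsmall : ∀ k < N, ∀ n s c, 1 ≤ n → c ∈ S.ball s → S.jw n < J k →
      ‖S.F n s c (x k)‖ ≤ C / mm (S.jw n)) :
    ∃ lo' hi' J' : ℕ → ℕ, S.RIS C (fun k => if k < N then x k else 0) lo' hi' J' ∧
      (∀ k < N, J' k = J k) := by
  classical
  let M := (range N).sup (fun k => hi k + J k)
  have hM : ∀ k < N, hi k + J k ≤ M := fun k hk =>
    le_sup (f := fun k => hi k + J k) (mem_range.2 hk)
  refine ⟨fun k => if k < N then lo k else M + 2 * k, fun k => if k < N then hi k else M + 2 * k + 1,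
    fun k => if k < N then J k else M + 2 * k, ⟨?_, ?_, ?_, ?_, ?_, ?_, ?_⟩, ?_⟩
  · intro k
    split_ifs with h
    · exact hsup k h
    · exact S.Sup_zero _ _
  · intro k
    split_ifs with h
    · exact hlt k h
    · omega
  · intro k
    by_cases h : k < N
    · rw [if_pos h]
      by_cases h1 : k + 1 < N
      · rw [if_pos h1]; exact hhl k h1
      · rw [if_neg h1]; have := hM k h; omega
    · rw [if_neg h, if_neg (by omega)]; omega
  · refine monotone_nat_of_le_succ fun k => ?_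
    by_cases h : k < N
    · rw [if_pos h]
      by_cases h1 : k + 1 < N
      · rw [if_pos h1]; exact hmono k h1
      · rw [if_neg h1]; have := hM k h; omega
    · rw [if_neg h, if_neg (by omega)]; omega
  · intro k
    by_cases h : k < N
    · rw [if_pos h]
      by_cases h1 : k + 1 < N
      · rw [if_pos h1]; exact hhJ k h1
      · rw [if_neg h1]; have := hM k h; omega
    · rw [if_neg h, if_neg (by omega)]; omega
  · intro k n s c hn hc
    split_ifs with h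
    · exact hnrm k h n s c hn hc
    · rw [map_zero, norm_zero]; exact hC
  · intro k n s c hn hc hj
    by_cases h : k < N
    · rw [if_pos h] at hj ⊢
      exact hsmall k h n s c hn hc hj
    · rw [if_neg h, map_zero, norm_zero]; positivity
  · intro k hk
    exact if_pos hk

/-- (5e) a RIS is weakly null -/
theorem RIS.weakly_null (hR : S.RIS C x lo hi J) (hC : 0 ≤ C) (f : V →ₗ[ℂ] ℂ) (L : ℝ)
    (hf : ∀ y R, S.GB y R → ‖f y‖ ≤ L * R) : Tendsto (fun k => f (x k)) atTop (𝓝 0) := by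
  have hL : 0 ≤ L * (2 * C) := by
    have := hf _ _ ((hR.five_d hC (le_refl 1) (a := 0) (b := 0 + nn 1) rfl).nrm)
    exact (norm_nonneg _).trans this
  rw [Metric.tendsto_atTop]
  by_contra hcon
  push Not at hcon
  obtain ⟨ε, hε, hcon⟩ := hcon
  simp only [dist_zero_right] at hcon
  obtain ⟨φ, hφ, hφε⟩ := Filter.extraction_of_frequently_atTop
    (P := fun k => ε ≤ ‖f (x k)‖) (Filter.frequently_atTop.2 hcon)
  -- unimodular multiples
  let θ : ℕ → ℂ := fun k => (starRingEnd ℂ) (f (x (φ k))) / ‖f (x (φ k))‖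
  have hθ : ∀ k, ‖θ k‖ ≤ 1 := by
    intro k
    simp only [θ]
    rw [norm_div, RCLike.norm_conj, Complex.norm_real, norm_norm]
    exact div_self_le_one _
  have hθf : ∀ k, f (θ k • x (φ k)) = (‖f (x (φ k))‖ : ℂ) := by
    intro k
    have hpos : 0 < ‖f (x (φ k))‖ := hε.trans_le (hφε k)
    rw [map_smul, smul_eq_mul]
    simp only [θ]
    rw [div_mul_eq_mul_div, Complex.conj_mul']
    have : ((‖f (x (φ k))‖ : ℝ) : ℂ) ≠ 0 := by exact_mod_cast hpos.ne'
    field_simp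
  have hR' := (hR.comp hφ).smul θ hθ
  have key : ∀ j, 1 ≤ j → ε * mm j ≤ L * (2 * C) := by
    intro j hj
    have hm0 : (0:ℝ) < mm j := by exact_mod_cast mm_pos _
    have hn0 : (0:ℝ) < nn j := by exact_mod_cast nn_pos _
    have h1 := hf _ _ ((hR'.five_d hC hj (a := 0) (b := 0 + nn j) rfl).nrm)
    refine le_trans ?_ h1
    rw [map_smul, smul_eq_mul, norm_mul, norm_scal, map_sum]
    have h2 : ∑ k ∈ Ico 0 (0 + nn j), f (θ k • (x ∘ φ) k) =
        ((∑ k ∈ Ico 0 (0 + nn j), ‖f (x (φ k))‖ : ℝ) : ℂ) := by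
      push_cast
      exact sum_congr rfl fun k _ => hθf k
    rw [h2, Complex.norm_real, Real.norm_of_nonneg (sum_nonneg fun _ _ => norm_nonneg _)]
    have h3 : (nn j : ℝ) * ε ≤ ∑ k ∈ Ico 0 (0 + nn j), ‖f (x (φ k))‖ := by
      have := card_nsmul_le_sum (Ico 0 (0 + nn j)) (fun k => ‖f (x (φ k))‖) ε
        (fun k _ => hφε k)
      simpa using this
    calc ε * mm j = (mm j : ℝ) / nn j * (nn j * ε) := by field_simp
      _ ≤ _ := by gcongr
  -- mm j tends to infinity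
  obtain ⟨j, hj⟩ := exists_nat_gt (L * (2 * C) / ε)
  have h1 := key (j + 1) (by omega)
  have h2 : (j:ℝ) ≤ mm (j + 1) := by
    have := mm_strictMono.le_apply (x := j + 1)
    exact_mod_cast (Nat.le_succ j).trans this
  rw [div_lt_iff₀ hε] at hj
  nlinarith

/-- (5e) for finite dimensional targets -/
theorem RIS.weakly_null' (hR : S.RIS C x lo hi J) (hC : 0 ≤ C) {E : Type*}
    [NormedAddCommGroup E] [NormedSpace ℂ E] [FiniteDimensional ℂ E] (f : V →ₗ[ℂ] E) (L : ℝ)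
    (hf : ∀ y R, S.GB y R → ‖f y‖ ≤ L * R) : Tendsto (fun k => f (x k)) atTop (𝓝 0) := by
  let b := Module.finBasis ℂ E
  have h1 : ∀ i, Tendsto (fun k => b.coord i (f (x k))) atTop (𝓝 0) := by
    intro i
    let g : E →L[ℂ] ℂ := LinearMap.toContinuousLinearMap (b.coord i)
    refine hR.weakly_null hC ((b.coord i).comp f) (‖g‖ * L) fun y R hy => ?_
    have h2 : ‖g (f y)‖ ≤ ‖g‖ * ‖f y‖ := g.le_opNorm _
    have h3 := hf y R hy
    calc ‖((b.coord i).comp f) y‖ = ‖g (f y)‖ := rfl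
      _ ≤ ‖g‖ * (L * R) := h2.trans (by gcongr)
      _ = _ := by ring
  have h2 : (fun k => f (x k)) = fun k => ∑ i, b.coord i (f (x k)) • b i := by
    funext k
    exact (b.sum_repr (f (x k))).symm
  rw [h2]
  have h3 : Tendsto (fun k => ∑ i, b.coord i (f (x k)) • b i) atTop
      (𝓝 (∑ i, (0:ℂ) • b i)) :=
    tendsto_finsetSum _ fun i _ => (h1 i).smul_const _
  simpa using h3

/-- numerical end of the key proposition: (5c) with M = m_j ^ 2, t = 2 t_j, nu = n_(j-1) -/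
theorem num_kp (i : ℕ) (K : ℝ) (hK : 0 ≤ K) :
    2 * K / ((mm (i + 1) : ℝ) ^ 2) * nn (i + 1) +
        (2 * K + 10 * K) * ((nn i : ℝ) + 3) ^ (2 * tt (i + 1) + 1) ≤
      14 * K * nn (i + 1) / (mm (i + 1) : ℝ) ^ 2 := by
  have hm0 : (0:ℝ) < mm (i + 1) := by exact_mod_cast mm_pos _
  have hν : (0:ℝ) ≤ nn i := Nat.cast_nonneg _
  have e : (nn (i + 1) : ℝ) / (mm (i + 1) : ℝ) ^ 2 = ((nn i : ℝ) + 3) ^ (2 * tt (i + 1) + 3) := by
    simp only [nn]; push_cast; field_simp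
  have h1 : ((nn i : ℝ) + 3) ^ (2 * tt (i + 1) + 1) ≤ ((nn i : ℝ) + 3) ^ (2 * tt (i + 1) + 3) :=
    pow_le_pow_right₀ (by linarith) (by omega)
  have e2 : 2 * K / ((mm (i + 1) : ℝ) ^ 2) * nn (i + 1) =
      2 * K * ((nn (i + 1) : ℝ) / (mm (i + 1) : ℝ) ^ 2) := by ring
  have e3 : 14 * K * nn (i + 1) / (mm (i + 1) : ℝ) ^ 2 =
      14 * K * ((nn (i + 1) : ℝ) / (mm (i + 1) : ℝ) ^ 2) := by ring
  rw [e2, e3, e]
  nlinarith

/-- the choice of j0 in the key proposition: odd, with m_j larger than a given number -/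
theorem exists_odd_large (B : ℝ) : ∃ j0 : ℕ, j0 % 2 = 1 ∧ B < mm j0 := by
  obtain ⟨N, hN⟩ := exists_nat_gt B
  refine ⟨2 * N + 1, by omega, hN.trans_le ?_⟩
  have h := mm_strictMono.le_apply (x := 2 * N + 1)
  have : N ≤ mm (2 * N + 1) := by omega
  exact_mod_cast this

/-- weights `≡ 2 mod 4` with large m -/
theorem exists_two_mod_four (B : ℕ) : ∃ i : ℕ, i % 4 = 2 ∧ B ≤ mm i := by
  refine ⟨4 * B + 2, by omega, ?_⟩
  have h := mm_strictMono.le_apply (x := 4 * B + 2)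
  omega

/-- m_j^2 = m_(j+1) = 2 ^ (2 t_j) as real numbers -/
theorem mm_sq_eq_two_pow (j : ℕ) : (mm j : ℝ) ^ 2 = 2 ^ (2 * tt j) := by
  rw [mm_eq]; push_cast; rw [← pow_mul]; congr 1; ring

/-- weights h with m_h < m_j^2 and h <> j have n_h <= n_(j-1) -/
theorem nn_le_of_mm_lt_sq {i h : ℕ} (hne : h ≠ i + 1) (hlt : (mm h : ℝ) < (mm (i + 1) : ℝ) ^ 2) :
    nn h ≤ nn i := by
  have h1 : mm h < mm (i + 1 + 1) := by
    rw [mm_succ]; exact_mod_cast hlt
  have h2 := mm_strictMono.lt_iff_lt.1 h1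
  exact nn_mono (by omega)

end RSys

end Pool.Agent.CK
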