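import Pool.Agent.Work.MP_02927d_an.Space
import Pool.Agent.Work.MP_02927d_an.RisB

/-!
MP_02927d_an: the abstract system of functionals of section 5 for the space `X S`, and the
statements (5a)-(5e) for rapidly increasing sequences in `X S`.
-/

set_option autoImplicit false
set_option linter.unusedSectionVars false

namespace Pool.Agent.CK

open Finset Filter Topology

variable {A : Type*} [NormedCommRing A] [NormedAlgebra ℂ A] [NormOneClass A]

private theorem act_T_single (S : Sys A) (n s : ℕ) (c : A) (g : ℕ) (h : g ≠ n) :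
    act S.F S.p c (T s (Finsupp.single n (1 : A))) g = 0 := by
  simp only [act_apply, T_apply]
  rw [Finsupp.single_eq_of_ne (by omega)]
  simp

/-- the values of the vectors `c * T_s z` on `x`, as a linear functional of `x` -/
noncomputable def fnl (S : Sys A) (z : ℕ →₀ A) (s : ℕ) (c : A) : X S →ₗ[ℂ] ℂ :=
  (pair S (act S.F S.p c (T s z))).toLinearMap

theorem fnl_apply (S : Sys A) (z : ℕ →₀ A) (s : ℕ) (c : A) (x : X S) :
    fnl S z s c x = pair S (act S.F S.p c (T s z)) x := rfl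

private theorem rec_aux (S : Sys A) (n s : ℕ) (c : A) (x : X S) (u : ℕ →₀ A)
    (h : S.e n = u + Finsupp.single n 1 + ((mm (S.j n) : ℂ)⁻¹) • T (S.p n) (S.b n)) :
    fnl S (S.e n) s c x = fnl S u s c x + fnl S (Finsupp.single n 1) s c x
      + (1 / (mm (S.j n) : ℂ)) * fnl S (S.b n) (max s (S.p n)) c x := by
  simp only [fnl_apply]
  rw [h, T_add, T_add, act_add, act_add, T_smul, act_smul, T_T, map_add, map_add, map_smul]
  simp only [add_apply, smul_apply, smul_eq_mul, one_div]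

/-- The system of functionals of section 5 on the space `X S`. -/
noncomputable def rs (S : Sys A) : RSys (X S) A where
  p := S.p
  jw := S.j
  suc := fun n => ¬ S.root n
  age := S.age
  ball := fun s => {c | S.F.P s c = c ∧ ‖c‖ ≤ 1}
  F := fun n s c => fnl S (S.e n) s c
  Bf := fun n s c => fnl S (S.b n) s c
  D := fun n s c => fnl S (Finsupp.single n 1) s c
  Sup := fun x a b => Sup S x a b
  Sup_zero := fun a b => Sup.zero S a b
  Sup_smul := fun θ x a b h => Sup.smul S θ h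
  p_lt := S.p_lt
  suc_pos := S.p_pos
  age_root := fun n hn h => S.age_root n hn (not_not.1 h)
  age_suc := S.age_succ
  jw_suc := S.j_succ
  jw_le := S.j_le
  age_le := S.age_le
  ball_mono := fun s t hst c hc => ⟨S.F.P_of_le hst hc.1, hc.2⟩
  rec_suc := fun n s c x hn hs hc => rec_aux S n s c x _ (S.e_succ n hn hs)
  rec_root := fun n s c x hn hs hc => by
    have := rec_aux S n s c x 0 (by rw [zero_add]; exact S.e_root n hn (not_not.1 hs))
    rw [this]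
    have h0 : fnl S 0 s c x = 0 := by
      rw [fnl_apply, T_zero, act_zero, map_zero]; rfl
    rw [h0, zero_add]
  B_le := fun n s c x R hn hc h => by
    have hz : act S.F S.p c (T s (S.b n)) ∈ S.B := S.act_T_mem_B hc.1 hc.2 (S.b_mem_B hn)
    have hx : ∀ z ∈ S.G, ‖pair S z x‖ ≤ R := by
      rintro z ⟨n', s', c', h1, h2, h3, rfl⟩
      exact h n' s' c' h1 ⟨h2, h3⟩
    have hR : 0 ≤ R := (norm_nonneg _).trans (hx 0 S.zero_mem_G)
    exact (pair_le S hz x).trans (norm_le_of S x R hR hx)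
  D_zero := fun n s c x a b hn hx hb => by
    refine pair_eq_zero S hx fun g _ hg => act_T_single S n s c g (by omega)
  B_zero := fun n s c x a b hn hx hb => by
    refine pair_eq_zero S hx fun g _ hg => ?_
    simp only [act_apply, T_apply]
    rw [if_neg (by omega), mul_zero]
  F_zero := fun n s c x a b hn hx hb => by
    refine pair_eq_zero S hx fun g hg _ => ?_
    simp only [act_apply, T_apply]
    rw [S.e_gt (by omega)]
    simp

variable (S : Sys A)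

theorem GB_iff {x : X S} {R : ℝ} : (rs S).GB x R ↔ ‖x‖ ≤ R := by
  constructor
  · intro h
    have hx : ∀ z ∈ S.G, ‖pair S z x‖ ≤ R := by
      rintro z ⟨n', s', c', h1, h2, h3, rfl⟩
      exact h n' s' c' h1 ⟨h2, h3⟩
    exact norm_le_of S x R ((norm_nonneg _).trans (hx 0 S.zero_mem_G)) hx
  · intro h n s c hn hc
    exact (pair_le S (S.G_subset_B ⟨n, s, c, hn, hc.1, hc.2, rfl⟩) x).trans h

/-- `C`-RIS in the space `X S` -/
structure IsRIS (C : ℝ) (x : ℕ → X S) (lo hi J : ℕ → ℕ) : Prop where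
  sup : ∀ k, Sup S (x k) (lo k) (hi k)
  lt : ∀ k, lo k < hi k
  hl : ∀ k, hi k ≤ lo (k + 1)
  mono : Monotone J
  hJ : ∀ k, hi k ≤ J (k + 1)
  nrm : ∀ k, ‖x k‖ ≤ C
  small : ∀ k i z, z ∈ S.Gw i → i < J k → ‖pair S z (x k)‖ ≤ C / mm i

variable {S} {C : ℝ} {x : ℕ → X S} {lo hi J : ℕ → ℕ}

theorem IsRIS.toR (h : IsRIS S C x lo hi J) : (rs S).RIS C x lo hi J where
  sup := h.sup
  lt := h.lt
  hl := h.hl
  mono := h.mono
  hJ := h.hJ
  nrm k := (GB_iff S).2 (h.nrm k)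
  small k n s c hn hc hj := h.small k (S.j n) _ ⟨n, s, c, hn, rfl, hc.1, hc.2, rfl⟩ hj

theorem RSys.RIS.toIs (h : (rs S).RIS C x lo hi J) : IsRIS S C x lo hi J where
  sup := h.sup
  lt := h.lt
  hl := h.hl
  mono := h.mono
  hJ := h.hJ
  nrm k := (GB_iff S).1 (h.nrm k)
  small k i z hz hj := by
    obtain ⟨n, s, c, hn, rfl, hc1, hc2, rfl⟩ := hz
    exact h.small k n s c hn ⟨hc1, hc2⟩ hj

theorem IsRIS.C_nonneg (h : IsRIS S C x lo hi J) : 0 ≤ C := (norm_nonneg _).trans (h.nrm 0)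

theorem IsRIS.hi_le_lo (h : IsRIS S C x lo hi J) {i k : ℕ} (hik : i < k) : hi i ≤ lo k :=
  h.toR.hi_le_lo hik

theorem IsRIS.hi_mono (h : IsRIS S C x lo hi J) : StrictMono hi := h.toR.hi_mono

theorem IsRIS.le_hi (h : IsRIS S C x lo hi J) (k : ℕ) : k + 1 ≤ hi k := h.toR.le_hi k

theorem IsRIS.le_J (h : IsRIS S C x lo hi J) (k : ℕ) : k ≤ J k := h.toR.le_J k

theorem IsRIS.le_lo (h : IsRIS S C x lo hi J) (k : ℕ) : k ≤ lo k := by
  rcases Nat.eq_zero_or_pos k with h0 | h0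
  · omega
  · have h1 := h.hi_le_lo (i := k - 1) (k := k) (by omega)
    have h2 := h.le_hi (k - 1)
    omega

/-- (5a) -/
theorem IsRIS.five_a (h : IsRIS S C x lo hi J) (i : ℕ) :
    ∃ l, ∀ k, k ≠ l → ∀ z ∈ S.Gw i, ‖pair S z (x k)‖ ≤ C / mm i := by
  obtain ⟨l, hl⟩ := h.toR.five_a i
  refine ⟨l, fun k hk z hz => ?_⟩
  obtain ⟨n, s, c, hn, hj, hc1, hc2, rfl⟩ := hz
  exact hl k hk n s c hn ⟨hc1, hc2⟩ hj

/-- (5b) -/
theorem IsRIS.five_b (h : IsRIS S C x lo hi J) {α β : ℝ} (hα : 0 ≤ α) (hβ : 0 ≤ β)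
    (hG : ∀ a b, a ≤ b → ‖∑ k ∈ Ico a b, x k‖ ≤ α * (b - a) + β)
    {i : ℕ} {z : ℕ →₀ A} (hz : z ∈ S.Gw i) (a b : ℕ) (hab : a ≤ b) :
    ‖pair S z (∑ k ∈ Ico a b, x k)‖ ≤
      C + (2 / mm i) * (nn i + 1) * (C + β) + (α / mm i) * (b - a) := by
  obtain ⟨n, s, c, hn, rfl, hc1, hc2, rfl⟩ := hz
  exact h.toR.five_b hα hβ h.C_nonneg (fun a b hab => (GB_iff S).2 (hG a b hab)) ⟨hc1, hc2⟩
    n hn a b hab

/-- (5c) -/
theorem IsRIS.five_c (h : IsRIS S C x lo hi J) (H : ℕ → Prop) (CH : ℝ) (hCH : 0 ≤ CH)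
    (hH : ∀ i, H i → ∀ z ∈ S.Gw i, ∀ a b, a ≤ b → ‖pair S z (∑ k ∈ Ico a b, x k)‖ ≤ CH)
    (ν : ℕ) (t : ℕ) (M : ℝ) (hM : 0 < M) (hMt : M ≤ 2 ^ t)
    (hν : ∀ i, ¬ H i → (mm i : ℝ) < M → nn i ≤ ν) (a b : ℕ) (hab : a ≤ b) :
    ‖∑ k ∈ Ico a b, x k‖ ≤ C / M * (b - a) + (C + CH) * (ν + 3) ^ (t + 1) := by
  refine (GB_iff S).1 (h.toR.five_c h.C_nonneg H CH hCH ?_ ν t M hM hMt hν a b hab)
  intro n s c hn hc hj a b hab
  exact hH _ hj _ ⟨n, s, c, hn, rfl, hc.1, hc.2, rfl⟩ a b hab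

variable (S) in
/-- `(C, j)`-exact vectors -/
structure IsExact (C : ℝ) (j : ℕ) (y : X S) : Prop where
  lt : ∀ i z, z ∈ S.Gw i → i < j → ‖pair S z y‖ ≤ C / mm i
  gt : ∀ i z, z ∈ S.Gw i → j < i → ‖pair S z y‖ ≤ C / mm j
  nrm : ‖y‖ ≤ C

theorem RSys.Exact.toIs {j : ℕ} {y : X S} (h : (rs S).Exact C j y) : IsExact S C j y where
  lt i z hz hj := by
    obtain ⟨n, s, c, hn, rfl, hc1, hc2, rfl⟩ := hz
    exact h.lt n s c hn ⟨hc1, hc2⟩ hj
  gt i z hz hj := by
    obtain ⟨n, s, c, hn, rfl, hc1, hc2, rfl⟩ := hz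
    exact h.gt n s c hn ⟨hc1, hc2⟩ hj
  nrm := (GB_iff S).1 h.nrm

/-- (5d) -/
theorem IsRIS.five_d (h : IsRIS S C x lo hi J) {j : ℕ} (hj : 1 ≤ j) (I : Finset ℕ)
    (hI : #I = nn j) : IsExact S (2 * C) j (((mm j : ℂ) / nn j) • ∑ k ∈ I, x k) :=
  (h.toR.five_d_finset h.C_nonneg hj I hI).toIs

/-- (5d), the coordinates -/
theorem IsRIS.five_d_co (h : IsRIS S C x lo hi J) (j : ℕ) (I : Finset ℕ) (g : ℕ) :
    ‖co S g (((mm j : ℂ) / nn j) • ∑ k ∈ I, x k)‖ ≤ 2 * C / mm j := by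
  have hC := h.C_nonneg
  have hm : (0 : ℝ) < mm j := mm_pos j
  refine ContinuousLinearMap.opNorm_le_bound _ (by positivity) fun c => ?_
  -- at most one of the vectors of the sequence has a coordinate at `g`
  have h1 : ∃ k0, ∀ k, k ≠ k0 → co S g (x k) = 0 := by
    by_cases hex : ∃ k0, lo k0 < g ∧ g < hi k0
    · obtain ⟨k0, h1, h2⟩ := hex
      refine ⟨k0, fun k hk => h.sup k g ?_⟩
      rintro ⟨h3, h4⟩
      rcases lt_or_gt_of_ne hk with h5 | h5
      · have := h.hi_le_lo h5; omega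
      · have := h.hi_le_lo h5; omega
    · exact ⟨0, fun k _ => h.sup k g fun hk => hex ⟨k, hk⟩⟩
  obtain ⟨k0, hk0⟩ := h1
  have key := RSys.single_bound (x := x)
    (φ := ((ContinuousLinearMap.apply ℂ ℂ c).comp (co S g)).toLinearMap)
    (R := 2 * C * ‖c‖) (by positivity) k0 (fun k hk => ?_) (fun k => ?_) j I
  · refine (le_trans ?_ key).trans (le_of_eq (by ring))
    rfl
  · show co S g (x k) c = 0
    rw [hk0 k hk]; rfl
  · show ‖co S g (x k) c‖ ≤ _
    refine ((co S g (x k)).le_opNorm c).trans ?_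
    have h2 := norm_co_le S g (x k)
    have h3 := h.nrm k
    gcongr
    linarith

/-- subsequences -/
theorem IsRIS.comp (h : IsRIS S C x lo hi J) {φ : ℕ → ℕ} (hφ : StrictMono φ) :
    IsRIS S C (x ∘ φ) (lo ∘ φ) (hi ∘ φ) (J ∘ φ) := (h.toR.comp hφ).toIs

/-- multiples -/
theorem IsRIS.smul (h : IsRIS S C x lo hi J) (θ : ℕ → ℂ) (hθ : ∀ k, ‖θ k‖ ≤ 1) :
    IsRIS S C (fun k => θ k • x k) lo hi J := (h.toR.smul θ hθ).toIs

/-- the constant can be increased -/
theorem IsRIS.mono_C (h : IsRIS S C x lo hi J) {C' : ℝ} (hC : C ≤ C') :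
    IsRIS S C' x lo hi J := (h.toR.mono_C hC).toIs

/-- a finite RIS, continued by zero vectors -/
theorem IsRIS.of_finite {N : ℕ} (hC : 0 ≤ C) (hsup : ∀ k < N, Sup S (x k) (lo k) (hi k))
    (hlt : ∀ k < N, lo k < hi k) (hhl : ∀ k, k + 1 < N → hi k ≤ lo (k + 1))
    (hmono : ∀ k, k + 1 < N → J k ≤ J (k + 1)) (hhJ : ∀ k, k + 1 < N → hi k ≤ J (k + 1))
    (hnrm : ∀ k < N, ‖x k‖ ≤ C)
    (hsmall : ∀ k < N, ∀ i z, z ∈ S.Gw i → i < J k → ‖pair S z (x k)‖ ≤ C / mm i) :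
    ∃ lo' hi' J' : ℕ → ℕ, IsRIS S C (fun k => if k < N then x k else 0) lo' hi' J' ∧
      (∀ k < N, J' k = J k) := by
  obtain ⟨lo', hi', J', h1, h2⟩ := RSys.RIS.of_finite (S := rs S) (J := J) hC hsup hlt hhl hmono hhJ
    (fun k hk => (GB_iff S).2 (hnrm k hk))
    (fun k hk n s c hn hc hj => hsmall k hk (S.j n) _ ⟨n, s, c, hn, rfl, hc.1, hc.2, rfl⟩ hj)
  exact ⟨lo', hi', J', h1.toIs, h2⟩

/-- (5e) -/
theorem IsRIS.weakly_null (h : IsRIS S C x lo hi J) (f : X S →L[ℂ] ℂ) :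
    Tendsto (fun k => f (x k)) atTop (𝓝 0) :=
  h.toR.weakly_null h.C_nonneg f.toLinearMap ‖f‖ (fun y _ hy =>
    (f.le_opNorm y).trans (mul_le_mul_of_nonneg_left ((GB_iff S).1 hy) (norm_nonneg f)))

/-- (5e), maps into finite-dimensional spaces -/
theorem IsRIS.weakly_null' (h : IsRIS S C x lo hi J) {E : Type*}
    [NormedAddCommGroup E] [NormedSpace ℂ E] [FiniteDimensional ℂ E] (f : X S →L[ℂ] E) :
    Tendsto (fun k => f (x k)) atTop (𝓝 0) :=
  h.toR.weakly_null' h.C_nonneg f.toLinearMap ‖f‖ (fun y _ hy =>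
    (f.le_opNorm y).trans (mul_le_mul_of_nonneg_left ((GB_iff S).1 hy) (norm_nonneg f)))

/-! ### weakly null sequences and coordinates -/

/-- the range of `P n` -/
private noncomputable abbrev Rg (F : Filt A) (n : ℕ) : Submodule ℂ A := LinearMap.range (F.P n).toLinearMap

/-- `P n` onto its range -/
private noncomputable def PR (F : Filt A) (n : ℕ) : A →L[ℂ] Rg F n :=
  (PL F n).codRestrict (Rg F n) (fun a => ⟨a, rfl⟩)

private theorem co_factor (g : ℕ) (y : X S) :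
    co S g y = ((co S g y).comp (Rg S.F (S.p g)).subtypeL).comp (PR S.F (S.p g)) := by
  ext a
  exact (co_P S g y a).symm

/-- the image of a weakly null sequence under a map into `X` has coordinates tending to zero -/
theorem tendsto_co_of_weak {E : Type*} [NormedAddCommGroup E] [NormedSpace ℂ E] {u : ℕ → E}
    (hu : ∀ f : E →L[ℂ] ℂ, Tendsto (fun k => f (u k)) atTop (𝓝 0)) (f : E →L[ℂ] X S) (g : ℕ) :
    Tendsto (fun k => co S g (f (u k))) atTop (𝓝 0) := by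
  have : FiniteDimensional ℂ (Rg S.F (S.p g)) := S.F.fin _
  let r : Du A →L[ℂ] (Rg S.F (S.p g) →L[ℂ] ℂ) :=
    ContinuousLinearMap.precomp ℂ (Rg S.F (S.p g)).subtypeL
  let s : (Rg S.F (S.p g) →L[ℂ] ℂ) →L[ℂ] Du A := ContinuousLinearMap.precomp ℂ (PR S.F (S.p g))
  have h1 : Tendsto (fun k => (r.comp ((co S g).comp f)) (u k)) atTop (𝓝 0) := by
    set h : E →L[ℂ] (Rg S.F (S.p g) →L[ℂ] ℂ) := r.comp ((co S g).comp f) with hh
    let b := Module.finBasis ℂ (Rg S.F (S.p g) →L[ℂ] ℂ)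
    have h2 : ∀ i, Tendsto (fun k => b.equivFun (h (u k)) i) atTop (𝓝 0) := by
      intro i
      have := hu (((ContinuousLinearMap.proj i).comp
        (b.equivFun : (Rg S.F (S.p g) →L[ℂ] ℂ) →ₗ[ℂ] (Fin _ → ℂ)).toContinuousLinearMap).comp h)
      exact this
    have h3 : Tendsto (fun k => b.equivFun (h (u k))) atTop (𝓝 0) := tendsto_pi_nhds.2 h2
    have h4 : Continuous (b.equivFun.symm : (Fin _ → ℂ) → (Rg S.F (S.p g) →L[ℂ] ℂ)) :=
      LinearMap.continuous_of_finiteDimensional b.equivFun.symm.toLinearMap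
    have h5 := (h4.tendsto 0).comp h3
    rw [map_zero] at h5
    exact h5.congr fun k => b.equivFun.symm_apply_apply (h (u k))
  have h6 := (s.continuous.tendsto 0).comp h1
  rw [map_zero] at h6
  refine h6.congr fun k => ?_
  exact (co_factor g (f (u k))).symm

/-- the parts up to `t` of the images of a weakly null sequence tend to zero -/
theorem tendsto_sub_R_of_weak {E : Type*} [NormedAddCommGroup E] [NormedSpace ℂ E] {u : ℕ → E}
    (hu : ∀ f : E →L[ℂ] ℂ, Tendsto (fun k => f (u k)) atTop (𝓝 0)) (f : E →L[ℂ] X S) (t : ℕ) :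
    Tendsto (fun k => f (u k) - R S t (f (u k))) atTop (𝓝 0) := by
  have h1 : ∀ k, f (u k) - R S t (f (u k)) = ∑ g ∈ Finset.Icc 1 t, sing S g (co S g (f (u k))) :=
    fun k => sub_R S t _
  simp only [h1]
  have h2 : Tendsto (fun k => ∑ g ∈ Finset.Icc 1 t, sing S g (co S g (f (u k)))) atTop
      (𝓝 (∑ g ∈ Finset.Icc 1 t, (0 : X S))) := by
    refine tendsto_finsetSum _ fun g _ => ?_
    rw [tendsto_zero_iff_norm_tendsto_zero]
    refine squeeze_zero (fun k => norm_nonneg _) (fun k => norm_sing_le S g _) ?_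
    exact tendsto_zero_iff_norm_tendsto_zero.1 (tendsto_co_of_weak hu f g)
  simpa using h2

/-- coordinates of the images of a RIS -/
theorem IsRIS.tendsto_co (h : IsRIS S C x lo hi J) (f : X S →L[ℂ] X S) (g : ℕ) :
    Tendsto (fun k => co S g (f (x k))) atTop (𝓝 0) :=
  tendsto_co_of_weak h.weakly_null f g

/-- lower parts of the images of a RIS -/
theorem IsRIS.tendsto_sub_R (h : IsRIS S C x lo hi J) (f : X S →L[ℂ] X S) (t : ℕ) :
    Tendsto (fun k => f (x k) - R S t (f (x k))) atTop (𝓝 0) :=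
  tendsto_sub_R_of_weak h.weakly_null f t

end Pool.Agent.CK
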