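import Pool.Agent.Work.MP_02927d_an.PsiA
import Pool.Agent.Work.MP_02927d_an.RisInst

set_option autoImplicit false
set_option linter.unusedSectionVars false

/-!
MP_02927d_an, section 7: the nodes `g_k`, the Cauchy property (7a), the map `Psi`.
The key proposition appears through `KPx`.
-/

namespace Pool.Agent.CK

open Filter Topology

variable {A : Type*} [NormedCommRing A] [NormedAlgebra ℂ A] [NormOneClass A]

variable (S : Sys A)

/-- another name for `IsRIS` -/
abbrev RISx (C : ℝ) (x : ℕ → X S) (lo hi J : ℕ → ℕ) : Prop := IsRIS S C x lo hi J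

/-- the conclusion of the key proposition -/
def KPx : Prop := ∀ (T : X S →L[ℂ] X S) (K δ : ℝ), 1 ≤ K → 0 < δ →
  ¬ ∀ q, ∃ (w : ℕ → X S) (lo hi J : ℕ → ℕ) (z : ℕ → (ℕ →₀ A)), IsRIS S K w lo hi J ∧
    (∀ k, q ≤ lo k) ∧ (∀ k, z k ∈ S.B) ∧
    (∀ k c, S.F.P q c = c → pair S (act S.F S.p c (z k)) (w k) = 0) ∧
    ∀ k, δ ≤ ‖pair S (z k) (T (w k))‖

/-- the sequence of nodes used in section 7 -/
structure Nod (g : ℕ → ℕ) : Prop where
  pos : ∀ k, 1 ≤ g k
  gap : ∀ k, g k + 2 ≤ g (k + 1)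
  pg : ∀ k, S.p (g (k + 1)) = g k
  jg : ∀ k, g k + 2 ≤ S.j (g (k + 1))

theorem exists_nod : ∃ g, Nod S g := by
  have h : ∀ m : ℕ, ∃ n, m + 1 < n ∧ S.p n = m ∧ m + 2 ≤ S.j n := by
    intro m
    obtain ⟨n, h1, -, h3, h4, -⟩ := S.rich_root (m + 1) m (2 * (m + 2)) 0 1 (by simp)
      S.zero_mem_B one_pos
    exact ⟨n, h1, h3, by omega⟩
  choose s h1 h2 h3 using h
  let g : ℕ → ℕ := fun k => Nat.rec (s 0) (fun _ m => s m) k
  have hs : ∀ k, g (k + 1) = s (g k) := fun _ => rfl
  refine ⟨g, ⟨?_, ?_, ?_, ?_⟩⟩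
  · intro k
    cases k with
    | zero => have := h1 0; exact (by omega : 1 ≤ s 0)
    | succ k => rw [hs]; have := h1 (g k); omega
  · intro k
    rw [hs]; have := h1 (g k); omega
  · intro k
    rw [hs, h2]
  · intro k
    rw [hs]; exact h3 _

variable {S} {g : ℕ → ℕ}

theorem Nod.strictMono (hg : Nod S g) : StrictMono g :=
  strictMono_nat_of_lt_succ fun k => by have := hg.gap k; omega

theorem Nod.lt_g (hg : Nod S g) (k : ℕ) : k < g k := by
  induction k with
  | zero => have := hg.pos 0; omega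
  | succ k ih => have := hg.gap k; omega

theorem Nod.gap' (hg : Nod S g) {k l : ℕ} (h : k < l) : g k + 2 ≤ g l :=
  (hg.gap k).trans (hg.strictMono.monotone h)

theorem Nod.le_p (hg : Nod S g) {k l : ℕ} (h : k < l) : g k ≤ S.p (g l) := by
  obtain ⟨m, rfl⟩ : ∃ m, l = m + 1 := ⟨l - 1, by omega⟩
  rw [hg.pg]
  exact hg.strictMono.monotone (by omega)

theorem Nod.le_p' (hg : Nod S g) {q k : ℕ} (h : q < k) : q ≤ S.p (g k) :=
  (hg.lt_g q).le.trans (hg.le_p h)

theorem Nod.le_j (hg : Nod S g) {k l : ℕ} (h : k < l) : g k + 2 ≤ S.j (g l) := by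
  obtain ⟨m, rfl⟩ : ∃ m, l = m + 1 := ⟨l - 1, by omega⟩
  have h1 : g k ≤ g m := hg.strictMono.monotone (by omega)
  have := hg.jg m
  omega

theorem Nod.j_mono (hg : Nod S g) : StrictMono fun k => S.j (g k) :=
  strictMono_nat_of_lt_succ fun k => by
    have h1 := hg.jg k
    have h2 := S.j_le (g k) (hg.pos k)
    omega

/-- vectors with one coordinate form a rapidly increasing sequence, for any choice of the
functionals and any subsequence of the nodes -/
theorem Nod.ris_sing (hg : Nod S g) (C : ℝ) (k : ℕ → ℕ) (hk : StrictMono k) (φ : ℕ → Du A)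
    (hφ : ∀ i, ‖φ i‖ ≤ C) :
    IsRIS S C (fun i => sing S (g (k i)) (φ i)) (fun i => g (k i) - 1) (fun i => g (k i) + 1)
      (fun i => S.j (g (k i))) where
  sup i := Sup_sing S _ _ _ _ (by have := hg.pos (k i); omega) (by omega)
  lt i := by omega
  hl i := by
    have h1 := hg.gap' (hk (Nat.lt_succ_self i))
    simp only [Nat.succ_eq_add_one] at h1
    omega
  mono := fun a b h => (hg.j_mono.comp hk).monotone h
  hJ i := by
    have h1 := hg.le_j (hk (Nat.lt_succ_self i))
    simp only [Nat.succ_eq_add_one] at h1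
    omega
  nrm i := (norm_sing_le S _ _).trans (hφ i)
  small i h z hz hh := by
    refine (pair_sing_le S (by omega : S.j (g (k i)) ≠ h) hz (φ i)).trans ?_
    have := hφ i
    gcongr

variable (S)

theorem pair_half {h l : ℕ} {c : A} (w : X S) :
    pair S (act S.F S.p c ((4 : ℂ)⁻¹ • (Finsupp.single h 1 + Finsupp.single l 1))) w =
      (4 : ℂ)⁻¹ * (co S h w (S.F.P (S.p h) c) + co S l w (S.F.P (S.p l) c)) := by
  rw [act_smul, act_add, act_single, act_single, map_smul, map_add]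
  simp only [mul_one, smul_apply, add_apply, smul_eq_mul,
    pair_single]

theorem half_mem_B {h l : ℕ} (hh : 1 ≤ h) (hl : 1 ≤ l) :
    ((4 : ℂ)⁻¹ • (Finsupp.single h 1 + Finsupp.single l 1) : ℕ →₀ A) ∈ S.B := by
  have h1 : ∀ n, 1 ≤ n → ((2 : ℂ)⁻¹ • Finsupp.single n 1 : ℕ →₀ A) ∈ S.B := fun n hn =>
    S.single_mem_B hn (map_one _) norm_one.le
  have h2 := S.add_mem_B (r := 2⁻¹) (s := 2⁻¹) (by norm_num) (h1 h hh) (h1 l hl)
  convert h2 using 1
  rw [smul_smul, smul_smul, ← smul_add]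
  norm_num

/-- cross terms, second kind: this uses weak nullness -/
theorem Nod.ent_tendsto_right (hg : Nod S g) (h : ℕ) (T : X S →L[ℂ] X S) :
    Tendsto (fun l => ent S h (g l) T) atTop (𝓝 0) := by
  choose φ h1 h2 using fun l => exists_dual (ent S h (g l) T)
  have h3 := (hg.ris_sing 1 id strictMono_id φ h1).weakly_null ((co1 S h).comp T)
  rw [tendsto_zero_iff_norm_tendsto_zero]
  rw [tendsto_zero_iff_norm_tendsto_zero] at h3
  refine h3.congr fun l => ?_
  have h4 := ent_dual S (hg.pos l) (h := h) T (φ l)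
  rw [h2] at h4
  show ‖co S h (T (sing S (g l) (φ l))) 1‖ = _
  rw [← h4]
  simp

/-- the diagonal entries -/
noncomputable def bk (g : ℕ → ℕ) (T : X S →L[ℂ] X S) (k : ℕ) : A := ent S (g k) (g k) T

/-- for a sequence which is not Cauchy: for every `N` there is some `k ≥ N` with infinitely many
bad `l` -/
theorem not_cauchy {E : Type*} [NormedAddCommGroup E] {b : ℕ → E} (hb : ¬ CauchySeq b) :
    ∃ δ : ℝ, 0 < δ ∧ ∀ N, ∃ k, N ≤ k ∧ ∀ M, ∃ l, M ≤ l ∧ δ ≤ ‖b k - b l‖ := by
  rw [Metric.cauchySeq_iff] at hb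
  push Not at hb
  obtain ⟨ε, hε, h⟩ := hb
  refine ⟨ε / 2, by positivity, fun N => ?_⟩
  refine ⟨N, le_rfl, fun M => ?_⟩
  by_contra hcon
  push Not at hcon
  obtain ⟨m, hm, n, hn, h1⟩ := h M
  have h2 := hcon m hm
  have h3 := hcon n hn
  rw [dist_eq_norm] at h1
  have h4 : b m - b n = (b N - b n) - (b N - b m) := by abel
  have h5 := norm_sub_le (b N - b n) (b N - b m)
  rw [← h4] at h5
  linarith

/-- (7a) -/
theorem Nod.cauchy (hg : Nod S g) (hK : KPx S) (T : X S →L[ℂ] X S) :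
    CauchySeq (bk S g T) := by
  by_contra hcon
  obtain ⟨δ, hδ, hbad⟩ := not_cauchy hcon
  refine hK T 2 (δ / 8) (by norm_num) (by positivity) fun q => ?_
  -- one pair
  have step : ∀ N : ℕ, ∃ k l : ℕ, ∃ φ : Du A, N ≤ k ∧ k < l ∧ ‖φ‖ ≤ 1 ∧
      δ / 2 ≤ ‖co S (g k) (T (sing S (g k) φ - sing S (g l) φ)) 1 +
        co S (g l) (T (sing S (g k) φ - sing S (g l) φ)) 1‖ := by
    intro N
    obtain ⟨k, hk, hl⟩ := hbad N
    have e1 := (hg.ent_tendsto_right S (g k) T).norm
    have e2 := (ent_tendsto_left S (hg.pos k) T g hg.strictMono.tendsto_atTop).norm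
    rw [norm_zero] at e1 e2
    have e3 := (e1.eventually_lt_const (show (0 : ℝ) < δ / 4 by positivity)).and
      (e2.eventually_lt_const (show (0 : ℝ) < δ / 4 by positivity))
    obtain ⟨M, hM⟩ := eventually_atTop.1 e3
    obtain ⟨l, hl1, hl2⟩ := hl (max M (k + 1))
    obtain ⟨h3, h4⟩ := hM l ((le_max_left _ _).trans hl1)
    obtain ⟨φ, hφ, hφ2⟩ := exists_dual (bk S g T k - bk S g T l)
    refine ⟨k, l, φ, hk, lt_of_lt_of_le (Nat.lt_succ_self k) ((le_max_right _ _).trans hl1),
      hφ, ?_⟩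
    have h5 : co S (g k) (T (sing S (g k) φ - sing S (g l) φ)) 1 +
        co S (g l) (T (sing S (g k) φ - sing S (g l) φ)) 1 =
        φ (bk S g T k - bk S g T l) + (φ (ent S (g l) (g k) T) - φ (ent S (g k) (g l) T)) := by
      rw [map_sub φ (bk S g T k), bk, bk, ent_dual S (hg.pos k), ent_dual S (hg.pos l),
        ent_dual S (hg.pos k), ent_dual S (hg.pos l)]
      simp only [map_sub, sub_apply]
      ring
    rw [h5, hφ2]
    have h6 : ‖φ (ent S (g l) (g k) T)‖ ≤ δ / 4 :=
      (φ.le_opNorm _).trans ((mul_le_of_le_one_left (norm_nonneg _) hφ).trans h4.le)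
    have h7 : ‖φ (ent S (g k) (g l) T)‖ ≤ δ / 4 :=
      (φ.le_opNorm _).trans ((mul_le_of_le_one_left (norm_nonneg _) hφ).trans h3.le)
    have h8 := norm_sub_le (φ (ent S (g l) (g k) T)) (φ (ent S (g k) (g l) T))
    have h9 := norm_sub_norm_le ((‖bk S g T k - bk S g T l‖ : ℂ))
      (-(φ (ent S (g l) (g k) T) - φ (ent S (g k) (g l) T)))
    rw [sub_neg_eq_add, norm_neg, Complex.norm_real, norm_norm] at h9
    linarith
  choose k l φ hk hkl hφ hval using step
  -- the sequence of pairs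
  let N : ℕ → ℕ := fun i => Nat.rec (q + 1) (fun _ n => l n + 1) i
  have hN : ∀ i, N (i + 1) = l (N i) + 1 := fun _ => rfl
  have hN0 : N 0 = q + 1 := rfl
  have hNq : ∀ i, q + 1 ≤ N i := by
    intro i
    induction i with
    | zero => exact hN0.ge
    | succ i ih =>
      rw [hN]
      have h1 := hk (N i)
      have h2 := hkl (N i)
      omega
  have hstep : ∀ i, l (N i) < k (N (i + 1)) := by
    intro i
    have h1 := hk (N (i + 1))
    rw [hN] at h1 ⊢
    omega
  refine ⟨fun i => sing S (g (k (N i))) (φ (N i)) - sing S (g (l (N i))) (φ (N i)),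
    fun i => g (k (N i)) - 1, fun i => g (l (N i)) + 1, fun i => S.j (g (k (N i))),
    fun i => (4 : ℂ)⁻¹ • (Finsupp.single (g (k (N i))) 1 + Finsupp.single (g (l (N i))) 1),
    ?_, ?_, ?_, ?_, ?_⟩
  · refine ⟨?_, ?_, ?_, ?_, ?_, ?_, ?_⟩
    · intro i
      have h1 := hg.gap' (hkl (N i))
      have h2 := hg.pos (k (N i))
      exact Sup.sub S (Sup_sing S _ _ _ _ (by omega) (by omega))
        (Sup_sing S _ _ _ _ (by omega) (by omega))
    · intro i
      have h1 := hg.gap' (hkl (N i))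
      have h2 := hg.pos (k (N i))
      show g (k (N i)) - 1 < g (l (N i)) + 1
      omega
    · intro i
      have h1 := hg.gap' (hstep i)
      show g (l (N i)) + 1 ≤ g (k (N (i + 1))) - 1
      omega
    · refine monotone_nat_of_le_succ fun i => ?_
      exact hg.j_mono.monotone ((hkl (N i)).le.trans (hstep i).le)
    · intro i
      have h1 := hg.le_j (hstep i)
      show g (l (N i)) + 1 ≤ S.j (g (k (N (i + 1))))
      omega
    · intro i
      refine (norm_sub_le _ _).trans ?_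
      have h1 := (norm_sing_le S (g (k (N i))) (φ (N i))).trans (hφ _)
      have h2 := (norm_sing_le S (g (l (N i))) (φ (N i))).trans (hφ _)
      linarith
    · intro i h z hz hh
      have h0 : S.j (g (k (N i))) < S.j (g (l (N i))) := hg.j_mono (hkl (N i))
      have hh' : h < S.j (g (k (N i))) := hh
      have h1 := pair_sing_le S (by omega : S.j (g (k (N i))) ≠ h) hz (φ (N i))
      have h2 := pair_sing_le S (by omega : S.j (g (l (N i))) ≠ h) hz (φ (N i))
      rw [map_sub]
      refine (norm_sub_le _ _).trans ?_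
      have h3 : ‖φ (N i)‖ / mm h ≤ 1 / mm h := by
        have := hφ (N i)
        gcongr
      have h4 : (2 : ℝ) / mm h = 1 / mm h + 1 / mm h := by ring
      rw [h4]
      linarith
  · intro i
    have h1 := hNq i
    have h2 := hk (N i)
    have h3 := hg.lt_g (k (N i))
    show q ≤ g (k (N i)) - 1
    omega
  · intro i
    exact half_mem_B S (hg.pos _) (hg.pos _)
  · intro i c hc
    have h1 := hNq i
    have h2 := hk (N i)
    have h3 := hkl (N i)
    have p1 : q ≤ S.p (g (k (N i))) := hg.le_p' (by omega)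
    have p2 : q ≤ S.p (g (l (N i))) := hg.le_p' (by omega)
    have c1 := S.F.P_of_le p1 hc
    have c2 := S.F.P_of_le p2 hc
    have hne : g (k (N i)) ≠ g (l (N i)) := by have := hg.gap' h3; omega
    rw [pair_half, c1, c2]
    simp only [map_sub, sub_apply, co_sing, if_neg hne, if_neg hne.symm, zero_apply]
    rw [if_pos trivial, if_pos trivial, cut_apply, cut_apply, if_neg, if_neg, c1, c2]
    · ring
    · have := hg.pos (l (N i)); omega
    · have := hg.pos (k (N i)); omega
  · intro i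
    have h1 := hval (N i)
    have h2 := pair_half S (h := g (k (N i))) (l := g (l (N i))) (c := 1)
      (T (sing S (g (k (N i))) (φ (N i)) - sing S (g (l (N i))) (φ (N i))))
    rw [act_one, map_one (S.F.P _), map_one (S.F.P _)] at h2
    rw [h2, norm_mul, norm_inv, Complex.norm_ofNat]
    linarith

/-- the limit of the diagonal entries -/
theorem Nod.exists_lim [CompleteSpace A] (hg : Nod S g) (hK : KPx S)
    (T : X S →L[ℂ] X S) : ∃ a, Tendsto (bk S g T) atTop (𝓝 a) :=
  cauchySeq_tendsto_of_complete (hg.cauchy S hK T)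

/-- existence of `Psi` -/
theorem Nod.exists_Psi [CompleteSpace A] (hg : Nod S g) (hK : KPx S) :
    ∃ Ψ : (X S →L[ℂ] X S) →L[ℂ] A, (∀ T, ‖Ψ T‖ ≤ 2 * ‖T‖) ∧
      (∀ T, Tendsto (bk S g T) atTop (𝓝 (Ψ T))) ∧
      Ψ 1 = 1 ∧ (∀ t a, Ψ (D S t a) = S.F.P t a) ∧
      (∀ T : X S →L[ℂ] X S, IsCompactOperator T → Ψ T = 0) := by
  choose Ψ0 hΨ0 using hg.exists_lim S hK
  have hadd : ∀ T U, Ψ0 (T + U) = Ψ0 T + Ψ0 U := by
    intro T U
    refine tendsto_nhds_unique (hΨ0 (T + U)) (((hΨ0 T).add (hΨ0 U)).congr fun k => ?_)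
    exact (ent_add S (hg.pos k) T U).symm
  have hsmul : ∀ (c : ℂ) T, Ψ0 (c • T) = c • Ψ0 T := by
    intro c T
    refine tendsto_nhds_unique (hΨ0 (c • T)) (((hΨ0 T).const_smul c).congr fun k => ?_)
    exact (ent_smul S (hg.pos k) c T).symm
  have hnorm : ∀ T, ‖Ψ0 T‖ ≤ 2 * ‖T‖ := by
    intro T
    exact le_of_tendsto (hΨ0 T).norm (Eventually.of_forall fun k => ent_norm S (hg.pos k) T)
  let ΨL : (X S →L[ℂ] X S) →ₗ[ℂ] A :=
    { toFun := Ψ0
      map_add' := hadd
      map_smul' := hsmul }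
  refine ⟨ΨL.mkContinuous 2 hnorm, hnorm, hΨ0, ?_, ?_, ?_⟩
  · show Ψ0 1 = 1
    refine tendsto_nhds_unique (hΨ0 _) (tendsto_const_nhds.congr fun k => ?_)
    refine (eq_of_dual fun φ => ?_).symm
    rw [bk, ent_dual S (hg.pos k)]
    show co S (g k) (sing S (g k) φ) 1 = _
    rw [co_sing_self S (hg.pos k), map_one]
  · intro t a
    show Ψ0 (D S t a) = _
    refine tendsto_nhds_unique (hΨ0 _) (tendsto_const_nhds.congr' ?_)
    filter_upwards [eventually_gt_atTop t] with k hk
    exact (ent_D S (hg.pos k) (hg.le_p' hk) a).symm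
  · intro T hT
    show Ψ0 T = 0
    refine tendsto_nhds_unique (hΨ0 T) ?_
    choose φ h1 h2 using fun k => exists_dual (bk S g T k)
    have hris := hg.ris_sing 1 id strictMono_id φ h1
    set x : ℕ → X S := fun k => sing S (g k) (φ k) with hx
    have hx1 : ∀ k, ‖x k‖ ≤ 1 := fun k => (norm_sing_le S _ _).trans (h1 k)
    have hb : ∀ k, ‖bk S g T k‖ ≤ 2 * ‖T (x k)‖ := by
      intro k
      have h3 := ent_dual S (hg.pos k) (h := g k) T (φ k)
      have h4 : φ k (ent S (g k) (g k) T) = ‖bk S g T k‖ := h2 k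
      have h5 : ‖bk S g T k‖ = ‖co S (g k) (T (x k)) 1‖ := by
        rw [← h3, h4]; simp
      rw [h5]
      refine (ContinuousLinearMap.le_opNorm _ _).trans ?_
      rw [norm_one, mul_one]
      exact norm_co_le S _ _
    have hT0 : Tendsto (fun k => T (x k)) atTop (𝓝 0) := by
      refine tendsto_of_subseq_tendsto fun ns hns => ?_
      obtain ⟨K, hK1, hK2⟩ :=
        IsCompactOperator.image_closedBall_subset_compact (f := T.toLinearMap) hT 1
      have hmem : ∀ n, T (x (ns n)) ∈ K := fun n =>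
        hK2 ⟨x (ns n), by rw [mem_closedBall_zero_iff]; exact hx1 _, rfl⟩
      obtain ⟨y, -, ms, hms, hy⟩ := hK1.tendsto_subseq hmem
      refine ⟨ms, ?_⟩
      have hy0 : y = 0 := by
        by_contra hne
        obtain ⟨f, -, hf⟩ := exists_dual_vector ℂ y (norm_ne_zero_iff.2 hne)
        have h7 : Tendsto (fun n => f (T (x (ns (ms n))))) atTop (𝓝 (f y)) :=
          (f.continuous.tendsto y).comp hy
        have h8 := (hris.weakly_null (f.comp T)).comp (hns.comp hms.tendsto_atTop)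
        have h9 := tendsto_nhds_unique h7 h8
        rw [hf] at h9
        exact hne (by simpa using h9)
      rw [← hy0]
      exact hy
    have h6 : Tendsto (fun k => 2 * ‖T (x k)‖) atTop (𝓝 0) := by
      simpa using hT0.norm.const_mul 2
    exact squeeze_zero_norm hb h6

end Pool.Agent.CK
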