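import Pool.Agent.Work.MP_02927d_an.J7a
import Pool.Agent.Work.MP_02927d_an.KeyInst
import Pool.Agent.Work.MP_02927d_an.PsiB

/-!
The key proposition (section 6) for the space `X S`.
-/

open Finset Filter Topology

set_option linter.unusedSectionVars false

namespace Pool.Agent.CK

variable {A : Type*} [NormedCommRing A] [NormedAlgebra ℂ A] [NormOneClass A]

/-- exact pairs in the form used by the abstract key proposition -/
theorem IsEP.toEP {S : Sys A} {U : X S →L[ℂ] X S} {K δ ε : ℝ} {q i e : ℕ} {y : X S}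
    (hK : 0 ≤ K) (h : IsEP S U K δ q i ε e y) : (ks S).EP U K δ q i ε e y where
  q_lt := h.q_lt
  jw := h.j_eq
  T_e := fun s c x => by
    show fnl S (S.e e) s c x = fnl S (S.e e) (max s q) c x
    rw [fnl_apply, fnl_apply]
    conv_lhs => rw [← h.T_e, T_T]
  sup := h.sup
  ex := h.ex
  d_small := fun n s c hn hc => by
    show ‖fnl S (Finsupp.single n 1) s c y‖ ≤ 2 * K / mm i
    rw [fnl_apply, T_single]
    split_ifs with hs
    · rw [act_single, mul_one]
      exact h.d_small n _ hn (S.F.P_P _ _) ((S.F.norm_le _ _).trans hc.2)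
    · rw [act_zero, map_zero]
      show ‖(0 : ℂ)‖ ≤ _
      rw [norm_zero]
      positivity
  e_small := fun c hc => by
    show ‖fnl S (S.e e) q c y‖ ≤ ε
    rw [fnl_apply, h.T_e]
    exact h.e_small c hc.1 hc.2
  low := by
    show δ - ε ≤ (fnl S (S.e e) 0 1 (U y)).re
    rw [fnl_apply, S.T_zero_e, act_one]
    exact h.low
  Tsmall := h.Tsmall

/-- **Key proposition**. -/
theorem key_prop (S : Sys A) (U : X S →L[ℂ] X S) (K δ : ℝ) (hK : 0 < K) (hδ : 0 < δ)
    (H : ∀ q, ∃ (w : ℕ → X S) (lo hi J : ℕ → ℕ) (z : ℕ → (ℕ →₀ A)), IsRIS S K w lo hi J ∧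
      (∀ k, z k ∈ S.B) ∧
      (∀ k c, S.F.P q c = c → ‖c‖ ≤ 1 → pair S (act S.F S.p c (z k)) (w k) = 0) ∧
      ∀ k, δ ≤ ‖pair S (z k) (U (w k))‖) : False := by
  refine key_of_EP S U hK hδ fun q i ε hi hi2 hε => ?_
  obtain ⟨w, lo, hi', J, z, h1, h2, h3, h4⟩ := H q
  obtain ⟨e, y, h⟩ := exists_IsEP S U K δ ε hε q i (Nat.even_iff.2 hi) (by omega) w lo hi' J z
    h1 h2 h3 h4
  exact ⟨e, y, h.toEP hK.le⟩

/-- the key proposition in the form of section 7 -/
theorem kpx (S : Sys A) : KPx S := by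
  intro U K δ hK hδ H
  refine key_prop S U K δ (by linarith) hδ fun q => ?_
  obtain ⟨w, lo, hi, J, z, h1, -, h3, h4, h5⟩ := H q
  exact ⟨w, lo, hi, J, z, h1, h3, fun k c hc _ => h4 k c hc, h5⟩

end Pool.Agent.CK
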