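import Pool.Agent.Work.MP_02927d_an.Main
import Pool.Agent.Work.MP_02927d_an.Absorb
import Pool.Agent.Work.MP_02927d_an.KP

/-! # The final theorem -/

set_option autoImplicit false

noncomputable section

namespace Pool.Agent.CK

universe u

/-- Theorem A. -/
theorem theoremA : TheoremA.{u} := theoremA_of fun _ _ _ _ _ S => exists_Psi_full S (kpx S)

/-- The statement for the unitizations. -/
theorem final (U : Type u) [NormedAddCommGroup U]
    [NormedSpace ℂ U] [CompleteSpace U] (b : UnconditionalSchauderBasis ℕ ℂ U)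
    (hb : ∀ s, ‖b s‖ = 1) :
    (∀ x y : U, Summable fun s => (b.coord s x * b.coord s y) • b s) ∧
    ∃ (X : Type u) (_ : NormedAddCommGroup X) (_ : NormedSpace ℂ X) (_ : CompleteSpace X)
      (Φ : ((X →L[ℂ] X) ⧸ compactOperator (RingHom.id ℂ) X X) ≃L[ℂ] (U × ℂ)),
      Φ (Submodule.Quotient.mk (ContinuousLinearMap.id ℂ X)) = (0, 1) ∧
      ∀ S T : X →L[ℂ] X,
        Φ (Submodule.Quotient.mk (S.comp T)) =
          (cmul b (Φ (Submodule.Quotient.mk S)).1 (Φ (Submodule.Quotient.mk T)).1 +
            (Φ (Submodule.Quotient.mk S)).2 • (Φ (Submodule.Quotient.mk T)).1 +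
            (Φ (Submodule.Quotient.mk T)).2 • (Φ (Submodule.Quotient.mk S)).1,
            (Φ (Submodule.Quotient.mk S)).2 * (Φ (Submodule.Quotient.mk T)).2) :=
  final_of_theoremA theoremA U b hb

end Pool.Agent.CK
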