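import Pool.Agent.Work.MP_02927d_an.Def
import Pool.Agent.Work.MP_02927d_an.App

/-!
# From Theorem A to the Calkin algebra of the problem

`TheoremA` is the statement that every commutative Banach algebra with contractive compatible
finite rank projections that are algebra homomorphisms is the quotient `L(X) / K(X)` for a
Banach space `X`. This file derives the statement for unitizations.
-/

open Filter Topology

noncomputable section

namespace Pool.Agent.CK

universe u v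

/-- A continuous linear surjection of `L(X)` onto a Banach space with kernel `K(X)` induces a
continuous linear equivalence of the quotient. -/
theorem quot_equiv_of_surjective {X : Type u} [NormedAddCommGroup X] [NormedSpace ℂ X]
    [CompleteSpace X] {B : Type v} [NormedAddCommGroup B] [NormedSpace ℂ B] [CompleteSpace B]
    (Ψ : (X →L[ℂ] X) →L[ℂ] B) (hs : Function.Surjective Ψ)
    (hk : ∀ T, Ψ T = 0 ↔ IsCompactOperator T) :
    ∃ Φ : ((X →L[ℂ] X) ⧸ compactOperator (RingHom.id ℂ) X X) ≃L[ℂ] B,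
      ∀ T : X →L[ℂ] X, Φ (Submodule.Quotient.mk T) = Ψ T := by
  have hle : compactOperator (RingHom.id ℂ) X X ≤ LinearMap.ker (Ψ : (X →L[ℂ] X) →ₗ[ℂ] B) := by
    intro T hT
    exact (hk T).2 hT
  let L : ((X →L[ℂ] X) ⧸ compactOperator (RingHom.id ℂ) X X) →ₗ[ℂ] B :=
    (compactOperator (RingHom.id ℂ) X X).liftQ (Ψ : (X →L[ℂ] X) →ₗ[ℂ] B) hle
  have hL : ∀ T : X →L[ℂ] X, L (Submodule.Quotient.mk T) = Ψ T := fun T => rfl
  have hinj : Function.Injective L := by
    intro p q hpq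
    obtain ⟨S, rfl⟩ := Submodule.Quotient.mk_surjective _ p
    obtain ⟨T, rfl⟩ := Submodule.Quotient.mk_surjective _ q
    rw [hL, hL] at hpq
    rw [Submodule.Quotient.eq]
    refine (hk (S - T)).1 ?_
    rw [map_sub, hpq, sub_self]
  have hsurj : Function.Surjective L := by
    intro y
    obtain ⟨T, hT⟩ := hs y
    exact ⟨Submodule.Quotient.mk T, hT⟩
  have hcont : Continuous L :=
    ((compactOperator (RingHom.id ℂ) X X).isQuotientMap_mkQ.continuous_iff).2 Ψ.continuous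
  have hopen : IsOpenMap L := by
    intro V hV
    have h1 : L '' V = Ψ '' ((compactOperator (RingHom.id ℂ) X X).mkQ ⁻¹' V) := by
      ext y
      constructor
      · rintro ⟨p, hp, rfl⟩
        obtain ⟨S, rfl⟩ := Submodule.Quotient.mk_surjective _ p
        exact ⟨S, hp, rfl⟩
      · rintro ⟨S, hS, rfl⟩
        exact ⟨Submodule.Quotient.mk S, hS, rfl⟩
    rw [h1]
    exact Ψ.isOpenMap hs _
      (hV.preimage (compactOperator (RingHom.id ℂ) X X).continuous_mkQ)
  let e : ((X →L[ℂ] X) ⧸ compactOperator (RingHom.id ℂ) X X) ≃ₗ[ℂ] B :=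
    LinearEquiv.ofBijective L ⟨hinj, hsurj⟩
  refine ⟨{ e with
    continuous_toFun := hcont
    continuous_invFun := ?_ }, fun T => rfl⟩
  have h2 : ∀ p, e p = L p := fun p => rfl
  refine continuous_def.2 fun V hV => ?_
  have h3 : e.symm ⁻¹' V = L '' V := by
    ext y
    constructor
    · intro hy
      exact ⟨e.symm y, hy, e.apply_symm_apply y⟩
    · rintro ⟨p, hp, rfl⟩
      show e.symm (L p) ∈ V
      rw [← h2, e.symm_apply_apply]
      exact hp
  have h4 : (fun y => e.symm y) ⁻¹' V = L '' V := h3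
  exact h4 ▸ hopen V hV

/-- The statement of Theorem A. -/
def TheoremA : Prop :=
  ∀ (A : Type u) [NormedCommRing A] [NormedAlgebra ℂ A] [NormOneClass A] [CompleteSpace A],
    Filt A → ∃ (X : Type u) (_ : NormedAddCommGroup X) (_ : NormedSpace ℂ X)
      (_ : CompleteSpace X) (Ψ : (X →L[ℂ] X) →L[ℂ] A),
      Function.Surjective Ψ ∧ (∀ S T : X →L[ℂ] X, Ψ (S.comp T) = Ψ S * Ψ T) ∧
      Ψ (ContinuousLinearMap.id ℂ X) = 1 ∧ ∀ T, Ψ T = 0 ↔ IsCompactOperator T

/-- Theorem A implies the statement for the unitizations. -/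
theorem final_of_theoremA (hA : TheoremA.{u}) (U : Type u) [NormedAddCommGroup U]
    [NormedSpace ℂ U] [CompleteSpace U] (b : UnconditionalSchauderBasis ℕ ℂ U)
    (hb : ∀ s, ‖b s‖ = 1) :
    (∀ x y : U, Summable fun s => (b.coord s x * b.coord s y) • b s) ∧
    ∃ (X : Type u) (_ : NormedAddCommGroup X) (_ : NormedSpace ℂ X) (_ : CompleteSpace X)
      (Φ : ((X →L[ℂ] X) ⧸ compactOperator (RingHom.id ℂ) X X) ≃L[ℂ] (U × ℂ)),
      Φ (Submodule.Quotient.mk (ContinuousLinearMap.id ℂ X)) = (0, 1) ∧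
      ∀ S T : X →L[ℂ] X,
        Φ (Submodule.Quotient.mk (S.comp T)) =
          (cmul b (Φ (Submodule.Quotient.mk S)).1 (Φ (Submodule.Quotient.mk T)).1 +
            (Φ (Submodule.Quotient.mk S)).2 • (Φ (Submodule.Quotient.mk T)).1 +
            (Φ (Submodule.Quotient.mk T)).2 • (Φ (Submodule.Quotient.mk S)).1,
            (Φ (Submodule.Quotient.mk S)).2 * (Φ (Submodule.Quotient.mk T)).2) := by
  refine ⟨fun x y => summable_mul b hb x y, ?_⟩
  obtain ⟨A, i1, i2, i3, i4, P, Θ, h1, h2, h3, h4, hone, hmul, -⟩ := exists_alg b hb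
  obtain ⟨X, j1, j2, j3, Ψ, hs, hm, hid, hk⟩ := hA A ⟨P, h1, h2, h3, h4⟩
  obtain ⟨Φ, hΦ⟩ := quot_equiv_of_surjective ((Θ : A →L[ℂ] (U × ℂ)).comp Ψ)
    (Θ.surjective.comp hs) (fun T => by
      rw [← hk T]
      show Θ (Ψ T) = 0 ↔ Ψ T = 0
      exact Θ.map_eq_zero_iff)
  refine ⟨X, j1, j2, j3, Φ, ?_, ?_⟩
  · rw [hΦ]
    show Θ (Ψ (ContinuousLinearMap.id ℂ X)) = _
    rw [hid, hone]
  · intro S T
    rw [hΦ, hΦ, hΦ]
    show Θ (Ψ (S.comp T)) = (cmul b (Θ (Ψ S)).1 (Θ (Ψ T)).1 + (Θ (Ψ S)).2 • (Θ (Ψ T)).1 +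
      (Θ (Ψ T)).2 • (Θ (Ψ S)).1, (Θ (Ψ S)).2 * (Θ (Ψ T)).2)
    rw [hm, hmul]

end Pool.Agent.CK

end
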