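import Mathlib

open Filter Topology

namespace Pool.Agent.CK

/-- Decomposition of an element of a Banach algebra along an approximating sequence of
projections: `b` is an absolutely convergent sum of elements of the ranges. -/
theorem exists_hasSum_ranges {A : Type*} [NormedAddCommGroup A] [CompleteSpace A]
    (P : ℕ → A → A)
    (hP : ∀ n m, n ≤ m → ∀ a, P m (P n a) = P n a)
    (hsub : ∀ n a b, P n (a - b) = P n a - P n b)
    (hlim : ∀ a, Tendsto (fun n => P n a) atTop (𝓝 a)) (b : A) :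
    ∃ (c : ℕ → A) (t : ℕ → ℕ), (∀ i, P (t i) (c i) = c i) ∧
      (Summable fun i => ‖c i‖) ∧ HasSum c b := by
  have h1 : ∀ i : ℕ, ∃ N : ℕ, ∀ n ≥ N, ‖P n b - b‖ < (1 / 2 : ℝ) ^ i := by
    intro i
    have := (Metric.tendsto_atTop.1 (hlim b)) ((1 / 2 : ℝ) ^ i) (by positivity)
    obtain ⟨N, hN⟩ := this
    exact ⟨N, fun n hn => by simpa [dist_eq_norm] using hN n hn⟩
  choose N hN using h1
  let t : ℕ → ℕ := fun i => Nat.rec (N 0) (fun k r => max r (N (k + 1))) i
  have ht0 : t 0 = N 0 := rfl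
  have htS : ∀ k, t (k + 1) = max (t k) (N (k + 1)) := fun k => rfl
  have htN : ∀ i, N i ≤ t i := by
    intro i
    cases i with
    | zero => exact le_of_eq ht0.symm
    | succ k => rw [htS]; exact le_max_right _ _
  have htm : ∀ k, t k ≤ t (k + 1) := fun k => by rw [htS]; exact le_max_left _ _
  let c : ℕ → A := fun i => match i with
    | 0 => P (t 0) b
    | k + 1 => P (t (k + 1)) b - P (t k) b
  have hc0 : c 0 = P (t 0) b := rfl
  have hcS : ∀ k, c (k + 1) = P (t (k + 1)) b - P (t k) b := fun k => rfl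
  have hsum : ∀ n, ∑ i ∈ Finset.range (n + 1), c i = P (t n) b := by
    intro n
    induction n with
    | zero => simp [hc0]
    | succ k ih => rw [Finset.sum_range_succ, ih, hcS]; abel
  have hnorm : Summable fun i => ‖c i‖ := by
    rw [← summable_nat_add_iff 1]
    have hg : Summable fun k : ℕ => 2 * (1 / 2 : ℝ) ^ k :=
      (summable_geometric_of_lt_one (by norm_num) (by norm_num)).mul_left 2
    refine Summable.of_nonneg_of_le (fun k => norm_nonneg _) (fun k => ?_) hg
    rw [hcS]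
    have e1 : P (t (k + 1)) b - P (t k) b = (P (t (k + 1)) b - b) - (P (t k) b - b) := by abel
    rw [e1]
    have a1 := hN (k + 1) (t (k + 1)) (htN (k + 1))
    have a2 := hN k (t k) (htN k)
    have a3 : ((1 : ℝ) / 2) ^ (k + 1) ≤ (1 / 2 : ℝ) ^ k :=
      pow_le_pow_of_le_one (by norm_num) (by norm_num) (Nat.le_succ k)
    calc ‖(P (t (k + 1)) b - b) - (P (t k) b - b)‖
        ≤ ‖P (t (k + 1)) b - b‖ + ‖P (t k) b - b‖ := norm_sub_le _ _
      _ ≤ 2 * (1 / 2 : ℝ) ^ k := by linarith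
  refine ⟨c, t, ?_, hnorm, ?_⟩
  · intro i
    cases i with
    | zero => rw [hc0]; exact hP _ _ le_rfl _
    | succ k =>
      rw [hcS, hsub, hP _ _ le_rfl, hP _ _ (htm k)]
  · have hs : Summable c := hnorm.of_norm
    have h2 : Tendsto (fun n => ∑ i ∈ Finset.range (n + 1), c i) atTop (𝓝 (∑' i, c i)) :=
      (hs.hasSum.tendsto_sum_nat).comp (tendsto_add_atTop_nat 1)
    have h3 : Tendsto (fun n => ∑ i ∈ Finset.range (n + 1), c i) atTop (𝓝 b) := by
      simp only [hsum]
      rw [Metric.tendsto_atTop]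
      intro ε hε
      obtain ⟨k, hk⟩ := exists_pow_lt_of_lt_one hε (show (1 / 2 : ℝ) < 1 by norm_num)
      refine ⟨k, fun n hn => ?_⟩
      have hmono : Monotone t := monotone_nat_of_le_succ htm
      have := hN k (t n) ((htN k).trans (hmono hn))
      rw [dist_eq_norm]
      exact this.trans hk
    have h4 : ∑' i, c i = b := tendsto_nhds_unique h2 h3
    rw [← h4]
    exact hs.hasSum

/-- (7d) in abstract form. -/
theorem abs7d {A : Type*} [NormedCommRing A] [NormedAlgebra ℂ A] [CompleteSpace A]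
    {X : Type*} [NormedAddCommGroup X] [NormedSpace ℂ X] [CompleteSpace X]
    (P : ℕ → A → A)
    (hP : ∀ n m, n ≤ m → ∀ a, P m (P n a) = P n a)
    (hmul : ∀ n a b, P n (a * b) = P n a * P n b)
    (hsub : ∀ n a b, P n (a - b) = P n a - P n b)
    (hlim : ∀ a, Tendsto (fun n => P n a) atTop (𝓝 a))
    (D : A → ℕ → (X →L[ℂ] X))
    (hDn : ∀ a t, P t a = a → ‖D a t‖ ≤ ‖a‖)
    (hDD : ∀ a b t s, P t a = a → P s b = b → (D a t).comp (D b s) = D (a * b) (max t s))
    (Ψ : (X →L[ℂ] X) →L[ℂ] A)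
    (hΨD : ∀ a t, P t a = a → Ψ (D a t) = a)
    (hΨK : ∀ T : X →L[ℂ] X, IsCompactOperator T → Ψ T = 0)
    (hKΨ : ∀ T : X →L[ℂ] X, Ψ T = 0 → IsCompactOperator T) :
    (∀ S T : X →L[ℂ] X, Ψ (S.comp T) = Ψ S * Ψ T) ∧ Function.Surjective Ψ ∧
      (∀ T : X →L[ℂ] X, Ψ T = 0 ↔ IsCompactOperator T) := by
  -- the lifting `b ↦ D_b`
  have key : ∀ b : A, ∃ (c : ℕ → A) (t : ℕ → ℕ) (E : X →L[ℂ] X),
      (∀ i, P (t i) (c i) = c i) ∧ HasSum c b ∧ HasSum (fun i => D (c i) (t i)) E := by
    intro b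
    obtain ⟨c, t, h1, h2, h3⟩ := exists_hasSum_ranges P hP hsub hlim b
    have h4 : Summable fun i => D (c i) (t i) := by
      refine Summable.of_norm_bounded h2 (fun i => hDn _ _ (h1 i))
    exact ⟨c, t, ∑' i, D (c i) (t i), h1, h3, h4.hasSum⟩
  choose c t E h1 h3 h4 using key
  have hΨE : ∀ b, Ψ (E b) = b := by
    intro b
    have h5 : HasSum (fun i => Ψ (D (c b i) (t b i))) (Ψ (E b)) := Ψ.hasSum (h4 b)
    have h6 : (fun i => Ψ (D (c b i) (t b i))) = c b := by
      funext i; exact hΨD _ _ (h1 b i)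
    rw [h6] at h5
    exact h5.unique (h3 b)
  have hPmax : ∀ a b s u, P s a = a → P u b = b → P (max s u) (a * b) = a * b := by
    intro a b s u ha hb
    have ea : P (max s u) a = a := by
      have := hP s (max s u) (le_max_left _ _) a
      rwa [ha] at this
    have eb : P (max s u) b = b := by
      have := hP u (max s u) (le_max_right _ _) b
      rwa [hb] at this
    rw [hmul, ea, eb]
  have hΨEE : ∀ b b', Ψ ((E b).comp (E b')) = b * b' := by
    intro b b'
    have e1 : ∀ i, Ψ ((D (c b i) (t b i)).comp (E b')) = c b i * b' := by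
      intro i
      have f1 : HasSum (fun j => Ψ ((D (c b i) (t b i)) * (D (c b' j) (t b' j))))
          (Ψ ((D (c b i) (t b i)) * (E b'))) := Ψ.hasSum ((h4 b').mul_left _)
      have f2 : (fun j => Ψ ((D (c b i) (t b i)) * (D (c b' j) (t b' j))))
          = fun j => c b i * c b' j := by
        funext j
        have := hDD _ _ _ _ (h1 b i) (h1 b' j)
        rw [show (D (c b i) (t b i)) * (D (c b' j) (t b' j))
          = (D (c b i) (t b i)).comp (D (c b' j) (t b' j)) from rfl, this]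
        exact hΨD _ _ (hPmax _ _ _ _ (h1 b i) (h1 b' j))
      rw [f2] at f1
      exact f1.unique ((h3 b').mul_left _)
    have g1 : HasSum (fun i => Ψ ((D (c b i) (t b i)) * (E b'))) (Ψ ((E b) * (E b'))) :=
      Ψ.hasSum ((h4 b).mul_right _)
    have g2 : (fun i => Ψ ((D (c b i) (t b i)) * (E b'))) = fun i => c b i * b' := by
      funext i; exact e1 i
    rw [g2] at g1
    exact g1.unique ((h3 b).mul_right _)
  refine ⟨?_, fun b => ⟨E b, hΨE b⟩, fun T => ⟨hKΨ T, hΨK T⟩⟩
  intro S T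
  have kS : IsCompactOperator (S - E (Ψ S)) := hKΨ _ (by rw [map_sub, hΨE, sub_self])
  have kT : IsCompactOperator (T - E (Ψ T)) := hKΨ _ (by rw [map_sub, hΨE, sub_self])
  have e : S.comp T = (E (Ψ S)).comp (E (Ψ T)) +
      ((E (Ψ S)).comp (T - E (Ψ T)) + (S - E (Ψ S)).comp T) := by
    ext x
    simp
  have k1 : Ψ ((E (Ψ S)).comp (T - E (Ψ T))) = 0 := by
    apply hΨK
    exact kT.clm_comp (E (Ψ S))
  have k2 : Ψ ((S - E (Ψ S)).comp T) = 0 := by
    apply hΨK
    exact kS.comp_clm T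
  rw [e, map_add, map_add, k1, k2, hΨEE]
  simp

end Pool.Agent.CK
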