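import Pool.Agent.Work.MP_02927d_an.Space
import Pool.Agent.Work.MP_02927d_an.IsoAbs

/-! # (7d): the map `Psi` is multiplicative and surjective, its kernel is the compact operators -/

open Filter Topology

set_option autoImplicit false

namespace Pool.Agent.CK

variable {A : Type*} [NormedCommRing A] [NormedAlgebra ℂ A] [NormOneClass A] [CompleteSpace A]

/-- (7d) -/
theorem psi_mul_surj (S : Sys A) (Ψ : (X S →L[ℂ] X S) →ₗ[ℂ] A)
    (hb : ∀ U : X S →L[ℂ] X S, ‖Ψ U‖ ≤ 2 * ‖U‖)
    (hD : ∀ t a, S.F.P t a = a → Ψ (D S t a) = a)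
    (hK : ∀ U : X S →L[ℂ] X S, IsCompactOperator U → Ψ U = 0)
    (hc : ∀ U : X S →L[ℂ] X S, Ψ U = 0 → IsCompactOperator U) :
    (∀ U V : X S →L[ℂ] X S, Ψ (U * V) = Ψ U * Ψ V) ∧ Function.Surjective Ψ ∧
      (∀ U : X S →L[ℂ] X S, Ψ U = 0 ↔ IsCompactOperator U) := by
  have h := abs7d (A := A) (X := X S) (fun n a => S.F.P n a)
    (fun n m hnm a => by
      show S.F.P m (S.F.P n a) = S.F.P n a
      rw [S.F.comp, min_eq_right hnm])
    (fun n a b => map_mul _ a b) (fun n a b => map_sub _ a b) S.F.tends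
    (fun a t => D S t a)
    (fun a t _ => ContinuousLinearMap.opNorm_le_bound _ (norm_nonneg _) (norm_D_le S t a))
    (fun a b t s ha hs => by
      show (D S t a).comp (D S s b) = D S (max t s) (a * b)
      rw [D_comp, ha, hs])
    (Ψ.mkContinuous 2 hb) (fun a t ha => hD t a ha) hK hc
  exact h

end Pool.Agent.CK
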