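import Pool.Agent.Work.MP_02927d_an.J7aRaw47
import Pool.Agent.Work.MP_02927d_an.RisInst

/-!
Exact pairs (section 6), over the space `X S`.
-/

open Finset Filter Topology

set_option linter.unusedSectionVars false

namespace Pool.Agent.CK

variable {A : Type*} [NormedCommRing A] [NormedAlgebra ℂ A] [NormOneClass A]

/-- an exact pair of weight `i` beyond `q` for the operator `U` -/
structure IsEP (S : Sys A) (U : X S →L[ℂ] X S) (K δ : ℝ) (q i : ℕ) (ε : ℝ) (e : ℕ) (y : X S) :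
    Prop where
  q_lt : q < e
  j_eq : S.j e = i
  T_e : T q (S.e e) = S.e e
  sup : Sup S y q e
  ex : (rs S).Exact (2 * K) i y
  d_small : ∀ g a, 1 ≤ g → S.F.P (S.p g) a = a → ‖a‖ ≤ 1 →
    ‖pair S (Finsupp.single g a) y‖ ≤ 2 * K / mm i
  e_small : ∀ c, S.F.P q c = c → ‖c‖ ≤ 1 → ‖pair S (act S.F S.p c (S.e e)) y‖ ≤ ε
  low : δ - ε ≤ (pair S (S.e e) (U y)).re
  Tsmall : ‖U y - R S q (U y)‖ ≤ ε

/-- the exact pair step of the key proposition -/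
theorem exists_IsEP (S : Sys A) (U : X S →L[ℂ] X S) (K δ ε : ℝ) (hε : 0 < ε) (q i : ℕ)
    (hev : Even i) (hi2 : 1 ≤ i) (w : ℕ → X S) (lo hi J : ℕ → ℕ) (z : ℕ → (ℕ →₀ A))
    (hR : IsRIS S K w lo hi J) (hz : ∀ k, z k ∈ S.B)
    (hzw : ∀ k c, S.F.P q c = c → ‖c‖ ≤ 1 → pair S (act S.F S.p c (z k)) (w k) = 0)
    (hδ : ∀ k, δ ≤ ‖pair S (z k) (U (w k))‖) :
    ∃ e y, IsEP S U K δ q i ε e y := by
  obtain ⟨η, κ, y, hκ, h1, h2, h3, h4, h5, h6, h7, h8, h9⟩ := j7a_raw47 S U K δ ε hR.C_nonneg hε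
    q i hev w lo hi z hR.lt hR.hl hR.sup hR.nrm hR.weakly_null hz hzw hδ
  refine ⟨η, y, ⟨h1, h2, h3, h4, ?_, h6, h7, h8, h9⟩⟩
  have hex := (hR.toR.comp hκ).five_d hR.C_nonneg hi2 (a := 0) (b := nn i) (zero_add _).symm
  rw [← Finset.range_eq_Ico] at hex
  rw [h5]
  exact hex

end Pool.Agent.CK
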