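import Pool.Agent.Work.MP_02927d_an.PairA47
import Pool.Agent.Work.MP_02927d_an.RisB

/-!
Exact pairs, the assembly of (A) and (B), everything except the exactness of the vector.
-/

open Finset Filter Topology

set_option linter.unusedSectionVars false

namespace Pool.Agent.CK

variable {A : Type*} [NormedCommRing A] [NormedAlgebra ℂ A] [NormOneClass A]

/-- **(J7a)** everything except exactness -/
theorem j7a_raw47 (S : Sys A) (U : X S →L[ℂ] X S) (K δ ε : ℝ) (hK : 0 ≤ K) (hε : 0 < ε) (q i : ℕ)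
    (hev : Even i) (w : ℕ → X S) (lo hi : ℕ → ℕ) (z : ℕ → (ℕ →₀ A))
    (hlo : ∀ k, lo k < hi k) (hhi : ∀ k, hi k ≤ lo (k + 1))
    (hsup : ∀ k, Sup S (w k) (lo k) (hi k)) (hnorm : ∀ k, ‖w k‖ ≤ K)
    (hweak : ∀ f : X S →L[ℂ] ℂ, Tendsto (fun k => f (w k)) atTop (𝓝 0))
    (hz : ∀ k, z k ∈ S.B)
    (hzw : ∀ k c, S.F.P q c = c → ‖c‖ ≤ 1 → pair S (act S.F S.p c (z k)) (w k) = 0)
    (hδ : ∀ k, δ ≤ ‖pair S (z k) (U (w k))‖) :
    ∃ (η : ℕ) (κ : ℕ → ℕ) (y : X S), StrictMono κ ∧ q < η ∧ S.j η = i ∧ T q (S.e η) = S.e η ∧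
      Sup S y q η ∧ y = ((mm i : ℂ) / nn i) • ∑ k ∈ range (nn i), w (κ k) ∧
      (∀ g a, 1 ≤ g → S.F.P (S.p g) a = a → ‖a‖ ≤ 1 →
        ‖pair S (Finsupp.single g a) y‖ ≤ 2 * K / mm i) ∧
      (∀ c, S.F.P q c = c → ‖c‖ ≤ 1 → ‖pair S (act S.F S.p c (S.e η)) y‖ ≤ ε) ∧
      δ - ε ≤ (pair S (S.e η) (U y)).re ∧ ‖U y - R S q (U y)‖ ≤ ε := by
  have hn : 0 < nn i := RSys.nn_pos i
  obtain ⟨τ, hτ, hτ'⟩ := exists_tau S (spB47 S) U i (nn i) hn K ε hK hε
    (fun s t x hst => by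
      show R S s (R S t x) = R S t x
      rw [R_R, max_eq_right hst])
    (fun s x => norm_R_le S s x)
  obtain ⟨ζ, κ, θ, hκ, hP⟩ := pairA47 S U K δ τ hτ q i hev w lo hi z hlo hhi hsup hnorm hweak hz
    hzw hδ
  obtain ⟨h1, h2, h3, h4, h5, h6, -, h7⟩ := hτ' q δ ζ _ _ hP
  have hsc : (((mm i / nn i : ℝ) : ℂ)) = (mm i : ℂ) / nn i := by push_cast; rfl
  rw [hsc] at h4 h5 h6 h7
  have hm0 : (0:ℝ) < mm i := mm_pos i
  have hn0 : (0:ℝ) < nn i := by exact_mod_cast hn
  have hmn : (mm i : ℝ) ^ 2 ≤ nn i := by exact_mod_cast RSys.mm_sq_le_nn i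
  refine ⟨ζ (nn i), κ, _, hκ, h1, h2, h3, h4, rfl, ?_, ?_, ?_, ?_⟩
  · -- the coordinates
    intro g a hg _ ha1
    rw [pair_single, map_smul, map_sum, smul_apply, _root_.sum_apply, smul_eq_mul, norm_mul,
      RSys.norm_scal]
    have hs : ‖∑ k ∈ range (nn i), (co S g (w (κ k))) a‖ ≤ 2 * K := by
      by_cases hex : ∃ l < nn i, ζ l < g ∧ g < ζ (l + 1)
      · obtain ⟨l, hl, hl1, hl2⟩ := hex
        rw [Finset.sum_eq_single l]
        · refine (ContinuousLinearMap.le_opNorm _ _).trans ?_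
          have e1 := norm_co_le S g (w (κ l))
          have e2 := hnorm (κ l)
          have e3 : 0 ≤ ‖co S g (w (κ l))‖ := norm_nonneg _
          have e4 : 0 ≤ ‖a‖ := norm_nonneg _
          nlinarith
        · intro k hk hkl
          rw [Finset.mem_range] at hk
          have e0 : co S g (w (κ k)) = 0 := by
            refine hP.supp k hk g fun hh => ?_
            rcases lt_or_gt_of_ne hkl with h | h
            · have := hP.mono (k := k + 1) (l := l) (by omega) hl.le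
              omega
            · have := hP.mono (k := l + 1) (l := k) (by omega) hk.le
              omega
          rw [e0]
          rfl
        · intro h
          exact absurd (Finset.mem_range.2 hl) h
      · rw [Finset.sum_eq_zero, norm_zero]
        · positivity
        · intro k hk
          rw [Finset.mem_range] at hk
          have e0 : co S g (w (κ k)) = 0 :=
            hP.supp k hk g fun hh => hex ⟨k, hk, hh.1, hh.2⟩
          rw [e0]
          rfl
    rw [div_mul_eq_mul_div, div_le_div_iff₀ hn0 hm0]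
    calc (mm i : ℝ) * ‖∑ k ∈ range (nn i), (co S g (w (κ k))) a‖ * mm i
        ≤ mm i * (2 * K) * mm i := by gcongr
      _ = 2 * K * (mm i : ℝ) ^ 2 := by ring
      _ ≤ 2 * K * nn i := by gcongr
  · exact h5
  · exact h6
  · exact h7

end Pool.Agent.CK
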