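import Pool.Agent.Work.MP_02927d_an.Space

/-!
MP_02927d_an, locality (4e): on a vector supported on the coordinates at most `q`, every norming
functional is, up to one over its weight, a norming functional of the same weight whose node is
at most `q` (the node `0` stands for the zero functional).
-/

set_option autoImplicit false
set_option linter.unusedSectionVars false

namespace Pool.Agent.CK

open Filter Topology

variable {A : Type*} [NormedCommRing A] [NormedAlgebra ℂ A] [NormOneClass A] {S : Sys A}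

private theorem loc_single {x : X S} {a q : ℕ} (hx : Sup S x a (q + 1)) (s : ℕ) (c : A) {n : ℕ}
    (hq : q < n) : pair S (act S.F S.p c (T s (Finsupp.single n (1 : A)))) x = 0 := by
  refine pair_eq_zero S hx (fun g _ hg => ?_)
  have : n ≠ g := by omega
  simp [this]

/-- one step of the chain recursion, at a vector that vanishes at the node: roots -/
theorem loc_root {x : X S} {a q : ℕ} (hx : Sup S x a (q + 1)) (s : ℕ) (c : A) {n : ℕ}
    (hn : 1 ≤ n) (hq : q < n) (hr : S.root n) :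
    pair S (act S.F S.p c (T s (S.e n))) x =
      (mm (S.j n) : ℂ)⁻¹ * pair S (act S.F S.p c (T (max s (S.p n)) (S.b n))) x := by
  have h0 := loc_single hx s c hq
  rw [S.e_root n hn hr, T_add, act_add, map_add, _root_.add_apply,
    h0, zero_add, T_smul, act_smul, map_smul, _root_.smul_apply, T_T, smul_eq_mul]

/-- one step of the chain recursion, at a vector that vanishes at the node: successors -/
theorem loc_succ {x : X S} {a q : ℕ} (hx : Sup S x a (q + 1)) (s : ℕ) (c : A) {n : ℕ}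
    (hn : 1 ≤ n) (hq : q < n) (hr : ¬ S.root n) :
    pair S (act S.F S.p c (T s (S.e n))) x =
      pair S (act S.F S.p c (T s (S.e (S.p n)))) x +
      (mm (S.j n) : ℂ)⁻¹ * pair S (act S.F S.p c (T (max s (S.p n)) (S.b n))) x := by
  have h0 := loc_single hx s c hq
  rw [S.e_succ n hn hr, T_add, T_add, act_add, act_add, map_add, map_add,
    _root_.add_apply, _root_.add_apply,
    h0, add_zero, T_smul, act_smul, map_smul, _root_.smul_apply, T_T, smul_eq_mul]

/-- (4e), exact form. The node `n' = 0` gives the zero functional, as `S.e 0 = 0`. -/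
theorem loc_exact {x : X S} {a q : ℕ} (hx : Sup S x a (q + 1)) {s : ℕ} {c : A}
    (hc : S.F.P s c = c) (hb : ‖c‖ ≤ 1) (n : ℕ) (hn : 1 ≤ n) :
    ∃ n', n' ≤ q ∧ n' ≤ n ∧ (n' = 0 ∨ S.j n' = S.j n) ∧ ∃ w ∈ S.B,
      pair S (act S.F S.p c (T s (S.e n))) x =
        pair S (act S.F S.p c (T s (S.e n'))) x + (mm (S.j n) : ℂ)⁻¹ * pair S w x := by
  induction n using Nat.strong_induction_on with
  | _ n ih =>
    by_cases hnq : n ≤ q
    · exact ⟨n, hnq, le_rfl, Or.inr rfl, 0, S.zero_mem_B, by simp⟩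
    · push Not at hnq
      have hw : act S.F S.p c (T (max s (S.p n)) (S.b n)) ∈ S.B :=
        S.act_T_mem_B (S.F.P_of_le (le_max_left _ _) hc) hb (S.b_mem_B hn)
      by_cases hr : S.root n
      · refine ⟨0, Nat.zero_le _, Nat.zero_le _, Or.inl rfl, _, hw, ?_⟩
        rw [loc_root hx s c hn hnq hr, S.e_zero, T_zero, act_zero, map_zero]
        simp
      · have hrec := loc_succ hx s c hn hnq hr
        have hp := S.p_pos n hn hr
        have hlt := S.p_lt n hn
        by_cases hpq : S.p n ≤ q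
        · exact ⟨S.p n, hpq, hlt.le, Or.inr (S.j_succ n hn hr).symm, _, hw, hrec⟩
        · push Not at hpq
          have hB : pair S (act S.F S.p c (T (max s (S.p n)) (S.b n))) x = 0 := by
            refine pair_eq_zero S hx (fun g _ hg => ?_)
            have : ¬ (max s (S.p n) < g) := by
              rw [max_lt_iff]; omega
            simp [this]
          rw [hB, mul_zero, add_zero] at hrec
          rw [hrec, S.j_succ n hn hr]
          obtain ⟨n', h1, h2, h3, w, h4, h5⟩ := ih (S.p n) hlt hp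
          exact ⟨n', h1, h2.trans hlt.le, h3, w, h4, h5⟩

/-- (4e), norm form for one functional. -/
theorem loc_norm {x : X S} {a q : ℕ} (hx : Sup S x a (q + 1)) {s : ℕ} {c : A}
    (hc : S.F.P s c = c) (hb : ‖c‖ ≤ 1) {n : ℕ} (hn : 1 ≤ n) :
    ∃ n', n' ≤ q ∧ n' ≤ n ∧ (n' = 0 ∨ S.j n' = S.j n) ∧
      ‖pair S (act S.F S.p c (T s (S.e n))) x‖ ≤
        ‖pair S (act S.F S.p c (T s (S.e n'))) x‖ + ‖x‖ / mm (S.j n) := by
  obtain ⟨n', h1, h2, h3, w, hw, h5⟩ := loc_exact hx hc hb n hn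
  refine ⟨n', h1, h2, h3, ?_⟩
  rw [h5]
  refine (norm_add_le _ _).trans ?_
  rw [norm_mul, norm_mm_inv]
  have h6 := pair_le S hw x
  have h7 : ((mm (S.j n) : ℝ))⁻¹ * ‖pair S w x‖ ≤ ((mm (S.j n) : ℝ))⁻¹ * ‖x‖ :=
    mul_le_mul_of_nonneg_left h6 (mm_inv_nonneg _)
  have h8 : ‖x‖ / mm (S.j n) = ((mm (S.j n) : ℝ))⁻¹ * ‖x‖ := by rw [div_eq_inv_mul]
  rw [h8]
  linarith

/-- (4e), weight form: a bound at the functionals of weight `i` with node at most `q` gives a bound
at all functionals of weight `i`. -/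
theorem loc_weight {x : X S} {a q : ℕ} (hx : Sup S x a (q + 1)) {L : ℝ} (hL : 0 ≤ L) {i : ℕ}
    (hloc : ∀ n s c, 1 ≤ n → n ≤ q → S.j n = i → S.F.P s c = c → ‖c‖ ≤ 1 →
      ‖pair S (act S.F S.p c (T s (S.e n))) x‖ ≤ L) {z : ℕ →₀ A} (hz : z ∈ S.Gw i) :
    ‖pair S z x‖ ≤ L + ‖x‖ / mm i := by
  obtain ⟨n, s, c, hn, hj, hc, hb, rfl⟩ := hz
  obtain ⟨n', h1, _, h3, h4⟩ := loc_norm hx hc hb hn
  rw [hj] at h3 h4
  refine h4.trans (add_le_add ?_ le_rfl)
  rcases Nat.eq_zero_or_pos n' with h0 | h0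
  · rw [h0, S.e_zero, T_zero, act_zero, map_zero]
    simpa using hL
  · rcases h3 with h3 | h3
    · omega
    · exact hloc n' s c h0 h1 h3 hc hb

/-- (4e), the local norm: a bound at the functionals with node at most `q` gives a bound at all
functionals. -/
theorem loc_all {x : X S} {a q : ℕ} (hx : Sup S x a (q + 1)) {L : ℝ} (hL : 0 ≤ L)
    (hloc : ∀ n s c, 1 ≤ n → n ≤ q → S.F.P s c = c → ‖c‖ ≤ 1 →
      ‖pair S (act S.F S.p c (T s (S.e n))) x‖ ≤ L) :
    ‖x‖ ≤ L + ‖x‖ / 4 := by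
  refine norm_le_of S x _ (by positivity) (fun z hz => ?_)
  obtain ⟨i, hi⟩ := (S.mem_G_iff z).1 hz
  refine (loc_weight hx hL (i := i) (fun n s c h1 h2 _ h4 h5 => hloc n s c h1 h2 h4 h5) hi).trans ?_
  have h4 : (4:ℝ) ≤ mm i := by exact_mod_cast mm_ge i
  have : ‖x‖ / mm i ≤ ‖x‖ / 4 := div_le_div_of_nonneg_left (norm_nonneg _) (by norm_num) h4
  linarith

/-- (4e), the local norm, solved form. -/
theorem norm_le_loc {x : X S} {a q : ℕ} (hx : Sup S x a (q + 1)) {L : ℝ} (hL : 0 ≤ L)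
    (hloc : ∀ n s c, 1 ≤ n → n ≤ q → S.F.P s c = c → ‖c‖ ≤ 1 →
      ‖pair S (act S.F S.p c (T s (S.e n))) x‖ ≤ L) :
    ‖x‖ ≤ 4 / 3 * L := by
  have := loc_all hx hL hloc
  linarith

end Pool.Agent.CK
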