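import Pool.Agent.Work.MP_02927d_an.Tree
import Pool.Agent.Work.MP_02927d_an.Iso
import Pool.Agent.Work.MP_02927d_an.Final

/-! # Theorem A -/

set_option autoImplicit false

noncomputable section

namespace Pool.Agent.CK

universe u

/-- Theorem A from the map `Psi` on the space of every system. -/
theorem theoremA_of
    (h : ∀ (A : Type u) [NormedCommRing A] [NormedAlgebra ℂ A] [NormOneClass A] [CompleteSpace A]
      (S : Sys A), ∃ Ψ : (X S →L[ℂ] X S) →ₗ[ℂ] A,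
        (∀ U : X S →L[ℂ] X S, ‖Ψ U‖ ≤ 2 * ‖U‖) ∧ Ψ 1 = 1 ∧
        (∀ t a, S.F.P t a = a → Ψ (D S t a) = a) ∧
        (∀ U : X S →L[ℂ] X S, IsCompactOperator U → Ψ U = 0) ∧
        (∀ U : X S →L[ℂ] X S, Ψ U = 0 → IsCompactOperator U)) : TheoremA.{u} := by
  intro A _ _ _ _ F
  obtain ⟨S, hS⟩ := exists_sys F
  obtain ⟨Ψ, hb, h1, hD, hK, hc⟩ := h A S
  obtain ⟨m1, m2, m3⟩ := psi_mul_surj S Ψ hb hD hK hc
  exact ⟨X S, inferInstance, inferInstance, inferInstance, Ψ.mkContinuous 2 hb, m2,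
    fun U V => m1 U V, h1, m3⟩

end Pool.Agent.CK
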