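import Mathlib
import Pool.Agent.Work.MP_02927d_an.Chain

/-!
Exact pairs: the lower bound of the chain functional, in an abstract form.
-/

open Finset

namespace Pool.Agent.CK

/-- Lower bound for the chain functional of an exact pair.  `R s` are the tail projections,
`dd i` and `E i` the two parts of the functional `f` of the `i`-th node, `B i` the functional of
the list, `Z i` the functional it approximates, `u i` the images of the vectors. -/
theorem pair_lower {X : Type*} [NormedAddCommGroup X] [NormedSpace ℂ X] (n : ℕ) (hn : 0 < n)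
    (m δ τ : ℝ) (hm : 1 ≤ m) (hτ : 0 ≤ τ) (ζ : ℕ → ℕ) (hζ : ∀ i < n, ζ i < ζ (i + 1))
    (R : ℕ → X →L[ℂ] X) (u : ℕ → X) (dd E B Z : ℕ → X →L[ℂ] ℂ)
    (hR : ∀ s t x, s ≤ t → ‖R t x‖ ≤ ‖R s x‖)
    (hd : ∀ i < n, ∀ x, ‖dd i x‖ ≤ 2 * ‖R (ζ (i + 1) - 1) x‖)
    (hd' : ∀ i < n, ∀ x, ∀ s, ζ (i + 1) ≤ s → ‖dd i x‖ ≤ 2 * ‖x - R s x‖)
    (hE : ∀ i < n, ∀ x, ‖E i x‖ ≤ ‖R (ζ i) x‖)
    (hE' : ∀ i < n, ∀ x, ∀ s, ζ (i + 1) ≤ s → ‖E i x‖ ≤ ‖x - R s x‖)
    (hEB : ∀ i < n, ∀ x, ‖B i x - E i x‖ ≤ ‖x - R (ζ i) x‖)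
    (hBZ : ∀ i < n, ‖B i (u i) - Z i (u i)‖ ≤ τ)
    (hZ : ∀ i < n, δ ≤ (Z i (u i)).re)
    (ha : ∀ i < n, ‖u i - R (ζ i) (u i)‖ ≤ τ)
    (hb : ∀ i < n, ‖R (ζ (i + 1) - 1) (∑ l ∈ range (i + 1), u l)‖ ≤ τ) :
    δ - (2 * (n + 1) * (m + 1) + 2) * τ ≤
      ((∑ i ∈ range n, (dd i + ((1 / m : ℝ) : ℂ) • E i))
        (((m / n : ℝ) : ℂ) • ∑ l ∈ range n, u l)).re := by
  have hm0 : 0 < m := by linarith
  have hnR : (0 : ℝ) < n := by exact_mod_cast hn
  -- monotonicity of `ζ`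
  have hζm : ∀ i l, i ≤ l → l ≤ n → ζ i ≤ ζ l := by
    intro i l hil
    induction l, hil using Nat.le_induction with
    | base => intro _; exact le_rfl
    | succ l hil ih =>
      intro hl
      exact (ih (by omega)).trans (hζ l (by omega)).le
  have H := chain_lower n m (δ - 2 * τ) (2 * τ) hm0 (by linarith) u dd E
    (fun i hi => (hd i hi _).trans (by linarith [hb i hi]))
    (fun i hi l hl hil => (hd' i hi _ (ζ l) (hζm _ _ (by omega) hl.le)).trans
      (by linarith [ha l hl]))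
    (fun i hi => by
      rcases Nat.eq_zero_or_pos i with h0 | h0
      · subst h0
        simp only [range_zero, sum_empty, map_zero, norm_zero]
        linarith
      · have h1 := hb (i - 1) (by omega)
        rw [Nat.sub_add_cancel h0] at h1
        have h2 := (hE i hi (∑ l ∈ range i, u l)).trans
          (hR (ζ i - 1) (ζ i) (∑ l ∈ range i, u l) (by omega))
        linarith)
    (fun i hi l hl hil => (hE' i hi _ (ζ l) (hζm _ _ (by omega) hl.le)).trans
      (by linarith [ha l hl]))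
    (fun i hi => by
      have h1 := (abs_le.1 ((Complex.abs_re_le_norm _).trans ((hEB i hi (u i)).trans (ha i hi)))).2
      have h2 := (abs_le.1 ((Complex.abs_re_le_norm _).trans (hBZ i hi))).1
      have h3 := hZ i hi
      rw [Complex.sub_re] at h1 h2
      linarith)
  rw [map_smul, smul_eq_mul, Complex.re_ofReal_mul]
  have H2 := mul_le_mul_of_nonneg_left H (by positivity : 0 ≤ m / (n : ℝ))
  refine le_trans (le_of_eq ?_) H2
  field_simp
  ring

end Pool.Agent.CK
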