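import Pool.Agent.Work.MP_02927d_an.Vec
import Pool.Agent.Work.MP_02927d_an.PairAbs69

/-!
Exact pairs, part (B): the estimates, from the chain of nodes produced by the recursion (A).
The space `X` enters only through `co`, `pair` and the tail projections `R`.
-/

open Finset

set_option linter.unusedSectionVars false

namespace Pool.Agent.CK

variable {A : Type*} [NormedCommRing A] [NormedAlgebra ℂ A] [NormOneClass A]
variable {X : Type*} [NormedAddCommGroup X] [NormedSpace ℂ X]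

/-- The facts about the space that are needed for the exact pairs. -/
structure SpB (S : Sys A) (X : Type*) [NormedAddCommGroup X] [NormedSpace ℂ X] where
  co : ℕ → X →L[ℂ] (A →L[ℂ] ℂ)
  pair : (ℕ →₀ A) →ₗ[ℂ] (X →L[ℂ] ℂ)
  R : ℕ → X →L[ℂ] X
  pair_eq : ∀ z x, pair z x = ∑ g ∈ z.support, co g x (z g)
  pair_le : ∀ z ∈ S.B, ∀ x, ‖pair z x‖ ≤ ‖x‖
  pair_R : ∀ z t x, pair z (R t x) = pair (T t z) x
  R_mono : ∀ s t x, s ≤ t → ‖R t x‖ ≤ ‖R s x‖

namespace SpB

variable {S : Sys A} (Q : SpB S X)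

/-- A vector supported where `x` has no coordinates pairs to zero. -/
lemma pair_zero {z : ℕ →₀ A} {x : X} (h : ∀ g, z g ≠ 0 → Q.co g x = 0) : Q.pair z x = 0 := by
  rw [Q.pair_eq]
  refine Finset.sum_eq_zero fun g hg => ?_
  rw [h g (Finsupp.mem_support_iff.1 hg)]
  rfl

lemma single_le {g : ℕ} (hg : 1 ≤ g) (x : X) :
    ‖Q.pair (Finsupp.single g 1) x‖ ≤ 2 * ‖x‖ := by
  have h := S.single_mem_B (n := g) hg (c := (1 : A)) (map_one _) (by simp)
  have h1 := Q.pair_le _ h x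
  rw [map_smul, _root_.smul_apply, norm_smul, norm_inv, Complex.norm_ofNat] at h1
  linarith

lemma single_R {g : ℕ} (hg : 1 ≤ g) (x : X) :
    ‖Q.pair (Finsupp.single g 1) x‖ ≤ 2 * ‖Q.R (g - 1) x‖ := by
  have h1 : Q.pair (Finsupp.single g 1) x = Q.pair (Finsupp.single g 1) (Q.R (g - 1) x) := by
    rw [Q.pair_R, T_single, if_pos (by omega)]
  rw [h1]
  exact Q.single_le hg _

lemma single_head {g s : ℕ} (hg : 1 ≤ g) (hs : g ≤ s) (x : X) :
    ‖Q.pair (Finsupp.single g 1) x‖ ≤ 2 * ‖x - Q.R s x‖ := by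
  have h1 : Q.pair (Finsupp.single g 1) x = Q.pair (Finsupp.single g 1) (x - Q.R s x) := by
    rw [map_sub, Q.pair_R, T_single, if_neg (by omega), map_zero]
    simp
  rw [h1]
  exact Q.single_le hg _

lemma T_R {z : ℕ →₀ A} (hz : z ∈ S.B) (s : ℕ) (x : X) : ‖Q.pair (T s z) x‖ ≤ ‖Q.R s x‖ := by
  rw [← Q.pair_R]
  exact Q.pair_le z hz _

lemma head {z : ℕ →₀ A} (hz : z ∈ S.B) {s : ℕ} (hs : T s z = 0) (x : X) :
    ‖Q.pair z x‖ ≤ ‖x - Q.R s x‖ := by
  have h1 : Q.pair z x = Q.pair z (x - Q.R s x) := by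
    rw [map_sub, Q.pair_R, hs, map_zero]
    simp
  rw [h1]
  exact Q.pair_le z hz _

lemma T_sub_le {z : ℕ →₀ A} (hz : z ∈ S.B) (s : ℕ) (x : X) :
    ‖Q.pair z x - Q.pair (T s z) x‖ ≤ ‖x - Q.R s x‖ := by
  rw [← Q.pair_R, ← map_sub]
  exact Q.pair_le z hz _

end SpB

/-- Decomposition of `e` along the chain of nodes. -/
theorem e_chain_sum (S : Sys A) (n i : ℕ) (ζ : ℕ → ℕ) (hζ : ∀ l < n, ζ l < ζ (l + 1))
    (hj : ∀ l < n, S.j (ζ (l + 1)) = i) (hp : ∀ l < n, S.p (ζ (l + 1)) = ζ l)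
    (hroot : ∀ l < n, S.root (ζ (l + 1)) ↔ l = 0) (hn : 0 < n) :
    S.e (ζ n) = ∑ l ∈ range n, ((Finsupp.single (ζ (l + 1)) 1 : ℕ →₀ A) +
      ((mm i : ℂ)⁻¹) • T (ζ l) (S.b (ζ (l + 1)))) := by
  have key : ∀ l, l < n → S.e (ζ (l + 1)) = ∑ k ∈ range (l + 1),
      ((Finsupp.single (ζ (k + 1)) 1 : ℕ →₀ A) +
        ((mm i : ℂ)⁻¹) • T (ζ k) (S.b (ζ (k + 1)))) := by
    intro l
    induction l with
    | zero =>
      intro h
      have h1 : 1 ≤ ζ (0 + 1) := by have := hζ 0 h; omega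
      rw [S.e_root _ h1 ((hroot 0 h).2 rfl), hj 0 h, hp 0 h]
      simp
    | succ l ih =>
      intro h
      have h1 : 1 ≤ ζ (l + 1 + 1) := by have := hζ (l + 1) h; omega
      have hr : ¬ S.root (ζ (l + 1 + 1)) := fun hr => by
        have := (hroot (l + 1) h).1 hr
        omega
      rw [S.e_succ _ h1 hr, hj _ h, hp _ h, ih (by omega), Finset.sum_range_succ _ (l + 1),
        add_assoc]
  obtain ⟨m, rfl⟩ : ∃ m, n = m + 1 := ⟨n - 1, by omega⟩
  exact key m (by omega)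

/-- The data of the recursion of the exact pair. -/
structure PairData (S : Sys A) (Q : SpB S X) (U : X →L[ℂ] X) (q i n : ℕ) (K δ τ : ℝ)
    (ζ : ℕ → ℕ) (w : ℕ → X) (z : ℕ → (ℕ →₀ A)) : Prop where
  zero : ζ 0 = q
  lt : ∀ l < n, ζ l < ζ (l + 1)
  j : ∀ l < n, S.j (ζ (l + 1)) = i
  p : ∀ l < n, S.p (ζ (l + 1)) = ζ l
  root : ∀ l < n, S.root (ζ (l + 1)) ↔ l = 0
  supp : ∀ l < n, ∀ g, ¬ (ζ l < g ∧ g < ζ (l + 1)) → Q.co g (w l) = 0
  norm : ∀ l < n, ‖w l‖ ≤ K
  zw : ∀ l < n, ∀ c, S.F.P q c = c → ‖c‖ ≤ 1 → Q.pair (act S.F S.p c (z l)) (w l) = 0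
  re : ∀ l < n, δ ≤ (Q.pair (z l) (U (w l))).re
  b : ∀ l < n, ∀ c, ‖c‖ ≤ 1 → ∀ x,
    ‖Q.pair (act S.F S.p c (S.b (ζ (l + 1)) - z l)) x‖ ≤ 2 * τ * ‖x‖
  head : ∀ l < n, ‖U (w l) - Q.R (ζ l) (U (w l))‖ ≤ τ
  tail : ∀ l < n, ‖Q.R (ζ (l + 1) - 1) (∑ k ∈ range (l + 1), U (w k))‖ ≤ τ

namespace PairData

variable {S : Sys A} {Q : SpB S X} {U : X →L[ℂ] X} {q i n : ℕ} {K δ τ : ℝ}
  {ζ : ℕ → ℕ} {w : ℕ → X} {z : ℕ → (ℕ →₀ A)}

lemma mono (h : PairData S Q U q i n K δ τ ζ w z) {k l : ℕ} (hkl : k ≤ l) (hl : l ≤ n) :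
    ζ k ≤ ζ l := by
  induction l, hkl using Nat.le_induction with
  | base => exact le_rfl
  | succ l hkl ih => exact (ih (by omega)).trans (h.lt l (by omega)).le

lemma pos (h : PairData S Q U q i n K δ τ ζ w z) {l : ℕ} (hl : l < n) : 1 ≤ ζ (l + 1) := by
  have := h.lt l hl
  omega

lemma q_lt (h : PairData S Q U q i n K δ τ ζ w z) (hn : 0 < n) : q < ζ n := by
  have h1 := h.lt 0 hn
  have h2 := h.mono (k := 1) (l := n) hn le_rfl
  rw [h.zero] at h1
  rw [zero_add] at h1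
  omega

/-- weight of the last node -/
lemma j_last (h : PairData S Q U q i n K δ τ ζ w z) (hn : 0 < n) : S.j (ζ n) = i := by
  obtain ⟨m, rfl⟩ : ∃ m, n = m + 1 := ⟨n - 1, by omega⟩
  exact h.j m (by omega)

/-- decomposition of the functional of the last node -/
lemma e_eq (h : PairData S Q U q i n K δ τ ζ w z) (hn : 0 < n) :
    S.e (ζ n) = ∑ l ∈ range n, ((Finsupp.single (ζ (l + 1)) 1 : ℕ →₀ A) +
      ((mm i : ℂ)⁻¹) • T (ζ l) (S.b (ζ (l + 1)))) :=
  e_chain_sum S n i ζ h.lt h.j h.p h.root hn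

/-- supports: `T_q e = e` at the last node -/
lemma T_e (h : PairData S Q U q i n K δ τ ζ w z) (hn : 0 < n) :
    T q (S.e (ζ n)) = S.e (ζ n) := by
  have hTs : ∀ t : Finset ℕ, ∀ f : ℕ → (ℕ →₀ A), T q (∑ l ∈ t, f l) = ∑ l ∈ t, T q (f l) := by
    intro t f
    classical
    induction t using Finset.induction_on with
    | empty => simp
    | insert a s ha ih => rw [Finset.sum_insert ha, Finset.sum_insert ha, T_add, ih]
  rw [h.e_eq hn, hTs]
  refine Finset.sum_congr rfl fun l hl => ?_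
  rw [Finset.mem_range] at hl
  have h1 := h.mono (k := 0) (l := l) (by omega) hl.le
  rw [h.zero] at h1
  have h2 := h.lt l hl
  rw [T_add, T_single, if_pos (by omega), T_smul, T_T, max_eq_right h1]

/-- support of the vector -/
lemma co_y (h : PairData S Q U q i n K δ τ ζ w z) (r : ℂ) {g : ℕ} (hg : ¬ (q < g ∧ g < ζ n)) :
    Q.co g (r • ∑ l ∈ range n, w l) = 0 := by
  rw [map_smul, map_sum, Finset.sum_eq_zero fun l hl => ?_, smul_zero]
  rw [Finset.mem_range] at hl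
  refine h.supp l hl g fun hh => hg ⟨?_, ?_⟩
  · have h1 := h.mono (k := 0) (l := l) (by omega) hl.le
    rw [h.zero] at h1
    omega
  · have h1 := h.mono (k := l + 1) (l := n) (by omega) le_rfl
    omega

/-- the functional annihilates the vector up to `2 K τ` -/
lemma act_e_le (h : PairData S Q U q i n K δ τ ζ w z) (hn : 0 < n) (hτ : 0 ≤ τ)
    {c : A} (hc : S.F.P q c = c) (hc1 : ‖c‖ ≤ 1) :
    ‖Q.pair (act S.F S.p c (S.e (ζ n)))
      (((mm i / n : ℝ) : ℂ) • ∑ l ∈ range n, w l)‖ ≤ 2 * K * τ := by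
  have hm : (0 : ℝ) < mm i := mm_pos i
  have hnR : (0 : ℝ) < n := by exact_mod_cast hn
  have hacts : ∀ t : Finset ℕ, ∀ f : ℕ → (ℕ →₀ A),
      act S.F S.p c (∑ l ∈ t, f l) = ∑ l ∈ t, act S.F S.p c (f l) := by
    intro t f
    classical
    induction t using Finset.induction_on with
    | empty => simp
    | insert a s ha ih => rw [Finset.sum_insert ha, Finset.sum_insert ha, act_add, ih]
  -- the single terms
  have hterm : ∀ l < n, ∀ k < n, ‖Q.pair (act S.F S.p c ((Finsupp.single (ζ (l + 1)) 1 : ℕ →₀ A) +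
      ((mm i : ℂ)⁻¹) • T (ζ l) (S.b (ζ (l + 1))))) (w k)‖ ≤
      if k = l then (mm i : ℝ)⁻¹ * (2 * τ * K) else 0 := by
    intro l hl k hk
    rw [act_add, act_single, act_smul, map_add, map_smul, _root_.add_apply,
      _root_.smul_apply]
    have e1 : Q.pair (Finsupp.single (ζ (l + 1)) (S.F.P (S.p (ζ (l + 1))) c * 1)) (w k) = 0 := by
      refine Q.pair_zero fun g hg => h.supp k hk g fun hh => ?_
      have hgl : g = ζ (l + 1) := by
        by_contra hne
        exact hg (Finsupp.single_eq_of_ne hne)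
      subst hgl
      rcases Nat.lt_or_ge l k with h1 | h1
      · have := h.mono (k := l + 1) (l := k) (by omega) hk.le
        omega
      · have := h.mono (k := k + 1) (l := l + 1) (by omega) (by omega)
        omega
    rw [e1, zero_add, norm_smul, norm_mm_inv]
    have hgen : ∀ k', k' ≠ l → k' < n → Q.pair (act S.F S.p c (T (ζ l) (S.b (ζ (l + 1))))) (w k') = 0 := by
      intro k' hkl hk'
      refine Q.pair_zero fun g hg => h.supp k' hk' g fun hh => hg ?_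
      rw [act_apply, T_apply]
      rcases lt_or_gt_of_ne hkl with h1 | h1
      · have := h.mono (k := k' + 1) (l := l) (by omega) (by omega)
        rw [if_neg (by omega), mul_zero]
      · have := h.mono (k := l + 1) (l := k') (by omega) hk'.le
        rw [S.b_ge (h.pos hl) (by omega)]
        simp
    split_ifs with hkl
    · subst hkl
      refine mul_le_mul_of_nonneg_left ?_ (mm_inv_nonneg i)
      have e2 : Q.pair (act S.F S.p c (T (ζ k) (S.b (ζ (k + 1))))) (w k) =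
          Q.pair (act S.F S.p c (S.b (ζ (k + 1)))) (w k) := by
        rw [← sub_eq_zero, ← _root_.sub_apply, ← map_sub, ← act_sub]
        refine Q.pair_zero fun g hg => h.supp k hl g fun hh => hg ?_
        rw [act_apply, Finsupp.sub_apply, T_apply, if_pos hh.1, sub_self, mul_zero]
      have e3 : Q.pair (act S.F S.p c (S.b (ζ (k + 1)))) (w k) =
          Q.pair (act S.F S.p c (S.b (ζ (k + 1)) - z k)) (w k) := by
        rw [act_sub, map_sub, _root_.sub_apply, h.zw k hl c hc hc1, sub_zero]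
      rw [e2, e3]
      refine (h.b k hl c hc1 (w k)).trans ?_
      exact mul_le_mul_of_nonneg_left (h.norm k hl) (by positivity)
    · rw [hgen k hkl hk, norm_zero, mul_zero]
  rw [map_smul, norm_smul, Complex.norm_real, Real.norm_of_nonneg (by positivity)]
  rw [h.e_eq hn, hacts, map_sum, map_sum]
  have hbound : ‖∑ k ∈ range n, (∑ l ∈ range n, Q.pair (act S.F S.p c
      ((Finsupp.single (ζ (l + 1)) 1 : ℕ →₀ A) +
      ((mm i : ℂ)⁻¹) • T (ζ l) (S.b (ζ (l + 1)))))) (w k)‖ ≤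
      n * ((mm i : ℝ)⁻¹ * (2 * τ * K)) := by
    refine (norm_sum_le _ _).trans ?_
    have : ∀ k ∈ range n, ‖(∑ l ∈ range n, Q.pair (act S.F S.p c
      ((Finsupp.single (ζ (l + 1)) 1 : ℕ →₀ A) +
      ((mm i : ℂ)⁻¹) • T (ζ l) (S.b (ζ (l + 1)))))) (w k)‖ ≤ (mm i : ℝ)⁻¹ * (2 * τ * K) := by
      intro k hk
      rw [_root_.sum_apply]
      refine (norm_sum_le _ _).trans ?_
      refine (Finset.sum_le_sum fun l hl => hterm l (Finset.mem_range.1 hl) k
        (Finset.mem_range.1 hk)).trans ?_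
      rw [Finset.sum_ite_eq, if_pos hk]
    refine (Finset.sum_le_sum this).trans ?_
    rw [Finset.sum_const, card_range, nsmul_eq_mul]
  refine (mul_le_mul_of_nonneg_left hbound (by positivity)).trans (le_of_eq ?_)
  field_simp

/-- lower bound of the functional at the image of the vector -/
lemma re_ge (h : PairData S Q U q i n K δ τ ζ w z) (hn : 0 < n) (hK : 0 ≤ K) (hτ : 0 ≤ τ) :
    δ - (2 * (n + 1) * (mm i + 1) + 2) * (τ * (1 + 2 * ‖U‖ * K)) ≤
      (Q.pair (S.e (ζ n)) (U (((mm i / n : ℝ) : ℂ) • ∑ l ∈ range n, w l))).re := by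
  have hm : (0 : ℝ) < mm i := mm_pos i
  have hU : 0 ≤ ‖U‖ := norm_nonneg _
  have hτ' : τ ≤ τ * (1 + 2 * ‖U‖ * K) := by
    have : 0 ≤ τ * (2 * ‖U‖ * K) := by positivity
    linarith
  have hE : ∀ i < n, S.b (ζ (i + 1)) ∈ S.B := fun i hi => S.b_mem_B (h.pos hi)
  have key := pair_lower n hn (mm i : ℝ) δ (τ * (1 + 2 * ‖U‖ * K))
    (by have := mm_ge i; exact_mod_cast (by omega : 1 ≤ mm i)) (by positivity) ζ h.lt
    Q.R (fun l => U (w l)) (fun l => Q.pair (Finsupp.single (ζ (l + 1)) 1))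
    (fun l => Q.pair (T (ζ l) (S.b (ζ (l + 1))))) (fun l => Q.pair (S.b (ζ (l + 1))))
    (fun l => Q.pair (z l)) Q.R_mono
    (fun l hl x => Q.single_R (h.pos hl) x)
    (fun l hl x s hs => Q.single_head (h.pos hl) hs x)
    (fun l hl x => Q.T_R (hE l hl) _ x)
    (fun l hl x s hs => by
      refine Q.head (S.T_mem_B _ (hE l hl)) ?_ x
      ext g
      rw [T_apply, T_apply, Finsupp.zero_apply]
      split_ifs with h1 h2
      · exact S.b_ge (h.pos hl) (by omega)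
      · rfl
      · rfl)
    (fun l hl x => Q.T_sub_le (hE l hl) _ x)
    (fun l hl => by
      have h1 := h.b l hl 1 (by simp) (U (w l))
      rw [act_one, map_sub, _root_.sub_apply] at h1
      refine h1.trans ?_
      have h2 : ‖U (w l)‖ ≤ ‖U‖ * K :=
        (U.le_opNorm _).trans (mul_le_mul_of_nonneg_left (h.norm l hl) hU)
      have h3 : 2 * τ * ‖U (w l)‖ ≤ 2 * τ * (‖U‖ * K) :=
        mul_le_mul_of_nonneg_left h2 (by positivity)
      nlinarith)
    (fun l hl => h.re l hl)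
    (fun l hl => (h.head l hl).trans hτ')
    (fun l hl => (h.tail l hl).trans hτ')
  refine key.trans (le_of_eq ?_)
  congr 1
  have e1 : U (((mm i / n : ℝ) : ℂ) • ∑ l ∈ range n, w l) =
      ((mm i / n : ℝ) : ℂ) • ∑ l ∈ range n, U (w l) := by
    rw [map_smul, map_sum]
  have e2 : Q.pair (S.e (ζ n)) = ∑ l ∈ range n, (Q.pair (Finsupp.single (ζ (l + 1)) 1) +
      ((1 / mm i : ℝ) : ℂ) • Q.pair (T (ζ l) (S.b (ζ (l + 1))))) := by
    rw [h.e_eq hn, map_sum]
    refine Finset.sum_congr rfl fun l _ => ?_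
    rw [map_add, map_smul]
    congr 2
    push_cast
    rw [one_div]
  rw [e1, e2]

/-- functionals supported in `[0, q]` are small at the image of the vector -/
lemma low_le (h : PairData S Q U q i n K δ τ ζ w z) (hn : 0 < n)
    {y : ℕ →₀ A} (hy : y ∈ S.B) (hyq : T q y = 0) :
    ‖Q.pair y (U (((mm i / n : ℝ) : ℂ) • ∑ l ∈ range n, w l))‖ ≤ mm i * τ := by
  have hm : (0 : ℝ) < mm i := mm_pos i
  have hnR : (0 : ℝ) < n := by exact_mod_cast hn
  rw [map_smul, map_sum, map_smul, map_sum, norm_smul, Complex.norm_real,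
    Real.norm_of_nonneg (by positivity)]
  have h1 : ∀ l ∈ range n, ‖Q.pair y (U (w l))‖ ≤ τ := by
    intro l hl
    rw [Finset.mem_range] at hl
    have h2 := h.mono (k := 0) (l := l) (by omega) hl.le
    rw [h.zero] at h2
    have h3 : T (ζ l) y = 0 := by
      have : T (ζ l) (T q y) = T (ζ l) y := by rw [T_T, max_eq_left h2]
      rw [← this, hyq, T_zero]
    exact (Q.head hy h3 _).trans (h.head l hl)
  have h2 : ‖∑ l ∈ range n, Q.pair y (U (w l))‖ ≤ n * τ := by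
    refine (norm_sum_le _ _).trans ((Finset.sum_le_sum h1).trans ?_)
    rw [Finset.sum_const, card_range, nsmul_eq_mul]
  refine (mul_le_mul_of_nonneg_left h2 (by positivity)).trans (le_of_eq ?_)
  field_simp

/-- the image of the vector has a small part up to `q` -/
lemma head_le (h : PairData S Q U q i n K δ τ ζ w z) (hn : 0 < n)
    (hRR : ∀ s t x, s ≤ t → Q.R s (Q.R t x) = Q.R t x) (hR1 : ∀ x, ‖Q.R q x‖ ≤ ‖x‖) :
    ‖U (((mm i / n : ℝ) : ℂ) • ∑ l ∈ range n, w l) -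
      Q.R q (U (((mm i / n : ℝ) : ℂ) • ∑ l ∈ range n, w l))‖ ≤ 2 * mm i * τ := by
  have hm : (0 : ℝ) < mm i := mm_pos i
  have hnR : (0 : ℝ) < n := by exact_mod_cast hn
  rw [map_smul, map_sum, map_smul, map_sum, ← smul_sub, ← Finset.sum_sub_distrib, norm_smul,
    Complex.norm_real, Real.norm_of_nonneg (by positivity)]
  have h1 : ∀ l ∈ range n, ‖U (w l) - Q.R q (U (w l))‖ ≤ 2 * τ := by
    intro l hl
    rw [Finset.mem_range] at hl
    have h2 := h.mono (k := 0) (l := l) (by omega) hl.le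
    rw [h.zero] at h2
    set x := U (w l) with hx
    have h3 : x - Q.R q x = (x - Q.R (ζ l) x) - Q.R q (x - Q.R (ζ l) x) := by
      rw [map_sub, hRR q (ζ l) x h2]
      abel
    have h4 : ‖x - Q.R (ζ l) x‖ ≤ τ := h.head l hl
    rw [h3]
    refine (norm_sub_le _ _).trans ?_
    have h5 := hR1 (x - Q.R (ζ l) x)
    linarith
  have h2 : ‖∑ l ∈ range n, (U (w l) - Q.R q (U (w l)))‖ ≤ n * (2 * τ) := by
    refine (norm_sum_le _ _).trans ((Finset.sum_le_sum h1).trans ?_)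
    rw [Finset.sum_const, card_range, nsmul_eq_mul]
  refine (mul_le_mul_of_nonneg_left h2 (by positivity)).trans (le_of_eq ?_)
  field_simp

end PairData

/-- Part (B) of the exact pair step: the choice of `τ` and all the estimates that do not use the
exactness (5d). -/
theorem exists_tau (S : Sys A) (Q : SpB S X) (U : X →L[ℂ] X) (i n : ℕ) (hn : 0 < n) (K ε : ℝ)
    (hK : 0 ≤ K) (hε : 0 < ε) (hRR : ∀ s t x, s ≤ t → Q.R s (Q.R t x) = Q.R t x)
    (hR1 : ∀ s x, ‖Q.R s x‖ ≤ ‖x‖) :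
    ∃ τ : ℝ, 0 < τ ∧ ∀ (q : ℕ) (δ : ℝ) (ζ : ℕ → ℕ) (w : ℕ → X) (z : ℕ → (ℕ →₀ A)),
      PairData S Q U q i n K δ τ ζ w z →
      q < ζ n ∧ S.j (ζ n) = i ∧ T q (S.e (ζ n)) = S.e (ζ n) ∧
      (∀ g, ¬ (q < g ∧ g < ζ n) → Q.co g (((mm i / n : ℝ) : ℂ) • ∑ l ∈ range n, w l) = 0) ∧
      (∀ c, S.F.P q c = c → ‖c‖ ≤ 1 → ‖Q.pair (act S.F S.p c (S.e (ζ n)))
        (((mm i / n : ℝ) : ℂ) • ∑ l ∈ range n, w l)‖ ≤ ε) ∧
      δ - ε ≤ (Q.pair (S.e (ζ n)) (U (((mm i / n : ℝ) : ℂ) • ∑ l ∈ range n, w l))).re ∧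
      (∀ y ∈ S.B, T q y = 0 →
        ‖Q.pair y (U (((mm i / n : ℝ) : ℂ) • ∑ l ∈ range n, w l))‖ ≤ ε) ∧
      ‖U (((mm i / n : ℝ) : ℂ) • ∑ l ∈ range n, w l) -
        Q.R q (U (((mm i / n : ℝ) : ℂ) • ∑ l ∈ range n, w l))‖ ≤ ε := by
  have hm : (0 : ℝ) < mm i := mm_pos i
  have hU : 0 ≤ ‖U‖ := norm_nonneg _
  have hnR : (0 : ℝ) < n := by exact_mod_cast hn
  set a1 : ℝ := 2 * K + 1 with ha1
  set a2 : ℝ := (2 * (n + 1) * (mm i + 1) + 2) * (1 + 2 * ‖U‖ * K) with ha2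
  have h1 : 0 < a1 := by positivity
  have h2 : 0 < a2 := by positivity
  have hD : 0 < a1 + a2 + 2 * mm i := by positivity
  have hτ : 0 < ε / (a1 + a2 + 2 * mm i) := by positivity
  have hτD : (a1 + a2 + 2 * mm i) * (ε / (a1 + a2 + 2 * mm i)) = ε := by
    field_simp
  refine ⟨ε / (a1 + a2 + 2 * mm i), hτ, ?_⟩
  intro q δ ζ w z h
  set τ := ε / (a1 + a2 + 2 * mm i) with hτdef
  have e1 : 0 ≤ a1 * τ := by positivity
  have e2 : 0 ≤ a2 * τ := by positivity
  have e3 : 0 ≤ mm i * τ := by positivity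
  have e4 : a1 * τ + a2 * τ + 2 * (mm i * τ) = ε := by rw [← hτD]; ring
  refine ⟨h.q_lt hn, h.j_last hn, h.T_e hn, fun g hg => h.co_y _ hg, ?_, ?_, ?_, ?_⟩
  · intro c hc hc1
    refine (h.act_e_le hn hτ.le hc hc1).trans ?_
    have : a1 * τ = 2 * K * τ + τ := by rw [ha1]; ring
    linarith
  · refine le_trans ?_ (h.re_ge hn hK hτ.le)
    have : (2 * (n + 1) * (mm i + 1) + 2) * (τ * (1 + 2 * ‖U‖ * K)) = a2 * τ := by
      rw [ha2]; ring
    rw [this]
    linarith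
  · intro y hy hyq
    refine (h.low_le hn hy hyq).trans ?_
    linarith
  · refine (h.head_le hn hRR (hR1 q)).trans ?_
    have : 2 * (mm i : ℝ) * τ = 2 * (mm i * τ) := by ring
    rw [this]
    linarith

end Pool.Agent.CK
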