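import Mathlib

open Finset Filter Topology

namespace Pool.Agent.CK

/-- dependent choice along a finite chain of length `N` (own copy) -/
private theorem rec47_chain {S : Type*} (N : ℕ) (P : ℕ → S → Prop) (Q : ℕ → S → S → Prop) (s0 : S)
    (h0 : P 0 s0) (hs : ∀ r s, r < N → P r s → ∃ s', P (r + 1) s' ∧ Q r s s') :
    ∃ f : ℕ → S, f 0 = s0 ∧ (∀ r ≤ N, P r (f r)) ∧ ∀ r < N, Q r (f r) (f (r + 1)) := by
  classical
  choose! g hg1 hg2 using hs
  refine ⟨fun n => Nat.rec s0 (fun r s => g r s) n, rfl, ?_, ?_⟩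
  · intro r hr
    induction r with
    | zero => exact h0
    | succ r ih => exact hg1 r _ (by omega) (ih (by omega))
  · intro r hr
    have hP : ∀ r ≤ N, P r (Nat.rec s0 (fun r s => g r s) r) := by
      intro r hr
      induction r with
      | zero => exact h0
      | succ r ih => exact hg1 r _ (by omega) (ih (by omega))
    exact hg2 r _ hr (hP r hr.le)

/-- a strictly increasing finite piece `κ 0 < ... < κ (n-1)` extends to a strictly increasing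
sequence -/
private theorem rec47_extend (n : ℕ) (κ : ℕ → ℕ) (h : ∀ l, l + 1 < n → κ l < κ (l + 1)) :
    ∃ κ' : ℕ → ℕ, StrictMono κ' ∧ ∀ l < n, κ' l = κ l := by
  refine ⟨fun l => κ (min l (n - 1)) + (l - (n - 1)), ?_, ?_⟩
  · refine strictMono_nat_of_lt_succ fun l => ?_
    show κ (min l (n - 1)) + (l - (n - 1)) < κ (min (l + 1) (n - 1)) + (l + 1 - (n - 1))
    rcases lt_or_ge (l + 1) n with h1 | h1
    · have e1 : min l (n - 1) = l := by omega
      have e2 : min (l + 1) (n - 1) = l + 1 := by omega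
      have e3 : l - (n - 1) = 0 := by omega
      have e4 : l + 1 - (n - 1) = 0 := by omega
      rw [e1, e2, e3, e4]
      have := h l h1
      omega
    · have e1 : min l (n - 1) = n - 1 := by omega
      have e2 : min (l + 1) (n - 1) = n - 1 := by omega
      rw [e1, e2]
      omega
  · intro l hl
    show κ (min l (n - 1)) + (l - (n - 1)) = κ l
    have e1 : min l (n - 1) = l := by omega
    have e3 : l - (n - 1) = 0 := by omega
    rw [e1, e3]
    rfl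

/-- THE RECURSION of the exact pair, abstract form.  `x k = T (w k)`, `R s` the tail projections,
`Nd l ζ` says that `ζ` may be the `l`-th node of the chain and `Good l ζ ζ' k` that `ζ'` is a
successor of `ζ` whose list is close to the (rotated) `k`-th functional. -/
theorem rec47_main {X : Type*} [SeminormedAddCommGroup X] (n q : ℕ) (τ : ℝ) (hτ : 0 < τ)
    (R : ℕ → X → X) (x : ℕ → X) (lo hi : ℕ → ℕ)
    (Nd : ℕ → ℕ → Prop) (Good : ℕ → ℕ → ℕ → ℕ → Prop)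
    (hlo : ∀ k, lo k < hi k) (hhi : ∀ k, hi k ≤ lo (k + 1))
    (hnull : ∀ s, Tendsto (fun k => ‖x k - R s (x k)‖) atTop (𝓝 0))
    (htail : ∀ y, Tendsto (fun t => ‖R t y‖) atTop (𝓝 0))
    (h0 : Nd 0 q)
    (hrich : ∀ l < n, ∀ ζ, Nd l ζ → ∀ k N, ∃ ζ', N ≤ ζ' ∧ Nd (l + 1) ζ' ∧ Good l ζ ζ' k) :
    ∃ (ζ κ : ℕ → ℕ), ζ 0 = q ∧ StrictMono κ ∧ (∀ l ≤ n, Nd l (ζ l)) ∧
      ∀ l < n, ζ l ≤ lo (κ l) ∧ hi (κ l) ≤ ζ (l + 1) ∧ ζ l < ζ (l + 1) ∧
        Good l (ζ l) (ζ (l + 1)) (κ l) ∧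
        ‖x (κ l) - R (ζ l) (x (κ l))‖ ≤ τ ∧
        ‖R (ζ (l + 1) - 1) (∑ i ∈ range (l + 1), x (κ i))‖ ≤ τ := by
  -- `lo k → ∞`
  have hloinf : ∀ M K : ℕ, ∃ k, K ≤ k ∧ ∀ k' ≥ k, M ≤ lo k' := by
    intro M K
    have hstep : ∀ k, lo k + 1 ≤ lo (k + 1) := fun k => (hlo k).trans_le (hhi k)
    have hge : ∀ k, k ≤ lo k := by
      intro k
      induction k with
      | zero => exact Nat.zero_le _
      | succ k ih => have := hstep k; omega
    exact ⟨max M K, le_max_right _ _, fun k' hk' =>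
      ((le_max_left _ _).trans hk').trans (hge k')⟩
  -- the state: current node, lower bound for the next index, partial sum
  let Q : ℕ → (ℕ × ℕ × X) → (ℕ × ℕ × X) → Prop := fun r s s' =>
    ∃ k, s.2.1 ≤ k ∧ s'.2.1 = k + 1 ∧ s'.2.2 = s.2.2 + x k ∧ s.1 ≤ lo k ∧ hi k ≤ s'.1 ∧
      s.1 < s'.1 ∧ Good r s.1 s'.1 k ∧ ‖x k - R s.1 (x k)‖ ≤ τ ∧ ‖R (s'.1 - 1) s'.2.2‖ ≤ τ
  obtain ⟨f, hf0, hfP, hfQ⟩ := rec47_chain n (fun r s => Nd r s.1) Q (q, 0, 0) h0 (by
    rintro r ⟨ζ, K, s⟩ hr hP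
    have hP' : Nd r ζ := hP
    obtain ⟨k1, hk1, hk1'⟩ := hloinf ζ K
    have ev1 : ∀ᶠ k in atTop, ‖x k - R ζ (x k)‖ ≤ τ :=
      ((hnull ζ).eventually (ge_mem_nhds hτ))
    obtain ⟨k2, hk2⟩ := ev1.exists_forall_of_atTop
    set k := max k1 k2 with hk
    have ev2 : ∀ᶠ t in atTop, ‖R t (s + x k)‖ ≤ τ := (htail (s + x k)).eventually (ge_mem_nhds hτ)
    obtain ⟨N, hN⟩ := ev2.exists_forall_of_atTop
    obtain ⟨ζ', hζ', hNd, hG⟩ := hrich r hr ζ hP' k (max (hi k) (max (ζ + 1) (N + 1)))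
    refine ⟨(ζ', k + 1, s + x k), hNd, k, ?_, rfl, rfl, ?_, ?_, ?_, hG, ?_, ?_⟩
    · exact hk1.trans (le_max_left _ _)
    · exact hk1' k (le_max_left _ _)
    · exact (le_max_left _ _).trans hζ'
    · show ζ < ζ'
      have := (le_max_left (ζ + 1) (N + 1)).trans ((le_max_right _ _).trans hζ')
      omega
    · exact hk2 k (le_max_right _ _)
    · refine hN (ζ' - 1) ?_
      have := (le_max_right (ζ + 1) (N + 1)).trans ((le_max_right _ _).trans hζ')
      show N ≤ ζ' - 1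
      omega)
  -- the indices
  have hκ : ∀ l < n, ∃ k, (f l).2.1 ≤ k ∧ (f (l + 1)).2.1 = k + 1 ∧
      (f (l + 1)).2.2 = (f l).2.2 + x k ∧ (f l).1 ≤ lo k ∧ hi k ≤ (f (l + 1)).1 ∧
      (f l).1 < (f (l + 1)).1 ∧ Good l (f l).1 (f (l + 1)).1 k ∧
      ‖x k - R (f l).1 (x k)‖ ≤ τ ∧ ‖R ((f (l + 1)).1 - 1) (f (l + 1)).2.2‖ ≤ τ := hfQ
  choose! κ0 g1 g2 g3 g4 g5 g6 g7 g8 g9 using hκ
  obtain ⟨κ, hκmono, hκeq⟩ := rec47_extend n κ0 (by
    intro l hl
    have a1 := g2 l (by omega)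
    have a2 := g1 (l + 1) hl
    omega)
  have hsum : ∀ l ≤ n, (f l).2.2 = ∑ i ∈ range l, x (κ i) := by
    intro l
    induction l with
    | zero => intro _; rw [hf0]; simp
    | succ l ih =>
      intro hl
      rw [g3 l (by omega), ih (by omega), Finset.sum_range_succ, hκeq l (by omega)]
  refine ⟨fun l => (f l).1, κ, by show (f 0).1 = q; rw [hf0], hκmono, hfP, ?_⟩
  intro l hl
  have hk := hκeq l hl
  rw [hk]
  refine ⟨g4 l hl, g5 l hl, g6 l hl, g7 l hl, g8 l hl, ?_⟩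
  rw [← hsum (l + 1) (by omega)]
  exact g9 l hl

end Pool.Agent.CK
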