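import Pool.Agent.Work.MP_02927d_an.Def
import Pool.Agent.Work.MP_02927d_an.Rec47

open Finset Filter Topology

namespace Pool.Agent.CK

variable {A : Type*} [NormedCommRing A] [NormedAlgebra ℂ A]

/-- the recursion of the exact pair for a system of nodes -/
theorem rec47_sys (S : Sys A) {X : Type*} [SeminormedAddCommGroup X] (q i : ℕ) (hev : Even i)
    (τ : ℝ) (hτ : 0 < τ) (R : ℕ → X → X) (x : ℕ → X) (lo hi : ℕ → ℕ) (z : ℕ → (ℕ →₀ A))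
    (hz : ∀ k, z k ∈ S.B) (hlo : ∀ k, lo k < hi k) (hhi : ∀ k, hi k ≤ lo (k + 1))
    (hnull : ∀ s, Tendsto (fun k => ‖x k - R s (x k)‖) atTop (𝓝 0))
    (htail : ∀ y, Tendsto (fun t => ‖R t y‖) atTop (𝓝 0)) :
    ∃ (ζ κ : ℕ → ℕ), ζ 0 = q ∧ StrictMono κ ∧
      ∀ l < nn i, ζ l ≤ lo (κ l) ∧ hi (κ l) ≤ ζ (l + 1) ∧ ζ l < ζ (l + 1) ∧
        S.p (ζ (l + 1)) = ζ l ∧ S.j (ζ (l + 1)) = i ∧ S.age (ζ (l + 1)) = l + 1 ∧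
        (S.root (ζ (l + 1)) ↔ l = 0) ∧ l1 (S.b (ζ (l + 1)) - z (κ l)) ≤ τ ∧
        ‖x (κ l) - R (ζ l) (x (κ l))‖ ≤ τ ∧
        ‖R (ζ (l + 1) - 1) (∑ i ∈ range (l + 1), x (κ i))‖ ≤ τ := by
  obtain ⟨ζ, κ, h0, hκ, -, h⟩ := rec47_main (nn i) q τ hτ R x lo hi
    (fun l ζ => (l = 0 ∧ ζ = q) ∨ (1 ≤ l ∧ 1 ≤ ζ ∧ S.j ζ = i ∧ S.age ζ = l))
    (fun l ζ ζ' k => S.p ζ' = ζ ∧ S.j ζ' = i ∧ S.age ζ' = l + 1 ∧ (S.root ζ' ↔ l = 0) ∧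
      l1 (S.b ζ' - z k) ≤ τ)
    hlo hhi hnull htail (Or.inl ⟨rfl, rfl⟩) (by
      rintro l hl ζ hNd k N
      rcases hNd with ⟨rfl, rfl⟩ | ⟨hl1, hζ, hj, hage⟩
      · obtain ⟨n, hn, hroot, hp, hjn, hb⟩ := S.rich_root N ζ i (z k) τ hev (hz k) hτ
        have ha : S.age n = 0 + 1 := by
          rw [S.age_root n (by omega) hroot]
        exact ⟨n, hn.le, Or.inr ⟨le_rfl, by omega, hjn, ha⟩, hp, hjn, ha,
          ⟨fun _ => rfl, fun _ => hroot⟩, hb⟩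
      · obtain ⟨n, hn, hroot, hp, hjn, hb⟩ := S.rich_succ N ζ (z k) τ hζ (hj ▸ hev)
          (by rw [hage, hj]; exact hl) (hz k) hτ
        have ha : S.age n = l + 1 := by
          rw [S.age_succ n (by omega) hroot, hp, hage]
        exact ⟨n, hn.le, Or.inr ⟨by omega, by omega, hjn.trans hj, ha⟩, hp, hjn.trans hj, ha,
          ⟨fun h => absurd h hroot, fun h => by omega⟩, hb⟩)
  refine ⟨ζ, κ, h0, hκ, fun l hl => ?_⟩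
  obtain ⟨h1, h2, h3, ⟨h4, h5, h6, h7, h8⟩, h9, h10⟩ := h l hl
  exact ⟨h1, h2, h3, h4, h5, h6, h7, h8, h9, h10⟩

end Pool.Agent.CK
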