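import Pool.Agent.Work.MP_02927d_an.Space
import Pool.Agent.Work.MP_02927d_an.RecSys47
import Pool.Agent.Work.MP_02927d_an.PairB69

/-!
Exact pairs, part (A): from a weakly null block sequence and functionals, the chain of nodes.
-/

open Finset Filter Topology

set_option linter.unusedSectionVars false

namespace Pool.Agent.CK

/-- a compact operator maps bounded weakly null sequences to norm null sequences -/
theorem pairA47_compact {V W : Type*} [NormedAddCommGroup V] [NormedSpace ℂ V]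
    [NormedAddCommGroup W] [NormedSpace ℂ W] (K : V →L[ℂ] W) (hK : IsCompactOperator K)
    (x : ℕ → V) (C : ℝ) (hx : ∀ k, ‖x k‖ ≤ C)
    (hw : ∀ f : V →L[ℂ] ℂ, Tendsto (fun k => f (x k)) atTop (𝓝 0)) :
    Tendsto (fun k => K (x k)) atTop (𝓝 0) := by
  refine tendsto_of_subseq_tendsto fun ns hns => ?_
  have hcomp : IsCompact (closure (K '' Metric.closedBall 0 C)) :=
    hK.isCompact_closure_image_closedBall C
  obtain ⟨y, -, φ, hφ, hy⟩ := hcomp.tendsto_subseq (x := fun n => K (x (ns n)))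
    (fun n => subset_closure ⟨x (ns n), by simpa using hx _, rfl⟩)
  have hy0 : y = 0 := by
    by_contra hne
    obtain ⟨f, -, hf⟩ := exists_dual_vector ℂ y (norm_ne_zero_iff.2 hne)
    have h1 : Tendsto (fun n => f (K (x (ns (φ n))))) atTop (𝓝 (f y)) :=
      (f.continuous.tendsto y).comp hy
    have h2 : Tendsto (fun n => (f.comp K) (x (ns (φ n)))) atTop (𝓝 0) :=
      (hw (f.comp K)).comp (hns.comp hφ.tendsto_atTop)
    have h3 : f y = 0 := tendsto_nhds_unique h1 h2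
    rw [hf] at h3
    have h4 : ((‖y‖ : ℝ) : ℂ) = 0 := h3
    exact hne (norm_eq_zero.1 (Complex.ofReal_eq_zero.1 h4))
  exact ⟨φ, hy0 ▸ hy⟩

variable {A : Type*} [NormedCommRing A] [NormedAlgebra ℂ A] [NormOneClass A]

/-- the space `X S` gives the data used in part (B) -/
noncomputable def spB47 (S : Sys A) : SpB S (X S) where
  co := co S
  pair := pair S
  R := R S
  pair_eq := fun z x => pair_apply S z x
  pair_le := fun _ hz x => pair_le S hz x
  pair_R := fun z t x => pair_R S t x z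
  R_mono := fun _ _ x h => R_antitone S x h

/-- **the recursion of the exact pair**, part (A) -/
theorem pairA47 (S : Sys A) (U : X S →L[ℂ] X S) (K δ τ : ℝ) (hτ : 0 < τ) (q i : ℕ)
    (hev : Even i) (w : ℕ → X S) (lo hi : ℕ → ℕ) (z : ℕ → (ℕ →₀ A))
    (hlo : ∀ k, lo k < hi k) (hhi : ∀ k, hi k ≤ lo (k + 1))
    (hsup : ∀ k, Sup S (w k) (lo k) (hi k)) (hnorm : ∀ k, ‖w k‖ ≤ K)
    (hweak : ∀ f : X S →L[ℂ] ℂ, Tendsto (fun k => f (w k)) atTop (𝓝 0))
    (hz : ∀ k, z k ∈ S.B)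
    (hzw : ∀ k c, S.F.P q c = c → ‖c‖ ≤ 1 → pair S (act S.F S.p c (z k)) (w k) = 0)
    (hδ : ∀ k, δ ≤ ‖pair S (z k) (U (w k))‖) :
    ∃ (ζ κ : ℕ → ℕ) (θ : ℕ → ℂ), StrictMono κ ∧
      PairData S (spB47 S) U q i (nn i) K δ τ ζ (fun l => w (κ l)) (fun l => θ l • z (κ l)) := by
  -- rotations
  have hrot : ∀ k, ∃ θ : ℂ, ‖θ‖ ≤ 1 ∧ pair S (θ • z k) (U (w k)) =
      (‖pair S (z k) (U (w k))‖ : ℂ) := by
    intro k
    set v := pair S (z k) (U (w k)) with hv
    by_cases h0 : v = 0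
    · refine ⟨0, by simp, ?_⟩
      rw [h0]; simp
    · refine ⟨(starRingEnd ℂ) v / ‖v‖, ?_, ?_⟩
      · rw [norm_div, RCLike.norm_conj, Complex.norm_real, norm_norm]
        exact div_self_le_one _
      · rw [map_smul, smul_apply, ← hv, smul_eq_mul, div_mul_eq_mul_div, Complex.conj_mul']
        have : ((‖v‖ : ℝ) : ℂ) ≠ 0 := by exact_mod_cast (norm_ne_zero_iff.2 h0)
        field_simp
  choose θ0 hθ1 hθ2 using hrot
  -- weak nullity of the images
  have hnull : ∀ s, Tendsto (fun k => ‖U (w k) - R S s (U (w k))‖) atTop (𝓝 0) := by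
    intro s
    have h1 : Tendsto (fun k => (((1 : X S →L[ℂ] X S) - R S s).comp U) (w k)) atTop (𝓝 0) :=
      pairA47_compact _ ((compact_one_sub_R S s).comp_clm U) w K hnorm hweak
    have h2 := h1.norm
    rw [norm_zero] at h2
    exact h2
  have htail : ∀ y : X S, Tendsto (fun t => ‖R S t y‖) atTop (𝓝 0) := by
    intro y
    have h2 := (R_tendsto S y).norm
    rw [norm_zero] at h2
    exact h2
  obtain ⟨ζ, κ, h0, hκ, h⟩ := rec47_sys S q i hev τ hτ (fun s y => R S s y)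
    (fun k => U (w k)) lo hi (fun k => θ0 k • z k) (fun k => S.smul_mem_B (hθ1 k) (hz k))
    hlo hhi hnull htail
  refine ⟨ζ, κ, fun l => θ0 (κ l), hκ, ?_⟩
  refine
    { zero := h0
      lt := fun l hl => (h l hl).2.2.1
      j := fun l hl => (h l hl).2.2.2.2.1
      p := fun l hl => (h l hl).2.2.2.1
      root := fun l hl => (h l hl).2.2.2.2.2.2.1
      supp := fun l hl g hg => ?_
      norm := fun l _ => hnorm _
      zw := fun l _ c hc hc1 => ?_
      re := fun l _ => ?_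
      b := fun l hl c hc x => ?_
      head := fun l hl => (h l hl).2.2.2.2.2.2.2.2.1
      tail := fun l hl => (h l hl).2.2.2.2.2.2.2.2.2 }
  · refine hsup (κ l) g fun hg' => hg ⟨?_, ?_⟩
    · exact ((h l hl).1).trans_lt hg'.1
    · exact hg'.2.trans_le (h l hl).2.1
  · show pair S (act S.F S.p c (θ0 (κ l) • z (κ l))) (w (κ l)) = 0
    rw [act_smul, map_smul, smul_apply, hzw _ c hc hc1, smul_zero]
  · show δ ≤ (pair S (θ0 (κ l) • z (κ l)) (U (w (κ l)))).re
    rw [hθ2, Complex.ofReal_re]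
    exact hδ _
  · show ‖pair S (act S.F S.p c (S.b (ζ (l + 1)) - θ0 (κ l) • z (κ l))) x‖ ≤ 2 * τ * ‖x‖
    refine (pair_l1 S _ x).trans ?_
    have h1 : l1 (act S.F S.p c (S.b (ζ (l + 1)) - θ0 (κ l) • z (κ l))) ≤ τ := by
      refine (l1_act_le S.F S.p c _).trans ?_
      have h2 : l1 (S.b (ζ (l + 1)) - θ0 (κ l) • z (κ l)) ≤ τ := (h l hl).2.2.2.2.2.2.2.1
      have h3 := l1_nonneg (S.b (ζ (l + 1)) - θ0 (κ l) • z (κ l))
      calc ‖c‖ * l1 (S.b (ζ (l + 1)) - θ0 (κ l) • z (κ l))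
          ≤ 1 * l1 (S.b (ζ (l + 1)) - θ0 (κ l) • z (κ l)) := by gcongr
        _ ≤ τ := by rw [one_mul]; exact h2
    have h4 : (act S.F S.p c (S.b (ζ (l + 1)) - θ0 (κ l) • z (κ l))).sum (fun _ a => ‖a‖) ≤ τ := h1
    have h5 : 0 ≤ ‖x‖ := norm_nonneg x
    nlinarith

end Pool.Agent.CK
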