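import Pool.Agent.Work.MP_02927d_an.Space

set_option autoImplicit false
set_option linter.unusedSectionVars false

/-!
MP_02927d_an, section 7: the entries `ent S h g T` of an operator `T` of `X` (elements of
`A_{p(g)}`) and their properties.
-/

namespace Pool.Agent.CK

open Filter Topology

variable {A : Type*} [NormedCommRing A] [NormedAlgebra ℂ A] [NormOneClass A]

/-- a linear functional on the dual which only depends on the restriction to a finite
dimensional range is an evaluation -/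
theorem exists_rep (F : Filt A) (n : ℕ) (L : Du A →ₗ[ℂ] ℂ)
    (hL : ∀ φ, L (φ.comp (PL F n)) = L φ) : ∃ b : A, F.P n b = b ∧ ∀ φ : Du A, φ b = L φ := by
  have : FiniteDimensional ℂ (LinearMap.range (F.P n).toLinearMap) := F.fin n
  set W := LinearMap.range (F.P n).toLinearMap with hW
  let Q : A →L[ℂ] W := (PL F n).codRestrict W (fun a => ⟨a, rfl⟩)
  let E : Module.Dual ℂ W →ₗ[ℂ] Du A :=
    { toFun := fun ψ => (LinearMap.toContinuousLinearMap ψ).comp Q
      map_add' := fun ψ χ => by ext a; simp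
      map_smul' := fun c ψ => by ext a; simp }
  obtain ⟨b, hb⟩ := (Module.evalEquiv ℂ W).surjective (L.comp E)
  obtain ⟨a, ha⟩ := b.2
  refine ⟨b.1, ?_, ?_⟩
  · rw [← ha]
    exact F.P_P n a
  · intro φ
    have h1 := congrArg (fun f => f (φ.toLinearMap.comp W.subtype)) hb
    have h2 : E (φ.toLinearMap.comp W.subtype) = φ.comp (PL F n) := by
      ext a
      rfl
    have h3 : (L.comp E) (φ.toLinearMap.comp W.subtype) = L φ := by
      rw [LinearMap.comp_apply, h2, hL]
    rw [← h3, ← h1]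
    rfl

/-- elements of `A` are separated by the dual -/
theorem eq_of_dual {a b : A} (h : ∀ φ : Du A, φ a = φ b) : a = b := by
  by_contra hne
  have hne' : ‖a - b‖ ≠ 0 := norm_ne_zero_iff.2 (sub_ne_zero.2 hne)
  obtain ⟨φ, -, hφ⟩ := exists_dual_vector ℂ (a - b) hne'
  rw [map_sub, h φ, sub_self] at hφ
  exact hne' (by simpa using hφ.symm)

/-- a functional of norm at most one which norms `a` -/
theorem exists_dual (a : A) : ∃ φ : Du A, ‖φ‖ ≤ 1 ∧ φ a = ‖a‖ := by
  by_cases ha : a = 0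
  · exact ⟨0, by simp, by simp [ha]⟩
  · obtain ⟨φ, h1, h2⟩ := exists_dual_vector ℂ a (norm_ne_zero_iff.2 ha)
    exact ⟨φ, h1.le, h2⟩

variable (S : Sys A)

theorem sing_comp (g : ℕ) (φ : Du A) (hg : 1 ≤ g) :
    sing S g (φ.comp (PL S.F (S.p g))) = sing S g φ := by
  apply X_ext S
  intro g'
  rw [co_sing, co_sing]
  split_ifs with h
  · ext a
    rw [cut_apply, cut_apply, if_neg (by omega), if_neg (by omega)]
    simp [S.F.P_P]
  · rfl

/-- existence of the entries -/
theorem exists_ent (h g : ℕ) (hg : 1 ≤ g) (T : X S →L[ℂ] X S) :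
    ∃ b : A, S.F.P (S.p g) b = b ∧ ∀ φ : Du A, φ b = co S h (T (sing S g φ)) 1 := by
  let L : Du A →ₗ[ℂ] ℂ :=
    { toFun := fun φ => co S h (T (sing S g φ)) 1
      map_add' := fun φ ψ => by simp
      map_smul' := fun c φ => by simp }
  exact exists_rep S.F (S.p g) L (fun φ => by
    show co S h (T (sing S g (φ.comp (PL S.F (S.p g))))) 1 = co S h (T (sing S g φ)) 1
    rw [sing_comp S g φ hg])

open Classical in
/-- the entry of `T` at `(h, g)` -/
noncomputable def ent (h g : ℕ) (T : X S →L[ℂ] X S) : A :=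
  if hg : 1 ≤ g then (exists_ent S h g hg T).choose else 0

theorem ent_P {h g : ℕ} (hg : 1 ≤ g) (T : X S →L[ℂ] X S) :
    S.F.P (S.p g) (ent S h g T) = ent S h g T := by
  unfold ent
  rw [dif_pos hg]
  exact (exists_ent S h g hg T).choose_spec.1

theorem ent_dual {h g : ℕ} (hg : 1 ≤ g) (T : X S →L[ℂ] X S) (φ : Du A) :
    φ (ent S h g T) = co S h (T (sing S g φ)) 1 := by
  unfold ent
  rw [dif_pos hg]
  exact (exists_ent S h g hg T).choose_spec.2 φ

theorem ent_add {h g : ℕ} (hg : 1 ≤ g) (T U : X S →L[ℂ] X S) :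
    ent S h g (T + U) = ent S h g T + ent S h g U :=
  eq_of_dual fun φ => by rw [map_add]; simp [ent_dual S hg]

theorem ent_smul {h g : ℕ} (hg : 1 ≤ g) (c : ℂ) (T : X S →L[ℂ] X S) :
    ent S h g (c • T) = c • ent S h g T :=
  eq_of_dual fun φ => by rw [map_smul]; simp [ent_dual S hg]

theorem ent_norm {h g : ℕ} (hg : 1 ≤ g) (T : X S →L[ℂ] X S) : ‖ent S h g T‖ ≤ 2 * ‖T‖ := by
  obtain ⟨φ, h1, h2⟩ := exists_dual (ent S h g T)
  have h3 : ‖φ (ent S h g T)‖ = ‖ent S h g T‖ := by rw [h2]; simp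
  rw [← h3, ent_dual S hg]
  calc ‖co S h (T (sing S g φ)) 1‖ ≤ ‖co S h (T (sing S g φ))‖ * ‖(1 : A)‖ :=
        ContinuousLinearMap.le_opNorm _ _
    _ ≤ (2 * ‖T (sing S g φ)‖) * 1 := by
        rw [norm_one]
        gcongr
        exact norm_co_le S h _
    _ ≤ 2 * ‖T‖ := by
        rw [mul_one]
        have h4 : ‖T (sing S g φ)‖ ≤ ‖T‖ * 1 := by
          refine (T.le_opNorm _).trans ?_
          gcongr
          exact (norm_sing_le S g φ).trans h1
        linarith

/-- the entries of `D t a` -/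
theorem ent_D {g t : ℕ} (hg : 1 ≤ g) (ht : t ≤ S.p g) (a : A) :
    ent S g g (D S t a) = S.F.P t a := by
  refine eq_of_dual fun φ => ?_
  have hpg := S.p_lt g hg
  rw [ent_dual S hg, co_D, if_pos (by omega), co_sing_self S hg, mul_one, S.F.comp,
    min_eq_right ht]

/-- the functional `x ↦ x_h(1)` -/
noncomputable def co1 (h : ℕ) : X S →L[ℂ] ℂ :=
  (ContinuousLinearMap.apply ℂ ℂ (1 : A)).comp (co S h)

@[simp] theorem co1_apply (h : ℕ) (x : X S) : co1 S h x = co S h x 1 := rfl

/-- a bounded sequence in a finite dimensional range which tends to zero weakly tends to zero -/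
theorem tendsto_of_weak (F : Filt A) (n : ℕ) (v : ℕ → A) (hv : ∀ i, F.P n (v i) = v i)
    (h : ∀ φ : Du A, Tendsto (fun i => φ (v i)) atTop (𝓝 0)) : Tendsto v atTop (𝓝 0) := by
  have : FiniteDimensional ℂ (LinearMap.range (F.P n).toLinearMap) := F.fin n
  set W := LinearMap.range (F.P n).toLinearMap with hW
  let Q : A →L[ℂ] W := (PL F n).codRestrict W (fun a => ⟨a, rfl⟩)
  let B := Module.finBasis ℂ W
  have hmem : ∀ i, ∃ w : W, w.1 = v i := fun i => ⟨⟨v i, ⟨v i, hv i⟩⟩, rfl⟩
  choose w hw using hmem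
  have hQ : ∀ i, Q (v i) = w i := fun i => Subtype.ext ((hv i).trans (hw i).symm)
  have h1 : ∀ i, v i = ∑ k, (B.repr (w i) k) • (B k).1 := by
    intro i
    rw [← hw i]
    conv_lhs => rw [← B.sum_repr (w i)]
    push_cast
    rfl
  have h2 : ∀ k, Tendsto (fun i => B.repr (w i) k) atTop (𝓝 0) := by
    intro k
    have := h ((LinearMap.toContinuousLinearMap (B.coord k)).comp Q)
    refine this.congr fun i => ?_
    show B.coord k (Q (v i)) = _
    rw [hQ i]
    rfl
  have h3 : Tendsto (fun i => ∑ k, (B.repr (w i) k) • (B k).1) atTop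
      (𝓝 (∑ k, (0 : ℂ) • (B k).1)) :=
    tendsto_finsetSum _ fun k _ => (h2 k).smul_const _
  simp only [zero_smul, Finset.sum_const_zero] at h3
  exact h3.congr fun i => (h1 i).symm

/-- coordinates tend to zero -/
theorem co_tendsto (x : X S) (h : ℕ → ℕ) (hh : Tendsto h atTop atTop) :
    Tendsto (fun l => ‖co S (h l) x‖) atTop (𝓝 0) := by
  have h1 : ∀ t, t ≠ 0 → ‖co S t x‖ ≤ 2 * ‖R S (t - 1) x‖ := by
    intro t ht
    have h2 : co S t x = co S t (R S (t - 1) x) := by rw [co_R, if_pos (by omega)]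
    rw [h2]
    exact norm_co_le S t _
  have h3 : Tendsto (fun l => 2 * ‖R S (h l - 1) x‖) atTop (𝓝 0) := by
    have h4 : Tendsto (fun l => h l - 1) atTop atTop := tendsto_sub_atTop_nat 1 |>.comp hh
    have h5 := ((R_tendsto S x).comp h4).norm
    simpa using h5.const_mul 2
  refine squeeze_zero' (Eventually.of_forall fun l => norm_nonneg _) ?_ h3
  filter_upwards [hh.eventually_ge_atTop 1] with l hl
  exact h1 _ (by omega)

/-- for a fixed `g` the entries at `(h, g)` tend to zero -/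
theorem ent_tendsto_left {g : ℕ} (hg : 1 ≤ g) (T : X S →L[ℂ] X S) (h : ℕ → ℕ)
    (hh : Tendsto h atTop atTop) : Tendsto (fun l => ent S (h l) g T) atTop (𝓝 0) := by
  refine tendsto_of_weak S.F (S.p g) _ (fun i => ent_P S hg T) fun φ => ?_
  rw [tendsto_zero_iff_norm_tendsto_zero]
  refine squeeze_zero (fun _ => norm_nonneg _) (fun l => ?_)
    (co_tendsto S (T (sing S g φ)) h hh)
  rw [ent_dual S hg]
  refine (ContinuousLinearMap.le_opNorm _ _).trans ?_
  rw [norm_one, mul_one]

end Pool.Agent.CK
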