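import Mathlib

/-!
# Renorming

A Banach space `B` with a bounded commutative unital product and uniformly bounded compatible
projections (`AlgData`) is, up to equivalence of norms, a commutative Banach algebra on which the
projections are contractive algebra homomorphisms.
-/

open Filter Topology BoundedContinuousFunction

noncomputable section

namespace Pool.Agent.CK

universe u

/-- A bounded commutative unital product on the Banach space `B` with projections `P n`. -/
structure AlgData (B : Type u) [NormedAddCommGroup B] [NormedSpace ℂ B] where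
  /-- the product -/
  mul : B →L[ℂ] B →L[ℂ] B
  /-- the unit -/
  one : B
  comm : ∀ a b, mul a b = mul b a
  assoc : ∀ a b c, mul (mul a b) c = mul a (mul b c)
  one_mul : ∀ a, mul one a = a
  one_ne : one ≠ 0
  /-- the projections -/
  P : ℕ → B →L[ℂ] B
  P_one : ∀ n, P n one = one
  P_mul : ∀ n a b, P n (mul a b) = mul (P n a) (P n b)
  P_P : ∀ n m a, P n (P m a) = P (min n m) a
  /-- a bound of the projections -/
  C : ℝ
  P_le : ∀ n, ‖P n‖ ≤ C
  P_fin : ∀ n, FiniteDimensional ℂ (LinearMap.range (P n : B →ₗ[ℂ] B))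
  P_tendsto : ∀ a, Tendsto (fun n => P n a) atTop (𝓝 a)

section Ren

variable {B : Type u} [NormedAddCommGroup B] [NormedSpace ℂ B] (D : AlgData B)

lemma alg_mul_add (a b c : B) : D.mul a (b + c) = D.mul a b + D.mul a c := map_add _ _ _

lemma alg_add_mul (a b c : B) : D.mul (a + b) c = D.mul a c + D.mul b c := by
  rw [map_add]; rfl

lemma alg_mul_zero (a : B) : D.mul a 0 = 0 := map_zero _

lemma alg_zero_mul (a : B) : D.mul 0 a = 0 := by
  rw [map_zero]; rfl

lemma alg_smul_mul (r : ℂ) (a b : B) : D.mul (r • a) b = r • D.mul a b := by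
  rw [map_smul]; rfl

lemma alg_mul_smul (r : ℂ) (a b : B) : D.mul a (r • b) = r • D.mul a b := map_smul _ _ _

lemma alg_mul_one (a : B) : D.mul a D.one = a := by rw [D.comm, D.one_mul]

/-- The space `B` with the new norm. -/
def Ren (_ : AlgData B) : Type u := B

instance : AddCommGroup (Ren D) := inferInstanceAs (AddCommGroup B)

instance : Module ℂ (Ren D) := inferInstanceAs (Module ℂ B)

instance : CommRing (Ren D) :=
  { (inferInstanceAs (AddCommGroup B) : AddCommGroup (Ren D)) with
    mul := fun a b => (D.mul a b : B)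
    one := (D.one : B)
    mul_assoc := fun a b c => D.assoc a b c
    one_mul := fun a => D.one_mul a
    mul_one := fun a => alg_mul_one D a
    mul_comm := fun a b => D.comm a b
    zero_mul := fun a => alg_zero_mul D a
    mul_zero := fun a => alg_mul_zero D a
    left_distrib := fun a b c => alg_mul_add D a b c
    right_distrib := fun a b c => alg_add_mul D a b c }

lemma ren_mul_def (a b : Ren D) : a * b = (D.mul a b : B) := rfl

lemma ren_one_def : (1 : Ren D) = (D.one : B) := rfl

instance : Algebra ℂ (Ren D) :=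
  Algebra.ofModule (fun r a b => alg_smul_mul D r a b) (fun r a b => alg_mul_smul D r a b)

lemma ren_bd (a : B) (n : ℕ) : ‖D.mul (D.P n a)‖ ≤ ‖D.mul‖ * (D.C * ‖a‖) :=
  (D.mul.le_opNorm _).trans (mul_le_mul_of_nonneg_left
    (((D.P n).le_opNorm a).trans (mul_le_mul_of_nonneg_right (D.P_le n) (norm_nonneg _)))
    (norm_nonneg _))

/-- The family of multiplication operators of the `P n a`. -/
def renFun (a : B) : ℕ →ᵇ (B →L[ℂ] B) :=
  BoundedContinuousFunction.ofNormedAddCommGroupDiscrete (fun n => D.mul (D.P n a))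
    (‖D.mul‖ * (D.C * ‖a‖)) (ren_bd D a)

lemma renFun_apply (a : B) (n : ℕ) : renFun D a n = D.mul (D.P n a) := rfl

lemma renFun_one : renFun D D.one = 1 := by
  ext n x
  change D.mul (D.P n D.one) x = x
  rw [D.P_one, D.one_mul]

lemma renFun_mul (a b : B) : renFun D (D.mul a b) = renFun D a * renFun D b := by
  ext n x
  change D.mul (D.P n (D.mul a b)) x = D.mul (D.P n a) (D.mul (D.P n b) x)
  rw [D.P_mul, D.assoc]

lemma renFun_zero : renFun D 0 = 0 := by
  ext n x
  change D.mul (D.P n (0 : B)) x = 0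
  rw [map_zero, alg_zero_mul]

lemma renFun_add (a b : B) : renFun D (a + b) = renFun D a + renFun D b := by
  ext n x
  change D.mul (D.P n (a + b)) x = D.mul (D.P n a) x + D.mul (D.P n b) x
  rw [map_add, alg_add_mul]

lemma renFun_smul (r : ℂ) (a : B) : renFun D (r • a) = r • renFun D a := by
  ext n x
  change D.mul (D.P n (r • a)) x = r • D.mul (D.P n a) x
  rw [map_smul, alg_smul_mul]

lemma renFun_inj (a b : B) (h : renFun D a = renFun D b) : a = b := by
  have h1 : ∀ n, D.P n a = D.P n b := by
    intro n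
    have h2 : D.mul (D.P n a) = D.mul (D.P n b) := by
      rw [← renFun_apply, ← renFun_apply, h]
    have h3 : D.mul (D.P n a) D.one = D.mul (D.P n b) D.one := by rw [h2]
    rwa [alg_mul_one, alg_mul_one] at h3
  have h4 := D.P_tendsto a
  simp only [h1] at h4
  exact tendsto_nhds_unique h4 (D.P_tendsto b)

/-- The embedding of the algebra. -/
def renHom : Ren D →+* (ℕ →ᵇ (B →L[ℂ] B)) where
  toFun a := renFun D a
  map_one' := renFun_one D
  map_mul' a b := renFun_mul D a b
  map_zero' := renFun_zero D
  map_add' a b := renFun_add D a b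

lemma renHom_apply (a : Ren D) : renHom D a = renFun D a := rfl

lemma renHom_inj : Function.Injective (renHom D) := fun a b h => renFun_inj D a b h

instance : NormedCommRing (Ren D) :=
  NormedCommRing.induced (Ren D) (ℕ →ᵇ (B →L[ℂ] B)) (renHom D) (renHom_inj D)

/-- The new norm. -/
def renNorm (a : B) : ℝ := ‖renFun D a‖

lemma ren_norm_def (a : Ren D) : ‖a‖ = renNorm D a := rfl

lemma renNorm_nonneg (a : B) : 0 ≤ renNorm D a := norm_nonneg (renFun D a)

lemma norm_mul_P_le (a : B) (n : ℕ) : ‖D.mul (D.P n a)‖ ≤ renNorm D a :=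
  (renFun D a).norm_coe_le_norm n

lemma renNorm_le (a : B) (c : ℝ) (hc : 0 ≤ c) (h : ∀ n, ‖D.mul (D.P n a)‖ ≤ c) :
    renNorm D a ≤ c :=
  (BoundedContinuousFunction.norm_le hc).2 h

lemma renNorm_smul_le (r : ℂ) (a : B) : renNorm D (r • a) ≤ ‖r‖ * renNorm D a :=
  renNorm_le D _ _ (mul_nonneg (norm_nonneg r) (renNorm_nonneg D a)) fun n => by
    rw [map_smul, map_smul, norm_smul]
    exact mul_le_mul_of_nonneg_left (norm_mul_P_le D a n) (norm_nonneg r)

instance : NormedAlgebra ℂ (Ren D) :=
  { (inferInstance : Algebra ℂ (Ren D)) with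
    norm_smul_le := fun r a => renNorm_smul_le D r a }

lemma renNorm_one : renNorm D D.one = 1 := by
  have : Nontrivial B := ⟨⟨D.one, 0, D.one_ne⟩⟩
  rw [renNorm, renFun_one, norm_one]

instance : NormOneClass (Ren D) := ⟨renNorm_one D⟩

lemma le_renNorm (a : B) : ‖a‖ ≤ ‖D.one‖ * renNorm D a := by
  refine le_of_tendsto (D.P_tendsto a).norm (Eventually.of_forall fun n => ?_)
  have h1 : D.P n a = D.mul (D.P n a) D.one := by rw [alg_mul_one]
  rw [h1, mul_comm]
  exact ((D.mul (D.P n a)).le_opNorm _).trans
    (mul_le_mul_of_nonneg_right (norm_mul_P_le D a n) (norm_nonneg _))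

lemma renNorm_le_norm (a : B) : renNorm D a ≤ ‖D.mul‖ * |D.C| * ‖a‖ := by
  refine renNorm_le D _ _ (by positivity) fun n => ?_
  refine (ren_bd D a n).trans ?_
  rw [mul_assoc]
  have h1 : D.C * ‖a‖ ≤ |D.C| * ‖a‖ :=
    mul_le_mul_of_nonneg_right (le_abs_self _) (norm_nonneg _)
  exact mul_le_mul_of_nonneg_left h1 (norm_nonneg D.mul)

/-- The identity map from the new algebra to the old space, as a linear map. -/
def renLin : Ren D ≃ₗ[ℂ] B where
  toFun a := a
  invFun a := a
  map_add' _ _ := rfl
  map_smul' _ _ := rfl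
  left_inv _ := rfl
  right_inv _ := rfl

/-- The identity map from the new algebra to the old space. -/
def renEquiv : Ren D ≃L[ℂ] B :=
  LinearEquiv.toContinuousLinearEquivOfBounds (renLin D) ‖D.one‖ (‖D.mul‖ * |D.C|)
    (fun a => le_renNorm D a) (fun a => renNorm_le_norm D a)

lemma renEquiv_apply (a : Ren D) : renEquiv D a = (a : B) := rfl

lemma renEquiv_mul (a b : Ren D) : renEquiv D (a * b) = D.mul (renEquiv D a) (renEquiv D b) := rfl

instance [CompleteSpace B] : CompleteSpace (Ren D) :=
  (renEquiv D).isUniformEmbedding.isUniformInducing.completeSpace_congr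
    (renEquiv D).surjective |>.2 inferInstance

/-- The projections as algebra homomorphisms. -/
def renP (n : ℕ) : Ren D →ₐ[ℂ] Ren D where
  toFun a := (D.P n a : B)
  map_one' := D.P_one n
  map_mul' a b := D.P_mul n a b
  map_zero' := map_zero (D.P n)
  map_add' a b := map_add (D.P n) a b
  commutes' r := by
    have h1 : (algebraMap ℂ (Ren D) r : Ren D) = r • (1 : Ren D) :=
      Algebra.algebraMap_eq_smul_one r
    rw [h1]
    have h2 : D.P n (r • D.one) = r • D.one := by rw [map_smul, D.P_one]
    exact h2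

lemma renP_apply (n : ℕ) (a : B) : renP D n a = (D.P n a : B) := rfl

lemma renNorm_P_le (n : ℕ) (a : B) : renNorm D (D.P n a) ≤ renNorm D a :=
  renNorm_le D _ _ (renNorm_nonneg D a) fun m => by
    rw [D.P_P]
    exact norm_mul_P_le D a _

lemma renP_le (n : ℕ) (a : Ren D) : ‖renP D n a‖ ≤ ‖a‖ := renNorm_P_le D n a

lemma renP_renP (n m : ℕ) (a : Ren D) : renP D n (renP D m a) = renP D (min n m) a :=
  D.P_P n m a

lemma renP_tendsto (a : Ren D) : Tendsto (fun n => renP D n a) atTop (𝓝 a) :=
  ((renEquiv D).symm.continuous.tendsto (a : B)).comp (D.P_tendsto a)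

lemma renP_fin (n : ℕ) : FiniteDimensional ℂ (LinearMap.range (renP D n).toLinearMap) :=
  D.P_fin n

end Ren

end Pool.Agent.CK
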