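import Pool.Agent.Work.MP_02927d_an.Def

/-!
MP_02927d_an, rapidly increasing sequences (section 5 of the proof), in an abstract interface:
functionals `F n s c` (the functional c * T_s e_n), `Bf n s c` (c * T_s b_n), `D n s c` (c * T_s d_n).
-/

namespace Pool.Agent.CK

open Finset

/-- abstract system of functionals with the chain recursion -/
structure RSys (V A : Type*) [AddCommGroup V] [Module ℂ V] where
  /-- the map p -/
  p : ℕ → ℕ
  /-- the weight index -/
  jw : ℕ → ℕ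
  /-- successor nodes -/
  suc : ℕ → Prop
  /-- age -/
  age : ℕ → ℕ
  /-- unit ball of A_s -/
  ball : ℕ → Set A
  /-- c * T_s e_n -/
  F : ℕ → ℕ → A → V →ₗ[ℂ] ℂ
  /-- c * T_s b_n -/
  Bf : ℕ → ℕ → A → V →ₗ[ℂ] ℂ
  /-- c * T_s d_n -/
  D : ℕ → ℕ → A → V →ₗ[ℂ] ℂ
  /-- supp x contained in the open interval (a,b) -/
  Sup : V → ℕ → ℕ → Prop
  p_lt : ∀ n, 1 ≤ n → p n < n
  suc_pos : ∀ n, 1 ≤ n → suc n → 1 ≤ p n
  age_root : ∀ n, 1 ≤ n → ¬ suc n → age n = 1
  age_suc : ∀ n, 1 ≤ n → suc n → age n = age (p n) + 1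
  jw_suc : ∀ n, 1 ≤ n → suc n → jw n = jw (p n)
  jw_le : ∀ n, 1 ≤ n → jw n ≤ n
  age_le : ∀ n, 1 ≤ n → age n ≤ nn (jw n)
  ball_mono : ∀ s t, s ≤ t → ball s ⊆ ball t
  rec_suc : ∀ n s c x, 1 ≤ n → suc n → c ∈ ball s →
    F n s c x = F (p n) s c x + D n s c x + (1 / (mm (jw n) : ℂ)) * Bf n (max s (p n)) c x
  rec_root : ∀ n s c x, 1 ≤ n → ¬ suc n → c ∈ ball s →
    F n s c x = D n s c x + (1 / (mm (jw n) : ℂ)) * Bf n (max s (p n)) c x
  B_le : ∀ (n s : ℕ) (c : A) (x : V) (R : ℝ), 1 ≤ n → c ∈ ball s →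
    (∀ n' s' c', 1 ≤ n' → c' ∈ ball s' → ‖F n' s' c' x‖ ≤ R) → ‖Bf n s c x‖ ≤ R
  D_zero : ∀ n s c x a b, 1 ≤ n → Sup x a b → b ≤ n → D n s c x = 0
  B_zero : ∀ n s c x a b, 1 ≤ n → Sup x a b → b ≤ s → Bf n s c x = 0
  F_zero : ∀ n s c x a b, 1 ≤ n → Sup x a b → n ≤ a → F n s c x = 0
  Sup_zero : ∀ a b, Sup 0 a b
  Sup_smul : ∀ (θ : ℂ) x a b, Sup x a b → Sup (θ • x) a b

namespace RSys

variable {V A : Type*} [AddCommGroup V] [Module ℂ V] (S : RSys V A)

/-- all functionals of G are bounded by R at x -/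
def GB (x : V) (R : ℝ) : Prop := ∀ n s c, 1 ≤ n → c ∈ S.ball s → ‖S.F n s c x‖ ≤ R

/-- C-RIS -/
structure RIS (C : ℝ) (x : ℕ → V) (lo hi J : ℕ → ℕ) : Prop where
  sup : ∀ k, S.Sup (x k) (lo k) (hi k)
  lt : ∀ k, lo k < hi k
  hl : ∀ k, hi k ≤ lo (k + 1)
  mono : Monotone J
  hJ : ∀ k, hi k ≤ J (k + 1)
  nrm : ∀ k, S.GB (x k) C
  small : ∀ k n s c, 1 ≤ n → c ∈ S.ball s → S.jw n < J k → ‖S.F n s c (x k)‖ ≤ C / mm (S.jw n)

variable {S}

theorem mm_pos (j : ℕ) : 0 < mm j := by unfold mm; positivity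

theorem four_le_mm (j : ℕ) : 4 ≤ mm j := by
  unfold mm
  calc 4 = 2 ^ 2 := by norm_num
    _ ≤ 2 ^ 2 ^ (j + 1) := Nat.pow_le_pow_right (by norm_num) (by
        calc 2 = 2 ^ 1 := by norm_num
          _ ≤ 2 ^ (j + 1) := Nat.pow_le_pow_right (by norm_num) (by omega))

variable {C : ℝ} {x : ℕ → V} {lo hi J : ℕ → ℕ}

theorem RIS.hi_lt (h : S.RIS C x lo hi J) : ∀ k, hi k < hi (k + 1) := fun k =>
  lt_of_le_of_lt (h.hl k) (h.lt (k + 1))

theorem RIS.hi_mono (h : S.RIS C x lo hi J) : StrictMono hi := strictMono_nat_of_lt_succ h.hi_lt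

theorem RIS.hi_le_lo (h : S.RIS C x lo hi J) {i k : ℕ} (hik : i < k) : hi i ≤ lo k := by
  induction k with
  | zero => omega
  | succ k ih =>
    rcases Nat.lt_succ_iff_lt_or_eq.1 hik with h1 | h1
    · exact (ih h1).trans ((h.lt k).le.trans (h.hl k))
    · subst h1; exact h.hl _

theorem RIS.le_hi (h : S.RIS C x lo hi J) : ∀ k, k + 1 ≤ hi k := by
  intro k
  induction k with
  | zero => have := h.lt 0; omega
  | succ k ih => have := h.hi_lt k; omega

theorem RIS.le_J (h : S.RIS C x lo hi J) : ∀ k, k ≤ J k := by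
  intro k
  cases k with
  | zero => omega
  | succ k => exact (h.le_hi k).trans (h.hJ k)

theorem RIS.C_nonneg (h : S.RIS C x lo hi J) (n : ℕ) (s : ℕ) (c : A) (hn : 1 ≤ n)
    (hc : c ∈ S.ball s) : 0 ≤ C := (norm_nonneg _).trans (h.nrm 0 n s c hn hc)

/-- (5a) -/
theorem RIS.five_a (hR : S.RIS C x lo hi J) (h : ℕ) : ∃ l, ∀ k, k ≠ l → ∀ n s c, 1 ≤ n →
    c ∈ S.ball s → S.jw n = h → ‖S.F n s c (x k)‖ ≤ C / mm h := by
  classical
  refine ⟨Nat.findGreatest (fun k => J k ≤ h) (h + 1), ?_⟩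
  intro k hk n s c hn hc hj
  set l := Nat.findGreatest (fun k => J k ≤ h) (h + 1) with hl
  rcases lt_or_gt_of_ne hk with hkl | hkl
  · -- k < l
    have hJl : J l ≤ h :=
      Nat.findGreatest_of_ne_zero (P := fun k => J k ≤ h) (n := h + 1) hl.symm (by omega)
    have h1 : hi k ≤ h := (hR.hJ k).trans ((hR.mono (by omega)).trans hJl)
    -- chain induction
    have key : ∀ n, 1 ≤ n → S.jw n = h → ‖S.F n s c (x k)‖ ≤ C / mm h := by
      intro n
      induction n using Nat.strong_induction_on with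
      | _ n ih =>
        intro hn hj
        have hnn : hi k ≤ n := h1.trans (hj ▸ S.jw_le n hn)
        by_cases hs : S.suc n
        · have hp := S.suc_pos n hn hs
          have hjp : S.jw (S.p n) = h := by rw [← S.jw_suc n hn hs]; exact hj
          have hpn : hi k ≤ S.p n := h1.trans (hjp ▸ S.jw_le _ hp)
          rw [S.rec_suc n s c (x k) hn hs hc, S.D_zero n s c _ _ _ hn (hR.sup k) hnn,
            S.B_zero n _ c _ _ _ hn (hR.sup k) (hpn.trans (le_max_right _ _))]
          simpa using ih (S.p n) (S.p_lt n hn) hp hjp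
        · rw [S.rec_root n s c (x k) hn hs hc, S.D_zero n s c _ _ _ hn (hR.sup k) hnn, zero_add,
            norm_mul, hj]
          have hb := S.B_le n (max s (S.p n)) c (x k) C hn (S.ball_mono s _ (le_max_left _ _) hc)
            (fun n' s' c' h1 h2 => hR.nrm k n' s' c' h1 h2)
          have hm : (0:ℝ) < mm h := by exact_mod_cast mm_pos h
          have : ‖(1 / (mm h : ℂ))‖ = 1 / (mm h : ℝ) := by simp
          rw [this, div_mul_eq_mul_div, one_mul]
          gcongr
    exact key n hn hj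
  · have hJk : h < J k := by
      by_contra hcon
      push Not at hcon
      have h2 : k ≤ h + 1 := (hR.le_J k).trans (hcon.trans (by omega))
      have := Nat.le_findGreatest (P := fun k => J k ≤ h) h2 hcon
      omega
    have := hR.small k n s c hn hc (hj ▸ hJk)
    rwa [hj] at this

theorem exists_split (hR : S.RIS C x lo hi J) (q a b : ℕ) (hab : a ≤ b) :
    ∃ u, a ≤ u ∧ u ≤ b ∧ (∀ k, a ≤ k → k < u → hi k ≤ q) ∧ (∀ k, u ≤ k → k < b → q < hi k) := by
  classical
  by_cases hex : ∃ u, a ≤ u ∧ u < b ∧ q < hi u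
  · obtain ⟨h1, h2, h3⟩ := Nat.find_spec hex
    refine ⟨Nat.find hex, h1, h2.le, ?_, ?_⟩
    · intro k hk hku
      by_contra hcon
      push Not at hcon
      exact Nat.find_min hex hku ⟨hk, by omega, hcon⟩
    · intro k hk _
      exact h3.trans_le (hR.hi_mono.monotone hk)
  · push Not at hex
    refine ⟨b, hab, le_rfl, fun k hk hkb => hex k hk hkb, fun k hk hkb => by omega⟩

/-- the claim along the chain -/
theorem chain_claim (hR : S.RIS C x lo hi J) {h : ℕ} {α β : ℝ} (hα : 0 ≤ α) (hβ : 0 ≤ β)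
    (hC : 0 ≤ C) (hGB : ∀ a b, a ≤ b → S.GB (∑ k ∈ Ico a b, x k) (α * (b - a) + β))
    {s : ℕ} {c : A} (hc : c ∈ S.ball s) :
    ∀ n, 1 ≤ n → S.jw n = h → ∀ a b, a ≤ b → (∀ k, a ≤ k → k < b → hi k ≤ n) →
      (∀ k, a ≤ k → k < b → ∀ n s c, 1 ≤ n → c ∈ S.ball s → S.jw n = h →
        ‖S.F n s c (x k)‖ ≤ C / mm h) →
      ‖S.F n s c (∑ k ∈ Ico a b, x k)‖ ≤ (1 / mm h) * (S.age n * (C + β) + α * (b - a)) := by
  intro n
  induction n using Nat.strong_induction_on with
  | _ n ih =>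
    intro hn hj a b hab hhi hgood
    have hm : (0:ℝ) < mm h := by exact_mod_cast mm_pos h
    have hnm : ‖(1 / (mm h : ℂ))‖ = 1 / (mm h : ℝ) := by simp
    obtain ⟨u, hau, hub, hu1, hu2⟩ := exists_split hR (S.p n) a b hab
    -- left part
    have hleft : ‖S.F n s c (∑ k ∈ Ico a u, x k)‖ ≤
        (1 / mm h) * ((S.age n - 1) * (C + β) + α * (u - a)) := by
      have hD : S.D n s c (∑ k ∈ Ico a u, x k) = 0 := by
        rw [map_sum]
        refine sum_eq_zero fun k hk => ?_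
        rw [mem_Ico] at hk
        exact S.D_zero n s c _ _ _ hn (hR.sup k) (hhi k hk.1 (by omega))
      have hB : S.Bf n (max s (S.p n)) c (∑ k ∈ Ico a u, x k) = 0 := by
        rw [map_sum]
        refine sum_eq_zero fun k hk => ?_
        rw [mem_Ico] at hk
        exact S.B_zero n _ c _ _ _ hn (hR.sup k) ((hu1 k hk.1 hk.2).trans (le_max_right _ _))
      by_cases hs : S.suc n
      · have hp := S.suc_pos n hn hs
        have hjp : S.jw (S.p n) = h := by rw [← S.jw_suc n hn hs]; exact hj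
        rw [S.rec_suc n s c _ hn hs hc, hD, hB, add_zero, mul_zero, add_zero]
        have h3 := ih (S.p n) (S.p_lt n hn) hp hjp a u hau hu1
          (fun k h1 h2 => hgood k h1 (by omega))
        have h4 : ((S.age n : ℝ) - 1) = S.age (S.p n) := by
          rw [S.age_suc n hn hs]; push_cast; ring
        rw [h4]; exact h3
      · rw [S.rec_root n s c _ hn hs hc, hD, hB, zero_add, mul_zero, norm_zero,
          S.age_root n hn hs]
        have : (0:ℝ) ≤ (u:ℝ) - a := by
          have : (a:ℝ) ≤ u := by exact_mod_cast hau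
          linarith
        positivity
    have hageC : 0 ≤ (1:ℝ) := by norm_num
    rcases hub.eq_or_lt with hub' | hub'
    · subst hub'
      refine hleft.trans ?_
      gcongr
      linarith
    · -- middle
      have hmid : ‖S.F n s c (x u)‖ ≤ C / mm h := hgood u hau hub' n s c hn hc hj
      have hright : ‖S.F n s c (∑ k ∈ Ico (u + 1) b, x k)‖ ≤
          (1 / mm h) * (α * (b - (u + 1)) + β) := by
        have hlo : ∀ k, u + 1 ≤ k → S.p n < lo k := fun k hk =>
          (hu2 u le_rfl hub').trans_le (hR.hi_le_lo (by omega))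
        have hD : S.D n s c (∑ k ∈ Ico (u + 1) b, x k) = 0 := by
          rw [map_sum]
          refine sum_eq_zero fun k hk => ?_
          rw [mem_Ico] at hk
          exact S.D_zero n s c _ _ _ hn (hR.sup k) (hhi k (by omega) hk.2)
        have heq : S.F n s c (∑ k ∈ Ico (u + 1) b, x k) =
            (1 / (mm h : ℂ)) * S.Bf n (max s (S.p n)) c (∑ k ∈ Ico (u + 1) b, x k) := by
          by_cases hs : S.suc n
          · have hp := S.suc_pos n hn hs
            have hF : S.F (S.p n) s c (∑ k ∈ Ico (u + 1) b, x k) = 0 := by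
              rw [map_sum]
              refine sum_eq_zero fun k hk => ?_
              rw [mem_Ico] at hk
              exact S.F_zero (S.p n) s c _ _ _ hp (hR.sup k) (hlo k hk.1).le
            rw [S.rec_suc n s c _ hn hs hc, hD, hF, zero_add, zero_add, hj]
          · rw [S.rec_root n s c _ hn hs hc, hD, zero_add, hj]
        rw [heq, norm_mul, hnm]
        have hgb := hGB (u + 1) b hub'
        have := S.B_le n (max s (S.p n)) c _ _ hn (S.ball_mono s _ (le_max_left _ _) hc)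
          (fun n' s' c' h1 h2 => hgb n' s' c' h1 h2)
        push_cast at this
        gcongr
      have hsum : ∑ k ∈ Ico a b, x k = ∑ k ∈ Ico a u, x k + (x u + ∑ k ∈ Ico (u + 1) b, x k) := by
        rw [← sum_Ico_consecutive x hau hub, sum_eq_sum_Ico_succ_bot hub']
      rw [hsum, map_add, map_add]
      refine (norm_add_le _ _).trans ?_
      refine (add_le_add hleft ((norm_add_le _ _).trans (add_le_add hmid hright))).trans ?_
      have : C / mm h = (1 / (mm h:ℝ)) * C := by ring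
      rw [this, ← mul_add, ← mul_add]
      refine mul_le_mul_of_nonneg_left ?_ (by positivity)
      linarith

/-- one interval of good indices, arbitrary node -/
theorem chain_full (hR : S.RIS C x lo hi J) {h : ℕ} {α β : ℝ} (hα : 0 ≤ α) (hβ : 0 ≤ β)
    (hC : 0 ≤ C) (hGB : ∀ a b, a ≤ b → S.GB (∑ k ∈ Ico a b, x k) (α * (b - a) + β))
    {s : ℕ} {c : A} (hc : c ∈ S.ball s) (n : ℕ) (hn : 1 ≤ n) (hj : S.jw n = h) (a b : ℕ)
    (hab : a ≤ b) (hgood : ∀ k, a ≤ k → k < b → ∀ n s c, 1 ≤ n → c ∈ S.ball s → S.jw n = h →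
        ‖S.F n s c (x k)‖ ≤ C / mm h) :
      ‖S.F n s c (∑ k ∈ Ico a b, x k)‖ ≤ (1 / mm h) * (S.age n * (C + β) + α * (b - a) + C) := by
  have hm : (0:ℝ) < mm h := by exact_mod_cast mm_pos h
  obtain ⟨u, hau, hub, hu1, hu2⟩ := exists_split hR n a b hab
  have hleft := chain_claim hR hα hβ hC hGB hc n hn hj a u hau hu1
    (fun k h1 h2 => hgood k h1 (by omega))
  rcases hub.eq_or_lt with hub' | hub'
  · subst hub'
    refine hleft.trans (mul_le_mul_of_nonneg_left ?_ (by positivity))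
    linarith
  · have hmid : ‖S.F n s c (x u)‖ ≤ C / mm h := hgood u hau hub' n s c hn hc hj
    have hright : S.F n s c (∑ k ∈ Ico (u + 1) b, x k) = 0 := by
      rw [map_sum]
      refine sum_eq_zero fun k hk => ?_
      rw [mem_Ico] at hk
      exact S.F_zero n s c _ _ _ hn (hR.sup k)
        ((hu2 u le_rfl hub').le.trans (hR.hi_le_lo (by omega)))
    have hsum : ∑ k ∈ Ico a b, x k = ∑ k ∈ Ico a u, x k + (x u + ∑ k ∈ Ico (u + 1) b, x k) := by
      rw [← sum_Ico_consecutive x hau hub, sum_eq_sum_Ico_succ_bot hub']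
    rw [hsum, map_add, map_add, hright, add_zero]
    refine (norm_add_le _ _).trans ((add_le_add hleft hmid).trans ?_)
    have : C / mm h = (1 / (mm h:ℝ)) * C := by ring
    rw [this, ← mul_add]
    refine mul_le_mul_of_nonneg_left ?_ (by positivity)
    have : (u:ℝ) ≤ b := by exact_mod_cast hub
    nlinarith

/-- (5b) -/
theorem RIS.five_b (hR : S.RIS C x lo hi J) {α β : ℝ} (hα : 0 ≤ α) (hβ : 0 ≤ β)
    (hC : 0 ≤ C) (hGB : ∀ a b, a ≤ b → S.GB (∑ k ∈ Ico a b, x k) (α * (b - a) + β))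
    {s : ℕ} {c : A} (hc : c ∈ S.ball s) (n : ℕ) (hn : 1 ≤ n) (a b : ℕ) (hab : a ≤ b) :
    ‖S.F n s c (∑ k ∈ Ico a b, x k)‖ ≤
      C + (2 / mm (S.jw n)) * (nn (S.jw n) + 1) * (C + β) + (α / mm (S.jw n)) * (b - a) := by
  obtain ⟨l, hl⟩ := hR.five_a (S.jw n)
  have hm : (0:ℝ) < mm (S.jw n) := by exact_mod_cast mm_pos _
  have hage : (S.age n : ℝ) ≤ nn (S.jw n) := by exact_mod_cast S.age_le n hn
  have habr : (a:ℝ) ≤ b := by exact_mod_cast hab
  by_cases hlI : a ≤ l ∧ l < b
  · obtain ⟨h1, h2⟩ := hlI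
    have hL := chain_full hR hα hβ hC hGB hc n hn rfl a l h1
      (fun k hk1 hk2 n' s' c' hn' hc' hj' => hl k (by omega) n' s' c' hn' hc' hj')
    have hRt := chain_full hR hα hβ hC hGB hc n hn rfl (l + 1) b h2
      (fun k hk1 hk2 n' s' c' hn' hc' hj' => hl k (by omega) n' s' c' hn' hc' hj')
    have hmid : ‖S.F n s c (x l)‖ ≤ C := hR.nrm l n s c hn hc
    have hsum : ∑ k ∈ Ico a b, x k = ∑ k ∈ Ico a l, x k + (x l + ∑ k ∈ Ico (l + 1) b, x k) := by
      rw [← sum_Ico_consecutive x h1 h2.le, sum_eq_sum_Ico_succ_bot h2]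
    rw [hsum, map_add, map_add]
    refine (norm_add_le _ _).trans ?_
    refine (add_le_add hL ((norm_add_le _ _).trans (add_le_add hmid hRt))).trans ?_
    have e1 : (2 / (mm (S.jw n) : ℝ)) * (nn (S.jw n) + 1) * (C + β) +
        (α / mm (S.jw n)) * (b - a) =
        (1 / (mm (S.jw n) : ℝ)) * (2 * (nn (S.jw n) + 1) * (C + β) + α * (b - a)) := by ring
    rw [add_assoc C, e1]
    have e2 : (1 / (mm (S.jw n) : ℝ)) * (S.age n * (C + β) + α * (l - a) + C) +
        (C + 1 / (mm (S.jw n) : ℝ) * (S.age n * (C + β) + α * (b - ((l + 1 : ℕ) : ℝ)) + C)) =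
        C + (1 / (mm (S.jw n) : ℝ)) *
          (2 * (S.age n + 1) * (C + β) + α * (b - a) - (α + 2 * β)) := by
      push_cast; ring
    rw [e2]
    gcongr
    nlinarith
  · have hL := chain_full hR hα hβ hC hGB hc n hn rfl a b hab
      (fun k hk1 hk2 n' s' c' hn' hc' hj' => hl k (by rintro rfl; exact hlI ⟨hk1, hk2⟩)
        n' s' c' hn' hc' hj')
    refine hL.trans ?_
    have e1 : (2 / (mm (S.jw n) : ℝ)) * (nn (S.jw n) + 1) * (C + β) +
        (α / mm (S.jw n)) * (b - a) =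
        (1 / (mm (S.jw n) : ℝ)) * (2 * (nn (S.jw n) + 1) * (C + β) + α * (b - a)) := by ring
    rw [add_assoc C, e1]
    have e3 : (1 / (mm (S.jw n) : ℝ)) * (S.age n * (C + β) + α * (b - a) + C) ≤
        (1 / (mm (S.jw n) : ℝ)) * (2 * (nn (S.jw n) + 1) * (C + β) + α * (b - a)) := by
      refine mul_le_mul_of_nonneg_left ?_ (by positivity)
      nlinarith
    linarith

/-- a simple bound for an interval from (5a): weight h -/
theorem RIS.sum_five_a (hR : S.RIS C x lo hi J) (hC : 0 ≤ C) {s : ℕ} {c : A} (hc : c ∈ S.ball s)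
    (n : ℕ) (hn : 1 ≤ n) (a b : ℕ) (hab : a ≤ b) :
    ‖S.F n s c (∑ k ∈ Ico a b, x k)‖ ≤ C + C * (b - a) / mm (S.jw n) := by
  obtain ⟨l, hl⟩ := hR.five_a (S.jw n)
  have hm : (0:ℝ) < mm (S.jw n) := by exact_mod_cast mm_pos _
  rw [map_sum]
  refine (norm_sum_le _ _).trans ?_
  have h1 : ∀ k ∈ Ico a b, ‖S.F n s c (x k)‖ ≤ (if k = l then C else 0) + C / mm (S.jw n) := by
    intro k _
    split_ifs with hk
    · subst hk
      have := hR.nrm k n s c hn hc
      have : 0 ≤ C / mm (S.jw n) := by positivity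
      linarith
    · rw [zero_add]; exact hl k hk n s c hn hc rfl
  refine (sum_le_sum h1).trans ?_
  rw [sum_add_distrib, sum_const, Nat.card_Ico, nsmul_eq_mul, Nat.cast_sub hab, sum_ite_eq']
  have : (if l ∈ Ico a b then C else 0) ≤ C := by split_ifs <;> linarith
  have e : ((b:ℝ) - a) * (C / mm (S.jw n)) = C * (b - a) / mm (S.jw n) := by ring
  rw [e]
  linarith

/-- (5c) -/
theorem RIS.five_c (hR : S.RIS C x lo hi J) (hC : 0 ≤ C) (H : ℕ → Prop) (CH : ℝ) (hCH : 0 ≤ CH)
    (hH : ∀ n s c, 1 ≤ n → c ∈ S.ball s → H (S.jw n) → ∀ a b, a ≤ b →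
      ‖S.F n s c (∑ k ∈ Ico a b, x k)‖ ≤ CH) (ν : ℕ) :
    ∀ (t : ℕ) (M : ℝ), 0 < M → M ≤ 2 ^ t → (∀ h, ¬ H h → (mm h : ℝ) < M → nn h ≤ ν) →
      ∀ a b, a ≤ b →
        S.GB (∑ k ∈ Ico a b, x k) (C / M * (b - a) + (C + CH) * (ν + 3) ^ (t + 1)) := by
  intro t
  induction t with
  | zero =>
    intro M hM hMt hν a b hab n s c hn hc
    have habr : (0:ℝ) ≤ (b:ℝ) - a := by
      have : (a:ℝ) ≤ b := by exact_mod_cast hab
      linarith
    have hν0 : (0:ℝ) ≤ ν := Nat.cast_nonneg _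
    have hY : 0 ≤ C / M * (b - a) := by positivity
    have hX : (C + CH) ≤ (C + CH) * (ν + 3) ^ (0 + 1) := by
      rw [zero_add, pow_one]; nlinarith
    generalize (C + CH) * ((ν:ℝ) + 3) ^ (0 + 1) = X at hX ⊢
    by_cases hh : H (S.jw n)
    · refine (hH n s c hn hc hh a b hab).trans ?_
      linarith
    · have hmM : M ≤ mm (S.jw n) := by
        have : (4:ℝ) ≤ mm (S.jw n) := by exact_mod_cast four_le_mm _
        norm_num at hMt
        linarith
      refine (hR.sum_five_a hC hc n hn a b hab).trans ?_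
      have h1 : C * (b - a) / mm (S.jw n) ≤ C / M * (b - a) := by
        rw [div_mul_eq_mul_div]; gcongr
      linarith
  | succ t ih =>
    intro M hM hMt hν a b hab n s c hn hc
    have habr : (0:ℝ) ≤ (b:ℝ) - a := by
      have : (a:ℝ) ≤ b := by exact_mod_cast hab
      linarith
    have hν0 : (0:ℝ) ≤ ν := Nat.cast_nonneg _
    have hone : (1:ℝ) ≤ (ν + 3) ^ (t + 1 + 1) := one_le_pow₀ (by linarith)
    have hgen : (C + CH) * 1 ≤ (C + CH) * (ν + 3) ^ (t + 1 + 1) := by gcongr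
    by_cases hh : H (S.jw n)
    · refine (hH n s c hn hc hh a b hab).trans ?_
      have : 0 ≤ C / M * (b - a) := by positivity
      linarith
    · by_cases hmM : M ≤ mm (S.jw n)
      · refine (hR.sum_five_a hC hc n hn a b hab).trans ?_
        have h1 : C * (b - a) / mm (S.jw n) ≤ C / M * (b - a) := by
          rw [div_mul_eq_mul_div]; gcongr
        linarith
      · push Not at hmM
        set m : ℝ := ((mm (S.jw n) : ℕ) : ℝ) with hmdef
        have hm4 : (4:ℝ) ≤ m := by rw [hmdef]; exact_mod_cast four_le_mm _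
        have hm0 : 0 < m := by linarith
        have hβ : (0:ℝ) ≤ (C + CH) * (ν + 3) ^ (t + 1) := by positivity
        have hMm : M / m ≤ 2 ^ t := by
          rw [div_le_iff₀ hm0]
          calc M ≤ 2 ^ (t + 1) := hMt
            _ = 2 ^ t * 2 := by ring
            _ ≤ 2 ^ t * m := by gcongr; linarith
        have hih := ih (M / m) (by positivity) hMm (fun h hh' hlt => hν h hh' (hlt.trans_le (by
          rw [div_le_iff₀ hm0]; nlinarith)))
        have h5b := hR.five_b (α := C / (M / m)) (by positivity) hβ hC hih hc n hn a b hab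
        refine h5b.trans ?_
        have hnu : (nn (S.jw n) : ℝ) ≤ ν := by exact_mod_cast hν _ hh hmM
        rw [← hmdef]
        have e1 : C / (M / m) / m * ((b:ℝ) - a) = C / M * (b - a) := by
          field_simp
        rw [e1]
        have hpow : (1:ℝ) ≤ (ν + 3) ^ (t + 1) := one_le_pow₀ (by linarith)
        have h2m : 2 / m ≤ 1 / 2 := by rw [div_le_div_iff₀ hm0 (by norm_num)]; linarith
        have h3 : 2 / m * (nn (S.jw n) + 1) * (C + (C + CH) * (ν + 3) ^ (t + 1)) ≤
            1 / 2 * (ν + 1) * (2 * ((C + CH) * (ν + 3) ^ (t + 1))) := by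
          have : C ≤ (C + CH) * (ν + 3) ^ (t + 1) := by nlinarith
          gcongr
          linarith
        have h4 : C ≤ (C + CH) * (ν + 3) ^ (t + 1) := by nlinarith
        have h5 : (C + CH) * (ν + 3) ^ (t + 1 + 1) = (ν + 3) * ((C + CH) * (ν + 3) ^ (t + 1)) := by
          ring
        rw [h5]
        nlinarith

end RSys

end Pool.Agent.CK
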