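import Pool.Agent.Work.MP_02927d_an.SpaceBase

set_option autoImplicit false
set_option linter.unusedSectionVars false

/-! # The space `X` (section 4 of the construction): coordinates, pairing, operators -/

namespace Pool.Agent.CK

open Filter Topology

theorem C_compact_of_fin {E F : Type*} [NormedAddCommGroup E] [NormedSpace ℂ E]
    [NormedAddCommGroup F] [NormedSpace ℂ F] (f : E →L[ℂ] F)
    (h : FiniteDimensional ℂ (LinearMap.range f.toLinearMap)) : IsCompactOperator f := by
  have := h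
  have : ProperSpace (LinearMap.range f.toLinearMap) := FiniteDimensional.proper ℂ _
  let g : E →L[ℂ] (LinearMap.range f.toLinearMap) :=
    f.codRestrict _ (fun x => LinearMap.mem_range_self f.toLinearMap x)
  have hg : IsCompactOperator g := isCompactOperator_of_locallyCompactSpace_dom g
  exact hg.clm_comp (LinearMap.range f.toLinearMap).subtypeL

variable {A : Type*} [NormedCommRing A] [NormedAlgebra ℂ A] [NormOneClass A]
variable (S : Sys A)

/-! ### coordinates -/

/-- `cut` as a linear map -/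
noncomputable def cutL (g : ℕ) : Du A →ₗ[ℂ] Du A where
  toFun := cut S g
  map_add' := cut_add S g
  map_smul' := cut_smul S g

theorem cutL_apply (g : ℕ) (φ : Du A) : cutL S g φ = cut S g φ := rfl

theorem exists_co (g : ℕ) : ∃ f : X S →L[ℂ] Du A, (∀ x, f (emb S x) = cut S g (cv g x)) ∧
    ‖f‖ ≤ 2 := by
  refine exists_ext S ((cutL S g).comp (cv g)) 2 (by norm_num) (fun x => ?_)
  refine ContinuousLinearMap.opNorm_le_bound _ (by positivity) (fun a => ?_)
  rw [LinearMap.comp_apply, cutL_apply]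
  rcases Nat.eq_zero_or_pos g with h0 | h0
  · rw [cut_apply, if_pos h0, norm_zero]; positivity
  · have h1 : cut S g (cv g x) a = pr S (Finsupp.single g (S.F.P (S.p g) a)) x := by
      rw [pr_single, cut_apply, cut_apply, S.F.P_P]
    obtain ⟨z, hz, h2⟩ := S.single_mem h0 (S.F.P_P (S.p g) a)
    rw [h1, h2, pr_smul_left, norm_mul, Complex.norm_real, Real.norm_of_nonneg (by positivity)]
    have h3 := pr_le_of_mem_B S hz x
    have h4 := S.F.norm_le (S.p g) a
    calc 2 * ‖S.F.P (S.p g) a‖ * ‖pr S z x‖ ≤ 2 * ‖a‖ * ‖emb S x‖ := by gcongr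
      _ = 2 * ‖emb S x‖ * ‖a‖ := by ring

/-- the coordinate of a vector of `X` at `g` -/
noncomputable def co (g : ℕ) : X S →L[ℂ] Du A := (exists_co S g).choose

theorem co_emb (g : ℕ) (x : V A) : co S g (emb S x) = cut S g (cv g x) :=
  (exists_co S g).choose_spec.1 x

/-- (4b) -/
theorem norm_co_le (g : ℕ) (x : X S) : ‖co S g x‖ ≤ 2 * ‖x‖ :=
  (ContinuousLinearMap.le_opNorm _ _).trans
    (mul_le_mul_of_nonneg_right (exists_co S g).choose_spec.2 (norm_nonneg _))

theorem co_P (g : ℕ) (x : X S) (a : A) : co S g x (S.F.P (S.p g) a) = co S g x a := by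
  refine eq_of_emb S (f := fun x => co S g x (S.F.P (S.p g) a)) (g := fun x => co S g x a)
    (by fun_prop) (by fun_prop) (fun x => ?_) x
  simp only [co_emb, cut_apply, S.F.P_P]

theorem co_zero_node (x : X S) : co S 0 x = 0 := by
  refine eq_of_emb S (f := fun x => co S 0 x) (g := fun _ => 0)
    (by fun_prop) (by fun_prop) (fun x => ?_) x
  ext a
  simp [co_emb, cut_apply]

/-! ### the pairing -/

/-- `z(x)` for `x` in `X` -/
noncomputable def pair : (ℕ →₀ A) →ₗ[ℂ] (X S →L[ℂ] ℂ) :=
  Finsupp.lsum ℂ (fun g => ((co S g).flip : A →L[ℂ] (X S →L[ℂ] ℂ)).toLinearMap)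

theorem pair_apply (z : ℕ →₀ A) (x : X S) : pair S z x = z.sum (fun g a => co S g x a) := by
  unfold pair
  rw [Finsupp.lsum_apply]
  unfold Finsupp.sum
  rw [sum_apply]
  rfl

theorem pair_single (g : ℕ) (a : A) (x : X S) : pair S (Finsupp.single g a) x = co S g x a := by
  rw [pair_apply, Finsupp.sum_single_index]
  exact map_zero _

theorem pair_emb (z : ℕ →₀ A) (x : V A) : pair S z (emb S x) = pr S z x := by
  have h : ∀ z : ℕ →₀ A, pair S z (emb S x) = prL S x z := by
    intro z
    induction z using Finsupp.induction_linear with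
    | zero => simp
    | add z w hz hw => rw [map_add, map_add, add_apply, hz, hw]
    | single g a =>
      rw [pair_single, co_emb]
      exact (pr_single S g a x).symm
  exact h z

theorem pair_rsmul (r : ℝ) (z : ℕ →₀ A) (x : X S) : pair S (r • z) x = r * pair S z x := by
  rw [← Complex.coe_smul, map_smul]
  simp

/-- (N1) -/
theorem pair_le {z : ℕ →₀ A} (hz : z ∈ S.B) (x : X S) : ‖pair S z x‖ ≤ ‖x‖ := by
  refine (emb_dense S).induction_on (p := fun x => ‖pair S z x‖ ≤ ‖x‖) x
    (isClosed_le (by fun_prop) (by fun_prop)) (fun y => ?_)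
  rw [pair_emb]
  exact pr_le_of_mem_B S hz y

theorem val_eq_pair (i : Idx S) (x : X S) : val S i x = pair S i.z x := by
  have hc : Continuous (val S i) :=
    AddMonoidHomClass.continuous_of_bound (val S i) 1 (fun x => by
      rw [one_mul]; exact norm_val_le S x i)
  refine eq_of_emb S hc (pair S i.z).continuous (fun x => ?_) x
  rw [val_emb, pair_emb]

/-- (N2) -/
theorem norm_le_of (x : X S) (r : ℝ) (hr : 0 ≤ r) (h : ∀ z ∈ S.G, ‖pair S z x‖ ≤ r) :
    ‖x‖ ≤ r :=
  norm_le_of_val S x r hr (fun i => by rw [val_eq_pair]; exact h _ i.mem_G)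

theorem exists_norming (x : X S) {r : ℝ} (hr : r < ‖x‖) (h0 : 0 ≤ r) :
    ∃ z ∈ S.G, r < ‖pair S z x‖ := by
  by_contra hcon
  push Not at hcon
  exact absurd (norm_le_of S x r h0 hcon) (not_le.2 hr)

/-- the `ℓ¹` bound -/
theorem pair_l1 (z : ℕ →₀ A) (x : X S) :
    ‖pair S z x‖ ≤ 2 * z.sum (fun _ a => ‖a‖) * ‖x‖ := by
  rw [pair_apply]
  unfold Finsupp.sum
  rw [Finset.mul_sum, Finset.sum_mul]
  refine (norm_sum_le _ _).trans (Finset.sum_le_sum fun g _ => ?_)
  calc ‖co S g x (z g)‖ ≤ ‖co S g x‖ * ‖z g‖ := ContinuousLinearMap.le_opNorm _ _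
    _ ≤ (2 * ‖x‖) * ‖z g‖ := by gcongr; exact norm_co_le S g x
    _ = 2 * ‖z g‖ * ‖x‖ := by ring

/-! ### supports -/

/-- the support of `x` is inside the open interval `(a, b)` -/
def Sup (x : X S) (a b : ℕ) : Prop := ∀ g, ¬ (a < g ∧ g < b) → co S g x = 0

theorem Sup.add {x y : X S} {a b : ℕ} (hx : Sup S x a b) (hy : Sup S y a b) :
    Sup S (x + y) a b := fun g hg => by
  rw [map_add, hx g hg, hy g hg, add_zero]

theorem Sup.smul {x : X S} {a b : ℕ} (c : ℂ) (hx : Sup S x a b) : Sup S (c • x) a b :=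
  fun g hg => by
    have h : co S g (c • x) = c • co S g x := map_smul _ _ _
    rw [h, hx g hg]
    exact smul_zero (A := Du A) c

theorem Sup.neg {x : X S} {a b : ℕ} (hx : Sup S x a b) : Sup S (-x) a b :=
  fun g hg => by rw [map_neg, hx g hg, neg_zero]

theorem Sup.sub {x y : X S} {a b : ℕ} (hx : Sup S x a b) (hy : Sup S y a b) :
    Sup S (x - y) a b := fun g hg => by
  rw [map_sub, hx g hg, hy g hg, sub_zero]

theorem Sup.zero (a b : ℕ) : Sup S (0 : X S) a b := fun g _ => map_zero (co S g)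

theorem Sup.sum {ι : Type*} (s : Finset ι) (x : ι → X S) {a b : ℕ}
    (hx : ∀ i ∈ s, Sup S (x i) a b) : Sup S (∑ i ∈ s, x i) a b := fun g hg => by
  rw [map_sum]
  exact Finset.sum_eq_zero fun i hi => hx i hi g hg

theorem Sup.mono {x : X S} {a b a' b' : ℕ} (hx : Sup S x a b) (ha : a' ≤ a) (hb : b ≤ b') :
    Sup S x a' b' := fun g hg => hx g (fun h => hg ⟨by omega, by omega⟩)

theorem pair_eq_zero {x : X S} {a b : ℕ} (hx : Sup S x a b) {z : ℕ →₀ A}
    (h : ∀ g, a < g → g < b → z g = 0) : pair S z x = 0 := by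
  rw [pair_apply]
  unfold Finsupp.sum
  refine Finset.sum_eq_zero fun g _ => ?_
  show co S g x (z g) = 0
  by_cases hg : a < g ∧ g < b
  · rw [h g hg.1 hg.2, map_zero]
  · rw [hx g hg]; rfl

/-- the value of the pairing depends only on the coordinates inside the support -/
theorem pair_congr {x : X S} {a b : ℕ} (hx : Sup S x a b) {z w : ℕ →₀ A}
    (h : ∀ g, a < g → g < b → z g = w g) : pair S z x = pair S w x := by
  have h0 : pair S (z - w) x = 0 := pair_eq_zero S hx (fun g h1 h2 => by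
    rw [Finsupp.sub_apply, h g h1 h2, sub_self])
  rw [map_sub, sub_apply, sub_eq_zero] at h0
  exact h0

/-- a vector is determined by its coordinates -/
theorem X_ext {x y : X S} (h : ∀ g, co S g x = co S g y) : x = y := by
  rw [← sub_eq_zero, ← norm_le_zero_iff]
  refine norm_le_of S _ 0 le_rfl (fun z _ => ?_)
  have h0 : Sup S (x - y) 0 0 := fun g _ => by rw [map_sub, h g, sub_self]
  rw [pair_eq_zero S h0 (fun g h1 h2 => absurd h2 (by omega)), norm_zero]

/-! ### vectors with one coordinate -/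

/-- the vector with the only coordinate `φ ∘ P (p g)` at `g` -/
noncomputable def sing (g : ℕ) : Du A →ₗ[ℂ] X S := (emb S).comp (sgl g)

theorem sing_apply (g : ℕ) (φ : Du A) : sing S g φ = emb S (sgl g φ) := rfl

theorem norm_sing_le (g : ℕ) (φ : Du A) : ‖sing S g φ‖ ≤ ‖φ‖ := by
  rw [sing_apply]
  refine emb_norm_le S _ _ (norm_nonneg _) (fun z hz => ?_)
  rw [pr_sgl]
  calc ‖cut S g φ (z g)‖ ≤ ‖cut S g φ‖ * ‖z g‖ := ContinuousLinearMap.le_opNorm _ _
    _ ≤ ‖φ‖ * 1 := by
      gcongr
      · exact cut_norm S g φ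
      · exact (S.good_of_mem_B (S.G_subset_B hz)).norm_le g
    _ = ‖φ‖ := mul_one _

theorem co_sing (g g' : ℕ) (φ : Du A) :
    co S g' (sing S g φ) = if g = g' then cut S g φ else 0 := by
  rw [sing_apply, co_emb, cv_sgl]
  split_ifs with h
  · rw [h]
  · exact map_zero (cutL S g')

theorem co_sing_self {g : ℕ} (hg : 1 ≤ g) (φ : Du A) (a : A) :
    co S g (sing S g φ) a = φ (S.F.P (S.p g) a) := by
  rw [co_sing, if_pos rfl, cut_apply, if_neg (by omega)]

theorem pair_sing {g : ℕ} (hg : 1 ≤ g) (z : ℕ →₀ A) (φ : Du A) :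
    pair S z (sing S g φ) = φ (S.F.P (S.p g) (z g)) := by
  rw [sing_apply, pair_emb, pr_sgl, cut_apply, if_neg (by omega)]

theorem Sup_sing (g a b : ℕ) (φ : Du A) (h1 : a < g) (h2 : g < b) : Sup S (sing S g φ) a b := by
  intro g' hg'
  rw [co_sing, if_neg]
  rintro rfl
  exact hg' ⟨h1, h2⟩

/-- (4d) -/
theorem pair_sing_le {g i : ℕ} (h : S.j g ≠ i) {z : ℕ →₀ A} (hz : z ∈ S.Gw i) (φ : Du A) :
    ‖pair S z (sing S g φ)‖ ≤ ‖φ‖ / mm i := by
  rw [sing_apply, pair_emb, pr_sgl, div_eq_mul_inv]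
  calc ‖cut S g φ (z g)‖ ≤ ‖cut S g φ‖ * ‖z g‖ := ContinuousLinearMap.le_opNorm _ _
    _ ≤ ‖φ‖ * ((mm i : ℝ))⁻¹ := by
      gcongr
      · exact cut_norm S g φ
      · exact S.Gw_off_weight hz h

/-- finite vectors with given coordinates -/
theorem exists_vec (N : ℕ) (y : ℕ → Du A) : ∃ x : X S,
    (∀ g, 1 ≤ g → g < N → co S g x = cut S g (y g)) ∧ (∀ g, N ≤ g → co S g x = 0) := by
  classical
  have key : ∀ g, co S g (∑ g' ∈ Finset.range N, sing S g' (y g')) =
      if g < N then cut S g (y g) else 0 := by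
    intro g
    rw [map_sum]
    by_cases hg : g < N
    · rw [if_pos hg, Finset.sum_eq_single g]
      · rw [co_sing, if_pos rfl]
      · intro b _ hb
        rw [co_sing, if_neg hb]
      · intro h; exact absurd (Finset.mem_range.2 hg) h
    · rw [if_neg hg]
      refine Finset.sum_eq_zero fun b hb => ?_
      rw [co_sing, if_neg]
      rintro rfl
      exact hg (Finset.mem_range.1 hb)
  exact ⟨_, fun g _ hg => by rw [key, if_pos hg], fun g hg => by rw [key, if_neg (by omega)]⟩

/-! ### the operators `D t a` (`P t a` acting beyond `t`) and `R t` -/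

/-- `φ ↦ φ(c · )` -/
noncomputable def mulD (c : A) : Du A →ₗ[ℂ] Du A where
  toFun φ := φ.comp (ContinuousLinearMap.mul ℂ A c)
  map_add' φ ψ := by ext a; simp
  map_smul' r φ := by ext a; simp

theorem mulD_apply (c : A) (φ : Du A) (a : A) : mulD c φ a = φ (c * a) := rfl

private noncomputable def DV0 (t : ℕ) (a : A) : (ℕ →₀ Du A) →ₗ[ℂ] (ℕ →₀ Du A) :=
  Finsupp.lsum ℂ (fun g => if t < g then
    (Finsupp.lsingle g).comp (mulD (S.F.P (S.p g) (S.F.P t a))) else 0)

private theorem DV0_single (t : ℕ) (a : A) (g : ℕ) (φ : Du A) :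
    DV0 S t a (Finsupp.single g φ) =
    if t < g then Finsupp.single g (mulD (S.F.P (S.p g) (S.F.P t a)) φ) else 0 := by
  unfold DV0
  rw [Finsupp.lsum_apply, Finsupp.sum_single_index]
  · split_ifs <;> rfl
  · exact map_zero _

/-- the operator `D t a` on finite vectors -/
noncomputable def DV (t : ℕ) (a : A) : V A →ₗ[ℂ] V A := DV0 S t a

theorem DV_sgl (t : ℕ) (a : A) (g : ℕ) (φ : Du A) : DV S t a (sgl g φ) =
    if t < g then sgl g (mulD (S.F.P (S.p g) (S.F.P t a)) φ) else 0 := by
  exact DV0_single S t a g φ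

theorem pr_DV (t : ℕ) (a : A) (z : ℕ →₀ A) (x : V A) :
    pr S z (DV S t a x) = pr S (act S.F S.p (S.F.P t a) (T t z)) x := by
  refine V_induction (p := fun x => pr S z (DV S t a x) =
    pr S (act S.F S.p (S.F.P t a) (T t z)) x) x ?_ ?_ ?_
  · rw [map_zero, map_zero, map_zero]
  · intro x y hx hy
    rw [map_add, map_add, map_add, hx, hy]
  · intro g φ
    rw [DV_sgl, pr_sgl, act_apply, T_apply]
    split_ifs with h
    · rw [pr_sgl, cut_apply, cut_apply]
      split_ifs
      · rfl
      · rw [mulD_apply, map_mul (S.F.P (S.p g)), S.F.P_P]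
    · rw [map_zero, mul_zero, map_zero]

theorem emb_DV_le (t : ℕ) (a : A) (x : V A) : ‖emb S (DV S t a x)‖ ≤ ‖a‖ * ‖emb S x‖ := by
  refine emb_norm_le S _ _ (by positivity) (fun z hz => ?_)
  rw [pr_DV]
  rcases eq_or_ne a 0 with h0 | h0
  · subst h0
    rw [map_zero, zero_act, pr_zero_left, norm_zero]
    positivity
  · have hn : ‖a‖ ≠ 0 := norm_ne_zero_iff.2 h0
    have hn' : (‖a‖ : ℂ) ≠ 0 := by exact_mod_cast hn
    have h1 : act S.F S.p (S.F.P t a) (T t z) =
        (‖a‖ : ℂ) • act S.F S.p ((‖a‖ : ℂ)⁻¹ • S.F.P t a) (T t z) := by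
      rw [smul_act, smul_smul, mul_inv_cancel₀ hn', one_smul]
    have h2 : act S.F S.p ((‖a‖ : ℂ)⁻¹ • S.F.P t a) (T t z) ∈ S.G := by
      refine S.act_T_mem_G ?_ ?_ hz
      · rw [map_smul, S.F.P_P]
      · rw [norm_smul, norm_inv, Complex.norm_real, norm_norm]
        calc ‖a‖⁻¹ * ‖S.F.P t a‖ ≤ ‖a‖⁻¹ * ‖a‖ := by gcongr; exact S.F.norm_le t a
          _ = 1 := inv_mul_cancel₀ hn
    rw [h1, pr_smul_left, norm_mul, Complex.norm_real, norm_norm]
    gcongr
    exact pr_le_of_mem_G S h2 x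

theorem exists_D (t : ℕ) : ∃ D : A →ₗ[ℂ] (X S →L[ℂ] X S),
    (∀ a x, ‖D a x‖ ≤ ‖a‖ * ‖x‖) ∧
    ∀ a x z, pair S z (D a x) = pair S (act S.F S.p (S.F.P t a) (T t z)) x := by
  have h := fun a => exists_ext S ((emb S).comp (DV S t a)) ‖a‖ (norm_nonneg a)
    (fun x => emb_DV_le S t a x)
  choose D hD1 hD2 using h
  have hpair : ∀ a x z, pair S z (D a x) = pair S (act S.F S.p (S.F.P t a) (T t z)) x := by
    intro a x z
    refine eq_of_emb S (f := fun x => pair S z (D a x))
      (g := fun x => pair S (act S.F S.p (S.F.P t a) (T t z)) x)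
      (by fun_prop) (by fun_prop) (fun x => ?_) x
    simp only [hD1, LinearMap.comp_apply]
    rw [pair_emb, pair_emb, pr_DV]
  have hext : ∀ x y : X S, (∀ z, pair S z x = pair S z y) → x = y := by
    intro x y hxy
    rw [← sub_eq_zero, ← norm_le_zero_iff]
    refine norm_le_of S _ 0 le_rfl (fun z _ => ?_)
    rw [map_sub, hxy z, sub_self, norm_zero]
  refine ⟨{ toFun := D, map_add' := ?_, map_smul' := ?_ }, ?_, ?_⟩
  · intro a b
    ext x
    refine hext _ _ (fun z => ?_)
    rw [add_apply, map_add, hpair, hpair, hpair, map_add, add_act, map_add, add_apply]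
  · intro r a
    ext x
    refine hext _ _ (fun z => ?_)
    rw [RingHom.id_apply, smul_apply, map_smul, hpair, hpair, map_smul, smul_act, map_smul,
      smul_apply]
  · intro a x
    exact (ContinuousLinearMap.le_opNorm _ _).trans
      (mul_le_mul_of_nonneg_right (hD2 a) (norm_nonneg _))
  · exact hpair

/-- `D t a`: multiplication by `P t a` beyond `t` -/
noncomputable def D (t : ℕ) : A →ₗ[ℂ] (X S →L[ℂ] X S) := (exists_D S t).choose

theorem norm_D_le (t : ℕ) (a : A) (x : X S) : ‖D S t a x‖ ≤ ‖a‖ * ‖x‖ :=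
  (exists_D S t).choose_spec.1 a x

theorem pair_D (t : ℕ) (a : A) (x : X S) (z : ℕ →₀ A) :
    pair S z (D S t a x) = pair S (act S.F S.p (S.F.P t a) (T t z)) x :=
  (exists_D S t).choose_spec.2 a x z

theorem co_D (t : ℕ) (a : A) (x : X S) (g : ℕ) (b : A) :
    co S g (D S t a x) b = if t < g then co S g x (S.F.P t a * b) else 0 := by
  rw [← pair_single, pair_D, T_single]
  split_ifs with h
  · rw [act_single, pair_single, ← co_P S g x (S.F.P (S.p g) (S.F.P t a) * b), map_mul, S.F.P_P,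
      ← map_mul, co_P]
  · rw [act_zero, map_zero]; rfl

theorem X_ext_pair {x y : X S} (h : ∀ z, pair S z x = pair S z y) : x = y := by
  rw [← sub_eq_zero, ← norm_le_zero_iff]
  refine norm_le_of S _ 0 le_rfl (fun z _ => ?_)
  rw [map_sub, h z, sub_self, norm_zero]

theorem D_comp (t s : ℕ) (a b : A) :
    (D S t a).comp (D S s b) = D S (max t s) (S.F.P t a * S.F.P s b) := by
  ext x
  refine X_ext_pair S (fun z => ?_)
  rw [ContinuousLinearMap.comp_apply, pair_D, pair_D, pair_D, T_act, act_act, T_T,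
    S.F.P_mul (S.F.P_of_le (le_max_left _ _) (S.F.P_P _ _))
      (S.F.P_of_le (le_max_right _ _) (S.F.P_P _ _)), max_comm s t, mul_comm (S.F.P s b)]

/-- the projection onto the coordinates beyond `t` -/
noncomputable def R (t : ℕ) : X S →L[ℂ] X S := D S t 1

theorem co_R (t : ℕ) (x : X S) (g : ℕ) : co S g (R S t x) = if t < g then co S g x else 0 := by
  ext b
  unfold R
  rw [co_D]
  split_ifs
  · rw [map_one, one_mul]
  · rfl

theorem pair_R (t : ℕ) (x : X S) (z : ℕ →₀ A) : pair S z (R S t x) = pair S (T t z) x := by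
  unfold R
  rw [pair_D, map_one, act_one]

theorem norm_R_le (t : ℕ) (x : X S) : ‖R S t x‖ ≤ ‖x‖ := by
  have := norm_D_le S t 1 x
  rwa [norm_one, one_mul] at this

theorem R_R (s t : ℕ) (x : X S) : R S s (R S t x) = R S (max s t) x := by
  refine X_ext_pair S (fun z => ?_)
  rw [pair_R, pair_R, pair_R, T_T, max_comm]

theorem R_of_Sup {x : X S} {a b t : ℕ} (hx : Sup S x a b) (h : b ≤ t + 1) : R S t x = 0 := by
  refine X_ext_pair S (fun z => ?_)
  rw [pair_R, map_zero]
  exact pair_eq_zero S hx (fun g _ h2 => by rw [T_apply, if_neg (by omega)])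

theorem R_eq_self {x : X S} {a b t : ℕ} (hx : Sup S x a b) (h : t ≤ a) : R S t x = x := by
  refine X_ext_pair S (fun z => ?_)
  rw [pair_R]
  exact pair_congr S hx (fun g h1 _ => by rw [T_apply, if_pos (by omega)])

theorem R_antitone (x : X S) {s t : ℕ} (h : s ≤ t) : ‖R S t x‖ ≤ ‖R S s x‖ := by
  have := norm_R_le S t (R S s x)
  rwa [R_R, max_eq_left h] at this

theorem C_cut_co (g : ℕ) (hg : 1 ≤ g) (x : X S) : cut S g (co S g x) = co S g x := by
  ext a
  rw [cut_apply, if_neg (by omega), co_P]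

theorem sub_R (t : ℕ) (x : X S) :
    x - R S t x = ∑ g ∈ Finset.Icc 1 t, sing S g (co S g x) := by
  classical
  refine X_ext S fun g => ?_
  rw [map_sub, co_R, map_sum]
  by_cases h1 : 1 ≤ g ∧ g ≤ t
  · rw [if_neg (by omega), sub_zero, Finset.sum_eq_single g]
    · rw [co_sing, if_pos rfl, C_cut_co S g h1.1]
    · intro b _ hb
      rw [co_sing, if_neg hb]
    · intro hg
      exact absurd (Finset.mem_Icc.2 h1) hg
  · rw [Finset.sum_eq_zero]
    · by_cases h2 : g = 0
      · subst h2
        simp [co_zero_node]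
      · rw [if_pos (by omega), sub_self]
    · intro b hb
      rw [co_sing, if_neg]
      rintro rfl
      exact h1 (Finset.mem_Icc.1 hb)

theorem R_tendsto (x : X S) : Tendsto (fun t => R S t x) atTop (𝓝 0) := by
  rw [Metric.tendsto_atTop]
  intro ε hε
  obtain ⟨y, hy⟩ := Metric.denseRange_iff.1 (emb_dense S) x ε hε
  -- the support of `y` is finite
  obtain ⟨N, hN⟩ : ∃ N, ∀ g, N < g → cv g y = 0 := by
    refine ⟨(Finsupp.support (y : ℕ →₀ Du A)).sup id, fun g hg => ?_⟩
    by_contra hne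
    have : g ∈ Finsupp.support (y : ℕ →₀ Du A) := Finsupp.mem_support_iff.2 hne
    have := Finset.le_sup (f := id) this
    simp only [id] at this
    omega
  refine ⟨N, fun t ht => ?_⟩
  have h0 : R S t (emb S y) = 0 := by
    refine X_ext S fun g => ?_
    rw [co_R, map_zero]
    split_ifs with h
    · rw [co_emb, hN g (by omega)]
      ext a; simp [cut_apply]
    · rfl
  rw [dist_zero_right]
  calc ‖R S t x‖ = ‖R S t (x - emb S y)‖ := by rw [map_sub, h0, sub_zero]
    _ ≤ ‖x - emb S y‖ := norm_R_le S t _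
    _ < ε := by rwa [← dist_eq_norm]

theorem C_fin_sing (g : ℕ) (hg : 1 ≤ g) : FiniteDimensional ℂ (LinearMap.range (sing S g)) := by
  have := S.F.fin (S.p g)
  -- restriction of functionals to the range of `P (p g)`
  let r : Du A →ₗ[ℂ] Module.Dual ℂ (LinearMap.range (S.F.P (S.p g)).toLinearMap) :=
    { toFun := fun φ => φ.toLinearMap.comp (LinearMap.range (S.F.P (S.p g)).toLinearMap).subtype
      map_add' := fun φ ψ => rfl
      map_smul' := fun c φ => rfl }
  have hker : LinearMap.ker r ≤ LinearMap.ker (sing S g) := by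
    intro φ hφ
    rw [LinearMap.mem_ker] at hφ ⊢
    refine X_ext S fun g' => ?_
    rw [co_sing, map_zero]
    split_ifs with h
    · ext a
      rw [cut_apply, if_neg (by omega)]
      have := LinearMap.congr_fun hφ ⟨S.F.P (S.p g) a, ⟨a, rfl⟩⟩
      exact this
    · rfl
  have : FiniteDimensional ℂ (Du A ⧸ LinearMap.ker r) :=
    LinearEquiv.finiteDimensional (LinearMap.quotKerEquivRange r).symm
  have hsurj : Function.Surjective
      ((LinearMap.ker r).liftQ ((sing S g).rangeRestrict) (by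
        intro φ hφ
        rw [LinearMap.mem_ker]
        exact Subtype.ext (LinearMap.mem_ker.1 (hker hφ)))) := by
    rintro ⟨_, φ, rfl⟩
    exact ⟨Submodule.Quotient.mk φ, rfl⟩
  exact FiniteDimensional.of_surjective _ hsurj

/-- `sing g` as a continuous linear map -/
noncomputable def singL (g : ℕ) : Du A →L[ℂ] X S :=
  (sing S g).mkContinuous 1 (fun φ => by simpa using norm_sing_le S g φ)

@[simp] theorem singL_apply (g : ℕ) (φ : Du A) : singL S g φ = sing S g φ := rfl

theorem compact_sing_co (g : ℕ) (hg : 1 ≤ g) :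
    IsCompactOperator ((singL S g).comp (co S g)) := by
  refine C_compact_of_fin _ ?_
  have := C_fin_sing S g hg
  have hle : LinearMap.range ((singL S g).comp (co S g)).toLinearMap ≤
      LinearMap.range (sing S g) := by
    rintro _ ⟨x, rfl⟩
    exact ⟨co S g x, rfl⟩
  exact Submodule.finiteDimensional_of_le hle

/-- finite rank differences are compact -/
theorem compact_one_sub_R (t : ℕ) :
    IsCompactOperator ((1 : X S →L[ℂ] X S) - R S t) := by
  have h : ((1 : X S →L[ℂ] X S) - R S t) = ∑ g ∈ Finset.Icc 1 t, (singL S g).comp (co S g) := by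
    ext x
    rw [_root_.sub_apply, _root_.sum_apply]
    simpa using sub_R S t x
  rw [h]
  have : (∑ g ∈ Finset.Icc 1 t, (singL S g).comp (co S g)) ∈
      compactOperator (RingHom.id ℂ) (X S) (X S) := by
    refine Submodule.sum_mem _ fun g hg => ?_
    exact compact_sing_co S g (Finset.mem_Icc.1 hg).1
  exact this

theorem compact_D_sub (t t' : ℕ) (h : t ≤ t') (a : A) (ha : S.F.P t a = a) :
    IsCompactOperator (D S t a - D S t' a) := by
  have h1 : D S t a - D S t' a = (D S t a).comp ((1 : X S →L[ℂ] X S) - R S t') := by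
    rw [ContinuousLinearMap.comp_sub]
    congr 1
    rw [R, D_comp, ha, max_eq_right h, map_one, mul_one]
  rw [h1]
  exact (compact_one_sub_R S t').clm_comp _

/-- approximation by finite supports, keeping the lower bound of the support -/
theorem exists_approx (x : X S) (n : ℕ) (hx : R S n x = x) {ε : ℝ} (hε : 0 < ε) :
    ∃ (y : X S) (b : ℕ), Sup S y n b ∧ ‖x - y‖ < ε := by
  obtain ⟨t, ht⟩ := Metric.tendsto_atTop.1 (R_tendsto S x) ε hε
  refine ⟨x - R S t x, t + 1, ?_, ?_⟩
  · intro g hg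
    rw [map_sub, co_R]
    by_cases h1 : t < g
    · rw [if_pos h1, sub_self]
    · rw [if_neg h1, sub_zero]
      have h2 : ¬ n < g := by omega
      rw [← hx, co_R, if_neg h2]
  · have := ht t le_rfl
    rw [dist_zero_right] at this
    simpa using this


end Pool.Agent.CK
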