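import Pool.Agent.Work.MP_02927d_an.Vec

set_option autoImplicit false
set_option linter.unusedSectionVars false

/-! # The space `X` (section 4 of the construction) -/

namespace Pool.Agent.CK

open Filter Topology

variable {A : Type*} [NormedCommRing A] [NormedAlgebra ℂ A] [NormOneClass A]

/-- the Banach space `A →L[ℂ] ℂ` -/
abbrev Du (A : Type*) [NormedCommRing A] [NormedAlgebra ℂ A] := A →L[ℂ] ℂ

/-- `P n` as a continuous linear map -/
noncomputable def PL (F : Filt A) (n : ℕ) : A →L[ℂ] A :=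
  (F.P n).toLinearMap.mkContinuous 1 (fun a => by simpa using F.norm_le n a)

@[simp] theorem PL_apply (F : Filt A) (n : ℕ) (a : A) : PL F n a = F.P n a := rfl

theorem PL_norm_le (F : Filt A) (n : ℕ) : ‖PL F n‖ ≤ 1 :=
  LinearMap.mkContinuous_norm_le _ zero_le_one _

variable (S : Sys A)

/-- indices of the norming functionals -/
structure Idx (S : Sys A) where
  n : ℕ
  s : ℕ
  c : A
  hn : 1 ≤ n
  hc : S.F.P s c = c
  hb : ‖c‖ ≤ 1

/-- the norming functional with a given index -/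
noncomputable def Idx.z {S : Sys A} (i : Idx S) : ℕ →₀ A := act S.F S.p i.c (T i.s (S.e i.n))

theorem Idx.mem_G {S : Sys A} (i : Idx S) : i.z ∈ S.G := ⟨i.n, i.s, i.c, i.hn, i.hc, i.hb, rfl⟩

theorem exists_Idx {z : ℕ →₀ A} (hz : z ∈ S.G) : ∃ i : Idx S, i.z = z := by
  obtain ⟨n, s, c, h1, h2, h3, rfl⟩ := hz
  exact ⟨⟨n, s, c, h1, h2, h3⟩, rfl⟩

theorem Idx.norm_z {S : Sys A} (i : Idx S) (g : ℕ) : ‖i.z g‖ ≤ 1 :=
  (S.good_of_mem_B (S.G_subset_B i.mem_G)).norm_le g

instance : TopologicalSpace (Idx S) := ⊥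
instance : DiscreteTopology (Idx S) := ⟨rfl⟩

/-- the functional `φ ∘ P (p g)` if `g ≥ 1`, and `0` if `g = 0` -/
noncomputable def cut (g : ℕ) (φ : Du A) : Du A := if g = 0 then 0 else φ.comp (PL S.F (S.p g))

theorem cut_apply (g : ℕ) (φ : Du A) (a : A) :
    cut S g φ a = if g = 0 then 0 else φ (S.F.P (S.p g) a) := by
  unfold cut
  split_ifs <;> simp

theorem cut_add (g : ℕ) (φ ψ : Du A) : cut S g (φ + ψ) = cut S g φ + cut S g ψ := by
  ext a; simp only [cut_apply, add_apply]; split_ifs <;> simp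

theorem cut_smul (g : ℕ) (c : ℂ) (φ : Du A) : cut S g (c • φ) = c • cut S g φ := by
  ext a; simp only [cut_apply, smul_apply]; split_ifs <;> simp

theorem cut_norm (g : ℕ) (φ : Du A) : ‖cut S g φ‖ ≤ ‖φ‖ := by
  unfold cut
  split_ifs
  · simp
  · exact (ContinuousLinearMap.opNorm_comp_le _ _).trans
      (mul_le_of_le_one_right (norm_nonneg _) (PL_norm_le _ _))

theorem cut_cut (g : ℕ) (φ : Du A) : cut S g (cut S g φ) = cut S g φ := by
  ext a
  simp only [cut_apply]
  split_ifs
  · rfl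
  · rw [S.F.P_P]

/-- pairing of finitely supported vectors -/
noncomputable def pr0 (z : ℕ →₀ A) (x : ℕ →₀ Du A) : ℂ := x.sum (fun g φ => cut S g φ (z g))

theorem pr0_add (z : ℕ →₀ A) (x y : ℕ →₀ Du A) : pr0 S z (x + y) = pr0 S z x + pr0 S z y := by
  classical
  unfold pr0
  rw [Finsupp.sum_add_index']
  · intro g; simp [cut_apply]
  · intro g φ ψ; rw [cut_add]; simp

theorem pr0_smul (z : ℕ →₀ A) (c : ℂ) (x : ℕ →₀ Du A) : pr0 S z (c • x) = c * pr0 S z x := by
  unfold pr0
  rw [Finsupp.sum_smul_index' (by intro g; simp [cut_apply])]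
  unfold Finsupp.sum
  rw [Finset.mul_sum]
  refine Finset.sum_congr rfl fun g _ => ?_
  show (cut S g (c • x g)) (z g) = _
  rw [cut_smul]; simp

theorem pr0_bound (z : ℕ →₀ A) (hz : ∀ g, ‖z g‖ ≤ 1) (x : ℕ →₀ Du A) :
    ‖pr0 S z x‖ ≤ x.sum (fun _ φ => ‖φ‖) := by
  unfold pr0 Finsupp.sum
  refine (norm_sum_le _ _).trans (Finset.sum_le_sum fun g _ => ?_)
  refine ((cut S g (x g)).le_opNorm _).trans ?_
  exact (mul_le_of_le_one_right (norm_nonneg _) (hz g)).trans (cut_norm S g _)

theorem pr0_add_left (z w : ℕ →₀ A) (x : ℕ →₀ Du A) :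
    pr0 S (z + w) x = pr0 S z x + pr0 S w x := by
  unfold pr0 Finsupp.sum
  rw [← Finset.sum_add_distrib]
  exact Finset.sum_congr rfl fun g _ => by simp

theorem pr0_smul_left (c : ℂ) (z : ℕ →₀ A) (x : ℕ →₀ Du A) :
    pr0 S (c • z) x = c * pr0 S z x := by
  unfold pr0 Finsupp.sum
  rw [Finset.mul_sum]
  exact Finset.sum_congr rfl fun g _ => by simp

theorem pr0_single (z : ℕ →₀ A) (g : ℕ) (φ : Du A) :
    pr0 S z (Finsupp.single g φ) = cut S g φ (z g) := by
  unfold pr0
  rw [Finsupp.sum_single_index]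
  simp [cut_apply]

theorem pr0_single_left (g : ℕ) (a : A) (x : ℕ →₀ Du A) :
    pr0 S (Finsupp.single g a) x = cut S g (x g) a := by
  classical
  unfold pr0 Finsupp.sum
  by_cases hg : g ∈ x.support
  · rw [Finset.sum_eq_single g]
    · simp
    · intro b _ hb
      show cut S b (x b) (Finsupp.single g a b) = 0
      rw [Finsupp.single_apply, if_neg (Ne.symm hb), map_zero]
    · exact fun h => absurd hg h
  · rw [Finset.sum_eq_zero]
    · rw [Finsupp.notMem_support_iff.1 hg]
      simp [cut_apply]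
    · intro b hb
      have : g ≠ b := fun h => hg (h ▸ hb)
      show cut S b (x b) (Finsupp.single g a b) = 0
      rw [Finsupp.single_apply, if_neg this, map_zero]

/-- the space of finitely supported vectors -/
def V (A : Type*) [NormedCommRing A] [NormedAlgebra ℂ A] : Type _ := ℕ →₀ Du A

noncomputable instance : AddCommGroup (V A) := inferInstanceAs (AddCommGroup (ℕ →₀ Du A))
noncomputable instance : Module ℂ (V A) := inferInstanceAs (Module ℂ (ℕ →₀ Du A))

/-- the pairing as a linear map -/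
noncomputable def pr (z : ℕ →₀ A) : V A →ₗ[ℂ] ℂ where
  toFun x := pr0 S z x
  map_add' x y := pr0_add S z x y
  map_smul' c x := pr0_smul S z c x

theorem pr_add_left (z w : ℕ →₀ A) (x : V A) : pr S (z + w) x = pr S z x + pr S w x :=
  pr0_add_left S z w x

theorem pr_smul_left (c : ℂ) (z : ℕ →₀ A) (x : V A) : pr S (c • z) x = c * pr S z x :=
  pr0_smul_left S c z x

theorem pr_rsmul_left (c : ℝ) (z : ℕ →₀ A) (x : V A) : pr S (c • z) x = c * pr S z x := by
  rw [← pr_smul_left]
  congr 1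

theorem pr_zero_left (x : V A) : pr S 0 x = 0 := by
  have := pr_smul_left S 0 0 x
  simpa using this

/-- the pairing, linear in the functional -/
noncomputable def prL (x : V A) : (ℕ →₀ A) →ₗ[ℂ] ℂ where
  toFun z := pr S z x
  map_add' z w := pr_add_left S z w x
  map_smul' c z := pr_smul_left S c z x

/-- a vector with only one coordinate -/
noncomputable def sgl (g : ℕ) : Du A →ₗ[ℂ] V A := Finsupp.lsingle g

/-- the coordinates -/
noncomputable def cv (g : ℕ) : V A →ₗ[ℂ] Du A := Finsupp.lapply g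

theorem cv_sgl (g g' : ℕ) (φ : Du A) : cv g' (sgl g φ) = if g = g' then φ else 0 :=
  Finsupp.single_apply

theorem pr_sgl (z : ℕ →₀ A) (g : ℕ) (φ : Du A) : pr S z (sgl g φ) = cut S g φ (z g) :=
  pr0_single S z g φ

theorem pr_single (g : ℕ) (a : A) (x : V A) :
    pr S (Finsupp.single g a) x = cut S g (cv g x) a := pr0_single_left S g a x

theorem V_induction {p : V A → Prop} (x : V A) (h0 : p 0)
    (hadd : ∀ x y, p x → p y → p (x + y)) (h1 : ∀ g φ, p (sgl g φ)) : p x :=
  Finsupp.induction_linear (motive := p) x h0 hadd h1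

/-- the embedding into bounded functions -/
noncomputable def evL : V A →ₗ[ℂ] BoundedContinuousFunction (Idx S) ℂ where
  toFun x := BoundedContinuousFunction.ofNormedAddCommGroupDiscrete (fun i : Idx S => pr S i.z x)
    (Finsupp.sum x (fun _ φ => ‖φ‖)) (fun i => pr0_bound S _ i.norm_z x)
  map_add' x y := by
    ext i
    exact map_add (pr S i.z) x y
  map_smul' c x := by
    ext i
    exact map_smul (pr S i.z) c x

@[simp] theorem evL_apply (x : V A) (i : Idx S) : evL S x i = pr S i.z x := rfl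

/-- the space, as a closed subspace of the bounded functions -/
noncomputable def XS : Submodule ℂ (BoundedContinuousFunction (Idx S) ℂ) :=
  (LinearMap.range (evL S)).topologicalClosure

/-- the Banach space `X` -/
def X : Type _ := XS S

noncomputable instance : NormedAddCommGroup (X S) := inferInstanceAs (NormedAddCommGroup (XS S))
noncomputable instance : NormedSpace ℂ (X S) := inferInstanceAs (NormedSpace ℂ (XS S))
instance : CompleteSpace (X S) :=
  (LinearMap.range (evL S)).isClosed_topologicalClosure.completeSpace_coe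

/-- the values of a vector of `X` at the norming functionals, linear in the vector -/
noncomputable def val (i : Idx S) : X S →ₗ[ℂ] ℂ where
  toFun x := x.1 i
  map_add' _ _ := rfl
  map_smul' _ _ := rfl

/-- finitely supported vectors in `X` -/
noncomputable def emb : V A →ₗ[ℂ] X S :=
  (evL S).codRestrict (XS S) (fun x =>
    Submodule.le_topologicalClosure _ (LinearMap.mem_range_self (evL S) x))

theorem val_emb (i : Idx S) (x : V A) : val S i (emb S x) = pr S i.z x := rfl

theorem emb_dense : DenseRange (emb S) := by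
  rw [Metric.denseRange_iff]
  intro x r hr
  have hx : x.1 ∈ closure ((LinearMap.range (evL S)) : Set _) := x.2
  rw [Metric.mem_closure_iff] at hx
  obtain ⟨b, ⟨y, rfl⟩, hb⟩ := hx r hr
  exact ⟨y, hb⟩

theorem norm_le_of_val (x : X S) (r : ℝ) (hr : 0 ≤ r) (h : ∀ i : Idx S, ‖val S i x‖ ≤ r) :
    ‖x‖ ≤ r :=
  (BoundedContinuousFunction.norm_le hr).2 h

theorem norm_val_le (x : X S) (i : Idx S) : ‖val S i x‖ ≤ ‖x‖ :=
  BoundedContinuousFunction.norm_coe_le_norm x.1 i

/-! ### extension of maps -/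

section Ext

variable {W : Type*} [NormedAddCommGroup W] [NormedSpace ℂ W] [CompleteSpace W]

private theorem exists_ext_gen {E Y : Type*} [AddCommGroup E] [Module ℂ E] [NormedAddCommGroup Y]
    [NormedSpace ℂ Y] (e : E →ₗ[ℂ] Y) (he : DenseRange e) (f : E →ₗ[ℂ] W) (C : ℝ) (hC : 0 ≤ C)
    (h : ∀ x, ‖f x‖ ≤ C * ‖e x‖) :
    ∃ g : Y →L[ℂ] W, (∀ x, g (e x) = f x) ∧ ‖g‖ ≤ C :=
  ⟨f.extendOfNorm e, fun x => LinearMap.extendOfNorm_eq he ⟨C, h⟩ x,
    LinearMap.opNorm_extendOfNorm_le he hC h⟩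

theorem exists_ext (f : (V A) →ₗ[ℂ] W) (C : ℝ) (hC : 0 ≤ C)
    (h : ∀ x, ‖f x‖ ≤ C * ‖emb S x‖) :
    ∃ g : X S →L[ℂ] W, (∀ x, g (emb S x) = f x) ∧ ‖g‖ ≤ C :=
  exists_ext_gen (emb S) (emb_dense S) f C hC h

end Ext

/-- equality of two continuous maps can be tested on the finitely supported vectors -/
theorem eq_of_emb {W : Type*} [TopologicalSpace W] [T2Space W] {f g : X S → W}
    (hf : Continuous f) (hg : Continuous g) (h : ∀ x, f (emb S x) = g (emb S x)) (x : X S) :
    f x = g x :=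
  congrFun ((emb_dense S).equalizer hf hg (funext h)) x

theorem clm_ext {W : Type*} [NormedAddCommGroup W] [NormedSpace ℂ W] {f g : X S →L[ℂ] W}
    (h : ∀ x, f (emb S x) = g (emb S x)) : f = g := by
  ext x
  exact eq_of_emb S f.continuous g.continuous h x

theorem emb_norm_le (x : V A) (r : ℝ) (hr : 0 ≤ r) (h : ∀ z ∈ S.G, ‖pr S z x‖ ≤ r) :
    ‖emb S x‖ ≤ r :=
  norm_le_of_val S _ r hr (fun i => by rw [val_emb]; exact h _ i.mem_G)

theorem pr_le_of_mem_G {z : ℕ →₀ A} (hz : z ∈ S.G) (x : V A) : ‖pr S z x‖ ≤ ‖emb S x‖ := by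
  obtain ⟨i, rfl⟩ := exists_Idx S hz
  exact norm_val_le S (emb S x) i

theorem pr_le_of_mem_B {z : ℕ →₀ A} (hz : z ∈ S.B) (x : V A) : ‖pr S z x‖ ≤ ‖emb S x‖ := by
  have hconv : Convex ℝ {z : ℕ →₀ A | ‖pr S z x‖ ≤ ‖emb S x‖} := by
    intro z hz w hw a b ha hb hab
    simp only [Set.mem_ofPred_eq] at *
    rw [pr_add_left, pr_rsmul_left, pr_rsmul_left]
    calc ‖(a : ℂ) * pr S z x + (b : ℂ) * pr S w x‖
        ≤ ‖(a : ℂ) * pr S z x‖ + ‖(b : ℂ) * pr S w x‖ := norm_add_le _ _
      _ = a * ‖pr S z x‖ + b * ‖pr S w x‖ := by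
        rw [norm_mul, norm_mul, Complex.norm_real, Complex.norm_real, Real.norm_of_nonneg ha,
          Real.norm_of_nonneg hb]
      _ ≤ a * ‖emb S x‖ + b * ‖emb S x‖ := by gcongr
      _ = ‖emb S x‖ := by rw [← add_mul, hab, one_mul]
  exact convexHull_min (fun z hz => pr_le_of_mem_G S hz x) hconv hz


end Pool.Agent.CK
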