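import Pool.Agent.Work.MP_02927d_an.Def

/-!
MP_02927d_an, joint J1: the tree of nodes exists (recursion with one enumeration of all data with
infinite repetitions).
-/

open scoped BigOperators

namespace Pool.Agent.CK

variable {A : Type*} [NormedCommRing A] [NormedAlgebra ℂ A]

theorem j1_sep (F : Filt A) : TopologicalSpace.SeparableSpace A := by
  have h1 : ∀ n, TopologicalSpace.IsSeparable (Set.range (F.P n)) := by
    intro n
    have := F.fin n
    have : ProperSpace (LinearMap.range (F.P n).toLinearMap) := FiniteDimensional.proper ℂ _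
    have h2 : TopologicalSpace.IsSeparable
        (Set.range (Subtype.val : LinearMap.range (F.P n).toLinearMap → A)) :=
      TopologicalSpace.isSeparable_range continuous_subtype_val
    refine h2.mono ?_
    rintro _ ⟨a, rfl⟩
    exact ⟨⟨F.P n a, ⟨a, rfl⟩⟩, rfl⟩
  have h3 : TopologicalSpace.IsSeparable (⋃ n, Set.range (F.P n)) :=
    TopologicalSpace.IsSeparable.iUnion h1
  have h4 := h3.closure
  have h5 : closure (⋃ n, Set.range (F.P n)) = Set.univ := by
    rw [Set.eq_univ_iff_forall]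
    intro a
    refine mem_closure_of_tendsto (F.tends a) (Filter.Eventually.of_forall fun n => ?_)
    exact Set.mem_iUnion.2 ⟨n, a, rfl⟩
  rw [h5] at h4
  exact TopologicalSpace.isSeparable_univ_iff.1 h4

theorem j1_l1_le (M : ℕ) (z : ℕ →₀ A) (hz : ∀ g, M ≤ g → z g = 0) (ε : ℝ)
    (h : ∀ g < M, ‖z g‖ ≤ ε) : l1 z ≤ M * ε := by
  have h1 : z.support ⊆ Finset.range M := by
    intro g hg
    rw [Finset.mem_range]
    by_contra hc
    exact (Finsupp.mem_support_iff.1 hg) (hz g (not_lt.1 hc))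
  have h2 : l1 z ≤ ∑ g ∈ Finset.range M, ‖z g‖ :=
    Finset.sum_le_sum_of_subset_of_nonneg h1 fun _ _ _ => norm_nonneg _
  refine h2.trans ((Finset.sum_le_sum fun g hg => h g (Finset.mem_range.1 hg)).trans ?_)
  rw [Finset.sum_const, Finset.card_range, nsmul_eq_mul]

theorem j1_dense (F : Filt A) (s : Set (ℕ →₀ A)) (hs : s.Nonempty) (M : ℕ)
    (hM : ∀ z ∈ s, ∀ g, M ≤ g → z g = 0) :
    ∃ d : ℕ → (ℕ →₀ A), (∀ i, d i ∈ s) ∧ ∀ z ∈ s, ∀ ε > 0, ∃ i, l1 (d i - z) ≤ ε := by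
  classical
  have := j1_sep F
  have : SecondCountableTopology A := UniformSpace.secondCountable_of_separable A
  let f : s → (Fin M → A) := fun z i => z.1 i
  have h1 : TopologicalSpace.IsSeparable (Set.range f) :=
    TopologicalSpace.IsSeparable.of_separableSpace _
  have : Nonempty s := hs.to_subtype
  have : Nonempty (Set.range f) := (Set.range_nonempty f).to_subtype
  have : TopologicalSpace.SeparableSpace (Set.range f) := h1.separableSpace
  let u : ℕ → Set.range f := TopologicalSpace.denseSeq (Set.range f)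
  have hu : DenseRange u := TopologicalSpace.denseRange_denseSeq _
  choose v hv using fun i => (u i).2
  refine ⟨fun i => (v i).1, fun i => (v i).2, ?_⟩
  intro z hz ε hε
  have hδ : 0 < ε / (M + 1) := by positivity
  obtain ⟨i, hi⟩ := hu.exists_dist_lt (⟨f ⟨z, hz⟩, ⟨_, rfl⟩⟩ : Set.range f) hδ
  refine ⟨i, ?_⟩
  have h2 : ∀ g < M, ‖((v i).1 - z) g‖ ≤ ε / (M + 1) := by
    intro g hg
    have h3 : dist (f ⟨z, hz⟩ ⟨g, hg⟩) ((u i).1 ⟨g, hg⟩) ≤ dist (f ⟨z, hz⟩) (u i).1 :=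
      dist_le_pi_dist _ _ _
    rw [← hv i, dist_comm, dist_eq_norm] at h3
    rw [Subtype.dist_eq, ← hv i] at hi
    exact h3.trans hi.le
  have h3 : ∀ g, M ≤ g → ((v i).1 - z) g = 0 := by
    intro g hg
    rw [Finsupp.sub_apply, hM _ (v i).2 g hg, hM _ hz g hg, sub_zero]
  refine (j1_l1_le M _ h3 _ h2).trans ?_
  rw [mul_div_assoc', div_le_iff₀ (by positivity)]
  nlinarith

/-- course of values recursion without dependency conditions -/
theorem j1_rec {α : Type*} (a0 : α) (step : ℕ → (ℕ → α) → α) :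
    ∃ f : ℕ → α, ∀ n, f n = step n (fun m => if m < n then f m else a0) := by
  classical
  let h : ℕ → (ℕ → α) := fun n => Nat.rec (fun _ => a0)
    (fun n g m => if m = n then step n g else g m) n
  have h0 : ∀ m, h 0 m = a0 := fun m => rfl
  have hs : ∀ n m, h (n + 1) m = if m = n then step n (h n) else h n m := fun n m => rfl
  have h1 : ∀ n m, n ≤ m → h n m = a0 := by
    intro n
    induction n with
    | zero => intro m _; exact h0 m
    | succ n ih =>
      intro m hm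
      rw [hs, if_neg (by omega)]
      exact ih m (by omega)
  have h2 : ∀ n m, m < n → h n m = h (m + 1) m := by
    intro n
    induction n with
    | zero => intro m hm; omega
    | succ n ih =>
      intro m hm
      rcases Nat.lt_succ_iff_lt_or_eq.1 hm with h | h
      · rw [hs, if_neg (by omega)]
        exact ih m h
      · rw [h]
  refine ⟨fun n => h (n + 1) n, fun n => ?_⟩
  show h (n + 1) n = _
  rw [hs, if_pos rfl]
  congr 1
  funext m
  by_cases hm : m < n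
  · rw [if_pos hm]; exact h2 n m hm
  · rw [if_neg hm]; exact h1 n m (not_lt.1 hm)


/-! The recursion. -/

/-- one node of the tree -/
structure J1Nd (A : Type*) [NormedCommRing A] [NormedAlgebra ℂ A] where
  p : ℕ
  root : Prop
  j : ℕ
  age : ℕ
  eta : ℕ
  e : ℕ →₀ A
  b : ℕ →₀ A

/-- the dummy node -/
def J1Nd.zero : J1Nd A := ⟨0, True, 0, 1, 0, 0, 0⟩

/-- the first `M` nodes -/
def j1tr (M : ℕ) (f : ℕ → J1Nd A) : ℕ → J1Nd A := fun m => if m < M then f m else J1Nd.zero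

theorem j1tr_lt {M : ℕ} {f : ℕ → J1Nd A} {m : ℕ} (h : m < M) : j1tr M f m = f m := if_pos h

theorem j1tr_tr {M n : ℕ} (f : ℕ → J1Nd A) (h : M ≤ n) : j1tr M (j1tr n f) = j1tr M f := by
  funext m
  unfold j1tr
  by_cases h1 : m < M
  · rw [if_pos h1, if_pos h1, if_pos (by omega)]
  · rw [if_neg h1, if_neg h1]

/-- the hull built from the first `M` nodes -/
def j1BM (F : Filt A) (M : ℕ) (f : ℕ → J1Nd A) : Set (ℕ →₀ A) :=
  BM F (fun g => (j1tr M f g).p) (fun m => (j1tr M f m).e) M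

open Classical in
/-- a dense sequence of the hull -/
noncomputable def j1ds (F : Filt A) (M : ℕ) (f : ℕ → J1Nd A) : ℕ → (ℕ →₀ A) :=
  if h : ∃ d : ℕ → (ℕ →₀ A), (∀ i, d i ∈ j1BM F M f) ∧
    ∀ z ∈ j1BM F M f, ∀ ε > 0, ∃ i, l1 (d i - z) ≤ ε then h.choose else fun _ => 0

theorem j1ds_tr (F : Filt A) {M n : ℕ} (f : ℕ → J1Nd A) (h : M ≤ n) :
    j1ds F M (j1tr n f) = j1ds F M f := by
  have h1 : j1BM F M (j1tr n f) = j1BM F M f := by
    unfold j1BM
    rw [j1tr_tr f h]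
  unfold j1ds
  rw [h1]

/-- a new root -/
noncomputable def j1root (n pp jj eta : ℕ) (b : ℕ →₀ A) : J1Nd A :=
  ⟨pp, True, jj, 1, eta, Finsupp.single n 1 + ((mm jj : ℂ)⁻¹) • T pp b, b⟩

/-- a new successor -/
noncomputable def j1succ (n : ℕ) (f : ℕ → J1Nd A) (ξ eta : ℕ) (b : ℕ →₀ A) : J1Nd A :=
  ⟨ξ, False, (f ξ).j, (f ξ).age + 1, eta,
    (f ξ).e + Finsupp.single n 1 + ((mm (f ξ).j : ℂ)⁻¹) • T ξ b, b⟩

open Classical in
/-- one step of the recursion; the datum is `(kind, a, b, M, i)` -/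
noncomputable def j1step (F : Filt A) (en : ℕ → ℕ × ℕ × ℕ × ℕ × ℕ) (n : ℕ) (f : ℕ → J1Nd A) :
    J1Nd A :=
  if n = 0 then J1Nd.zero
  else if (en n).1 = 0 ∧ (en n).2.1 < n ∧ (en n).2.2.1 ≤ n ∧ Even (en n).2.2.1 ∧
      2 ≤ (en n).2.2.2.1 ∧ (en n).2.2.2.1 ≤ n then
    j1root n (en n).2.1 (en n).2.2.1 0 (j1ds F (en n).2.2.2.1 f (en n).2.2.2.2)
  else if (en n).1 = 1 ∧ 1 ≤ (en n).2.1 ∧ (en n).2.1 < n ∧ Even (f (en n).2.1).j ∧
      (f (en n).2.1).age < nn (f (en n).2.1).j ∧ 2 ≤ (en n).2.2.2.1 ∧ (en n).2.2.2.1 ≤ n then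
    j1succ n f (en n).2.1 0 (j1ds F (en n).2.2.2.1 f (en n).2.2.2.2)
  else if (en n).1 = 2 ∧ (en n).2.1 < n ∧ (en n).2.2.1 ≤ n ∧ ¬ Even (en n).2.2.1 ∧
      (en n).2.1 < (en n).2.2.2.1 ∧ (en n).2.2.2.1 < n ∧ (f (en n).2.2.2.1).j % 4 = 2 ∧
      nn (en n).2.2.1 ^ 2 ≤ mm (f (en n).2.2.2.1).j then
    j1root n (en n).2.1 (en n).2.2.1 (en n).2.2.2.1 (f (en n).2.2.2.1).e
  else if (en n).1 = 3 ∧ 1 ≤ (en n).2.1 ∧ (en n).2.1 < n ∧ ¬ Even (f (en n).2.1).j ∧
      (f (en n).2.1).age < nn (f (en n).2.1).j ∧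
      (en n).2.1 < (en n).2.2.2.1 ∧ (en n).2.2.2.1 < n ∧
      (f (en n).2.2.2.1).j = 4 * (en n).2.1 then
    j1succ n f (en n).2.1 (en n).2.2.2.1 (f (en n).2.2.2.1).e
  else j1root n 0 0 0 0

/-- what a node looks like -/
def J1Spec (F : Filt A) (f : ℕ → J1Nd A) (n : ℕ) : Prop :=
  (∃ pp jj M i, pp < n ∧ jj ≤ n ∧ Even jj ∧ 2 ≤ M ∧ M ≤ n ∧
      f n = j1root n pp jj 0 (j1ds F M f i)) ∨
  (∃ ξ M i, 1 ≤ ξ ∧ ξ < n ∧ Even (f ξ).j ∧ (f ξ).age < nn (f ξ).j ∧ 2 ≤ M ∧ M ≤ n ∧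
      f n = j1succ n f ξ 0 (j1ds F M f i)) ∨
  (∃ pp jj η, pp < n ∧ jj ≤ n ∧ ¬ Even jj ∧ pp < η ∧ η < n ∧ (f η).j % 4 = 2 ∧
      nn jj ^ 2 ≤ mm (f η).j ∧ f n = j1root n pp jj η (f η).e) ∨
  (∃ ξ η, 1 ≤ ξ ∧ ξ < n ∧ ¬ Even (f ξ).j ∧ (f ξ).age < nn (f ξ).j ∧ ξ < η ∧ η < n ∧
      (f η).j = 4 * ξ ∧ f n = j1succ n f ξ η (f η).e) ∨
  f n = j1root n 0 0 0 0

section build

variable (F : Filt A) (en : ℕ → ℕ × ℕ × ℕ × ℕ × ℕ) (f : ℕ → J1Nd A)
  (hf : ∀ n, f n = j1step F en n (j1tr n f))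

theorem j1succ_tr {n ξ eta : ℕ} (h : ξ < n) (b : ℕ →₀ A) :
    j1succ n (j1tr n f) ξ eta b = j1succ n f ξ eta b := by
  unfold j1succ
  rw [j1tr_lt h]

include hf

theorem j1_zero : f 0 = J1Nd.zero := by
  rw [hf 0]
  unfold j1step
  rw [if_pos rfl]

theorem j1_spec (n : ℕ) (hn : 1 ≤ n) : J1Spec F f n := by
  have h := hf n
  unfold j1step at h
  rw [if_neg (by omega)] at h
  generalize en n = D at h
  obtain ⟨k, a, b, M, i⟩ := D
  dsimp only at h
  split_ifs at h with h1 h2 h3 h4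
  · left
    obtain ⟨_, h12, h13, h14, h15, h16⟩ := h1
    rw [j1ds_tr F f h16] at h
    exact ⟨a, b, M, i, h12, h13, h14, h15, h16, h⟩
  · right; left
    obtain ⟨_, h12, h13, h14, h15, h16, h17⟩ := h2
    rw [j1tr_lt h13] at h14 h15
    rw [j1ds_tr F f h17, j1succ_tr f h13] at h
    exact ⟨a, M, i, h12, h13, h14, h15, h16, h17, h⟩
  · right; right; left
    obtain ⟨_, h12, h13, h14, h15, h16, h17, h18⟩ := h3
    rw [j1tr_lt h16] at h17 h18 h
    exact ⟨a, b, M, h12, h13, h14, h15, h16, h17, h18, h⟩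
  · right; right; right; left
    obtain ⟨_, h12, h13, h14, h15, h16, h17, h18⟩ := h4
    rw [j1tr_lt h13] at h14 h15
    rw [j1tr_lt h17] at h18 h
    rw [j1succ_tr f h13] at h
    exact ⟨a, M, h12, h13, h14, h15, h16, h17, h18, h⟩
  · right; right; right; right
    exact h

omit hf in
theorem j1_BM_supp (p : ℕ → ℕ) (e : ℕ → (ℕ →₀ A)) (M : ℕ)
    (h : ∀ m < M, ∀ g, (m < g ∨ g = 0) → e m g = 0) :
    ∀ z ∈ BM F p e M, ∀ g, (M ≤ g ∨ g = 0) → z g = 0 := by
  have h1 : BM F p e M ⊆ {z | ∀ g, (M ≤ g ∨ g = 0) → z g = 0} := by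
    refine convexHull_min ?_ ?_
    · rintro z ⟨n, s, c, _, hn, _, _, rfl⟩ g hg
      have h2 : e n g = 0 := h n hn g (hg.imp (fun h => by omega) id)
      unfold act T
      rw [Finsupp.onFinset_apply, Finsupp.filter_apply, h2, ite_self, mul_zero]
    · intro x hx y hy a b _ _ _ g hg
      rw [Finsupp.add_apply, Finsupp.smul_apply, Finsupp.smul_apply, hx g hg, hy g hg,
        smul_zero, smul_zero, add_zero]
  exact fun z hz => h1 hz

omit hf in
theorem j1_BM_congr (p p' : ℕ → ℕ) (e e' : ℕ → (ℕ →₀ A)) (M : ℕ)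
    (h : ∀ m < M, ∀ g, (m < g ∨ g = 0) → e m g = 0)
    (hp : ∀ g < M, p g = p' g) (he : ∀ m < M, e m = e' m) :
    BM F p e M = BM F p' e' M := by
  have h1 : ∀ n < M, ∀ s c, act F p c (T s (e n)) = act F p' c (T s (e' n)) := by
    intro n hn s c
    rw [← he n hn]
    ext g
    unfold act T
    rw [Finsupp.onFinset_apply, Finsupp.onFinset_apply]
    by_cases hg : g < M
    · rw [hp g hg]
    · rw [Finsupp.filter_apply, h n hn g (Or.inl (by omega)), ite_self, mul_zero, mul_zero]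
  have h2 : GM F p e M = GM F p' e' M := by
    ext z
    constructor
    · rintro ⟨n, s, c, h3, h4, h5, h6, h7⟩
      exact ⟨n, s, c, h3, h4, h5, h6, h7.trans (h1 n h4 s c)⟩
    · rintro ⟨n, s, c, h3, h4, h5, h6, h7⟩
      exact ⟨n, s, c, h3, h4, h5, h6, h7.trans (h1 n h4 s c).symm⟩
  unfold BM
  rw [h2]

omit hf in
theorem j1_BM_mono (p : ℕ → ℕ) (e : ℕ → (ℕ →₀ A)) {M M' : ℕ} (h : M ≤ M') :
    BM F p e M ⊆ BM F p e M' := by
  refine convexHull_mono ?_
  rintro z ⟨n, s, c, h3, h4, h5⟩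
  exact ⟨n, s, c, h3, by omega, h5⟩

omit hf in
theorem j1_ds (M : ℕ) (hM : 2 ≤ M)
    (ih : ∀ m < M, ∀ g, (m < g ∨ g = 0) → (f m).e g = 0) :
    (∀ i, j1ds F M f i ∈ j1BM F M f) ∧
    ∀ z ∈ j1BM F M f, ∀ ε : ℝ, 0 < ε → ∃ i, l1 (j1ds F M f i - z) ≤ ε := by
  have h1 : (j1BM F M f).Nonempty := by
    refine ⟨_, subset_convexHull ℝ _ ⟨1, 0, 0, le_rfl, by omega, map_zero _, ?_, rfl⟩⟩
    rw [norm_zero]
    exact zero_le_one
  have h2 : ∀ z ∈ j1BM F M f, ∀ g, M ≤ g → z g = 0 := by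
    intro z hz g hg
    refine j1_BM_supp F _ _ M ?_ z hz g (Or.inl hg)
    intro m hm g hg
    show (j1tr M f m).e g = 0
    rw [j1tr_lt hm]
    exact ih m hm g hg
  have h3 := j1_dense F (j1BM F M f) h1 M h2
  unfold j1ds
  rw [dif_pos h3]
  exact h3.choose_spec

omit hf in
theorem j1_new_supp (n : ℕ) (hn : 1 ≤ n) (pp : ℕ) (b : ℕ →₀ A) (m : ℂ)
    (hb : ∀ g, (n ≤ g ∨ g = 0) → b g = 0) :
    ∀ g, (n < g ∨ g = 0) → (Finsupp.single n (1 : A) + m • T pp b) g = 0 := by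
  intro g hg
  have h1 : g ≠ n := by omega
  have h2 : b g = 0 := hb g (hg.imp (fun h => by omega) id)
  unfold T
  rw [Finsupp.add_apply, Finsupp.smul_apply, Finsupp.filter_apply, h2, ite_self, smul_zero,
    add_zero, Finsupp.single_apply, if_neg (Ne.symm h1)]

theorem j1_supp : ∀ n, ∀ g, (n < g ∨ g = 0) → (f n).e g = 0 := by
  intro n
  induction n using Nat.strong_induction_on with
  | _ n ih =>
    rcases Nat.eq_zero_or_pos n with h0 | h0
    · intro g _
      rw [h0, j1_zero F en f hf]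
      rfl
    · have hds : ∀ M i, 2 ≤ M → M ≤ n → ∀ g, (n ≤ g ∨ g = 0) → j1ds F M f i g = 0 := by
        intro M i h2 hM g hg
        have h3 := (j1_ds F f M h2 (fun m hm => ih m (by omega))).1 i
        refine j1_BM_supp F _ _ M ?_ _ h3 g (hg.imp (fun h => by omega) id)
        intro m hm g hg
        show (j1tr M f m).e g = 0
        rw [j1tr_lt hm]
        exact ih m (by omega) g hg
      have he : ∀ η, η < n → ∀ g, (n ≤ g ∨ g = 0) → (f η).e g = 0 := by
        intro η h g hg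
        exact ih η h g (hg.imp (fun h => by omega) id)
      intro g hg
      rcases j1_spec F en f hf n h0 with ⟨pp, jj, M, i, _, _, _, h2, hM, h⟩ |
        ⟨ξ, M, i, _, hξ, _, _, h2, hM, h⟩ | ⟨pp, jj, η, _, _, _, _, hη, _, _, h⟩ |
        ⟨ξ, η, _, hξ, _, _, _, hη, _, h⟩ | h
      · rw [h]
        exact j1_new_supp n h0 pp _ _ (hds M i h2 hM) g hg
      · rw [h]
        show ((f ξ).e + Finsupp.single n (1 : A) +
          ((mm (f ξ).j : ℂ)⁻¹) • T ξ (j1ds F M f i)) g = 0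
        rw [add_assoc, Finsupp.add_apply, he ξ hξ g (hg.imp (fun h => by omega) id), zero_add]
        exact j1_new_supp n h0 ξ _ _ (hds M i h2 hM) g hg
      · rw [h]
        exact j1_new_supp n h0 pp _ _ (he η hη) g hg
      · rw [h]
        show ((f ξ).e + Finsupp.single n (1 : A) +
          ((mm (f ξ).j : ℂ)⁻¹) • T ξ (f η).e) g = 0
        rw [add_assoc, Finsupp.add_apply, he ξ hξ g (hg.imp (fun h => by omega) id), zero_add]
        exact j1_new_supp n h0 ξ _ _ (he η hη) g hg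
      · rw [h]
        exact j1_new_supp n h0 0 _ _ (fun g _ => rfl) g hg

theorem j1_BM_eq (M : ℕ) :
    j1BM F M f = BM F (fun g => (f g).p) (fun m => (f m).e) M := by
  unfold j1BM
  refine (j1_BM_congr F _ _ _ _ M (fun m _ g hg => j1_supp F en f hf m g hg) ?_ ?_).symm
  · intro g hg
    show _ = (j1tr M f g).p
    rw [j1tr_lt hg]
  · intro g hg
    show _ = (j1tr M f g).e
    rw [j1tr_lt hg]

theorem j1_ds_mem {M n : ℕ} (h2 : 2 ≤ M) (hM : M ≤ n) (i : ℕ) :
    j1ds F M f i ∈ BM F (fun g => (f g).p) (fun m => (f m).e) n := by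
  have h := (j1_ds F f M h2 (fun m _ => j1_supp F en f hf m)).1 i
  rw [j1_BM_eq F en f hf] at h
  exact j1_BM_mono F _ _ hM h

theorem j1_e_mem [NormOneClass A] {η n : ℕ} (h2 : 1 ≤ η) (hM : η < n) :
    (f η).e ∈ BM F (fun g => (f g).p) (fun m => (f m).e) n := by
  refine subset_convexHull ℝ _ ⟨η, 0, 1, h2, hM, map_one _, norm_one.le, ?_⟩
  ext g
  unfold act T
  rw [Finsupp.onFinset_apply, Finsupp.filter_apply, map_one, one_mul]
  by_cases hg : 0 < g
  · rw [if_pos hg]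
  · rw [if_neg hg]
    exact j1_supp F en f hf η g (Or.inr (by omega))

theorem j1_dense_seq {M : ℕ} (z : ℕ →₀ A)
    (hz : z ∈ BM F (fun g => (f g).p) (fun m => (f m).e) M) (ε : ℝ) (hε : 0 < ε) :
    2 ≤ M ∧ ∃ i, l1 (j1ds F M f i - z) ≤ ε := by
  have h2 : 2 ≤ M := by
    by_contra hc
    have h3 : (BM F (fun g => (f g).p) (fun m => (f m).e) M).Nonempty := ⟨z, hz⟩
    unfold BM at h3
    rw [convexHull_nonempty_iff] at h3
    obtain ⟨_, n, s, c, h4, h5, _⟩ := h3
    omega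
  refine ⟨h2, ?_⟩
  rw [← j1_BM_eq F en f hf] at hz
  exact (j1_ds F f M h2 (fun m _ => j1_supp F en f hf m)).2 z hz ε hε

end build

theorem j1_nn_pos (j : ℕ) : 1 ≤ nn j := by
  induction j with
  | zero => unfold nn; norm_num
  | succ j ih =>
    unfold nn
    have h1 : 0 < mm (j + 1) := by unfold mm; positivity
    have : 0 < mm (j + 1) ^ 2 * (nn j + 3) ^ (2 * tt (j + 1) + 3) := by positivity
    exact this

theorem j1_enum : ∃ en : ℕ → ℕ × ℕ × ℕ × ℕ × ℕ, ∀ D N, ∃ n, N < n ∧ en n = D := by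
  refine ⟨fun n => Denumerable.ofNat _ (Nat.unpair n).1, fun D N => ?_⟩
  refine ⟨Nat.pair (Encodable.encode D) (N + 1), ?_, ?_⟩
  · have := Nat.right_le_pair (Encodable.encode D) (N + 1)
    omega
  · dsimp only
    rw [Nat.unpair_pair]
    exact Denumerable.ofNat_encode D

theorem j1_BA (F : Filt A) (p : ℕ → ℕ) (e : ℕ → (ℕ →₀ A)) (z : ℕ →₀ A) (hz : z ∈ BA F p e) :
    ∃ M, z ∈ BM F p e M := by
  have h1 : BA F p e ⊆ {z | ∃ M, z ∈ BM F p e M} := by
    refine convexHull_min ?_ ?_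
    · rintro z ⟨n, s, c, h1, h2⟩
      exact ⟨n + 1, subset_convexHull ℝ _ ⟨n, s, c, h1, Nat.lt_succ_self n, h2⟩⟩
    · rintro x ⟨M, hx⟩ y ⟨M', hy⟩ a b ha hb hab
      refine ⟨max M M', convex_convexHull ℝ _ (j1_BM_mono F p e (le_max_left _ _) hx)
        (j1_BM_mono F p e (le_max_right _ _) hy) ha hb hab⟩
  exact h1 hz

/-- **The tree exists.** -/
theorem exists_sys [NormOneClass A] (F : Filt A) : ∃ S : Sys A, S.F = F := by
  classical
  obtain ⟨en, hen⟩ := j1_enum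
  obtain ⟨f, hf⟩ := j1_rec (J1Nd.zero : J1Nd A) (j1step F en)
  replace hf : ∀ n, f n = j1step F en n (j1tr n f) := hf
  have spec := j1_spec F en f hf
  refine ⟨{
    F := F
    p := fun n => (f n).p
    root := fun n => (f n).root
    j := fun n => (f n).j
    age := fun n => (f n).age
    eta := fun n => (f n).eta
    e := fun n => (f n).e
    b := fun n => (f n).b
    e_zero := by
      show (f 0).e = 0
      rw [j1_zero F en f hf]; rfl
    p_lt := ?_
    j_le := ?_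
    age_le := ?_
    age_root := ?_
    age_succ := ?_
    p_pos := ?_
    j_succ := ?_
    e_root := ?_
    e_succ := ?_
    b_mem := ?_
    b_odd := ?_
    eta_lt := ?_
    eta_root := ?_
    eta_succ := ?_
    rich_root := ?_
    rich_succ := ?_
    rich_odd_root := ?_
    rich_odd_succ := ?_ }, rfl⟩
  · intro n hn
    rcases spec n hn with ⟨pp, jj, M, i, h1, _, _, _, _, h⟩ |
      ⟨ξ, M, i, _, h1, _, _, _, _, h⟩ | ⟨pp, jj, η, h1, _, _, _, _, _, _, h⟩ |
      ⟨ξ, η, _, h1, _, _, _, _, _, h⟩ | h <;> simp only [h, j1root, j1succ] <;> omega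
  · intro n hn
    have key : ∀ ξ, ξ < n → (f ξ).j ≤ ξ := by
      intro ξ _
      induction ξ using Nat.strong_induction_on with
      | _ ξ ih =>
        rcases Nat.eq_zero_or_pos ξ with h0 | h0
        · rw [h0, j1_zero F en f hf]; exact le_rfl
        rcases spec ξ h0 with ⟨pp, jj, M, i, _, h1, _, _, _, h⟩ |
          ⟨ξ', M, i, _, h1, _, _, _, _, h⟩ | ⟨pp, jj, η, _, h1, _, _, _, _, _, h⟩ |
          ⟨ξ', η, _, h1, _, _, _, _, _, h⟩ | h <;> simp only [h, j1root, j1succ]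
        · exact h1
        · exact (ih ξ' h1 (by omega)).trans h1.le
        · exact h1
        · exact (ih ξ' h1 (by omega)).trans h1.le
        · omega
    rcases spec n hn with ⟨pp, jj, M, i, _, h1, _, _, _, h⟩ |
      ⟨ξ, M, i, _, h1, _, _, _, _, h⟩ | ⟨pp, jj, η, _, h1, _, _, _, _, _, h⟩ |
      ⟨ξ, η, _, h1, _, _, _, _, _, h⟩ | h <;> simp only [h, j1root, j1succ]
    · exact h1
    · exact (key ξ h1).trans h1.le
    · exact h1
    · exact (key ξ h1).trans h1.le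
    · omega
  · intro n hn
    rcases spec n hn with ⟨pp, jj, M, i, _, _, _, _, _, h⟩ |
      ⟨ξ, M, i, _, _, _, h1, _, _, h⟩ | ⟨pp, jj, η, _, _, _, _, _, _, _, h⟩ |
      ⟨ξ, η, _, _, _, h1, _, _, _, h⟩ | h <;> simp only [h, j1root, j1succ]
    · exact j1_nn_pos _
    · exact h1
    · exact j1_nn_pos _
    · exact h1
    · exact j1_nn_pos _
  · intro n hn hr
    rcases spec n hn with ⟨pp, jj, M, i, _, _, _, _, _, h⟩ |
      ⟨ξ, M, i, _, _, _, _, _, _, h⟩ | ⟨pp, jj, η, _, _, _, _, _, _, _, h⟩ |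
      ⟨ξ, η, _, _, _, _, _, _, _, h⟩ | h <;> simp only [h, j1root, j1succ] at hr ⊢
  · intro n hn hr
    rcases spec n hn with ⟨pp, jj, M, i, _, _, _, _, _, h⟩ |
      ⟨ξ, M, i, _, _, _, _, _, _, h⟩ | ⟨pp, jj, η, _, _, _, _, _, _, _, h⟩ |
      ⟨ξ, η, _, _, _, _, _, _, _, h⟩ | h <;> simp only [h, j1root, j1succ] at hr ⊢
    all_goals exact absurd trivial hr
  · intro n hn hr
    rcases spec n hn with ⟨pp, jj, M, i, _, _, _, _, _, h⟩ |
      ⟨ξ, M, i, h1, _, _, _, _, _, h⟩ | ⟨pp, jj, η, _, _, _, _, _, _, _, h⟩ |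
      ⟨ξ, η, h1, _, _, _, _, _, _, h⟩ | h <;> simp only [h, j1root, j1succ] at hr ⊢
    · exact absurd trivial hr
    · exact h1
    · exact absurd trivial hr
    · exact h1
    · exact absurd trivial hr
  · intro n hn hr
    rcases spec n hn with ⟨pp, jj, M, i, _, _, _, _, _, h⟩ |
      ⟨ξ, M, i, h1, _, _, _, _, _, h⟩ | ⟨pp, jj, η, _, _, _, _, _, _, _, h⟩ |
      ⟨ξ, η, h1, _, _, _, _, _, _, h⟩ | h <;> simp only [h, j1root, j1succ] at hr ⊢
    all_goals exact absurd trivial hr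
  · intro n hn hr
    rcases spec n hn with ⟨pp, jj, M, i, _, _, _, _, _, h⟩ |
      ⟨ξ, M, i, h1, _, _, _, _, _, h⟩ | ⟨pp, jj, η, _, _, _, _, _, _, _, h⟩ |
      ⟨ξ, η, h1, _, _, _, _, _, _, h⟩ | h <;> simp only [h, j1root, j1succ] at hr ⊢
  · intro n hn hr
    rcases spec n hn with ⟨pp, jj, M, i, _, _, _, _, _, h⟩ |
      ⟨ξ, M, i, h1, _, _, _, _, _, h⟩ | ⟨pp, jj, η, _, _, _, _, _, _, _, h⟩ |
      ⟨ξ, η, h1, _, _, _, _, _, _, h⟩ | h <;> simp only [h, j1root, j1succ] at hr ⊢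
    all_goals exact absurd trivial hr
  · intro n hn
    rcases spec n hn with ⟨pp, jj, M, i, _, _, _, h2, hM, h⟩ |
      ⟨ξ, M, i, _, _, _, _, h2, hM, h⟩ | ⟨pp, jj, η, _, _, _, hp, hη, _, _, h⟩ |
      ⟨ξ, η, _, _, _, _, hp, hη, _, h⟩ | h
    · left
      have hb : (f n).b = j1ds F M f i := by rw [h]; rfl
      rw [hb]
      exact j1_ds_mem F en f hf h2 hM i
    · left
      have hb : (f n).b = j1ds F M f i := by rw [h]; rfl
      rw [hb]
      exact j1_ds_mem F en f hf h2 hM i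
    · left
      have hb : (f n).b = (f η).e := by rw [h]; rfl
      rw [hb]
      exact j1_e_mem F en f hf (by omega) hη
    · left
      have hb : (f n).b = (f η).e := by rw [h]; rfl
      rw [hb]
      exact j1_e_mem F en f hf (by omega) hη
    · right
      show (f n).b = 0
      rw [h]; rfl
  · intro n hn hodd
    rcases spec n hn with ⟨pp, jj, M, i, _, _, he, _, _, h⟩ |
      ⟨ξ, M, i, _, _, he, _, _, _, h⟩ | ⟨pp, jj, η, _, _, _, _, _, _, _, h⟩ |
      ⟨ξ, η, _, _, _, _, _, _, _, h⟩ | h <;> simp only [h, j1root, j1succ] at hodd ⊢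
    · exact absurd he hodd
    · exact absurd he hodd
    · exact absurd (by decide) hodd
  · intro n hn hodd
    rcases spec n hn with ⟨pp, jj, M, i, _, _, he, _, _, h⟩ |
      ⟨ξ, M, i, _, _, he, _, _, _, h⟩ | ⟨pp, jj, η, _, _, _, hp, hη, _, _, h⟩ |
      ⟨ξ, η, _, _, _, _, hp, hη, _, h⟩ | h <;> simp only [h, j1root, j1succ] at hodd ⊢
    · exact absurd he hodd
    · exact absurd he hodd
    · exact ⟨hp, hη⟩
    · exact ⟨hp, hη⟩
    · exact absurd (by decide) hodd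
  · intro n hn hodd hr
    rcases spec n hn with ⟨pp, jj, M, i, _, _, he, _, _, h⟩ |
      ⟨ξ, M, i, _, _, he, _, _, _, h⟩ | ⟨pp, jj, η, _, _, _, _, _, h4, h5, h⟩ |
      ⟨ξ, η, _, _, _, _, _, _, _, h⟩ | h <;> simp only [h, j1root, j1succ] at hodd hr ⊢
    · exact absurd he hodd
    · exact ⟨h4, h5⟩
    · exact absurd (by decide) hodd
  · intro n hn hodd hr
    rcases spec n hn with ⟨pp, jj, M, i, _, _, he, _, _, h⟩ |
      ⟨ξ, M, i, _, _, he, _, _, _, h⟩ | ⟨pp, jj, η, _, _, _, _, _, h4, h5, h⟩ |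
      ⟨ξ, η, _, _, _, _, _, _, h4, h⟩ | h <;> simp only [h, j1root, j1succ] at hodd hr ⊢
    · exact absurd trivial hr
    · exact absurd he hodd
    · exact absurd trivial hr
    · exact h4
    · exact absurd trivial hr
  · intro N pp jj z ε hjj hz hε
    obtain ⟨M, hz⟩ := j1_BA F _ _ z hz
    obtain ⟨h2, i, hi⟩ := j1_dense_seq F en f hf z hz ε hε
    obtain ⟨n, hn, hD⟩ := hen (0, pp, jj, M, i) (N + pp + jj + M + 1)
    have h := hf n
    unfold j1step at h
    rw [if_neg (by omega), hD, if_pos ⟨rfl, by dsimp only; omega, by dsimp only; omega, hjj, h2,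
      by dsimp only; omega⟩] at h
    dsimp only at h
    rw [j1ds_tr F f (by omega)] at h
    refine ⟨n, by omega, ?_⟩
    simp only [h, j1root, true_and]
    exact hi
  · intro N ξ z ε h1 hev hage hz hε
    obtain ⟨M, hz⟩ := j1_BA F _ _ z hz
    obtain ⟨h2, i, hi⟩ := j1_dense_seq F en f hf z hz ε hε
    obtain ⟨n, hn, hD⟩ := hen (1, ξ, 0, M, i) (N + ξ + M + 1)
    have h := hf n
    unfold j1step at h
    rw [if_neg (by omega), hD, if_neg (fun h => absurd h.1 (by norm_num)),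
      if_pos ⟨rfl, h1, by dsimp only; omega, by dsimp only; rw [j1tr_lt (by omega)]; exact hev,
      by dsimp only; rw [j1tr_lt (by omega)]; exact hage, h2, by dsimp only; omega⟩] at h
    dsimp only at h
    rw [j1ds_tr F f (by omega), j1succ_tr f (by omega)] at h
    refine ⟨n, by omega, ?_⟩
    simp only [h, j1succ, true_and, not_false_eq_true]
    exact hi
  · intro N pp jj η hjj hp h4 h5
    obtain ⟨n, hn, hD⟩ := hen (2, pp, jj, η, 0) (N + pp + jj + η + 1)
    have h := hf n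
    unfold j1step at h
    rw [if_neg (by omega), hD, if_neg (fun h => absurd h.1 (by norm_num)),
      if_neg (fun h => absurd h.1 (by norm_num)),
      if_pos ⟨rfl, by dsimp only; omega, by dsimp only; omega, hjj, hp, by dsimp only; omega,
      by dsimp only; rw [j1tr_lt (by omega)]; exact h4,
      by dsimp only; rw [j1tr_lt (by omega)]; exact h5⟩] at h
    dsimp only at h
    refine ⟨n, by omega, ?_⟩
    simp only [h, j1root, true_and]
  · intro N ξ η h1 hev hage hη h4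
    obtain ⟨n, hn, hD⟩ := hen (3, ξ, 0, η, 0) (N + ξ + η + 1)
    have h := hf n
    unfold j1step at h
    rw [if_neg (by omega), hD, if_neg (fun h => absurd h.1 (by norm_num)),
      if_neg (fun h => absurd h.1 (by norm_num)), if_neg (fun h => absurd h.1 (by norm_num)),
      if_pos ⟨rfl, h1, by dsimp only; omega, by dsimp only; rw [j1tr_lt (by omega)]; exact hev,
      by dsimp only; rw [j1tr_lt (by omega)]; exact hage, hη, by dsimp only; omega,
      by dsimp only; rw [j1tr_lt (by omega)]; exact h4⟩] at h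
    dsimp only at h
    rw [j1succ_tr f (by omega)] at h
    refine ⟨n, by omega, ?_⟩
    simp only [h, j1succ, true_and, not_false_eq_true]

end Pool.Agent.CK
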