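import Pool.Agent.Work.MP_02927d_an.Def

open scoped BigOperators

set_option linter.unusedSectionVars false

namespace Pool.Agent.CK

variable {A : Type*} [NormedCommRing A] [NormedAlgebra ℂ A]

/-! ## basic algebra of `T` and `act` -/

@[simp] lemma T_apply (s : ℕ) (z : ℕ →₀ A) (g : ℕ) :
    T s z g = if s < g then z g else 0 := by
  unfold T; rw [Finsupp.filter_apply]

@[simp] lemma act_apply (F : Filt A) (p : ℕ → ℕ) (c : A) (z : ℕ →₀ A) (g : ℕ) :
    act F p c z g = F.P (p g) c * z g := rfl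

lemma T_T (s t : ℕ) (z : ℕ →₀ A) : T s (T t z) = T (max s t) z := by
  ext g; by_cases h1 : s < g <;> by_cases h2 : t < g <;> simp [h1, h2]

lemma T_act (F : Filt A) (p : ℕ → ℕ) (s : ℕ) (c : A) (z : ℕ →₀ A) :
    T s (act F p c z) = act F p c (T s z) := by
  ext g; by_cases h1 : s < g <;> simp [h1]

lemma act_act (F : Filt A) (p : ℕ → ℕ) (c c' : A) (z : ℕ →₀ A) :
    act F p c (act F p c' z) = act F p (c * c') z := by
  ext g; simp [mul_assoc]

@[simp] lemma act_one (F : Filt A) (p : ℕ → ℕ) (z : ℕ →₀ A) : act F p 1 z = z := by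
  ext g; simp

@[simp] lemma zero_act (F : Filt A) (p : ℕ → ℕ) (z : ℕ →₀ A) : act F p 0 z = 0 := by
  ext g; simp

@[simp] lemma act_zero (F : Filt A) (p : ℕ → ℕ) (c : A) : act F p c (0 : ℕ →₀ A) = 0 := by
  ext g; simp

@[simp] lemma T_zero (s : ℕ) : T s (0 : ℕ →₀ A) = 0 := by
  ext g; simp

lemma act_add (F : Filt A) (p : ℕ → ℕ) (c : A) (z w : ℕ →₀ A) :
    act F p c (z + w) = act F p c z + act F p c w := by
  ext g; simp [mul_add]

lemma act_sub (F : Filt A) (p : ℕ → ℕ) (c : A) (z w : ℕ →₀ A) :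
    act F p c (z - w) = act F p c z - act F p c w := by
  ext g; simp [mul_sub]

lemma act_smul (F : Filt A) (p : ℕ → ℕ) (c : A) (r : ℂ) (z : ℕ →₀ A) :
    act F p c (r • z) = r • act F p c z := by
  ext g; simp

lemma smul_act (F : Filt A) (p : ℕ → ℕ) (c : A) (r : ℂ) (z : ℕ →₀ A) :
    act F p (r • c) z = r • act F p c z := by
  ext g; simp

lemma act_rsmul (F : Filt A) (p : ℕ → ℕ) (c : A) (r : ℝ) (z : ℕ →₀ A) :
    act F p c (r • z) = r • act F p c z := by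
  ext g; simp

lemma add_act (F : Filt A) (p : ℕ → ℕ) (c c' : A) (z : ℕ →₀ A) :
    act F p (c + c') z = act F p c z + act F p c' z := by
  ext g; simp [add_mul]

lemma sub_act (F : Filt A) (p : ℕ → ℕ) (c c' : A) (z : ℕ →₀ A) :
    act F p (c - c') z = act F p c z - act F p c' z := by
  ext g; simp [sub_mul]

lemma T_add (s : ℕ) (z w : ℕ →₀ A) : T s (z + w) = T s z + T s w := by
  ext g; by_cases h1 : s < g <;> simp [h1]

lemma T_sub (s : ℕ) (z w : ℕ →₀ A) : T s (z - w) = T s z - T s w := by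
  ext g; by_cases h1 : s < g <;> simp [h1]

lemma T_smul (s : ℕ) (r : ℂ) (z : ℕ →₀ A) : T s (r • z) = r • T s z := by
  ext g; by_cases h1 : s < g <;> simp [h1]

lemma T_rsmul (s : ℕ) (r : ℝ) (z : ℕ →₀ A) : T s (r • z) = r • T s z := by
  ext g; by_cases h1 : s < g <;> simp [h1]

lemma act_single (F : Filt A) (p : ℕ → ℕ) (c : A) (n : ℕ) (a : A) :
    act F p c (Finsupp.single n a) = Finsupp.single n (F.P (p n) c * a) := by
  ext g
  rcases eq_or_ne n g with h | h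
  · subst h; simp
  · simp [h]

lemma T_single (s n : ℕ) (a : A) :
    T s (Finsupp.single n a) = if s < n then Finsupp.single n a else 0 := by
  ext g
  rcases eq_or_ne n g with h | h
  · subst h
    by_cases h1 : s < n <;> simp [h1]
  · by_cases h1 : s < n <;> simp [h, h1]

/-! ## the filtration -/

lemma Filt.P_of_le (F : Filt A) {m n : ℕ} (h : m ≤ n) {a : A} (ha : F.P m a = a) :
    F.P n a = a := by
  have h1 := F.comp n m a
  rw [ha, min_eq_right h, ha] at h1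
  exact h1

lemma Filt.P_P (F : Filt A) (n : ℕ) (a : A) : F.P n (F.P n a) = F.P n a := by
  rw [F.comp, min_self]

lemma Filt.P_mul (F : Filt A) {n : ℕ} {a b : A} (ha : F.P n a = a) (hb : F.P n b = b) :
    F.P n (a * b) = a * b := by
  rw [map_mul, ha, hb]

lemma Filt.P_smul (F : Filt A) {n : ℕ} {a : A} (r : ℂ) (ha : F.P n a = a) :
    F.P n (r • a) = r • a := by
  rw [map_smul, ha]

lemma Filt.P_rsmul (F : Filt A) (n : ℕ) (a : A) (r : ℝ) :
    F.P n (r • a) = r • F.P n a := by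
  have h1 : ∀ b : A, r • b = (r : ℂ) • b := fun b => (Complex.coe_smul r b).symm
  rw [h1, map_smul, h1]

/-! ## parameters -/

lemma mm_ge (j : ℕ) : 4 ≤ mm j := by
  unfold mm
  have h1 : 1 ≤ 2 ^ j := Nat.one_le_two_pow
  have h : 2 ≤ 2 ^ (j + 1) := by rw [pow_succ]; omega
  calc 4 = 2 ^ 2 := rfl
    _ ≤ _ := Nat.pow_le_pow_right (by norm_num) h

lemma mm_pos (j : ℕ) : (0 : ℝ) < mm j := by
  have := mm_ge j
  exact_mod_cast (by omega : 0 < mm j)

lemma mm_inv_nonneg (j : ℕ) : (0 : ℝ) ≤ ((mm j : ℝ))⁻¹ := inv_nonneg.mpr (mm_pos j).le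

lemma mm_inv_le (j : ℕ) : ((mm j : ℝ))⁻¹ ≤ 4⁻¹ := by
  apply inv_anti₀ (by norm_num)
  exact_mod_cast mm_ge j

lemma norm_mm_inv (j : ℕ) : ‖((mm j : ℂ))⁻¹‖ = ((mm j : ℝ))⁻¹ := by
  rw [norm_inv]; simp

/-! ## bounded admissible vectors -/

/-- The properties shared by all vectors of `B`. -/
structure Good (F : Filt A) (p : ℕ → ℕ) (z : ℕ →₀ A) : Prop where
  norm_le : ∀ g, ‖z g‖ ≤ 1
  mem : ∀ g, F.P (p g) (z g) = z g

lemma Good.zero (F : Filt A) (p : ℕ → ℕ) : Good F p (0 : ℕ →₀ A) :=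
  ⟨fun g => by simp, fun g => by simp⟩

lemma Good.act_T {F : Filt A} {p : ℕ → ℕ} {z : ℕ →₀ A} (h : Good F p z) {c : A}
    (hc : ‖c‖ ≤ 1) (s : ℕ) : Good F p (act F p c (T s z)) := by
  constructor
  · intro g
    simp only [act_apply, T_apply]
    split_ifs
    · calc ‖F.P (p g) c * z g‖ ≤ ‖F.P (p g) c‖ * ‖z g‖ := norm_mul_le _ _
        _ ≤ 1 * 1 := by
          gcongr
          · exact (F.norm_le _ _).trans hc
          · exact h.norm_le g
        _ = 1 := one_mul 1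
    · simp
  · intro g
    simp only [act_apply, T_apply]
    split_ifs
    · exact F.P_mul (F.P_P _ _) (h.mem g)
    · simp

lemma convex_good (F : Filt A) (p : ℕ → ℕ) : Convex ℝ {z : ℕ →₀ A | Good F p z} := by
  intro z hz w hw a b ha hb hab
  constructor
  · intro g
    simp only [Finsupp.coe_add, Finsupp.coe_smul, Pi.add_apply, Pi.smul_apply]
    calc ‖a • z g + b • w g‖ ≤ ‖a • z g‖ + ‖b • w g‖ := norm_add_le _ _
      _ = a * ‖z g‖ + b * ‖w g‖ := by
        rw [norm_smul, norm_smul, Real.norm_of_nonneg ha, Real.norm_of_nonneg hb]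
      _ ≤ a * 1 + b * 1 := by
        gcongr
        · exact hz.norm_le g
        · exact hw.norm_le g
      _ = 1 := by rw [mul_one, mul_one, hab]
  · intro g
    simp only [Finsupp.coe_add, Finsupp.coe_smul, Pi.add_apply, Pi.smul_apply]
    rw [map_add, F.P_rsmul, F.P_rsmul, hz.mem, hw.mem]

lemma convex_vanish (M : ℕ) : Convex ℝ {z : ℕ →₀ A | ∀ g, M ≤ g → z g = 0} := by
  intro z hz w hw a b _ _ _ g hg
  simp [hz g hg, hw g hg]

lemma convex_vanish_low (M : ℕ) : Convex ℝ {z : ℕ →₀ A | ∀ g, g ≤ M → z g = 0} := by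
  intro z hz w hw a b _ _ _ g hg
  simp [hz g hg, hw g hg]

/-- the basic facts for raw functions (used by the construction of a system) -/
structure PreOK (F : Filt A) (p : ℕ → ℕ) (root : ℕ → Prop) (j : ℕ → ℕ)
    (e b : ℕ → (ℕ →₀ A)) : Prop where
  e_zero : e 0 = 0
  p_lt : ∀ n, 1 ≤ n → p n < n
  e_root : ∀ n, 1 ≤ n → root n →
    e n = Finsupp.single n 1 + ((mm (j n) : ℂ)⁻¹) • T (p n) (b n)
  e_succ : ∀ n, 1 ≤ n → ¬ root n →
    e n = e (p n) + Finsupp.single n 1 + ((mm (j n) : ℂ)⁻¹) • T (p n) (b n)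
  b_mem : ∀ n, 1 ≤ n → b n ∈ BM F p e n ∨ b n = 0

/-- (3a): all in one, for raw functions. -/
lemma PreOK.aux [NormOneClass A] {F : Filt A} {p : ℕ → ℕ} {root : ℕ → Prop} {j : ℕ → ℕ}
    {e b : ℕ → (ℕ →₀ A)} (S : PreOK F p root j e b) :
    ∀ n, Good F p (e n) ∧ (∀ g, n < g → e n g = 0) ∧
    (1 ≤ n → e n n = 1) ∧ e n 0 = 0 ∧
    (1 ≤ n → Good F p (b n) ∧ (∀ g, n ≤ g → b n g = 0) ∧ b n 0 = 0) := by
  intro n
  induction n using Nat.strong_induction_on with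
  | _ n ih =>
    rcases Nat.eq_zero_or_pos n with h0 | h0
    · subst h0
      rw [S.e_zero]
      exact ⟨Good.zero _ _, fun g _ => rfl, fun h => by omega, rfl, fun h => by omega⟩
    · have hp := S.p_lt n h0
      have hb : Good F p (b n) ∧ (∀ g, n ≤ g → b n g = 0) ∧ b n 0 = 0 := by
        rcases S.b_mem n h0 with hb | hb
        · have h1 : GM F p e n ⊆ {z : ℕ →₀ A | Good F p z} := by
            rintro z ⟨i, s, c, hi1, hi2, _, hc2, rfl⟩
            exact (ih i hi2).1.act_T hc2 s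
          have h2 : GM F p e n ⊆ {z : ℕ →₀ A | ∀ g, n ≤ g → z g = 0} := by
            rintro z ⟨i, s, c, hi1, hi2, _, hc2, rfl⟩ g hg
            simp [(ih i hi2).2.1 g (by omega)]
          have h3 : GM F p e n ⊆ {z : ℕ →₀ A | ∀ g, g ≤ 0 → z g = 0} := by
            rintro z ⟨i, s, c, hi1, hi2, _, hc2, rfl⟩ g hg
            obtain rfl : g = 0 := by omega
            simp
          exact ⟨convexHull_min h1 (convex_good _ _) hb, convexHull_min h2 (convex_vanish n) hb,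
            convexHull_min h3 (convex_vanish_low 0) hb 0 le_rfl⟩
        · rw [hb]
          exact ⟨Good.zero _ _, fun g _ => rfl, rfl⟩
      obtain ⟨hbg, hb0, hbz⟩ := hb
      have hm := mm_inv_le (j n)
      have hm0 := mm_inv_nonneg (j n)
      -- the common part
      obtain ⟨u, hu, hug, huv⟩ : ∃ u : ℕ →₀ A, e n = u + Finsupp.single n 1
          + ((mm (j n) : ℂ)⁻¹) • T (p n) (b n) ∧ Good F p u ∧
          (∀ g, p n < g ∨ g = 0 → u g = 0) := by
        by_cases hr : root n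
        · exact ⟨0, by rw [S.e_root n h0 hr, zero_add], Good.zero _ _, fun g _ => rfl⟩
        · refine ⟨e (p n), S.e_succ n h0 hr, (ih _ hp).1, ?_⟩
          rintro g (hg | hg)
          · exact (ih _ hp).2.1 g hg
          · rw [hg]; exact (ih _ hp).2.2.2.1
      have hval : ∀ g, e n g = if g ≤ p n then u g else if g = n then 1
          else ((mm (j n) : ℂ)⁻¹) • b n g := by
        intro g
        rw [hu]
        simp only [Finsupp.coe_add, Finsupp.coe_smul, Pi.add_apply, Pi.smul_apply, T_apply]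
        by_cases h1 : g ≤ p n
        · rw [if_pos h1, if_neg (by omega), smul_zero, add_zero,
            Finsupp.single_eq_of_ne (by omega), add_zero]
        · rw [if_neg h1, if_pos (by omega), huv g (Or.inl (by omega)), zero_add]
          by_cases h2 : g = n
          · subst h2
            rw [if_pos rfl, hb0 g le_rfl]; simp
          · rw [if_neg h2, Finsupp.single_eq_of_ne h2, zero_add]
      refine ⟨⟨?_, ?_⟩, ?_, ?_, ?_, fun _ => ⟨hbg, hb0, hbz⟩⟩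
      · intro g
        rw [hval g]
        split_ifs
        · exact hug.norm_le g
        · simp
        · rw [norm_smul, norm_mm_inv]
          have := hbg.norm_le g
          nlinarith [norm_nonneg (b n g)]
      · intro g
        rw [hval g]
        split_ifs
        · exact hug.mem g
        · simp
        · rw [map_smul, hbg.mem g]
      · intro g hg
        rw [hval g, if_neg (by omega), if_neg (by omega), hb0 g hg.le, smul_zero]
      · intro _
        rw [hval n, if_neg (by omega), if_pos rfl]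
      · rw [hval 0, if_pos (by omega)]
        exact huv 0 (Or.inr rfl)

namespace Sys

variable (S : Sys A)

/-- `c * z` in the system. -/
noncomputable abbrev a (c : A) (z : ℕ →₀ A) : ℕ →₀ A := act S.F S.p c z

lemma preOK : PreOK S.F S.p S.root S.j S.e S.b :=
  ⟨S.e_zero, S.p_lt, S.e_root, S.e_succ, S.b_mem⟩

variable [NormOneClass A]

/-- (3a): all in one. -/
lemma e_aux : ∀ n, Good S.F S.p (S.e n) ∧ (∀ g, n < g → S.e n g = 0) ∧
    (1 ≤ n → S.e n n = 1) ∧ S.e n 0 = 0 ∧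
    (1 ≤ n → Good S.F S.p (S.b n) ∧ (∀ g, n ≤ g → S.b n g = 0) ∧ S.b n 0 = 0) :=
  S.preOK.aux

lemma e_good (n : ℕ) : Good S.F S.p (S.e n) := (S.e_aux n).1

lemma e_gt {n g : ℕ} (h : n < g) : S.e n g = 0 := (S.e_aux n).2.1 g h

lemma e_self {n : ℕ} (h : 1 ≤ n) : S.e n n = 1 := (S.e_aux n).2.2.1 h

lemma e_at_zero (n : ℕ) : S.e n 0 = 0 := (S.e_aux n).2.2.2.1

lemma b_good {n : ℕ} (h : 1 ≤ n) : Good S.F S.p (S.b n) := ((S.e_aux n).2.2.2.2 h).1

lemma b_ge {n g : ℕ} (h : 1 ≤ n) (hg : n ≤ g) : S.b n g = 0 :=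
  ((S.e_aux n).2.2.2.2 h).2.1 g hg

lemma b_at_zero {n : ℕ} (h : 1 ≤ n) : S.b n 0 = 0 := ((S.e_aux n).2.2.2.2 h).2.2

lemma T_zero_e (n : ℕ) : T 0 (S.e n) = S.e n := by
  ext g
  rcases Nat.eq_zero_or_pos g with h | h
  · subst h; simp [S.e_at_zero]
  · simp [h]

lemma e_norm_le (n g : ℕ) : ‖S.e n g‖ ≤ 1 := (S.e_good n).norm_le g

/-! ## (3b): `G` and `B` are closed under the filtered action -/

lemma act_T_mem_Gw {i t : ℕ} {c : A} (ht : S.F.P t c = c) (hc : ‖c‖ ≤ 1) {z : ℕ →₀ A}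
    (hz : z ∈ S.Gw i) : act S.F S.p c (T t z) ∈ S.Gw i := by
  obtain ⟨n, s, c', hn, hj, hs, hc', rfl⟩ := hz
  refine ⟨n, max t s, c * c', hn, hj, ?_, ?_, ?_⟩
  · exact S.F.P_mul (S.F.P_of_le (le_max_left _ _) ht) (S.F.P_of_le (le_max_right _ _) hs)
  · calc ‖c * c'‖ ≤ ‖c‖ * ‖c'‖ := norm_mul_le _ _
      _ ≤ 1 * 1 := by gcongr
      _ = 1 := one_mul 1
  · rw [T_act, act_act, T_T]

lemma act_T_mem_G {t : ℕ} {c : A} (ht : S.F.P t c = c) (hc : ‖c‖ ≤ 1) {z : ℕ →₀ A}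
    (hz : z ∈ S.G) : act S.F S.p c (T t z) ∈ S.G := by
  obtain ⟨n, s, c', hn, hs, hc', rfl⟩ := hz
  obtain ⟨n', s', c'', h1, _, h2, h3, h4⟩ :=
    S.act_T_mem_Gw ht hc (i := S.j n) ⟨n, s, c', hn, rfl, hs, hc', rfl⟩
  exact ⟨n', s', c'', h1, h2, h3, h4⟩

lemma Gw_subset_G (i : ℕ) : S.Gw i ⊆ S.G := by
  rintro z ⟨n, s, c, hn, _, hs, hc, rfl⟩
  exact ⟨n, s, c, hn, hs, hc, rfl⟩

lemma mem_G_iff (z : ℕ →₀ A) : z ∈ S.G ↔ ∃ i, z ∈ S.Gw i := by
  constructor
  · rintro ⟨n, s, c, hn, hs, hc, rfl⟩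
    exact ⟨S.j n, n, s, c, hn, rfl, hs, hc, rfl⟩
  · rintro ⟨i, hi⟩
    exact S.Gw_subset_G i hi

lemma G_subset_B : S.G ⊆ S.B := subset_convexHull ℝ _

lemma convex_B : Convex ℝ S.B := convex_convexHull ℝ _

/-- the map `c * T_t` as a real linear map -/
noncomputable def actTL (F : Filt A) (p : ℕ → ℕ) (c : A) (t : ℕ) : (ℕ →₀ A) →ₗ[ℝ] (ℕ →₀ A) where
  toFun z := act F p c (T t z)
  map_add' z w := by rw [T_add, act_add]
  map_smul' r z := by simp only [RingHom.id_apply]; rw [T_rsmul, act_rsmul]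

lemma act_T_mem_B {t : ℕ} {c : A} (ht : S.F.P t c = c) (hc : ‖c‖ ≤ 1) {z : ℕ →₀ A}
    (hz : z ∈ S.B) : act S.F S.p c (T t z) ∈ S.B := by
  have h1 : Convex ℝ {z : ℕ →₀ A | actTL S.F S.p c t z ∈ S.B} :=
    S.convex_B.linear_preimage (actTL S.F S.p c t)
  have h2 : S.G ⊆ {z : ℕ →₀ A | actTL S.F S.p c t z ∈ S.B} := by
    intro w hw
    exact S.G_subset_B (S.act_T_mem_G ht hc hw)
  exact convexHull_min h2 h1 hz

lemma T_mem_G {z : ℕ →₀ A} (t : ℕ) (hz : z ∈ S.G) : T t z ∈ S.G := by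
  have := S.act_T_mem_G (t := t) (c := 1) (map_one _) (by simp) hz
  rwa [act_one] at this

lemma T_mem_Gw {i : ℕ} {z : ℕ →₀ A} (t : ℕ) (hz : z ∈ S.Gw i) : T t z ∈ S.Gw i := by
  have := S.act_T_mem_Gw (t := t) (c := 1) (map_one _) (by simp) hz
  rwa [act_one] at this

lemma T_mem_B {z : ℕ →₀ A} (t : ℕ) (hz : z ∈ S.B) : T t z ∈ S.B := by
  have := S.act_T_mem_B (t := t) (c := 1) (map_one _) (by simp) hz
  rwa [act_one] at this

lemma e_mem_Gw {n : ℕ} (h : 1 ≤ n) : S.e n ∈ S.Gw (S.j n) :=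
  ⟨n, 0, 1, h, rfl, map_one _, by simp, by rw [act_one, S.T_zero_e]⟩

lemma e_mem_G {n : ℕ} (h : 1 ≤ n) : S.e n ∈ S.G := S.Gw_subset_G _ (S.e_mem_Gw h)

lemma zero_mem_G : (0 : ℕ →₀ A) ∈ S.G :=
  ⟨1, 0, 0, le_rfl, map_zero _, by simp, by rw [zero_act]⟩

lemma zero_mem_B : (0 : ℕ →₀ A) ∈ S.B := S.G_subset_B S.zero_mem_G

lemma good_of_mem_B {z : ℕ →₀ A} (hz : z ∈ S.B) : Good S.F S.p z := by
  have h1 : S.G ⊆ {z : ℕ →₀ A | Good S.F S.p z} := by
    rintro z ⟨n, s, c, _, _, hc, rfl⟩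
    exact (S.e_good n).act_T hc s
  exact convexHull_min h1 (convex_good _ _) hz

lemma at_zero_of_mem_B {z : ℕ →₀ A} (hz : z ∈ S.B) : z 0 = 0 := by
  have h1 : S.G ⊆ {z : ℕ →₀ A | ∀ g, g ≤ 0 → z g = 0} := by
    rintro z ⟨n, s, c, _, _, hc, rfl⟩ g hg
    obtain rfl : g = 0 := by omega
    simp
  exact convexHull_min h1 (convex_vanish_low 0) hz 0 le_rfl

lemma T_zero_of_mem_B {z : ℕ →₀ A} (hz : z ∈ S.B) : T 0 z = z := by
  ext g
  rcases Nat.eq_zero_or_pos g with h | h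
  · subst h; simp [S.at_zero_of_mem_B hz]
  · simp [h]

/-- `B` is balanced (complex scalars). -/
lemma smul_mem_B {r : ℂ} (hr : ‖r‖ ≤ 1) {z : ℕ →₀ A} (hz : z ∈ S.B) : r • z ∈ S.B := by
  have h := S.act_T_mem_B (t := 0) (c := r • (1 : A)) (by rw [map_smul, map_one])
    (by rw [norm_smul, norm_one, mul_one]; exact hr) hz
  rwa [smul_act, act_one, S.T_zero_of_mem_B hz] at h

lemma smul_mem_Gw {i : ℕ} {r : ℂ} (hr : ‖r‖ ≤ 1) {z : ℕ →₀ A} (hz : z ∈ S.Gw i) :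
    r • z ∈ S.Gw i := by
  have h := S.act_T_mem_Gw (t := 0) (c := r • (1 : A)) (by rw [map_smul, map_one])
    (by rw [norm_smul, norm_one, mul_one]; exact hr) hz
  rwa [smul_act, act_one, S.T_zero_of_mem_B (S.G_subset_B (S.Gw_subset_G i hz))] at h

lemma smul_mem_G {r : ℂ} (hr : ‖r‖ ≤ 1) {z : ℕ →₀ A} (hz : z ∈ S.G) :
    r • z ∈ S.G := by
  obtain ⟨i, hi⟩ := (S.mem_G_iff z).1 hz
  exact S.Gw_subset_G i (S.smul_mem_Gw hr hi)

lemma neg_mem_B {z : ℕ →₀ A} (hz : z ∈ S.B) : -z ∈ S.B := by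
  have := S.smul_mem_B (r := -1) (by simp) hz
  simpa using this

/-- absolute convexity of `B`, two terms -/
lemma add_mem_B {r s : ℂ} (h : ‖r‖ + ‖s‖ ≤ 1) {z w : ℕ →₀ A} (hz : z ∈ S.B) (hw : w ∈ S.B) :
    r • z + s • w ∈ S.B := by
  rcases eq_or_ne (‖r‖ + ‖s‖) 0 with h0 | h0
  · have h1 : ‖r‖ = 0 := by nlinarith [norm_nonneg r, norm_nonneg s]
    have h2 : ‖s‖ = 0 := by nlinarith [norm_nonneg r, norm_nonneg s]
    rw [norm_eq_zero.1 h1, norm_eq_zero.1 h2]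
    simpa using S.zero_mem_B
  · set q := ‖r‖ + ‖s‖ with hq
    have hq0 : 0 < q := lt_of_le_of_ne (by positivity) (Ne.symm h0)
    -- unimodular parts
    have key : ∀ u : ℂ, ∀ y ∈ S.B, ∃ y' ∈ S.B, u • y = (‖u‖ : ℝ) • y' := by
      intro u y hy
      rcases eq_or_ne u 0 with hu | hu
      · subst hu; exact ⟨y, hy, by simp⟩
      · refine ⟨(u / (‖u‖ : ℂ)) • y, S.smul_mem_B ?_ hy, ?_⟩
        · rw [norm_div]; simp [div_self (norm_ne_zero_iff.2 hu)]
        · rw [← Complex.coe_smul, smul_smul, mul_div_cancel₀]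
          exact_mod_cast norm_ne_zero_iff.2 hu
    obtain ⟨z', hz', e1⟩ := key r z hz
    obtain ⟨w', hw', e2⟩ := key s w hw
    rw [e1, e2]
    have h3 : (‖r‖ / q) • z' + (‖s‖ / q) • w' ∈ S.B :=
      S.convex_B hz' hw' (by positivity) (by positivity) (by rw [← add_div, ← hq, div_self h0])
    have h4 : ((q : ℝ) : ℂ) • ((‖r‖ / q) • z' + (‖s‖ / q) • w') ∈ S.B :=
      S.smul_mem_B (by rw [Complex.norm_real, Real.norm_of_nonneg hq0.le]; exact h) h3
    convert h4 using 1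
    rw [Complex.coe_smul, smul_add, smul_smul, smul_smul, mul_div_cancel₀ _ h0,
      mul_div_cancel₀ _ h0]

/-! ## (3c) -/

lemma BM_subset_B (n : ℕ) : BM S.F S.p S.e n ⊆ S.B := by
  apply convexHull_mono
  rintro z ⟨i, s, c, hi, _, hs, hc, rfl⟩
  exact ⟨i, s, c, hi, hs, hc, rfl⟩

lemma b_mem_B {n : ℕ} (h : 1 ≤ n) : S.b n ∈ S.B := by
  rcases S.b_mem n h with hb | hb
  · exact S.BM_subset_B n hb
  · rw [hb]; exact S.zero_mem_B

/-! ## (3d) -/

/-- `f_n = T_{p(n)} e_n`. -/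
lemma T_p_e {n : ℕ} (h : 1 ≤ n) :
    T (S.p n) (S.e n) = Finsupp.single n 1 + ((mm (S.j n) : ℂ)⁻¹) • T (S.p n) (S.b n) := by
  have hp := S.p_lt n h
  by_cases hr : S.root n
  · rw [S.e_root n h hr, T_add, T_single, if_pos hp, T_smul, T_T, max_self]
  · rw [S.e_succ n h hr, T_add, T_add, T_single, if_pos hp, T_smul, T_T, max_self]
    have : T (S.p n) (S.e (S.p n)) = 0 := by
      ext g
      rw [T_apply]
      split_ifs with hg
      · exact S.e_gt hg
      · rfl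
    rw [this, zero_add]

lemma e_eq {n : ℕ} (h : 1 ≤ n) (hr : ¬ S.root n) :
    S.e n = S.e (S.p n) + T (S.p n) (S.e n) := by
  rw [S.T_p_e h]
  conv_lhs => rw [S.e_succ n h hr]
  rw [add_assoc]

lemma e_eq_root {n : ℕ} (h : 1 ≤ n) (hr : S.root n) : S.e n = T (S.p n) (S.e n) := by
  rw [S.T_p_e h]
  conv_lhs => rw [S.e_root n h hr]

/-- (3d) for the unit ball -/
lemma single_mem_B {n : ℕ} (h : 1 ≤ n) {c : A} (hc : S.F.P (S.p n) c = c) (hc1 : ‖c‖ ≤ 1) :
    ((2 : ℂ)⁻¹) • (Finsupp.single n c : ℕ →₀ A) ∈ S.B := by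
  have h1 : (Finsupp.single n c : ℕ →₀ A) = act S.F S.p c (T (S.p n) (S.e n))
      - ((mm (S.j n) : ℂ)⁻¹) • act S.F S.p c (T (S.p n) (S.b n)) := by
    rw [S.T_p_e h, act_add, act_single, hc, mul_one, act_smul, add_sub_cancel_right]
  rw [h1, smul_sub, smul_smul, sub_eq_add_neg, ← neg_smul]
  apply S.add_mem_B
  · rw [norm_neg, norm_mul, norm_mm_inv, norm_inv, Complex.norm_ofNat]
    have := mm_inv_le (S.j n)
    nlinarith
  · exact S.act_T_mem_B hc hc1 (S.G_subset_B (S.e_mem_G h))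
  · exact S.act_T_mem_B hc hc1 (S.b_mem_B h)

/-- (3d): `c * d_n ∈ 2 |c| B`. -/
lemma single_mem {n : ℕ} (h : 1 ≤ n) {c : A} (hc : S.F.P (S.p n) c = c) :
    ∃ z ∈ S.B, (Finsupp.single n c : ℕ →₀ A) = ((2 * ‖c‖ : ℝ) : ℂ) • z := by
  rcases eq_or_ne c 0 with h0 | h0
  · subst h0
    exact ⟨0, S.zero_mem_B, by simp⟩
  · have hn : ‖c‖ ≠ 0 := norm_ne_zero_iff.2 h0
    have hn' : (‖c‖ : ℂ) ≠ 0 := by exact_mod_cast hn
    refine ⟨_, S.single_mem_B h (c := ((‖c‖ : ℂ)⁻¹) • c) ?_ ?_, ?_⟩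
    · rw [map_smul, hc]
    · rw [norm_smul, norm_inv]; simp [inv_mul_cancel₀ hn]
    · rw [smul_smul, Finsupp.smul_single, smul_smul]
      congr 1
      push_cast
      rw [show (2 : ℂ) * ‖c‖ * 2⁻¹ * (‖c‖ : ℂ)⁻¹ = 1 by field_simp, one_smul]

/-! ## chains, (3f) and the lower support -/

/-- `g` belongs to the chain of `n`. -/
inductive Ch (S : Sys A) : ℕ → ℕ → Prop
  | refl {n : ℕ} (h : 1 ≤ n) : Ch S n n
  | step {g n : ℕ} (h : 1 ≤ n) (hr : ¬ S.root n) (hg : Ch S g (S.p n)) : Ch S g n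

variable {S}

lemma Ch.pos {g n : ℕ} (h : Ch S g n) : 1 ≤ g := by
  induction h with
  | refl h => exact h
  | step _ _ _ ih => exact ih

lemma Ch.pos' {g n : ℕ} (h : Ch S g n) : 1 ≤ n := by
  cases h with
  | refl h => exact h
  | step h _ _ => exact h

lemma Ch.le {g n : ℕ} (h : Ch S g n) : g ≤ n := by
  induction h with
  | refl h => exact le_rfl
  | step h _ _ ih => exact ih.trans (S.p_lt _ h).le

lemma Ch.j_eq {g n : ℕ} (h : Ch S g n) : S.j g = S.j n := by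
  induction h with
  | refl h => rfl
  | step h hr _ ih => rw [ih, S.j_succ _ h hr]

lemma Ch.trans {f g n : ℕ} (h : Ch S f g) (h' : Ch S g n) : Ch S f n := by
  induction h' with
  | refl _ => exact h
  | step h1 h2 _ ih => exact Ch.step h1 h2 ih

lemma Ch.age_le {g n : ℕ} (h : Ch S g n) : S.age g ≤ S.age n := by
  induction h with
  | refl h => exact le_rfl
  | step h hr _ ih => rw [S.age_succ _ h hr]; omega

variable (S)

/-- every node has a root in its chain -/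
lemma exists_root {n : ℕ} (h : 1 ≤ n) : ∃ r, Ch S r n ∧ S.root r := by
  induction n using Nat.strong_induction_on with
  | _ n ih =>
    by_cases hr : S.root n
    · exact ⟨n, Ch.refl h, hr⟩
    · obtain ⟨r, h1, h2⟩ := ih _ (S.p_lt n h) (S.p_pos n h hr)
      exact ⟨r, Ch.step h hr h1, h2⟩

lemma e_low {r n : ℕ} (h : Ch S r n) (hr : S.root r) {g : ℕ} (hg : g ≤ S.p r) :
    S.e n g = 0 := by
  induction h with
  | refl h =>
    rw [S.e_eq_root h hr, T_apply, if_neg (by omega)]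
  | step h hr' hc ih =>
    rename_i n
    have h1 := hc.le
    have h2 := S.p_lt _ hc.pos
    rw [S.e_eq h hr', Finsupp.add_apply, ih, T_apply, if_neg (by omega), add_zero]

lemma e_chain {g n : ℕ} (h : Ch S g n) : S.e n g = 1 := by
  induction h with
  | refl h => exact S.e_self h
  | step h hr hc ih =>
    have h1 := hc.le
    rw [S.e_eq h hr, Finsupp.add_apply, ih, T_apply, if_neg (by omega), add_zero]

/-- (3f) -/
lemma e_off_chain {g n : ℕ} (h : ¬ Ch S g n) : ‖S.e n g‖ ≤ ((mm (S.j n) : ℝ))⁻¹ := by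
  induction n using Nat.strong_induction_on with
  | _ n ih =>
    rcases Nat.eq_zero_or_pos n with h0 | h0
    · subst h0
      rw [S.e_zero]; simpa using mm_inv_nonneg (S.j 0)
    · have hgn : g ≠ n := fun h1 => h (by rw [h1]; exact Ch.refl h0)
      have hf : ‖T (S.p n) (S.e n) g‖ ≤ ((mm (S.j n) : ℝ))⁻¹ := by
        rw [S.T_p_e h0, Finsupp.add_apply, Finsupp.single_eq_of_ne hgn, zero_add,
          Finsupp.smul_apply, norm_smul, norm_mm_inv, T_apply]
        have hm := mm_inv_nonneg (S.j n)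
        split_ifs
        · have := (S.b_good h0).norm_le g
          nlinarith [norm_nonneg (S.b n g)]
        · simpa using hm
      by_cases hr : S.root n
      · rw [S.e_eq_root h0 hr]; exact hf
      · by_cases hg : S.p n < g
        · rw [S.e_eq h0 hr, Finsupp.add_apply, S.e_gt hg, zero_add]; exact hf
        · rw [S.e_eq h0 hr, Finsupp.add_apply, T_apply, if_neg hg, add_zero, S.j_succ n h0 hr]
          exact ih _ (S.p_lt n h0) fun hc => h (Ch.step h0 hr hc)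

lemma e_off_weight {g n : ℕ} (h : S.j g ≠ S.j n) : ‖S.e n g‖ ≤ ((mm (S.j n) : ℝ))⁻¹ :=
  S.e_off_chain fun hc => h hc.j_eq

/-- (3f) for vectors of `G`: at a node of another weight the value is small. -/
lemma Gw_off_weight {i g : ℕ} {z : ℕ →₀ A} (hz : z ∈ S.Gw i) (h : S.j g ≠ i) :
    ‖z g‖ ≤ ((mm i : ℝ))⁻¹ := by
  obtain ⟨n, s, c, hn, rfl, hs, hc, rfl⟩ := hz
  rw [act_apply, T_apply]
  have hm := mm_inv_nonneg (S.j n)
  split_ifs
  · have h1 := S.e_off_weight h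
    have h2 := (S.F.norm_le (S.p g) c).trans hc
    calc ‖S.F.P (S.p g) c * S.e n g‖ ≤ ‖S.F.P (S.p g) c‖ * ‖S.e n g‖ := norm_mul_le _ _
      _ ≤ 1 * ((mm (S.j n) : ℝ))⁻¹ := by gcongr
      _ = _ := one_mul _
  · simpa using hm

end Sys

/-! ## `B` is the increasing union of the `BM n` -/

lemma GM_mono (F : Filt A) (p : ℕ → ℕ) (e : ℕ → (ℕ →₀ A)) {M N : ℕ} (h : M ≤ N) :
    GM F p e M ⊆ GM F p e N := by
  rintro z ⟨n, s, c, h1, h2, h3, h4, rfl⟩
  exact ⟨n, s, c, h1, by omega, h3, h4, rfl⟩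

lemma BM_mono (F : Filt A) (p : ℕ → ℕ) (e : ℕ → (ℕ →₀ A)) {M N : ℕ} (h : M ≤ N) :
    BM F p e M ⊆ BM F p e N := convexHull_mono (GM_mono F p e h)

/-- `BM` only depends on the vectors below `M`. -/
lemma BM_congr (F : Filt A) (p : ℕ → ℕ) {e e' : ℕ → (ℕ →₀ A)} {M : ℕ}
    (h : ∀ i, 1 ≤ i → i < M → e i = e' i) : BM F p e M = BM F p e' M := by
  unfold BM
  congr 1
  ext z
  constructor
  · rintro ⟨n, s, c, h1, h2, h3, h4, rfl⟩
    exact ⟨n, s, c, h1, h2, h3, h4, by rw [h n h1 h2]⟩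
  · rintro ⟨n, s, c, h1, h2, h3, h4, rfl⟩
    exact ⟨n, s, c, h1, h2, h3, h4, by rw [h n h1 h2]⟩

/-- elements of `BM M` vanish from `M` on, raw version -/
lemma BM_vanish (F : Filt A) (p : ℕ → ℕ) {e : ℕ → (ℕ →₀ A)} {M : ℕ}
    (h : ∀ i, 1 ≤ i → i < M → ∀ g, i < g → e i g = 0) {z : ℕ →₀ A} (hz : z ∈ BM F p e M)
    {g : ℕ} (hg : M ≤ g) : z g = 0 := by
  have h2 : GM F p e M ⊆ {z : ℕ →₀ A | ∀ g, M ≤ g → z g = 0} := by
    rintro z ⟨i, s, c, hi1, hi2, _, hc2, rfl⟩ g hg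
    simp [h i hi1 hi2 g (by omega)]
  exact convexHull_min h2 (convex_vanish M) hz g hg

/-- `BM` only depends on the cuts and the vectors below `M`. -/
lemma BM_congr2 (F : Filt A) {p p' : ℕ → ℕ} {e e' : ℕ → (ℕ →₀ A)} {M : ℕ}
    (hp : ∀ i, i < M → p i = p' i) (h : ∀ i, 1 ≤ i → i < M → e i = e' i)
    (hs : ∀ i, 1 ≤ i → i < M → ∀ g, i < g → e i g = 0) : BM F p e M = BM F p' e' M := by
  have key : ∀ i, 1 ≤ i → i < M → ∀ s c, act F p c (T s (e i)) = act F p' c (T s (e' i)) := by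
    intro i h1 h2 s c
    ext g
    rw [act_apply, act_apply, ← h i h1 h2]
    by_cases hg : g < M
    · rw [hp g hg]
    · rw [T_apply, hs i h1 h2 g (by omega)]; simp
  unfold BM
  congr 1
  ext z
  constructor
  · rintro ⟨n, s, c, h1, h2, h3, h4, rfl⟩
    exact ⟨n, s, c, h1, h2, h3, h4, key n h1 h2 s c⟩
  · rintro ⟨n, s, c, h1, h2, h3, h4, rfl⟩
    exact ⟨n, s, c, h1, h2, h3, h4, (key n h1 h2 s c).symm⟩

lemma exists_BM_raw (F : Filt A) (p : ℕ → ℕ) (e : ℕ → (ℕ →₀ A)) {z : ℕ →₀ A}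
    (hz : z ∈ BA F p e) : ∃ M, z ∈ BM F p e M := by
  have h1 : Convex ℝ {z : ℕ →₀ A | ∃ M, z ∈ BM F p e M} := by
    rintro z ⟨M, hM⟩ w ⟨N, hN⟩ a b ha hb hab
    exact ⟨max M N, convex_convexHull ℝ _ (BM_mono _ _ _ (le_max_left _ _) hM)
      (BM_mono _ _ _ (le_max_right _ _) hN) ha hb hab⟩
  have h2 : GA F p e ⊆ {z : ℕ →₀ A | ∃ M, z ∈ BM F p e M} := by
    rintro z ⟨n, s, c, h1, h3, h4, rfl⟩
    exact ⟨n + 1, subset_convexHull ℝ _ ⟨n, s, c, h1, by omega, h3, h4, rfl⟩⟩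
  exact convexHull_min h2 h1 hz

lemma Sys.exists_BM (S : Sys A) {z : ℕ →₀ A} (hz : z ∈ S.B) : ∃ M, z ∈ BM S.F S.p S.e M :=
  exists_BM_raw _ _ _ hz

/-- the elements of `BM M` live below `M` -/
lemma Sys.BM_ge [NormOneClass A] (S : Sys A) {M : ℕ} {z : ℕ →₀ A} (hz : z ∈ BM S.F S.p S.e M)
    {g : ℕ} (hg : M ≤ g) : z g = 0 := by
  have h2 : GM S.F S.p S.e M ⊆ {z : ℕ →₀ A | ∀ g, M ≤ g → z g = 0} := by
    rintro z ⟨i, s, c, hi1, hi2, _, hc2, rfl⟩ g hg
    simp [S.e_gt (show i < g by omega)]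
  exact convexHull_min h2 (convex_vanish M) hz g hg

/-! ## the `l^1` norm -/

lemma l1_eq_sum (z : ℕ →₀ A) {t : Finset ℕ} (h : z.support ⊆ t) : l1 z = ∑ g ∈ t, ‖z g‖ := by
  unfold l1
  exact Finsupp.sum_of_support_subset _ h _ (by simp)

lemma l1_eq_range (z : ℕ →₀ A) {M : ℕ} (h : ∀ g, M ≤ g → z g = 0) :
    l1 z = ∑ g ∈ Finset.range M, ‖z g‖ := by
  apply l1_eq_sum
  intro g hg
  rw [Finsupp.mem_support_iff] at hg
  rw [Finset.mem_range]
  by_contra hc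
  exact hg (h g (not_lt.mp hc))

lemma l1_nonneg (z : ℕ →₀ A) : 0 ≤ l1 z := by
  unfold l1 Finsupp.sum; positivity

@[simp] lemma l1_zero : l1 (0 : ℕ →₀ A) = 0 := by simp [l1]

lemma l1_single (n : ℕ) (c : A) : l1 (Finsupp.single n c) = ‖c‖ := by
  unfold l1; rw [Finsupp.sum_single_index]; simp

lemma l1_add_le (z w : ℕ →₀ A) : l1 (z + w) ≤ l1 z + l1 w := by
  classical
  rw [l1_eq_sum (z + w) (Finsupp.support_add.trans (le_refl (z.support ∪ w.support))),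
    l1_eq_sum z (Finset.subset_union_left (s₂ := w.support)),
    l1_eq_sum w (Finset.subset_union_right (s₁ := z.support)), ← Finset.sum_add_distrib]
  exact Finset.sum_le_sum fun g _ => norm_add_le _ _

lemma l1_neg (z : ℕ →₀ A) : l1 (-z) = l1 z := by
  rw [l1_eq_sum (-z) (t := z.support) (by rw [Finsupp.support_neg]), l1_eq_sum z le_rfl]
  simp

lemma l1_sub_le (z w : ℕ →₀ A) : l1 (z - w) ≤ l1 z + l1 w := by
  rw [sub_eq_add_neg]
  exact (l1_add_le _ _).trans (by rw [l1_neg])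

lemma l1_sub_comm (z w : ℕ →₀ A) : l1 (z - w) = l1 (w - z) := by
  rw [← l1_neg, neg_sub]

lemma l1_triangle (x y z : ℕ →₀ A) : l1 (x - z) ≤ l1 (x - y) + l1 (y - z) := by
  have := l1_add_le (x - y) (y - z)
  rwa [sub_add_sub_cancel] at this

lemma l1_smul (r : ℂ) (z : ℕ →₀ A) : l1 (r • z) = ‖r‖ * l1 z := by
  rw [l1_eq_sum (r • z) (t := z.support) Finsupp.support_smul, l1_eq_sum z le_rfl, Finset.mul_sum]
  exact Finset.sum_congr rfl fun g _ => by simp [norm_smul]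

lemma norm_apply_le_l1 (z : ℕ →₀ A) (g : ℕ) : ‖z g‖ ≤ l1 z := by
  classical
  by_cases h : g ∈ z.support
  · rw [l1_eq_sum z le_rfl]
    exact Finset.single_le_sum (f := fun g => ‖z g‖) (fun i _ => norm_nonneg _) h
  · rw [Finsupp.notMem_support_iff.1 h, norm_zero]
    exact l1_nonneg z

lemma l1_T_le (s : ℕ) (z : ℕ →₀ A) : l1 (T s z) ≤ l1 z := by
  classical
  rw [l1_eq_sum (T s z) (t := z.support), l1_eq_sum z le_rfl]
  · apply Finset.sum_le_sum
    intro g _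
    rw [T_apply]
    split_ifs
    · exact le_rfl
    · simp
  · intro g hg
    rw [Finsupp.mem_support_iff, T_apply] at hg
    rw [Finsupp.mem_support_iff]
    intro h0
    apply hg
    rw [h0]; simp

lemma l1_act_le (F : Filt A) (p : ℕ → ℕ) (c : A) (z : ℕ →₀ A) :
    l1 (act F p c z) ≤ ‖c‖ * l1 z := by
  classical
  rw [l1_eq_sum (act F p c z) (t := z.support), l1_eq_sum z le_rfl, Finset.mul_sum]
  · apply Finset.sum_le_sum
    intro g _
    rw [act_apply]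
    exact (norm_mul_le _ _).trans (by gcongr; exact F.norm_le _ _)
  · intro g hg
    rw [Finsupp.mem_support_iff, act_apply] at hg
    rw [Finsupp.mem_support_iff]
    intro h0
    exact hg (by rw [h0, mul_zero])

end Pool.Agent.CK
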