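import Pool.Agent.Work.MP_02927d_an.Vec

open scoped BigOperators
open TopologicalSpace

set_option linter.unusedSectionVars false

namespace Pool.Agent.CK

variable {A : Type*} [NormedCommRing A] [NormedAlgebra ℂ A]

/-- (3e): a nonempty set of admissible vectors living below `M` has a dense sequence for the
`l^1` distance. -/
theorem exists_dense_seq (F : Filt A) (p : ℕ → ℕ) (M : ℕ) (Z : Set (ℕ →₀ A)) (hne : Z.Nonempty)
    (hZ : ∀ z ∈ Z, (∀ g, F.P (p g) (z g) = z g) ∧ ∀ g, M ≤ g → z g = 0) :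
    ∃ u : ℕ → (ℕ →₀ A), (∀ k, u k ∈ Z) ∧
      ∀ z ∈ Z, ∀ ε > 0, ∃ k, ∑ g ∈ Finset.range M, ‖(u k - z) g‖ < ε := by
  classical
  -- the finite dimensional space
  let W : Submodule ℂ (Fin M → A) :=
    Submodule.pi Set.univ fun g => LinearMap.range (F.P (p g)).toLinearMap
  have hW : FiniteDimensional ℂ W := by
    haveI : ∀ g : Fin M, FiniteDimensional ℂ (LinearMap.range (F.P (p g)).toLinearMap) :=
      fun g => F.fin _
    let f : W →ₗ[ℂ] (∀ g : Fin M, LinearMap.range (F.P (p g)).toLinearMap) :=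
      { toFun := fun w g => ⟨w.1 g, (Submodule.mem_pi.1 w.2) g trivial⟩
        map_add' := fun _ _ => rfl
        map_smul' := fun _ _ => rfl }
    apply Module.Finite.of_injective f
    intro w w' h
    apply Subtype.ext
    funext g
    exact congrArg Subtype.val (congrFun h g)
  have hsepW : IsSeparable (W : Set (Fin M → A)) := by
    haveI : ProperSpace W := FiniteDimensional.proper ℂ W
    haveI : SeparableSpace W := inferInstance
    exact IsSeparable.of_subtype _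
  -- restriction
  let r : (ℕ →₀ A) → (Fin M → A) := fun z g => z g
  have hr : r '' Z ⊆ W := by
    rintro _ ⟨z, hz, rfl⟩
    show r z ∈ W
    rw [Submodule.mem_pi]
    intro g _
    exact ⟨z g, (hZ z hz).1 g⟩
  obtain ⟨t, ht1, ht2, ht3⟩ := (hsepW.mono hr).exists_countable_dense_subset
  have htne : t.Nonempty := by
    by_contra h
    rw [Set.not_nonempty_iff_eq_empty] at h
    rw [h, closure_empty] at ht3
    obtain ⟨z, hz⟩ := hne
    exact ht3 ⟨z, hz, rfl⟩
  obtain ⟨v, hv⟩ := ht2.exists_eq_range htne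
  have hv' : ∀ k, ∃ z ∈ Z, r z = v k := by
    intro k
    have : v k ∈ t := by rw [hv]; exact ⟨k, rfl⟩
    obtain ⟨z, hz, h⟩ := ht1 this
    exact ⟨z, hz, h⟩
  choose u hu hu2 using hv'
  refine ⟨u, hu, ?_⟩
  intro z hz ε hε
  have hmem : r z ∈ closure t := ht3 ⟨z, hz, rfl⟩
  rw [hv, Metric.mem_closure_range_iff] at hmem
  obtain ⟨k, hk⟩ := hmem (ε / (M + 1)) (by positivity)
  refine ⟨k, ?_⟩
  have h1 : ∀ g ∈ Finset.range M, ‖(u k - z) g‖ ≤ ε / (M + 1) := by
    intro g hg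
    rw [Finset.mem_range] at hg
    have h2 : dist (r z ⟨g, hg⟩) (v k ⟨g, hg⟩) ≤ dist (r z) (v k) :=
      dist_le_pi_dist _ _ _
    rw [← hu2 k] at h2 hk
    rw [dist_comm, dist_eq_norm] at h2
    exact h2.trans hk.le
  calc ∑ g ∈ Finset.range M, ‖(u k - z) g‖ ≤ ∑ g ∈ Finset.range M, ε / (M + 1) :=
        Finset.sum_le_sum h1
    _ = M * (ε / (M + 1)) := by rw [Finset.sum_const, Finset.card_range, nsmul_eq_mul]
    _ < ε := by
      rw [← mul_div_assoc, div_lt_iff₀ (by positivity)]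
      nlinarith

/-- (3e) in terms of `l1`. -/
theorem exists_dense_seq_l1 (F : Filt A) (p : ℕ → ℕ) (M : ℕ) (Z : Set (ℕ →₀ A))
    (hne : Z.Nonempty)
    (hZ : ∀ z ∈ Z, (∀ g, F.P (p g) (z g) = z g) ∧ ∀ g, M ≤ g → z g = 0) :
    ∃ u : ℕ → (ℕ →₀ A), (∀ k, u k ∈ Z) ∧ ∀ z ∈ Z, ∀ ε > 0, ∃ k, l1 (u k - z) < ε := by
  obtain ⟨u, hu, h⟩ := exists_dense_seq F p M Z hne hZ
  refine ⟨u, hu, fun z hz ε hε => ?_⟩
  obtain ⟨k, hk⟩ := h z hz ε hε
  refine ⟨k, ?_⟩
  rwa [l1_eq_range (M := M)]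
  intro g hg
  rw [Finsupp.sub_apply, (hZ _ (hu k)).2 g hg, (hZ z hz).2 g hg, sub_zero]

end Pool.Agent.CK
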